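import Mathlib
import Pool.Agent.Lib.PntAP.Main
import Pool.Agent.Lib.MP_1fb68e_nt.LS.AS
import Pool.Agent.Lib.MP_1fb68e_nt.LS.SLLN

section
/-!
MP_1fb68e_nt, two local shuffles: characters with a large sum over an interval.
-/
set_option autoImplicit false

namespace MP1fb.L2

open Finset
open scoped Pointwise

/-- growth or a subgroup -/
lemma chain {G : Type*} [CommGroup G] [DecidableEq G] (B : ℕ → Finset G) (h1 : ∀ i, 1 ∈ B i)
    (hinv : ∀ i, ∀ x ∈ B i, x⁻¹ ∈ B i) (hmul : ∀ i, ∀ x ∈ B i, ∀ y ∈ B i, x * y ∈ B (i + 1)) :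
    ∀ I : ℕ, ((3 / 2 : ℚ) ^ I * (B 0).card ≤ (B I).card) ∨
      ∃ K : Subgroup G, (∀ x ∈ B 0, x ∈ K) ∧ ∀ x ∈ K, x ∈ B I := by
  have hmono1 : ∀ i, ∀ x ∈ B i, x ∈ B (i + 1) := by
    intro i x hx
    have := hmul i x hx 1 (h1 i)
    rwa [mul_one] at this
  have hmono : ∀ i, ∀ x ∈ B 0, x ∈ B i := by
    intro i
    induction i with
    | zero => exact fun x hx => hx
    | succ i ih => exact fun x hx => hmono1 i x (ih x hx)
  intro I
  induction I with
  | zero => left; simp
  | succ I ih =>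
    rcases ih with ih | ⟨K, hK1, hK2⟩
    · by_cases hsmall : ((B I * B I).card : ℚ) < (3 / 2 : ℚ) * (B I).card
      · right
        refine ⟨invMulSubgroup (B I) hsmall, ?_, ?_⟩
        · intro x hx
          change x ∈ (((B I)⁻¹ : Finset G) : Set G) * ((B I : Finset G) : Set G)
          rw [Set.mem_mul]
          refine ⟨1, ?_, x, by exact_mod_cast hmono I x hx, one_mul x⟩
          rw [Finset.mem_coe, Finset.mem_inv']
          simpa using h1 I
        · intro x hx
          change x ∈ (((B I)⁻¹ : Finset G) : Set G) * ((B I : Finset G) : Set G) at hx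
          rw [Set.mem_mul] at hx
          obtain ⟨y, hy, z, hz, rfl⟩ := hx
          rw [Finset.mem_coe, Finset.mem_inv'] at hy
          rw [Finset.mem_coe] at hz
          have hy2 := hinv I _ hy
          rw [inv_inv] at hy2
          exact hmul I y hy2 z hz
      · left
        push Not at hsmall
        have hsub : B I * B I ⊆ B (I + 1) := by
          intro x hx
          rw [Finset.mem_mul] at hx
          obtain ⟨y, hy, z, hz, rfl⟩ := hx
          exact hmul I y hy z hz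
        have hc : ((B I * B I).card : ℚ) ≤ (B (I + 1)).card := by
          exact_mod_cast Finset.card_le_card hsub
        calc (3 / 2 : ℚ) ^ (I + 1) * (B 0).card = 3 / 2 * ((3 / 2 : ℚ) ^ I * (B 0).card) := by
              ring
          _ ≤ 3 / 2 * (B I).card := by gcongr
          _ ≤ _ := hsmall.trans hc
    · right
      exact ⟨K, hK1, fun x hx => hmono1 I x (hK2 x hx)⟩

/-- alignment of unimodular numbers -/
lemma exists_unit {ι : Type*} (S : Finset ι) (z : ι → ℂ) (d : ℝ)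
    (h : (1 - d) * S.card ≤ ‖∑ i ∈ S, z i‖) :
    ∃ u : ℂ, ‖u‖ = 1 ∧ ∑ i ∈ S, (1 - (u * z i).re) ≤ d * S.card := by
  set s := ∑ i ∈ S, z i with hs
  obtain ⟨u, hu1, hu2⟩ : ∃ u : ℂ, ‖u‖ = 1 ∧ (u * s).re = ‖s‖ := by
    by_cases h0 : s = 0
    · exact ⟨1, by simp, by simp [h0]⟩
    · have hn : ‖s‖ ≠ 0 := norm_ne_zero_iff.mpr h0
      refine ⟨(starRingEnd ℂ s) / ((‖s‖ : ℝ) : ℂ), ?_, ?_⟩
      · rw [norm_div, RCLike.norm_conj, Complex.norm_real, norm_norm, div_self hn]
      · have e : (starRingEnd ℂ s) / ((‖s‖ : ℝ) : ℂ) * s = ((‖s‖ : ℝ) : ℂ) := by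
          have hn' : ((‖s‖ : ℝ) : ℂ) ≠ 0 := by exact_mod_cast hn
          rw [div_mul_eq_mul_div, div_eq_iff hn', mul_comm (starRingEnd ℂ s) s, Complex.mul_conj,
            Complex.normSq_eq_norm_sq]
          push_cast
          ring
        rw [e, Complex.ofReal_re]
  refine ⟨u, hu1, ?_⟩
  rw [Finset.sum_sub_distrib, ← Complex.re_sum, ← Finset.mul_sum, ← hs, hu2]
  simp only [sum_const, nsmul_eq_mul, mul_one]
  linarith

lemma of_unit {ι : Type*} (S : Finset ι) (z : ι → ℂ) (d : ℝ) (u : ℂ) (hu : ‖u‖ = 1)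
    (h : ∑ i ∈ S, (1 - (u * z i).re) ≤ d * S.card) : (1 - d) * S.card ≤ ‖∑ i ∈ S, z i‖ := by
  rw [Finset.sum_sub_distrib, ← Complex.re_sum, ← Finset.mul_sum] at h
  simp only [sum_const, nsmul_eq_mul, mul_one] at h
  have h1 := Complex.re_le_norm (u * ∑ i ∈ S, z i)
  rw [norm_mul, hu, one_mul] at h1
  linarith

lemma re_mul_le (z w : ℂ) (hz : ‖z‖ = 1) (hw : ‖w‖ = 1) :
    1 - (z * w).re ≤ 2 * (1 - z.re) + 2 * (1 - w.re) := by
  have h1 : z.re * z.re + z.im * z.im = 1 := by
    have := Complex.normSq_eq_norm_sq z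
    rw [Complex.normSq_apply, hz] at this
    simpa using this
  have h2 : w.re * w.re + w.im * w.im = 1 := by
    have := Complex.normSq_eq_norm_sq w
    rw [Complex.normSq_apply, hw] at this
    simpa using this
  rw [Complex.mul_re]
  have e : (1 - 2 * z.re + (z.re * w.re - z.im * w.im)) ^ 2 +
      (-2 * z.im + (z.re * w.im + z.im * w.re)) ^ 2 =
      1 + 4 * (z.re * z.re + z.im * z.im) + (z.re * z.re + z.im * z.im) *
        (w.re * w.re + w.im * w.im) - 4 * z.re + 2 * (z.re * w.re - z.im * w.im) -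
        4 * w.re * (z.re * z.re + z.im * z.im) := by ring
  rw [h1, h2] at e
  have h3 := sq_nonneg (1 - 2 * z.re + (z.re * w.re - z.im * w.im))
  have h4 := sq_nonneg (-2 * z.im + (z.re * w.im + z.im * w.re))
  nlinarith

/-- products of aligned families -/
lemma large_mul {ι : Type*} (S : Finset ι) (z w : ι → ℂ) (hz : ∀ i ∈ S, ‖z i‖ = 1)
    (hw : ∀ i ∈ S, ‖w i‖ = 1) (d : ℝ) (h1 : (1 - d) * S.card ≤ ‖∑ i ∈ S, z i‖)
    (h2 : (1 - d) * S.card ≤ ‖∑ i ∈ S, w i‖) :
    (1 - 4 * d) * S.card ≤ ‖∑ i ∈ S, z i * w i‖ := by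
  obtain ⟨u, hu, h3⟩ := exists_unit S z d h1
  obtain ⟨v, hv, h4⟩ := exists_unit S w d h2
  apply of_unit S _ (4 * d) (u * v) (by rw [norm_mul, hu, hv, one_mul])
  calc ∑ i ∈ S, (1 - (u * v * (z i * w i)).re)
      ≤ ∑ i ∈ S, (2 * (1 - (u * z i).re) + 2 * (1 - (v * w i).re)) := by
        apply Finset.sum_le_sum
        intro i hi
        have := re_mul_le (u * z i) (v * w i) (by rw [norm_mul, hu, hz i hi, one_mul])
          (by rw [norm_mul, hv, hw i hi, one_mul])
        rwa [show u * z i * (v * w i) = u * v * (z i * w i) by ring] at this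
    _ = 2 * ∑ i ∈ S, (1 - (u * z i).re) + 2 * ∑ i ∈ S, (1 - (v * w i).re) := by
        rw [Finset.sum_add_distrib, ← Finset.mul_sum, ← Finset.mul_sum]
    _ ≤ 4 * d * S.card := by linarith

variable {p : ℕ} [hp : Fact p.Prime]

/-- sum of a character over `a + 1, .., a + ℓ` -/
noncomputable def cs (χ : DirichletCharacter ℂ p) (a ℓ : ℕ) : ℂ :=
  ∑ i ∈ range ℓ, χ ((a + i + 1 : ℕ) : ZMod p)

/-- characters with a large sum over `a + 1, .., a + ℓ` -/
noncomputable def big (p : ℕ) [Fact p.Prime] (a ℓ : ℕ) (d : ℝ) :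
    Finset (DirichletCharacter ℂ p) :=
  univ.filter (fun χ => (1 - d) * ℓ ≤ ‖cs χ a ℓ‖)

lemma mem_big (a ℓ : ℕ) (d : ℝ) (χ : DirichletCharacter ℂ p) :
    χ ∈ big p a ℓ d ↔ (1 - d) * ℓ ≤ ‖cs χ a ℓ‖ := by
  unfold big
  rw [Finset.mem_filter]
  simp

lemma cast_ne (n : ℕ) (h1 : 0 < n) (h2 : n < p) : ((n : ℕ) : ZMod p) ≠ 0 := by
  rw [Ne, ZMod.natCast_eq_zero_iff]
  intro h
  have := Nat.le_of_dvd h1 h
  omega

lemma norm_char (χ : DirichletCharacter ℂ p) (x : ZMod p) (hx : x ≠ 0) : ‖χ x‖ = 1 := by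
  obtain ⟨u, rfl⟩ := isUnit_iff_ne_zero.mpr hx
  exact χ.unit_norm_eq_one u

lemma norm_char_cast (χ : DirichletCharacter ℂ p) (n : ℕ) (h1 : 0 < n) (h2 : n < p) :
    ‖χ (n : ZMod p)‖ = 1 := norm_char χ _ (cast_ne n h1 h2)

lemma big_mul (a ℓ : ℕ) (h : a + ℓ < p) (d : ℝ) (χ ψ : DirichletCharacter ℂ p)
    (h1 : χ ∈ big p a ℓ d) (h2 : ψ ∈ big p a ℓ d) : χ * ψ ∈ big p a ℓ (4 * d) := by
  rw [mem_big] at *
  unfold cs at *
  have := large_mul (range ℓ) (fun i => χ ((a + i + 1 : ℕ) : ZMod p))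
    (fun i => ψ ((a + i + 1 : ℕ) : ZMod p))
    (fun i hi => by
      rw [Finset.mem_range] at hi
      exact norm_char_cast χ _ (by omega) (by omega))
    (fun i hi => by
      rw [Finset.mem_range] at hi
      exact norm_char_cast ψ _ (by omega) (by omega)) d
    (by rw [Finset.card_range]; exact h1) (by rw [Finset.card_range]; exact h2)
  rw [Finset.card_range] at this
  exact this

lemma big_inv (a ℓ : ℕ) (d : ℝ) (χ : DirichletCharacter ℂ p)
    (h1 : χ ∈ big p a ℓ d) : χ⁻¹ ∈ big p a ℓ d := by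
  rw [mem_big] at *
  have e : cs χ⁻¹ a ℓ = (starRingEnd ℂ) (cs χ a ℓ) := by
    unfold cs
    rw [map_sum]
    apply Finset.sum_congr rfl
    intro i _
    rw [← MulChar.star_apply']
    rfl
  rw [e, RCLike.norm_conj]
  exact h1

lemma one_mem_big (a ℓ : ℕ) (h : a + ℓ < p) (d : ℝ) (hd : 0 ≤ d) :
    (1 : DirichletCharacter ℂ p) ∈ big p a ℓ d := by
  rw [mem_big]
  have e : cs (1 : DirichletCharacter ℂ p) a ℓ = ((ℓ : ℝ) : ℂ) := by
    unfold cs
    have : ∀ i ∈ range ℓ, (1 : DirichletCharacter ℂ p) ((a + i + 1 : ℕ) : ZMod p) = 1 := by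
      intro i hi
      rw [Finset.mem_range] at hi
      apply MulChar.one_apply
      exact isUnit_iff_ne_zero.mpr (cast_ne _ (by omega) (by omega))
    rw [Finset.sum_congr rfl this]
    simp
  rw [e, Complex.norm_real, Real.norm_of_nonneg (by positivity)]
  have : (0 : ℝ) ≤ ℓ := by positivity
  nlinarith

lemma big_mono (a ℓ : ℕ) (d d' : ℝ) (hd : d ≤ d') : big p a ℓ d ⊆ big p a ℓ d' := by
  intro χ hχ
  rw [mem_big] at *
  refine le_trans ?_ hχ
  have : (0 : ℝ) ≤ ℓ := by positivity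
  nlinarith

/-- growth or a subgroup, for the characters with a large sum -/
theorem big_chain (a ℓ : ℕ) (h : a + ℓ < p) (d : ℝ) (hd : 0 ≤ d) (I : ℕ) :
    ((3 / 2 : ℝ) ^ I * (big p a ℓ (d / 4 ^ I)).card ≤ (big p a ℓ d).card) ∨
      ∃ K : Subgroup (DirichletCharacter ℂ p), (∀ χ ∈ big p a ℓ (d / 4 ^ I), χ ∈ K) ∧
        ∀ χ ∈ K, χ ∈ big p a ℓ d := by
  classical
  have h1 := chain (fun i => big p a ℓ (d / 4 ^ I * 4 ^ i))
    (fun i => one_mem_big a ℓ h _ (by positivity))
    (fun i χ hχ => big_inv a ℓ _ χ hχ)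
    (fun i χ hχ ψ hψ => by
      have := big_mul a ℓ h _ χ ψ hχ hψ
      rwa [show 4 * (d / 4 ^ I * 4 ^ i) = d / 4 ^ I * 4 ^ (i + 1) by ring] at this) I
  have e0 : d / 4 ^ I * 4 ^ 0 = d / 4 ^ I := by ring
  have eI : d / 4 ^ I * 4 ^ I = d := by field_simp
  simp only [e0, eI] at h1
  rcases h1 with h1 | h1
  · left
    have h2 : (((3 / 2 : ℚ) ^ I * (big p a ℓ (d / 4 ^ I)).card : ℚ) : ℝ) ≤
        (((big p a ℓ d).card : ℚ) : ℝ) := Rat.cast_le.mpr h1
    push_cast at h2
    exact h2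
  · right
    exact h1

end MP1fb.L2
end

section
/-!
MP_1fb68e_nt, two local shuffles: intervals on which a whole group of characters is almost
constant.
-/
set_option autoImplicit false
set_option linter.style.haveILetI false

namespace MP1fb.L2

open Finset

variable {p : ℕ} [hp : Fact p.Prime]

/-- the classes on which the characters of `K` are trivial -/
def ann (K : Subgroup (DirichletCharacter ℂ p)) : Subgroup (ZMod p)ˣ where
  carrier := {u | ∀ χ ∈ K, χ (u : ZMod p) = 1}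
  one_mem' := by intro χ _; simp
  mul_mem' := by
    intro u v hu hv χ hχ
    rw [Units.val_mul, map_mul, hu χ hχ, hv χ hχ, one_mul]
  inv_mem' := by
    intro u hu χ hχ
    have h1 : χ ((u : ZMod p) * ((u⁻¹ : (ZMod p)ˣ) : ZMod p)) = 1 := by
      rw [Units.mul_inv, map_one]
    rw [map_mul, hu χ hχ, one_mul] at h1
    exact h1

lemma mem_ann (K : Subgroup (DirichletCharacter ℂ p)) (u : (ZMod p)ˣ) :
    u ∈ ann K ↔ ∀ χ ∈ K, χ (u : ZMod p) = 1 := Iff.rfl

lemma sum_ann (K : Subgroup (DirichletCharacter ℂ p)) [Fintype K] (u : (ZMod p)ˣ) :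
    ∑ χ : K, (χ : DirichletCharacter ℂ p) (u : ZMod p) =
      @ite ℂ (u ∈ ann K) (Classical.propDecidable _) (Fintype.card K : ℂ) 0 := by
  classical
  by_cases hu : u ∈ ann K
  · rw [if_pos hu]
    rw [Finset.sum_congr rfl (fun (χ : K) _ => hu χ.1 χ.2)]
    simp
  · rw [if_neg hu]
    rw [mem_ann] at hu
    push Not at hu
    obtain ⟨ψ, hψ, hne⟩ := hu
    have h1 : ∑ χ : K, (χ : DirichletCharacter ℂ p) (u : ZMod p) =
        ψ (u : ZMod p) * ∑ χ : K, (χ : DirichletCharacter ℂ p) (u : ZMod p) := by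
      rw [Finset.mul_sum]
      rw [← Equiv.sum_comp (Equiv.mulLeft (⟨ψ, hψ⟩ : K))]
      apply Finset.sum_congr rfl
      intro χ _
      simp
    have h2 : (1 - ψ (u : ZMod p)) * ∑ χ : K, (χ : DirichletCharacter ℂ p) (u : ZMod p) = 0 := by
      rw [sub_mul, one_mul, ← h1, sub_self]
    rcases mul_eq_zero.mp h2 with h3 | h3
    · exact absurd (sub_eq_zero.mp h3).symm hne
    · exact h3

lemma sum_units (χ : DirichletCharacter ℂ p) : ∑ u : (ZMod p)ˣ, χ (u : ZMod p) = ∑ x, χ x := by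
  apply Fintype.sum_of_injective (fun u : (ZMod p)ˣ => (u : ZMod p)) Units.val_injective
  · intro x hx
    apply MulChar.map_nonunit
    rintro ⟨u, rfl⟩
    exact hx ⟨u, rfl⟩
  · intro u
    rfl

lemma card_units_p : Fintype.card (ZMod p)ˣ = p - 1 := by
  rw [ZMod.card_units_eq_totient, Nat.totient_prime hp.out]

lemma card_ann (K : Subgroup (DirichletCharacter ℂ p)) :
    Nat.card (ann K) * Nat.card K = p - 1 := by
  classical
  letI : Fintype K := Fintype.ofFinite K
  letI : Fintype (ann K) := Fintype.ofFinite _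
  have h1 : ∑ u : (ZMod p)ˣ, ∑ χ : K, (χ : DirichletCharacter ℂ p) (u : ZMod p) =
      (Fintype.card (ann K) : ℂ) * Fintype.card K := by
    rw [Finset.sum_congr rfl (fun u _ => sum_ann K u)]
    have : ∀ u : (ZMod p)ˣ, (@ite ℂ (u ∈ ann K) (Classical.propDecidable _)
        (Fintype.card K : ℂ) 0) = if u ∈ ann K then (Fintype.card K : ℂ) else 0 := by
      intro u; congr
    rw [Finset.sum_congr rfl (fun u _ => this u), ← Finset.sum_filter, Finset.sum_const,
      nsmul_eq_mul]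
    congr 2
    rw [Fintype.card_subtype]
  have h2 : ∑ u : (ZMod p)ˣ, ∑ χ : K, (χ : DirichletCharacter ℂ p) (u : ZMod p) =
      ((p - 1 : ℕ) : ℂ) := by
    rw [Finset.sum_comm, Finset.sum_eq_single (1 : K)]
    · have : ∀ u : (ZMod p)ˣ, ((1 : K) : DirichletCharacter ℂ p) (u : ZMod p) = 1 := by
        intro u
        exact MulChar.one_apply_coe u
      rw [Finset.sum_congr rfl (fun u _ => this u)]
      rw [Finset.sum_const, Finset.card_univ, card_units_p]
      simp
    · intro χ _ hχ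
      rw [sum_units]
      apply MulChar.sum_eq_zero_of_ne_one
      intro h
      exact hχ (Subtype.ext h)
    · intro h; exact absurd (Finset.mem_univ _) h
  rw [h1] at h2
  rw [Nat.card_eq_fintype_card, Nat.card_eq_fintype_card]
  exact_mod_cast h2

lemma pow_ann (K : Subgroup (DirichletCharacter ℂ p)) (u : (ZMod p)ˣ) (hu : u ∈ ann K) :
    (u : ZMod p) ^ Nat.card (ann K) = 1 := by
  have h1 : (⟨u, hu⟩ : ann K) ^ Nat.card (ann K) = 1 := pow_card_eq_one'
  have h2 : u ^ Nat.card (ann K) = 1 := congrArg Subtype.val h1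
  have h3 := congrArg (fun x : (ZMod p)ˣ => (x : ZMod p)) h2
  simpa using h3

lemma conj_char (χ : DirichletCharacter ℂ p) (u : (ZMod p)ˣ) :
    (starRingEnd ℂ) (χ (u : ZMod p)) = χ ((u⁻¹ : (ZMod p)ˣ) : ZMod p) := by
  have h1 : χ (u : ZMod p) * χ ((u⁻¹ : (ZMod p)ˣ) : ZMod p) = 1 := by
    rw [← map_mul, Units.mul_inv, map_one]
  rw [← Complex.inv_eq_conj (χ.unit_norm_eq_one u)]
  exact (eq_inv_of_mul_eq_one_right h1).symm

/-- an interval on which a group of characters is almost constant lies almost in a coset -/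
theorem sub_type (a ℓ : ℕ) (h : a + ℓ < p) (hℓ : 0 < ℓ) (d : ℝ) (hd1 : d ≤ 1)
    (K : Subgroup (DirichletCharacter ℂ p)) (hK : ∀ χ ∈ K, χ ∈ big p a ℓ d) :
    ∃ j, j < ℓ ∧ (((range ℓ).filter (fun i => ¬ (((a + i + 1 : ℕ) : ZMod p) *
      ((a + j + 1 : ℕ) : ZMod p)⁻¹) ^ Nat.card (ann K) = 1)).card : ℝ) ≤ 2 * d * ℓ := by
  classical
  letI : Fintype K := Fintype.ofFinite K
  have hℓR : (0 : ℝ) < ℓ := by exact_mod_cast hℓ
  have hcK : (0 : ℝ) < Fintype.card K := by exact_mod_cast Fintype.card_pos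
  -- units
  let n : ℕ → (ZMod p)ˣ := fun i =>
    if hi : i < ℓ then Units.mk0 ((a + i + 1 : ℕ) : ZMod p) (cast_ne _ (by omega) (by omega))
    else 1
  have hn : ∀ i ∈ range ℓ, ((n i : (ZMod p)ˣ) : ZMod p) = ((a + i + 1 : ℕ) : ZMod p) := by
    intro i hi
    rw [Finset.mem_range] at hi
    simp only [n, dif_pos hi, Units.val_mk0]
  have hcs : ∀ χ : DirichletCharacter ℂ p, cs χ a ℓ = ∑ i ∈ range ℓ, χ (n i : ZMod p) := by
    intro χ
    unfold cs
    exact Finset.sum_congr rfl (fun i hi => by rw [hn i hi])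
  -- the second moment
  have hsq : ∀ χ : DirichletCharacter ℂ p, ((‖cs χ a ℓ‖ ^ 2 : ℝ) : ℂ) =
      ∑ i ∈ range ℓ, ∑ j ∈ range ℓ, χ ((n i * (n j)⁻¹ : (ZMod p)ˣ) : ZMod p) := by
    intro χ
    rw [← Complex.normSq_eq_norm_sq, ← Complex.mul_conj, hcs, map_sum, Finset.sum_mul_sum]
    apply Finset.sum_congr rfl
    intro i _
    apply Finset.sum_congr rfl
    intro j _
    rw [Units.val_mul, map_mul, conj_char]
  let N : ℕ → ℕ → ℝ := fun i j => if (n i * (n j)⁻¹) ∈ ann K then 1 else 0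
  have htot : ((∑ χ : K, ‖cs (χ : DirichletCharacter ℂ p) a ℓ‖ ^ 2 : ℝ) : ℂ) =
      (((Fintype.card K : ℝ) * ∑ j ∈ range ℓ, ∑ i ∈ range ℓ, N i j : ℝ) : ℂ) := by
    rw [Complex.ofReal_sum, Finset.sum_congr rfl (fun (χ : K) _ => hsq χ.1), Finset.sum_comm]
    rw [Finset.sum_comm (s := range ℓ) (t := range ℓ) (f := fun j i => N i j)]
    simp only [Complex.ofReal_mul, Complex.ofReal_sum, Complex.ofReal_natCast]
    rw [Finset.mul_sum]
    apply Finset.sum_congr rfl
    intro i _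
    rw [Finset.sum_comm, Finset.mul_sum]
    apply Finset.sum_congr rfl
    intro j _
    rw [sum_ann]
    by_cases hm : (n i * (n j)⁻¹) ∈ ann K
    · simp [N, hm]
    · simp [N, hm]
  have htotR : ∑ χ : K, ‖cs (χ : DirichletCharacter ℂ p) a ℓ‖ ^ 2 =
      (Fintype.card K : ℝ) * ∑ j ∈ range ℓ, ∑ i ∈ range ℓ, N i j := by exact_mod_cast htot
  have hlow : (Fintype.card K : ℝ) * ((1 - 2 * d) * ℓ * ℓ) ≤
      (Fintype.card K : ℝ) * ∑ j ∈ range ℓ, ∑ i ∈ range ℓ, N i j := by
    rw [← htotR]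
    calc (Fintype.card K : ℝ) * ((1 - 2 * d) * ℓ * ℓ) = ∑ _χ : K, ((1 - 2 * d) * ℓ * ℓ) := by
          rw [Finset.sum_const, Finset.card_univ, nsmul_eq_mul]
      _ ≤ _ := by
          apply Finset.sum_le_sum
          intro χ _
          have h1 := (mem_big a ℓ d χ.1).mp (hK χ.1 χ.2)
          have h2 : 0 ≤ (1 - d) * ℓ := mul_nonneg (by linarith) hℓR.le
          have h3 : ((1 - d) * (ℓ : ℝ)) ^ 2 ≤ ‖cs (χ : DirichletCharacter ℂ p) a ℓ‖ ^ 2 :=
            pow_le_pow_left₀ h2 h1 2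
          refine le_trans ?_ h3
          have h4 : 0 ≤ d ^ 2 * (ℓ : ℝ) ^ 2 := by positivity
          nlinarith
  have hlow2 : (1 - 2 * d) * ℓ * ℓ ≤ ∑ j ∈ range ℓ, ∑ i ∈ range ℓ, N i j :=
    le_of_mul_le_mul_left hlow hcK
  obtain ⟨j, hj, hjN⟩ : ∃ j ∈ range ℓ, (1 - 2 * d) * ℓ ≤ ∑ i ∈ range ℓ, N i j := by
    by_contra hcon
    push Not at hcon
    have : ∑ j ∈ range ℓ, ∑ i ∈ range ℓ, N i j < ∑ _j ∈ range ℓ, (1 - 2 * d) * (ℓ : ℝ) :=
      Finset.sum_lt_sum_of_nonempty (by simpa using hℓ.ne') hcon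
    rw [Finset.sum_const, Finset.card_range, nsmul_eq_mul] at this
    linarith
  refine ⟨j, Finset.mem_range.mp hj, ?_⟩
  have hpow : ∀ i ∈ range ℓ, (n i * (n j)⁻¹) ∈ ann K →
      (((a + i + 1 : ℕ) : ZMod p) * ((a + j + 1 : ℕ) : ZMod p)⁻¹) ^ Nat.card (ann K) = 1 := by
    intro i hi hmem
    have := pow_ann K _ hmem
    rwa [Units.val_mul, Units.val_inv_eq_inv_val, hn i hi, hn j hj] at this
  have hsum : ∑ i ∈ range ℓ, N i j = (((range ℓ).filter (fun i => (n i * (n j)⁻¹) ∈ ann K)).card : ℝ) := by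
    rw [Finset.card_filter]
    push_cast
    rfl
  have hsplit := Finset.card_filter_add_card_filter_not (s := range ℓ)
    (fun i => (((a + i + 1 : ℕ) : ZMod p) * ((a + j + 1 : ℕ) : ZMod p)⁻¹) ^ Nat.card (ann K) = 1)
  rw [Finset.card_range] at hsplit
  have hsplitR : (((range ℓ).filter (fun i => (((a + i + 1 : ℕ) : ZMod p) *
      ((a + j + 1 : ℕ) : ZMod p)⁻¹) ^ Nat.card (ann K) = 1)).card : ℝ) +
      (((range ℓ).filter (fun i => ¬ (((a + i + 1 : ℕ) : ZMod p) *
      ((a + j + 1 : ℕ) : ZMod p)⁻¹) ^ Nat.card (ann K) = 1)).card : ℝ) = ℓ := by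
    exact_mod_cast hsplit
  have hle : (((range ℓ).filter (fun i => (n i * (n j)⁻¹) ∈ ann K)).card : ℝ) ≤
      (((range ℓ).filter (fun i => (((a + i + 1 : ℕ) : ZMod p) *
      ((a + j + 1 : ℕ) : ZMod p)⁻¹) ^ Nat.card (ann K) = 1)).card : ℝ) := by
    have : ((range ℓ).filter (fun i => (n i * (n j)⁻¹) ∈ ann K)) ⊆
        ((range ℓ).filter (fun i => (((a + i + 1 : ℕ) : ZMod p) *
      ((a + j + 1 : ℕ) : ZMod p)⁻¹) ^ Nat.card (ann K) = 1)) := by
      intro i hi
      rw [Finset.mem_filter] at hi ⊢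
      exact ⟨hi.1, hpow i hi.1 hi.2⟩
    exact_mod_cast Finset.card_le_card this
  rw [hsum] at hjN
  linarith

end MP1fb.L2
end

section
/-!
MP_1fb68e_nt, two local shuffles: high moments of short character sums, over all characters and
all intervals.
-/
set_option autoImplicit false

namespace MP1fb.L2

open Finset Polynomial

variable {p : ℕ} [hp : Fact p.Prime]

/-- index tuples -/
def tup (h k : ℕ) : Finset (Fin k → ℕ) := Fintype.piFinset (fun _ => range h)

lemma mem_tup (h k : ℕ) (n : Fin k → ℕ) : n ∈ tup h k ↔ ∀ j, n j < h := by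
  unfold tup
  simp [Fintype.mem_piFinset]

lemma card_tup (h k : ℕ) : (tup h k).card = h ^ k := by
  unfold tup
  rw [Fintype.card_piFinset]
  simp

/-- product over a tuple -/
def tp (p : ℕ) {k : ℕ} (a : ℕ) (n : Fin k → ℕ) : ZMod p := ∏ j, ((a + n j + 1 : ℕ) : ZMod p)

/-- `n` and `m` differ by the order only -/
def Same {k : ℕ} (n m : Fin k → ℕ) : Prop := (List.ofFn n).Perm (List.ofFn m)

open Classical in
lemma same_card_le (h k : ℕ) (n : Fin k → ℕ) :
    ((tup h k).filter (fun m => Same m n)).card ≤ k.factorial := by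
  have h1 : ((tup h k).filter (fun m => Same m n)).card ≤
      ((List.ofFn n).permutations.toFinset).card := by
    apply Finset.card_le_card_of_injOn (fun m => List.ofFn m)
    · intro m hm
      rw [Finset.mem_coe, Finset.mem_filter] at hm
      rw [Finset.mem_coe, List.mem_toFinset, List.mem_permutations]
      exact hm.2
    · intro m _ m' _ hmm
      exact List.ofFn_injective hmm
  refine h1.trans ((List.toFinset_card_le _).trans ?_)
  rw [List.length_permutations, List.length_ofFn]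

/-- the polynomial of a tuple -/
noncomputable def pol (p : ℕ) {k : ℕ} (n : Fin k → ℕ) : (ZMod p)[X] :=
  ∏ j, (X - C (-((n j + 1 : ℕ) : ZMod p)))

lemma pol_monic {k : ℕ} (n : Fin k → ℕ) : (pol p n).Monic :=
  monic_prod_of_monic _ _ (fun _ _ => monic_X_sub_C _)

lemma pol_degree {k : ℕ} (n : Fin k → ℕ) : (pol p n).natDegree = k := by
  unfold pol
  rw [natDegree_prod_of_monic _ _ (fun _ _ => monic_X_sub_C _),
    Finset.sum_congr rfl (fun _ _ => natDegree_X_sub_C _)]
  simp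

lemma pol_eval {k : ℕ} (a : ℕ) (n : Fin k → ℕ) : (pol p n).eval (a : ZMod p) = tp p a n := by
  unfold pol tp
  rw [eval_prod]
  apply Finset.prod_congr rfl
  intro j _
  rw [eval_sub, eval_X, eval_C]
  push_cast
  ring

lemma same_of_pol {h k : ℕ} (hh : h < p) (n m : Fin k → ℕ) (hn : n ∈ tup h k) (hm : m ∈ tup h k)
    (he : pol p n = pol p m) : Same n m := by
  rw [mem_tup] at hn hm
  have h1 : (pol p n).roots = (pol p m).roots := by rw [he]
  have hr : ∀ n : Fin k → ℕ, (pol p n).roots =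
      (univ : Finset (Fin k)).val.map (fun j => -((n j + 1 : ℕ) : ZMod p)) := by
    intro n
    unfold pol
    rw [Finset.prod_eq_multiset_prod]
    have := roots_multiset_prod_X_sub_C
      ((univ : Finset (Fin k)).val.map (fun j => -((n j + 1 : ℕ) : ZMod p)))
    rw [Multiset.map_map] at this
    exact this
  rw [hr, hr] at h1
  have h2 := congrArg (Multiset.map (fun y : ZMod p => (-y).val - 1)) h1
  rw [Multiset.map_map, Multiset.map_map] at h2
  have hinv : ∀ n : Fin k → ℕ, (∀ j, n j < h) →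
      (univ : Finset (Fin k)).val.map ((fun y : ZMod p => (-y).val - 1) ∘
        fun j => -((n j + 1 : ℕ) : ZMod p)) = (univ : Finset (Fin k)).val.map n := by
    intro n hn
    apply Multiset.map_congr rfl
    intro j _
    simp only [Function.comp_apply, neg_neg]
    rw [ZMod.val_natCast, Nat.mod_eq_of_lt (by have := hn j; omega)]
    omega
  rw [hinv n hn, hinv m hm, Fin.univ_val_map, Fin.univ_val_map] at h2
  exact Multiset.coe_eq_coe.mp h2

lemma roots_le {h k : ℕ} (hh : h < p) (n m : Fin k → ℕ) (hn : n ∈ tup h k) (hm : m ∈ tup h k)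
    (hne : ¬ Same n m) : ((range p).filter (fun a => tp p a n = tp p a m)).card ≤ k := by
  classical
  have hD : pol p n - pol p m ≠ 0 := by
    intro h0
    exact hne (same_of_pol hh n m hn hm (sub_eq_zero.mp h0))
  have hdeg : (pol p n - pol p m).natDegree ≤ k := by
    refine (natDegree_sub_le _ _).trans ?_
    rw [pol_degree, pol_degree, max_self]
  calc ((range p).filter (fun a => tp p a n = tp p a m)).card
      ≤ ((pol p n - pol p m).roots.toFinset).card := by
        apply Finset.card_le_card_of_injOn (fun a : ℕ => (a : ZMod p))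
        · intro a ha
          rw [Finset.mem_coe, Finset.mem_filter] at ha
          rw [Finset.mem_coe, Multiset.mem_toFinset, mem_roots hD, IsRoot.def, eval_sub, pol_eval,
            pol_eval, ha.2, sub_self]
        · intro a ha b hb hab
          rw [Finset.mem_coe, Finset.mem_filter, Finset.mem_range] at ha hb
          exact Nat.ModEq.eq_of_lt_of_lt ((ZMod.natCast_eq_natCast_iff a b p).mp hab) ha.1 hb.1
    _ ≤ Multiset.card (pol p n - pol p m).roots := Multiset.toFinset_card_le _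
    _ ≤ (pol p n - pol p m).natDegree := card_roots' _
    _ ≤ k := hdeg

open Classical in
lemma char_pair (x y : ZMod p) : ∑ χ : DirichletCharacter ℂ p, χ x * (starRingEnd ℂ) (χ y) =
    if x = y ∧ y ≠ 0 then ((p - 1 : ℕ) : ℂ) else 0 := by
  by_cases hy : y = 0
  · have : ∀ χ : DirichletCharacter ℂ p, χ x * (starRingEnd ℂ) (χ y) = 0 := by
      intro χ
      rw [hy, MulChar.map_zero, map_zero, mul_zero]
    rw [Finset.sum_congr rfl (fun χ _ => this χ), Finset.sum_const_zero, if_neg (fun h => h.2 hy)]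
  · have h1 := DirichletCharacter.sum_char_inv_mul_char_eq ℂ (isUnit_iff_ne_zero.mpr hy) x
    rw [Nat.totient_prime hp.out] at h1
    have h2 : ∀ χ : DirichletCharacter ℂ p, χ x * (starRingEnd ℂ) (χ y) = χ y⁻¹ * χ x := by
      intro χ
      rw [← Complex.inv_eq_conj (norm_char χ y hy), mul_comm]
      congr 1
      have h3 : χ y * χ y⁻¹ = 1 := by
        rw [← map_mul, mul_inv_cancel₀ hy, map_one]
      exact (eq_inv_of_mul_eq_one_right h3).symm
    rw [Finset.sum_congr rfl (fun χ _ => h2 χ), h1]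
    by_cases hxy : x = y
    · rw [if_pos hxy.symm, if_pos ⟨hxy, hy⟩]
    · rw [if_neg (fun h => hxy h.symm), if_neg (fun h => hxy h.1)]

open Classical in
lemma moment_eq (a h k : ℕ) : ∑ χ : DirichletCharacter ℂ p, ‖cs χ a h‖ ^ (2 * k) =
    ((p - 1 : ℕ) : ℝ) * ∑ n ∈ tup h k, ∑ m ∈ tup h k,
      (if tp p a n = tp p a m ∧ tp p a m ≠ 0 then (1 : ℝ) else 0) := by
  have h1 : ∀ χ : DirichletCharacter ℂ p, ((‖cs χ a h‖ ^ (2 * k) : ℝ) : ℂ) =
      ∑ n ∈ tup h k, ∑ m ∈ tup h k, χ (tp p a n) * (starRingEnd ℂ) (χ (tp p a m)) := by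
    intro χ
    have h2 : (cs χ a h) ^ k = ∑ n ∈ tup h k, χ (tp p a n) := by
      unfold cs tup
      have := Finset.prod_univ_sum (fun _ : Fin k => range h)
        (fun (_ : Fin k) (i : ℕ) => χ ((a + i + 1 : ℕ) : ZMod p))
      rw [Finset.prod_const, Finset.card_univ, Fintype.card_fin] at this
      rw [this]
      apply Finset.sum_congr rfl
      intro n _
      unfold tp
      rw [map_prod]
    have h3 : ‖cs χ a h‖ ^ (2 * k) = ‖(cs χ a h) ^ k‖ ^ 2 := by
      rw [norm_pow, ← pow_mul, mul_comm]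
    rw [h3, ← Complex.normSq_eq_norm_sq, ← Complex.mul_conj, h2, map_sum, Finset.sum_mul_sum]
  have h4 : ((∑ χ : DirichletCharacter ℂ p, ‖cs χ a h‖ ^ (2 * k) : ℝ) : ℂ) =
      ((((p - 1 : ℕ) : ℝ) * ∑ n ∈ tup h k, ∑ m ∈ tup h k,
      (if tp p a n = tp p a m ∧ tp p a m ≠ 0 then (1 : ℝ) else 0) : ℝ) : ℂ) := by
    rw [Complex.ofReal_sum, Finset.sum_congr rfl (fun χ _ => h1 χ), Finset.sum_comm]
    simp only [Complex.ofReal_mul, Complex.ofReal_sum, Complex.ofReal_natCast]
    rw [Finset.mul_sum]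
    apply Finset.sum_congr rfl
    intro n _
    rw [Finset.sum_comm, Finset.mul_sum]
    apply Finset.sum_congr rfl
    intro m _
    rw [char_pair]
    split_ifs <;> simp
  exact_mod_cast h4

/-- **moments** over all characters and intervals -/
theorem moment (h k : ℕ) (hh : h < p) :
    ∑ χ : DirichletCharacter ℂ p, ∑ a ∈ range p, ‖cs χ a h‖ ^ (2 * k) ≤
      (p : ℝ) * (k.factorial * (h : ℝ) ^ k * p + k * (h : ℝ) ^ (2 * k)) := by
  classical
  rw [Finset.sum_comm, Finset.sum_congr rfl (fun a _ => moment_eq a h k), ← Finset.mul_sum]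
  have hp1 : ((p - 1 : ℕ) : ℝ) ≤ p := by exact_mod_cast Nat.sub_le p 1
  have hmain : ∑ a ∈ range p, ∑ n ∈ tup h k, ∑ m ∈ tup h k,
      (if tp p a n = tp p a m ∧ tp p a m ≠ 0 then (1 : ℝ) else 0) ≤
      (k.factorial * (h : ℝ) ^ k * p + k * (h : ℝ) ^ (2 * k)) := by
    rw [Finset.sum_comm]
    have h1 : ∀ n ∈ tup h k, ∑ a ∈ range p, ∑ m ∈ tup h k,
        (if tp p a n = tp p a m ∧ tp p a m ≠ 0 then (1 : ℝ) else 0) ≤
        k.factorial * p + k * (h : ℝ) ^ k := by
      intro n hn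
      rw [Finset.sum_comm]
      have h2 : ∀ m ∈ tup h k, ∑ a ∈ range p,
          (if tp p a n = tp p a m ∧ tp p a m ≠ 0 then (1 : ℝ) else 0) ≤
          (if Same m n then (p : ℝ) else 0) + k := by
        intro m hm
        by_cases hs : Same m n
        · rw [if_pos hs]
          calc ∑ a ∈ range p, (if tp p a n = tp p a m ∧ tp p a m ≠ 0 then (1 : ℝ) else 0)
              ≤ ∑ a ∈ range p, (1 : ℝ) := by
                apply Finset.sum_le_sum
                intro a _
                split_ifs <;> norm_num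
            _ = p := by simp
            _ ≤ p + k := by
              have : (0 : ℝ) ≤ k := by positivity
              linarith
        · rw [if_neg hs, zero_add]
          have h3 := roots_le hh n m hn hm (fun h => hs h.symm)
          calc ∑ a ∈ range p, (if tp p a n = tp p a m ∧ tp p a m ≠ 0 then (1 : ℝ) else 0)
              ≤ ∑ a ∈ range p, (if tp p a n = tp p a m then (1 : ℝ) else 0) := by
                apply Finset.sum_le_sum
                intro a _
                by_cases h4 : tp p a n = tp p a m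
                · rw [if_pos h4]; split_ifs <;> norm_num
                · rw [if_neg h4, if_neg (fun h => h4 h.1)]
            _ = (((range p).filter (fun a => tp p a n = tp p a m)).card : ℝ) := by
                rw [Finset.card_filter]; push_cast; rfl
            _ ≤ k := by exact_mod_cast h3
      refine (Finset.sum_le_sum h2).trans ?_
      rw [Finset.sum_add_distrib, ← Finset.sum_filter, Finset.sum_const, Finset.sum_const,
        nsmul_eq_mul, nsmul_eq_mul, card_tup]
      have h5 : (((tup h k).filter (fun m => Same m n)).card : ℝ) ≤ k.factorial := by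
        exact_mod_cast same_card_le h k n
      have hp0 : (0 : ℝ) ≤ p := by positivity
      have h6 := mul_le_mul_of_nonneg_right h5 hp0
      push_cast
      linarith
    refine (Finset.sum_le_sum h1).trans ?_
    rw [Finset.sum_const, nsmul_eq_mul, card_tup]
    apply le_of_eq
    push_cast
    ring
  have hnn : 0 ≤ k.factorial * (h : ℝ) ^ k * p + k * (h : ℝ) ^ (2 * k) := by positivity
  calc _ ≤ ((p - 1 : ℕ) : ℝ) * (k.factorial * (h : ℝ) ^ k * p + k * (h : ℝ) ^ (2 * k)) := by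
        gcongr
    _ ≤ _ := by gcongr

end MP1fb.L2
end

section
/-!
MP_1fb68e_nt, two local shuffles: number of the pairs (character, interval) with a large sum.
-/
set_option autoImplicit false

namespace MP1fb.L2

open Finset

variable {p : ℕ} [hp : Fact p.Prime]

omit hp in
lemma norm_char_le (χ : DirichletCharacter ℂ p) (x : ZMod p) : ‖χ x‖ ≤ 1 :=
  χ.norm_le_one x

/-- the alignment of a character passes to most of the short subintervals -/
lemma sum_sub_ge (χ : DirichletCharacter ℂ p) (a ℓ h : ℕ) (hh : h ≤ ℓ) (d : ℝ)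
    (hχ : χ ∈ big p a ℓ d) : (h : ℝ) * ((1 - d) * ℓ - h) ≤
      ∑ c ∈ range (ℓ - h + 1), ‖cs χ (a + c) h‖ := by
  rw [mem_big] at hχ
  obtain ⟨u, hu1, hu2⟩ : ∃ u : ℂ, ‖u‖ = 1 ∧ (u * cs χ a ℓ).re = ‖cs χ a ℓ‖ := by
    by_cases h0 : cs χ a ℓ = 0
    · exact ⟨1, by simp, by simp [h0]⟩
    · have hn : ‖cs χ a ℓ‖ ≠ 0 := norm_ne_zero_iff.mpr h0
      refine ⟨(starRingEnd ℂ (cs χ a ℓ)) / ((‖cs χ a ℓ‖ : ℝ) : ℂ), ?_, ?_⟩
      · rw [norm_div, RCLike.norm_conj, Complex.norm_real, norm_norm, div_self hn]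
      · have e : (starRingEnd ℂ (cs χ a ℓ)) / ((‖cs χ a ℓ‖ : ℝ) : ℂ) * cs χ a ℓ =
            ((‖cs χ a ℓ‖ : ℝ) : ℂ) := by
          have hn' : ((‖cs χ a ℓ‖ : ℝ) : ℂ) ≠ 0 := by exact_mod_cast hn
          rw [div_mul_eq_mul_div, div_eq_iff hn', mul_comm (starRingEnd ℂ (cs χ a ℓ)) _,
            Complex.mul_conj, Complex.normSq_eq_norm_sq]
          push_cast
          ring
        rw [e, Complex.ofReal_re]
  -- subintervals, real parts
  have hre : ∀ i, i < h → ‖cs χ a ℓ‖ - h ≤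
      (u * ∑ c ∈ range (ℓ - h + 1), χ ((a + c + i + 1 : ℕ) : ZMod p)).re := by
    intro i hi
    have e1 : cs χ a ℓ = ∑ c ∈ range i, χ ((a + c + 1 : ℕ) : ZMod p) +
        ∑ c ∈ range (ℓ - h + 1), χ ((a + c + i + 1 : ℕ) : ZMod p) +
        ∑ c ∈ range (h - 1 - i), χ ((a + (i + (ℓ - h + 1) + c) + 1 : ℕ) : ZMod p) := by
      unfold cs
      have : ℓ = (i + (ℓ - h + 1)) + (h - 1 - i) := by omega
      conv_lhs => rw [this]
      rw [Finset.sum_range_add, Finset.sum_range_add]
      congr 2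
      apply Finset.sum_congr rfl
      intro c _
      congr 2
      omega
    have n1 : (u * ∑ c ∈ range i, χ ((a + c + 1 : ℕ) : ZMod p)).re ≤ i := by
      refine (Complex.re_le_norm _).trans ?_
      rw [norm_mul, hu1, one_mul]
      refine (norm_sum_le _ _).trans ?_
      calc _ ≤ ∑ _c ∈ range i, (1 : ℝ) := Finset.sum_le_sum (fun c _ => norm_char_le χ _)
        _ = i := by simp
    have n2 : (u * ∑ c ∈ range (h - 1 - i),
        χ ((a + (i + (ℓ - h + 1) + c) + 1 : ℕ) : ZMod p)).re ≤ ((h - 1 - i : ℕ) : ℝ) := by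
      refine (Complex.re_le_norm _).trans ?_
      rw [norm_mul, hu1, one_mul]
      refine (norm_sum_le _ _).trans ?_
      calc _ ≤ ∑ _c ∈ range (h - 1 - i), (1 : ℝ) :=
            Finset.sum_le_sum (fun c _ => norm_char_le χ _)
        _ = _ := by simp
    have n3 : (i : ℝ) + ((h - 1 - i : ℕ) : ℝ) ≤ h := by
      exact_mod_cast (by omega : i + (h - 1 - i) ≤ h)
    have n4 : (u * cs χ a ℓ).re = (u * ∑ c ∈ range i, χ ((a + c + 1 : ℕ) : ZMod p)).re +
        (u * ∑ c ∈ range (ℓ - h + 1), χ ((a + c + i + 1 : ℕ) : ZMod p)).re +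
        (u * ∑ c ∈ range (h - 1 - i),
          χ ((a + (i + (ℓ - h + 1) + c) + 1 : ℕ) : ZMod p)).re := by
      rw [e1, mul_add, mul_add, Complex.add_re, Complex.add_re]
    rw [hu2] at n4
    linarith
  have e2 : ∑ i ∈ range h, (u * ∑ c ∈ range (ℓ - h + 1), χ ((a + c + i + 1 : ℕ) : ZMod p)).re =
      ∑ c ∈ range (ℓ - h + 1), (u * cs χ (a + c) h).re := by
    rw [← Complex.re_sum, ← Complex.re_sum, ← Finset.mul_sum, ← Finset.mul_sum, Finset.sum_comm]
    rfl
  calc (h : ℝ) * ((1 - d) * ℓ - h) ≤ h * (‖cs χ a ℓ‖ - h) := by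
        apply mul_le_mul_of_nonneg_left _ (by positivity)
        linarith
    _ = ∑ _i ∈ range h, (‖cs χ a ℓ‖ - h) := by
        rw [Finset.sum_const, Finset.card_range, nsmul_eq_mul]
    _ ≤ ∑ i ∈ range h, (u * ∑ c ∈ range (ℓ - h + 1), χ ((a + c + i + 1 : ℕ) : ZMod p)).re :=
        Finset.sum_le_sum (fun i hi => hre i (Finset.mem_range.mp hi))
    _ = ∑ c ∈ range (ℓ - h + 1), (u * cs χ (a + c) h).re := e2
    _ ≤ _ := by
        apply Finset.sum_le_sum
        intro c _
        refine (Complex.re_le_norm _).trans ?_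
        rw [norm_mul, hu1, one_mul]

/-- contribution of one pair to the moment -/
lemma win_le (χ : DirichletCharacter ℂ p) (a ℓ h k : ℕ) (hh0 : 0 < h) (hh : h ≤ ℓ) (hk : 0 < k)
    (d : ℝ) (hd0 : 0 ≤ d) (hd : 2 * k * (d + h / ℓ) ≤ 1 / 2) (hχ : χ ∈ big p a ℓ d) :
    (ℓ : ℝ) / 2 * (h : ℝ) ^ (2 * k) ≤ ∑ c ∈ Ico a (a + ℓ), ‖cs χ c h‖ ^ (2 * k) := by
  have hℓR : (0 : ℝ) < ℓ := by
    have : 0 < ℓ := by omega
    exact_mod_cast this
  have hhR : (0 : ℝ) < h := by exact_mod_cast hh0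
  set e := d + h / (ℓ : ℝ) with he
  have he0 : 0 ≤ e := by positivity
  have hkR : (1 : ℝ) ≤ k := by exact_mod_cast hk
  have he1 : e ≤ 1 / 4 := by nlinarith
  have h1 := sum_sub_ge χ a ℓ h hh d hχ
  have h2 : (h : ℝ) * ((1 - d) * ℓ - h) = h * ℓ * (1 - e) := by
    rw [he]; field_simp; ring
  rw [h2] at h1
  obtain ⟨n, hn⟩ : ∃ n, 2 * k = n + 1 := ⟨2 * k - 1, by omega⟩
  have h3 := pow_sum_div_card_le_sum_pow (s := range (ℓ - h + 1))
    (f := fun c => ‖cs χ (a + c) h‖) (fun _ _ => norm_nonneg _) n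
  rw [Finset.card_range] at h3
  have h4 : ∑ c ∈ range (ℓ - h + 1), ‖cs χ (a + c) h‖ ^ (2 * k) ≤
      ∑ c ∈ Ico a (a + ℓ), ‖cs χ c h‖ ^ (2 * k) := by
    rw [← Finset.sum_image (f := fun c => ‖cs χ c h‖ ^ (2 * k)) (g := fun c => a + c)
      (fun x _ y _ hxy => Nat.add_left_cancel hxy)]
    apply Finset.sum_le_sum_of_subset_of_nonneg
    · intro c hc
      rw [Finset.mem_image] at hc
      obtain ⟨b, hb, rfl⟩ := hc
      rw [Finset.mem_range] at hb
      rw [Finset.mem_Ico]
      omega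
    · intro c _ _
      positivity
  refine le_trans ?_ h4
  rw [hn]
  refine le_trans ?_ h3
  have hM : ((ℓ - h + 1 : ℕ) : ℝ) ≤ ℓ := by exact_mod_cast (by omega : ℓ - h + 1 ≤ ℓ)
  have hM0 : (0 : ℝ) < ((ℓ - h + 1 : ℕ) : ℝ) := by exact_mod_cast Nat.succ_pos _
  have h5 : (1 : ℝ) / 2 ≤ (1 - e) ^ (n + 1) := by
    have h6 := one_add_mul_le_pow (show (-2 : ℝ) ≤ -e by linarith) (n + 1)
    have h7 : ((n + 1 : ℕ) : ℝ) = 2 * k := by rw [← hn]; push_cast; ring
    rw [h7] at h6
    have h8 : (1 : ℝ) + -e = 1 - e := by ring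
    rw [h8] at h6
    linarith
  have h9 : 0 ≤ (h : ℝ) * ℓ * (1 - e) := by
    apply mul_nonneg (by positivity); linarith
  calc (ℓ : ℝ) / 2 * (h : ℝ) ^ (n + 1) = (h : ℝ) ^ (n + 1) * ℓ * (1 / 2) := by ring
    _ ≤ (h : ℝ) ^ (n + 1) * ℓ * (1 - e) ^ (n + 1) := by gcongr
    _ = ((h : ℝ) * ℓ * (1 - e)) ^ (n + 1) / (ℓ : ℝ) ^ n := by
        rw [mul_pow, mul_pow, pow_succ (ℓ : ℝ) n]
        field_simp
    _ ≤ ((h : ℝ) * ℓ * (1 - e)) ^ (n + 1) / ((ℓ - h + 1 : ℕ) : ℝ) ^ n := by gcongr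
    _ ≤ _ := by gcongr

lemma sum_consecutive (s : ℕ → ℕ) (hs : Monotone s) (B : ℕ) (f : ℕ → ℝ) :
    ∑ b ∈ range B, ∑ c ∈ Ico (s b) (s (b + 1)), f c = ∑ c ∈ Ico (s 0) (s B), f c := by
  induction B with
  | zero => simp
  | succ B ih =>
    rw [Finset.sum_range_succ, ih]
    exact Finset.sum_Ico_consecutive f (hs (Nat.zero_le B)) (hs (Nat.le_succ B))

/-- **pairs with a large sum** -/
theorem pairs_le (s : ℕ → ℕ) (hs : Monotone s) (B L h k : ℕ) (hB : s B ≤ p) (hL : 0 < L)
    (hlen : ∀ b, b < B → s b + L ≤ s (b + 1)) (hh0 : 0 < h) (hhL : h ≤ L) (hhp : h < p)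
    (hk : 0 < k) (hkh : k.factorial * p ≤ h ^ k) (d : ℝ) (hd0 : 0 ≤ d)
    (hd : 2 * k * (d + h / L) ≤ 1 / 2) :
    ∑ b ∈ range B, ((big p (s b) (s (b + 1) - s b) d).card : ℝ) ≤ 2 * (k + 1) * p / L := by
  classical
  have hLR : (0 : ℝ) < L := by exact_mod_cast hL
  have hhR : (0 : ℝ) < h := by exact_mod_cast hh0
  have hpR : (0 : ℝ) < p := by exact_mod_cast hp.out.pos
  have h1 : ∀ b ∈ range B, ((big p (s b) (s (b + 1) - s b) d).card : ℝ) *
      ((L : ℝ) / 2 * (h : ℝ) ^ (2 * k)) ≤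
      ∑ χ : DirichletCharacter ℂ p, ∑ c ∈ Ico (s b) (s (b + 1)), ‖cs χ c h‖ ^ (2 * k) := by
    intro b hb
    rw [Finset.mem_range] at hb
    have hl := hlen b hb
    have hlR : (L : ℝ) ≤ ((s (b + 1) - s b : ℕ) : ℝ) := by
      exact_mod_cast (by omega : L ≤ s (b + 1) - s b)
    have e1 : s b + (s (b + 1) - s b) = s (b + 1) := by omega
    calc ((big p (s b) (s (b + 1) - s b) d).card : ℝ) * ((L : ℝ) / 2 * (h : ℝ) ^ (2 * k))
        = ∑ _χ ∈ big p (s b) (s (b + 1) - s b) d, ((L : ℝ) / 2 * (h : ℝ) ^ (2 * k)) := by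
          rw [Finset.sum_const, nsmul_eq_mul]
      _ ≤ ∑ χ ∈ big p (s b) (s (b + 1) - s b) d,
          ∑ c ∈ Ico (s b) (s (b + 1)), ‖cs χ c h‖ ^ (2 * k) := by
          apply Finset.sum_le_sum
          intro χ hχ
          have h2 := win_le χ (s b) (s (b + 1) - s b) h k hh0 (by omega) hk d hd0 (by
            refine le_trans ?_ hd
            gcongr) hχ
          rw [e1] at h2
          refine le_trans ?_ h2
          gcongr
      _ ≤ _ := by
          apply Finset.sum_le_sum_of_subset_of_nonneg (Finset.subset_univ _)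
          intro χ _ _
          positivity
  have h2 : (∑ b ∈ range B, ((big p (s b) (s (b + 1) - s b) d).card : ℝ)) *
      ((L : ℝ) / 2 * (h : ℝ) ^ (2 * k)) ≤
      (p : ℝ) * (k.factorial * (h : ℝ) ^ k * p + k * (h : ℝ) ^ (2 * k)) := by
    rw [Finset.sum_mul]
    refine (Finset.sum_le_sum h1).trans ?_
    rw [Finset.sum_comm]
    refine le_trans ?_ (moment h k hhp)
    apply Finset.sum_le_sum
    intro χ _
    rw [sum_consecutive s hs B]
    apply Finset.sum_le_sum_of_subset_of_nonneg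
    · intro c hc
      rw [Finset.mem_Ico] at hc
      rw [Finset.mem_range]
      omega
    · intro c _ _
      positivity
  have h3 : (k.factorial : ℝ) * (h : ℝ) ^ k * p ≤ (h : ℝ) ^ (2 * k) := by
    have h4 : (k.factorial : ℝ) * p ≤ (h : ℝ) ^ k := by exact_mod_cast hkh
    calc (k.factorial : ℝ) * (h : ℝ) ^ k * p = (k.factorial * p) * (h : ℝ) ^ k := by ring
      _ ≤ (h : ℝ) ^ k * (h : ℝ) ^ k := by gcongr
      _ = _ := by rw [← pow_add]; congr 1; ring
  have hX : 0 < (h : ℝ) ^ (2 * k) := by positivity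
  have h5 : (∑ b ∈ range B, ((big p (s b) (s (b + 1) - s b) d).card : ℝ)) *
      ((L : ℝ) / 2) * (h : ℝ) ^ (2 * k) ≤ ((p : ℝ) * (k + 1)) * (h : ℝ) ^ (2 * k) := by
    calc _ = (∑ b ∈ range B, ((big p (s b) (s (b + 1) - s b) d).card : ℝ)) *
        ((L : ℝ) / 2 * (h : ℝ) ^ (2 * k)) := by ring
      _ ≤ _ := h2
      _ ≤ (p : ℝ) * ((h : ℝ) ^ (2 * k) + k * (h : ℝ) ^ (2 * k)) := by gcongr
      _ = _ := by ring
  have h6 := le_of_mul_le_mul_right h5 hX
  rw [le_div_iff₀ hLR]
  linarith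

end MP1fb.L2
end

section
/-!
MP_1fb68e_nt, two local shuffles: reduction of the number of pairs with a very large sum to the
number of the short intervals inside cosets.
-/
set_option autoImplicit false
set_option linter.style.haveILetI false

namespace MP1fb.L2

open Finset

variable {p : ℕ} [hp : Fact p.Prime]

/-- starts `a` for which `a + 1, .., a + h` lie in one coset of the group `x ^ g = 1`. -/
def win (p g h : ℕ) : Finset ℕ :=
  (range (p / 2)).filter (fun a => ∀ j, j < h →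
    (((a + j + 1 : ℕ) : ZMod p) * ((a + 1 : ℕ) : ZMod p)⁻¹) ^ g = 1)

/-- the large interval contains many short intervals inside cosets -/
lemma win_ge (a ℓ h g : ℕ) (hah : a + ℓ ≤ p / 2) (hh : 0 < h) (hhℓ : 4 * h ≤ ℓ) (d : ℝ)
    (hd : 8 * d * h ≤ 1) (j : ℕ) (hj : j < ℓ)
    (hbad : (((range ℓ).filter (fun i => ¬ (((a + i + 1 : ℕ) : ZMod p) *
      ((a + j + 1 : ℕ) : ZMod p)⁻¹) ^ g = 1)).card : ℝ) ≤ 2 * d * ℓ) :
    (ℓ : ℝ) / 2 ≤ ((win p g h ∩ Ico a (a + ℓ)).card : ℝ) := by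
  classical
  have hp1 := hp.out.two_le
  set Bad := (range ℓ).filter (fun i => ¬ (((a + i + 1 : ℕ) : ZMod p) *
      ((a + j + 1 : ℕ) : ZMod p)⁻¹) ^ g = 1) with hBad
  -- bad starts
  set BS := (range (ℓ - h + 1)).filter (fun c => ∃ i ∈ Bad, c ≤ i ∧ i < c + h) with hBS
  have hBS_le : BS.card ≤ h * Bad.card := by
    have hsub : BS ⊆ Bad.biUnion (fun i => (range (ℓ - h + 1)).filter (fun c => c ≤ i ∧ i < c + h)) := by
      intro c hc
      rw [hBS, Finset.mem_filter] at hc
      obtain ⟨hc1, i, hi, hci⟩ := hc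
      rw [Finset.mem_biUnion]
      exact ⟨i, hi, Finset.mem_filter.mpr ⟨hc1, hci⟩⟩
    calc BS.card ≤ _ := Finset.card_le_card hsub
      _ ≤ ∑ i ∈ Bad, ((range (ℓ - h + 1)).filter (fun c => c ≤ i ∧ i < c + h)).card :=
          Finset.card_biUnion_le
      _ ≤ ∑ _i ∈ Bad, h := by
          apply Finset.sum_le_sum
          intro i _
          calc _ ≤ (Ico (i + 1 - h) (i + 1)).card := by
                apply Finset.card_le_card
                intro c hc
                rw [Finset.mem_filter] at hc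
                rw [Finset.mem_Ico]
                omega
            _ ≤ h := by rw [Nat.card_Ico]; omega
      _ = h * Bad.card := by rw [Finset.sum_const, smul_eq_mul, mul_comm]
  have hgood : ((range (ℓ - h + 1)) \ BS).card ≤ (win p g h ∩ Ico a (a + ℓ)).card := by
    apply Finset.card_le_card_of_injOn (fun c => a + c)
    · intro c hc
      rw [Finset.mem_coe, Finset.mem_sdiff, Finset.mem_range] at hc
      rw [Finset.mem_coe, Finset.mem_inter, Finset.mem_Ico]
      beta_reduce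
      have hgi : ∀ i, c ≤ i → i < c + h → (((a + i + 1 : ℕ) : ZMod p) *
          ((a + j + 1 : ℕ) : ZMod p)⁻¹) ^ g = 1 := by
        intro i h1 h2
        by_contra hcon
        apply hc.2
        rw [hBS, Finset.mem_filter, Finset.mem_range]
        refine ⟨hc.1, i, ?_, h1, h2⟩
        rw [hBad, Finset.mem_filter, Finset.mem_range]
        exact ⟨by omega, hcon⟩
      refine ⟨?_, by omega⟩
      unfold win
      rw [Finset.mem_filter, Finset.mem_range]
      refine ⟨by omega, ?_⟩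
      intro i hi
      have h1 := hgi (c + i) (by omega) (by omega)
      have h2 := hgi c le_rfl (by omega)
      have hj0 : ((a + j + 1 : ℕ) : ZMod p) ≠ 0 := cast_ne _ (by omega) (by omega)
      have hc0 : ((a + c + 1 : ℕ) : ZMod p) ≠ 0 := cast_ne _ (by omega) (by omega)
      have e : ((a + c + i + 1 : ℕ) : ZMod p) * ((a + c + 1 : ℕ) : ZMod p)⁻¹ =
          (((a + (c + i) + 1 : ℕ) : ZMod p) * ((a + j + 1 : ℕ) : ZMod p)⁻¹) *
          (((a + c + 1 : ℕ) : ZMod p) * ((a + j + 1 : ℕ) : ZMod p)⁻¹)⁻¹ := by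
        rw [show a + (c + i) + 1 = a + c + i + 1 by ring]
        field_simp
      rw [e, mul_pow, inv_pow, h1, h2, inv_one, one_mul]
    · intro x _ y _ hxy
      exact Nat.add_left_cancel hxy
  have hcard : (ℓ - h + 1) - BS.card ≤ ((range (ℓ - h + 1)) \ BS).card := by
    have := Finset.le_card_sdiff BS (range (ℓ - h + 1))
    rwa [Finset.card_range] at this
  have h1 : ℓ - h + 1 ≤ (win p g h ∩ Ico a (a + ℓ)).card + h * Bad.card := by omega
  have h2 : (ℓ : ℝ) - h + 1 ≤ ((win p g h ∩ Ico a (a + ℓ)).card : ℝ) + h * Bad.card := by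
    have h3 : ((ℓ - h + 1 : ℕ) : ℝ) = (ℓ : ℝ) - h + 1 := by
      rw [Nat.cast_add, Nat.cast_sub (by omega)]; simp
    rw [← h3]
    exact_mod_cast h1
  have h4 : (h : ℝ) * Bad.card ≤ ℓ / 4 := by
    have hh0 : (0 : ℝ) ≤ h := by positivity
    have hℓ0 : (0 : ℝ) ≤ ℓ := by positivity
    calc (h : ℝ) * Bad.card ≤ h * (2 * d * ℓ) := by gcongr
      _ = (8 * d * h) * ℓ / 4 := by ring
      _ ≤ 1 * ℓ / 4 := by gcongr
      _ = ℓ / 4 := by ring
  have h5 : 4 * (h : ℝ) ≤ ℓ := by exact_mod_cast hhℓ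
  linarith

/-- **reduction** -/
theorem sumD_le (s : ℕ → ℕ) (hs : Monotone s) (B L h : ℕ) (hB : s B ≤ p / 2) (hL : 0 < L)
    (hlen : ∀ b, b < B → s b + L ≤ s (b + 1)) (hh : 0 < h) (hhL : 4 * h ≤ L) (d : ℝ)
    (hd0 : 0 ≤ d) (hd1 : d ≤ 1) (hd : 8 * d * h ≤ 1) (I : ℕ) :
    ∑ b ∈ range B, (((big p (s b) (s (b + 1) - s b) (d / 4 ^ I)).erase 1).card : ℝ) ≤
      (2 / 3 : ℝ) ^ I * ∑ b ∈ range B, ((big p (s b) (s (b + 1) - s b) d).card : ℝ) +
      2 / L * ∑ g ∈ (Nat.divisors (p - 1)).erase (p - 1),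
        ((p : ℝ) - 1) / g * ((win p g h).card : ℝ) := by
  classical
  have hp1 := hp.out.two_le
  have hLR : (0 : ℝ) < L := by exact_mod_cast hL
  have hpR : (0 : ℝ) < (p : ℝ) - 1 := by
    have : (2 : ℝ) ≤ p := by exact_mod_cast hp1
    linarith
  have hsB : ∀ b, b < B → s (b + 1) ≤ p / 2 := fun b hb => (hs (by omega)).trans hB
  have h1 : ∀ b ∈ range B, (((big p (s b) (s (b + 1) - s b) (d / 4 ^ I)).erase 1).card : ℝ) ≤
      (2 / 3 : ℝ) ^ I * ((big p (s b) (s (b + 1) - s b) d).card : ℝ) +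
      2 / L * ∑ g ∈ (Nat.divisors (p - 1)).erase (p - 1),
        ((p : ℝ) - 1) / g * ((win p g h ∩ Ico (s b) (s (b + 1))).card : ℝ) := by
    intro b hb
    rw [Finset.mem_range] at hb
    have hl := hlen b hb
    have hsb := hsB b hb
    set ℓ := s (b + 1) - s b with hℓ
    have e1 : s b + ℓ = s (b + 1) := by omega
    have hnn1 : 0 ≤ (2 / 3 : ℝ) ^ I * ((big p (s b) ℓ d).card : ℝ) := by positivity
    have hnn2 : ∀ g ∈ (Nat.divisors (p - 1)).erase (p - 1), 0 ≤ ((p : ℝ) - 1) / g *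
        ((win p g h ∩ Ico (s b) (s (b + 1))).card : ℝ) := by
      intro g _
      exact mul_nonneg (div_nonneg hpR.le (by positivity)) (by positivity)
    have hnn3 : 0 ≤ 2 / (L : ℝ) * ∑ g ∈ (Nat.divisors (p - 1)).erase (p - 1),
        ((p : ℝ) - 1) / g * ((win p g h ∩ Ico (s b) (s (b + 1))).card : ℝ) :=
      mul_nonneg (by positivity) (Finset.sum_nonneg hnn2)
    rcases Finset.eq_empty_or_nonempty ((big p (s b) ℓ (d / 4 ^ I)).erase 1) with h0 | h0
    · rw [h0, Finset.card_empty, Nat.cast_zero]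
      linarith
    obtain ⟨ψ, hψ⟩ := h0
    rw [Finset.mem_erase] at hψ
    have hle : (((big p (s b) ℓ (d / 4 ^ I)).erase 1).card : ℝ) ≤
        ((big p (s b) ℓ (d / 4 ^ I)).card : ℝ) := by
      exact_mod_cast Finset.card_le_card (Finset.erase_subset _ _)
    rcases big_chain (p := p) (s b) ℓ (by omega) d hd0 I with hc | ⟨K, hK1, hK2⟩
    · have h2 : ((big p (s b) ℓ (d / 4 ^ I)).card : ℝ) ≤
          (2 / 3 : ℝ) ^ I * ((big p (s b) ℓ d).card : ℝ) := by
        have h3 : (2 / 3 : ℝ) ^ I * (3 / 2 : ℝ) ^ I = 1 := by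
          rw [← mul_pow]; norm_num
        calc ((big p (s b) ℓ (d / 4 ^ I)).card : ℝ) =
            (2 / 3 : ℝ) ^ I * ((3 / 2 : ℝ) ^ I * ((big p (s b) ℓ (d / 4 ^ I)).card : ℝ)) := by
              rw [← mul_assoc, h3, one_mul]
          _ ≤ _ := by gcongr
      linarith
    · -- the subgroup case
      letI : Fintype K := Fintype.ofFinite K
      set g := Nat.card (ann K) with hg
      have hgK : g * Nat.card K = p - 1 := card_ann K
      have hcardK : (big p (s b) ℓ (d / 4 ^ I)).card ≤ Nat.card K := by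
        rw [Nat.card_eq_fintype_card]
        have : (big p (s b) ℓ (d / 4 ^ I)).card ≤
            (Finset.univ.map (Function.Embedding.subtype (fun χ => χ ∈ K))).card := by
          apply Finset.card_le_card
          intro χ hχ
          rw [Finset.mem_map]
          exact ⟨⟨χ, hK1 χ hχ⟩, Finset.mem_univ _, rfl⟩
        rwa [Finset.card_map, Finset.card_univ] at this
      have hK2' : 2 ≤ Nat.card K := by
        have h1mem : (1 : DirichletCharacter ℂ p) ∈ big p (s b) ℓ (d / 4 ^ I) :=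
          one_mem_big _ _ (by omega) _ (by positivity)
        have : ({ψ, 1} : Finset (DirichletCharacter ℂ p)) ⊆ big p (s b) ℓ (d / 4 ^ I) := by
          intro χ hχ
          rw [Finset.mem_insert, Finset.mem_singleton] at hχ
          rcases hχ with rfl | rfl
          · exact hψ.2
          · exact h1mem
        have h2 := Finset.card_le_card this
        rw [Finset.card_pair hψ.1] at h2
        omega
      have hp1' : 0 < p - 1 := by omega
      have hgpos : 0 < g := by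
        rcases Nat.eq_zero_or_pos g with h2 | h2
        · rw [h2, zero_mul] at hgK; omega
        · exact h2
      have hgmem : g ∈ (Nat.divisors (p - 1)).erase (p - 1) := by
        rw [Finset.mem_erase, Nat.mem_divisors]
        refine ⟨?_, ⟨Dvd.intro _ hgK, by omega⟩⟩
        intro h2
        rw [h2] at hgK
        have : (p - 1) * 2 ≤ (p - 1) * Nat.card K := Nat.mul_le_mul_left _ hK2'
        omega
      obtain ⟨j, hj, hbad⟩ := sub_type (p := p) (s b) ℓ (by omega) (by omega) d hd1 K hK2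
      have hw := win_ge (p := p) (s b) ℓ h g (by omega) hh (by omega) d hd j hj hbad
      rw [e1] at hw
      have hcR : ((Nat.card K : ℕ) : ℝ) = ((p : ℝ) - 1) / g := by
        have : (g : ℝ) * (Nat.card K : ℝ) = (p : ℝ) - 1 := by
          rw [← Nat.cast_mul, hgK, Nat.cast_sub (by omega)]; simp
        rw [eq_div_iff (by positivity)]
        linarith
      have hLℓ : (L : ℝ) ≤ ℓ := by exact_mod_cast (by omega : L ≤ ℓ)
      have h6 : (1 : ℝ) ≤ 2 / L * ((win p g h ∩ Ico (s b) (s (b + 1))).card : ℝ) := by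
        calc (1 : ℝ) = 2 / L * (L / 2) := by field_simp
          _ ≤ 2 / L * ((win p g h ∩ Ico (s b) (s (b + 1))).card : ℝ) := by
              apply mul_le_mul_of_nonneg_left _ (by positivity)
              linarith
      have h7 : ((p : ℝ) - 1) / g * ((win p g h ∩ Ico (s b) (s (b + 1))).card : ℝ) ≤
          ∑ g ∈ (Nat.divisors (p - 1)).erase (p - 1),
            ((p : ℝ) - 1) / g * ((win p g h ∩ Ico (s b) (s (b + 1))).card : ℝ) :=
        Finset.single_le_sum hnn2 hgmem
      have h8 : ((big p (s b) ℓ (d / 4 ^ I)).card : ℝ) ≤ 2 / L *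
          ∑ g ∈ (Nat.divisors (p - 1)).erase (p - 1),
            ((p : ℝ) - 1) / g * ((win p g h ∩ Ico (s b) (s (b + 1))).card : ℝ) := by
        calc ((big p (s b) ℓ (d / 4 ^ I)).card : ℝ) ≤ (Nat.card K : ℝ) := by
              exact_mod_cast hcardK
          _ = ((p : ℝ) - 1) / g * 1 := by rw [hcR, mul_one]
          _ ≤ ((p : ℝ) - 1) / g * (2 / L *
              ((win p g h ∩ Ico (s b) (s (b + 1))).card : ℝ)) := by
              apply mul_le_mul_of_nonneg_left h6 (div_nonneg hpR.le (by positivity))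
          _ = 2 / L * (((p : ℝ) - 1) / g *
              ((win p g h ∩ Ico (s b) (s (b + 1))).card : ℝ)) := by ring
          _ ≤ _ := by
              apply mul_le_mul_of_nonneg_left h7 (by positivity)
      linarith
  refine (Finset.sum_le_sum h1).trans ?_
  rw [Finset.sum_add_distrib, ← Finset.mul_sum, ← Finset.mul_sum, Finset.sum_comm]
  gcongr with g hg
  rw [← Finset.mul_sum]
  apply mul_le_mul_of_nonneg_left _ (div_nonneg hpR.le (by positivity))
  have h2 : ∀ b, ((win p g h ∩ Ico (s b) (s (b + 1))).card : ℝ) =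
      ∑ c ∈ Ico (s b) (s (b + 1)), (if c ∈ win p g h then (1 : ℝ) else 0) := by
    intro b
    rw [← Finset.sum_filter, Finset.sum_const, nsmul_eq_mul, mul_one]
    congr 2
    ext c
    rw [Finset.mem_inter, Finset.mem_filter, and_comm]
  rw [Finset.sum_congr rfl (fun b _ => h2 b), sum_consecutive s hs B, ← Finset.sum_filter,
    Finset.sum_const, nsmul_eq_mul, mul_one]
  exact_mod_cast Finset.card_le_card (fun c hc => (Finset.mem_filter.mp hc).2)

end MP1fb.L2
end

section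
/-!
MP_1fb68e_nt, two local shuffles: short intervals inside cosets of subgroups of small index.
-/
set_option autoImplicit false

namespace MP1fb.L2

open Finset

variable {p : ℕ} [hp : Fact p.Prime]

open Classical in
lemma card_pow_one (g : ℕ) (hg : 0 < g) :
    ((univ : Finset (DirichletCharacter ℂ p)).filter (fun χ => χ ^ g = 1)).card ≤ g := by
  obtain ⟨γ, hγ⟩ := IsCyclic.exists_generator (α := (ZMod p)ˣ)
  calc _ ≤ ((Polynomial.nthRoots g (1 : ℂ)).toFinset).card := by
        apply Finset.card_le_card_of_injOn (fun χ => χ (γ : ZMod p))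
        · intro χ hχ
          rw [Finset.mem_coe, Finset.mem_filter] at hχ
          rw [Finset.mem_coe, Multiset.mem_toFinset, Polynomial.mem_nthRoots hg]
          beta_reduce
          rw [← MulChar.pow_apply_coe, hχ.2, MulChar.one_apply_coe]
        · intro χ _ ψ _ h
          beta_reduce at h
          rw [MulChar.ext_iff]
          intro v
          obtain ⟨i, hi⟩ := (mem_powers_iff_mem_zpowers (x := γ)).mpr (hγ v)
          rw [← hi]
          beta_reduce
          rw [Units.val_pow_eq_pow_val, map_pow, map_pow, h]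
    _ ≤ Multiset.card (Polynomial.nthRoots g (1 : ℂ)) := Multiset.toFinset_card_le _
    _ ≤ g := Polynomial.card_nthRoots _ _

lemma card_chars : Fintype.card (DirichletCharacter ℂ p) = p - 1 := by
  rw [← Nat.card_eq_fintype_card, ← Nat.totient_prime hp.out]
  exact DirichletCharacter.card_eq_totient_of_hasEnoughRootsOfUnity ℂ p

/-- a nontrivial character, trivial on the group `x ^ g = 1` -/
lemma exists_triv (g : ℕ) (hg : 0 < g) (hg' : g < p - 1) :
    ∃ ψ : DirichletCharacter ℂ p, ψ ≠ 1 ∧ ∀ x : ZMod p, x ^ g = 1 → ψ x = 1 := by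
  classical
  have h1 := card_pow_one (p := p) g hg
  have h2 : ∃ χ : DirichletCharacter ℂ p, χ ^ g ≠ 1 := by
    by_contra hcon
    push Not at hcon
    rw [Finset.filter_true_of_mem (fun χ _ => hcon χ), Finset.card_univ, card_chars] at h1
    omega
  obtain ⟨χ, hχ⟩ := h2
  refine ⟨χ ^ g, hχ, ?_⟩
  intro x hx
  have hx0 : x ≠ 0 := by
    rintro rfl
    rw [zero_pow hg.ne'] at hx
    exact zero_ne_one hx
  obtain ⟨u, rfl⟩ := isUnit_iff_ne_zero.mpr hx0
  rw [MulChar.pow_apply_coe, ← map_pow, hx, map_one]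

lemma sum_shift (ψ : DirichletCharacter ℂ p) (hψ : ψ ≠ 1) (c : ZMod p) (hc : c ≠ 0) :
    ∑ x, ψ (x + c) * (starRingEnd ℂ) (ψ x) = -1 := by
  have h0 : ∀ x, (starRingEnd ℂ) (ψ x) = ψ⁻¹ x := by
    intro x
    rw [← MulChar.star_apply']
    rfl
  simp only [h0]
  have hnc : -c ≠ 0 := neg_ne_zero.mpr hc
  rw [← Equiv.sum_comp (Equiv.mulLeft₀ (-c) hnc)]
  have h1 : ∀ y, ψ ((Equiv.mulLeft₀ (-c) hnc) y + c) * ψ⁻¹ ((Equiv.mulLeft₀ (-c) hnc) y) =
      (ψ c * ψ⁻¹ (-c)) * (ψ⁻¹ y * ψ (1 - y)) := by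
    intro y
    have e : (Equiv.mulLeft₀ (-c) hnc) y = -c * y := rfl
    rw [e, show -c * y + c = c * (1 - y) by ring, map_mul, map_mul]
    ring
  rw [Finset.sum_congr rfl (fun y _ => h1 y), ← Finset.mul_sum]
  have hψ' : ψ⁻¹ ≠ 1 := inv_ne_one.mpr hψ
  have h2 := jacobiSum_nontrivial_inv hψ'
  rw [inv_inv] at h2
  unfold jacobiSum at h2
  rw [h2]
  have h3 : ψ⁻¹ (-c) = ψ⁻¹ (-1) * ψ⁻¹ c := by
    rw [← map_mul, neg_one_mul]
  have h4 : ψ c * ψ⁻¹ c = 1 := by
    obtain ⟨u, rfl⟩ := isUnit_iff_ne_zero.mpr hc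
    have : (ψ * ψ⁻¹) (u : ZMod p) = 1 := by
      rw [mul_inv_cancel, MulChar.one_apply_coe]
    exact this
  have h5 : ψ⁻¹ (-1) * ψ⁻¹ (-1) = 1 := by
    rw [← map_mul, neg_one_mul, neg_neg, map_one]
  rw [h3]
  calc ψ c * (ψ⁻¹ (-1) * ψ⁻¹ c) * -ψ⁻¹ (-1) = -((ψ c * ψ⁻¹ c) * (ψ⁻¹ (-1) * ψ⁻¹ (-1))) := by ring
    _ = -1 := by rw [h4, h5, mul_one]

lemma sum_range_zmod {M : Type*} [AddCommMonoid M] (F : ZMod p → M) :
    ∑ a ∈ range p, F (a : ZMod p) = ∑ x, F x := by
  apply Finset.sum_nbij' (fun a : ℕ => (a : ZMod p)) ZMod.val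
  · intro a _; exact Finset.mem_univ _
  · intro x _; exact Finset.mem_range.mpr (ZMod.val_lt x)
  · intro a ha
    rw [Finset.mem_range] at ha
    exact ZMod.val_cast_of_lt ha
  · intro x _
    exact ZMod.natCast_zmod_val x
  · intro a _; rfl

/-- the second moment -/
theorem second_moment (ψ : DirichletCharacter ℂ p) (hψ : ψ ≠ 1) (h : ℕ) (hh : h ≤ p) :
    ∑ a ∈ range p, ‖cs ψ a h‖ ^ 2 ≤ (h : ℝ) * p := by
  have h1 : ∀ a : ℕ, ((‖cs ψ a h‖ ^ 2 : ℝ) : ℂ) = ∑ i ∈ range h, ∑ j ∈ range h,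
      ψ ((a : ZMod p) + (i : ZMod p) + 1) * (starRingEnd ℂ) (ψ ((a : ZMod p) + (j : ZMod p) + 1)) := by
    intro a
    rw [← Complex.normSq_eq_norm_sq, ← Complex.mul_conj]
    unfold cs
    rw [map_sum, Finset.sum_mul_sum]
    push_cast
    rfl
  have h2 : ∀ i ∈ range h, ∀ j ∈ range h, (∑ a ∈ range p,
      ψ ((a : ZMod p) + (i : ZMod p) + 1) *
        (starRingEnd ℂ) (ψ ((a : ZMod p) + (j : ZMod p) + 1))).re ≤ if i = j then (p : ℝ) else 0 := by
    intro i hi j hj
    rw [Finset.mem_range] at hi hj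
    split_ifs with hij
    · subst hij
      refine (Complex.re_le_norm _).trans ((norm_sum_le _ _).trans ?_)
      calc _ ≤ ∑ _a ∈ range p, (1 : ℝ) := by
            apply Finset.sum_le_sum
            intro a _
            rw [norm_mul, RCLike.norm_conj]
            have h3 := norm_char_le ψ ((a : ZMod p) + (i : ZMod p) + 1)
            have h4 := norm_nonneg (ψ ((a : ZMod p) + (i : ZMod p) + 1))
            nlinarith
        _ = p := by simp
    · rw [sum_range_zmod (fun x => ψ (x + (i : ZMod p) + 1) *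
        (starRingEnd ℂ) (ψ (x + (j : ZMod p) + 1)))]
      have hc : ((i : ZMod p) - j) ≠ 0 := by
        rw [sub_ne_zero, Ne, ZMod.natCast_eq_natCast_iff]
        intro h3
        exact hij (Nat.ModEq.eq_of_lt_of_lt h3 (by omega) (by omega))
      have h3 := sum_shift ψ hψ ((i : ZMod p) - j) hc
      rw [← Equiv.sum_comp (Equiv.addRight ((j : ZMod p) + 1))] at h3
      have h4 : ∀ x : ZMod p, ψ ((Equiv.addRight ((j : ZMod p) + 1)) x + ((i : ZMod p) - j)) *
          (starRingEnd ℂ) (ψ ((Equiv.addRight ((j : ZMod p) + 1)) x)) =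
          ψ (x + (i : ZMod p) + 1) * (starRingEnd ℂ) (ψ (x + (j : ZMod p) + 1)) := by
        intro x
        simp only [Equiv.coe_addRight]
        rw [show x + ((j : ZMod p) + 1) + ((i : ZMod p) - j) = x + i + 1 by ring,
          show x + ((j : ZMod p) + 1) = x + j + 1 by ring]
      rw [Finset.sum_congr rfl (fun x _ => h4 x)] at h3
      rw [h3]
      norm_num
  have h3 : ∑ a ∈ range p, ‖cs ψ a h‖ ^ 2 = ∑ i ∈ range h, ∑ j ∈ range h, (∑ a ∈ range p,
      ψ ((a : ZMod p) + (i : ZMod p) + 1) *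
        (starRingEnd ℂ) (ψ ((a : ZMod p) + (j : ZMod p) + 1))).re := by
    have h4 : ((∑ a ∈ range p, ‖cs ψ a h‖ ^ 2 : ℝ) : ℂ) = ∑ i ∈ range h, ∑ j ∈ range h,
        ∑ a ∈ range p, ψ ((a : ZMod p) + (i : ZMod p) + 1) *
        (starRingEnd ℂ) (ψ ((a : ZMod p) + (j : ZMod p) + 1)) := by
      rw [Complex.ofReal_sum, Finset.sum_congr rfl (fun a _ => h1 a), Finset.sum_comm]
      apply Finset.sum_congr rfl
      intro i _
      rw [Finset.sum_comm]
    have h5 := congrArg Complex.re h4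
    rw [Complex.ofReal_re, Complex.re_sum] at h5
    rw [h5]
    apply Finset.sum_congr rfl
    intro i _
    rw [Complex.re_sum]
  rw [h3]
  calc _ ≤ ∑ i ∈ range h, ∑ j ∈ range h, (if i = j then (p : ℝ) else 0) :=
        Finset.sum_le_sum (fun i hi => Finset.sum_le_sum (fun j hj => h2 i hi j hj))
    _ = ∑ i ∈ range h, (p : ℝ) := by
        apply Finset.sum_congr rfl
        intro i hi
        rw [Finset.sum_ite_eq, if_pos hi]
    _ = (h : ℝ) * p := by rw [Finset.sum_const, Finset.card_range, nsmul_eq_mul]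

/-- short intervals inside cosets, small index -/
theorem win_small (g h : ℕ) (hg : 0 < g) (hg' : g < p - 1) (hh : 0 < h) (hhp : h ≤ p / 2) :
    ((win p g h).card : ℝ) ≤ p / h := by
  obtain ⟨ψ, hψ, hψ1⟩ := exists_triv (p := p) g hg hg'
  have hhR : (0 : ℝ) < h := by exact_mod_cast hh
  have h1 : ∀ a ∈ win p g h, ‖cs ψ a h‖ = h := by
    intro a ha
    unfold win at ha
    rw [Finset.mem_filter, Finset.mem_range] at ha
    have ha0 : ((a + 1 : ℕ) : ZMod p) ≠ 0 := cast_ne _ (by omega) (by omega)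
    have h2 : ∀ j ∈ range h, ψ ((a + j + 1 : ℕ) : ZMod p) = ψ ((a + 1 : ℕ) : ZMod p) := by
      intro j hj
      rw [Finset.mem_range] at hj
      have h3 := hψ1 _ (ha.2 j hj)
      rw [map_mul] at h3
      have h4 : ψ ((a + 1 : ℕ) : ZMod p)⁻¹ * ψ ((a + 1 : ℕ) : ZMod p) = 1 := by
        rw [← map_mul, inv_mul_cancel₀ ha0, map_one]
      calc ψ ((a + j + 1 : ℕ) : ZMod p) = ψ ((a + j + 1 : ℕ) : ZMod p) *
            (ψ ((a + 1 : ℕ) : ZMod p)⁻¹ * ψ ((a + 1 : ℕ) : ZMod p)) := by rw [h4, mul_one]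
        _ = (ψ ((a + j + 1 : ℕ) : ZMod p) * ψ ((a + 1 : ℕ) : ZMod p)⁻¹) *
            ψ ((a + 1 : ℕ) : ZMod p) := by ring
        _ = _ := by rw [h3, one_mul]
    unfold cs
    rw [Finset.sum_congr rfl h2, Finset.sum_const, Finset.card_range, nsmul_eq_mul, norm_mul,
      norm_char ψ _ ha0, mul_one, Complex.norm_natCast]
  have h2 : ((win p g h).card : ℝ) * (h : ℝ) ^ 2 ≤ h * p := by
    calc ((win p g h).card : ℝ) * (h : ℝ) ^ 2 = ∑ a ∈ win p g h, ‖cs ψ a h‖ ^ 2 := by
          rw [Finset.sum_congr rfl (fun a ha => by rw [h1 a ha]), Finset.sum_const, nsmul_eq_mul]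
      _ ≤ ∑ a ∈ range p, ‖cs ψ a h‖ ^ 2 := by
          apply Finset.sum_le_sum_of_subset_of_nonneg
          · intro a ha
            unfold win at ha
            rw [Finset.mem_filter, Finset.mem_range] at ha
            rw [Finset.mem_range]
            omega
          · intro a _ _
            positivity
      _ ≤ _ := second_moment ψ hψ h (by omega)
  rw [le_div_iff₀ hhR]
  have h3 : (((win p g h).card : ℝ) * h) * h ≤ p * h := by nlinarith
  exact le_of_mul_le_mul_right h3 hhR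

end MP1fb.L2
end

section
/-!
MP_1fb68e_nt, two local shuffles: short intervals inside cosets of subgroups, by Jacobi sums.
-/
set_option autoImplicit false

namespace MP1fb.L2

open Finset

variable {p : ℕ} [hp : Fact p.Prime]

lemma jac_norm (χ φ : DirichletCharacter ℂ p) (h : ¬ (χ = 1 ∧ φ = 1)) :
    ‖jacobiSum χ φ‖ ≤ Real.sqrt p := by
  have hp1 : (1 : ℝ) ≤ p := by exact_mod_cast hp.out.one_le
  have h1 : (1 : ℝ) ≤ Real.sqrt p := by
    rw [Real.one_le_sqrt]; exact hp1
  by_cases hχ : χ = 1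
  · have hφ : φ ≠ 1 := fun hφ => h ⟨hχ, hφ⟩
    rw [hχ, jacobiSum_one_nontrivial hφ, norm_neg, norm_one]
    exact h1
  · by_cases hφ : φ = 1
    · rw [hφ, jacobiSum_comm, jacobiSum_one_nontrivial hχ, norm_neg, norm_one]
      exact h1
    · by_cases hχφ : χ * φ = 1
      · have : φ = χ⁻¹ := (inv_eq_of_mul_eq_one_right hχφ).symm
        rw [this, jacobiSum_nontrivial_inv hχ, norm_neg]
        exact (norm_char_le χ _).trans h1
      · have hring : ringChar ℂ ≠ ringChar (ZMod p) := by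
          rw [ringChar.eq_zero, ZMod.ringChar_zmod_n]
          exact hp.out.ne_zero.symm
        have h2 := jacobiSum_mul_jacobiSum_inv hring hχ hφ hχφ
        have h3 : jacobiSum χ⁻¹ φ⁻¹ = (starRingEnd ℂ) (jacobiSum χ φ) := by
          unfold jacobiSum
          rw [map_sum]
          apply Finset.sum_congr rfl
          intro x _
          rw [map_mul, ← MulChar.star_apply', ← MulChar.star_apply']
          rfl
        rw [h3, Complex.mul_conj, ZMod.card, Complex.normSq_eq_norm_sq] at h2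
        have h4 : ‖jacobiSum χ φ‖ ^ 2 = p := by exact_mod_cast h2
        rw [← h4, Real.sqrt_sq (norm_nonneg _)]

lemma two_ne (hodd : p % 2 = 1) : (2 : ZMod p) ≠ 0 := by
  have hp1 := hp.out.two_le
  have := cast_ne (p := p) 2 (by norm_num) (by omega)
  exact_mod_cast this

lemma jac_shift (hodd : p % 2 = 1) (α β : DirichletCharacter ℂ p) (h : ¬ (α = 1 ∧ β = 1)) :
    ‖∑ x, α x * β (2 * x - 1)‖ ≤ Real.sqrt p := by
  have h2 := two_ne (p := p) hodd
  have h2' : (2 : ZMod p)⁻¹ ≠ 0 := inv_ne_zero h2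
  rw [← Equiv.sum_comp (Equiv.mulLeft₀ (2 : ZMod p)⁻¹ h2')]
  have h1 : ∀ y, α ((Equiv.mulLeft₀ (2 : ZMod p)⁻¹ h2') y) *
      β (2 * (Equiv.mulLeft₀ (2 : ZMod p)⁻¹ h2') y - 1) =
      (α (2 : ZMod p)⁻¹ * β (-1)) * (α y * β (1 - y)) := by
    intro y
    have e : (Equiv.mulLeft₀ (2 : ZMod p)⁻¹ h2') y = 2⁻¹ * y := rfl
    rw [e, show 2 * (2⁻¹ * y) - 1 = -1 * (1 - y) by field_simp; ring, map_mul, map_mul]
    ring
  rw [Finset.sum_congr rfl (fun y _ => h1 y), ← Finset.mul_sum, norm_mul, norm_mul]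
  have h3 := jac_norm α β h
  unfold jacobiSum at h3
  have h4 := norm_char_le α (2 : ZMod p)⁻¹
  have h5 := norm_char_le β (-1)
  have h6 : ‖α (2 : ZMod p)⁻¹‖ * ‖β (-1)‖ ≤ 1 := by
    have := mul_le_mul h4 h5 (norm_nonneg _) zero_le_one
    linarith
  calc _ ≤ 1 * ‖∑ y, α y * β (1 - y)‖ := by gcongr
    _ ≤ _ := by rw [one_mul]; exact h3

open Classical in
/-- pairs in the group `x ^ g = 1` on a line -/
lemma line_card (hodd : p % 2 = 1) (g : ℕ) (hg : 0 < g) :
    ((p : ℝ) - 1) ^ 2 * (((univ : Finset (ZMod p)).filter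
      (fun x => x ^ g = 1 ∧ (2 * x - 1) ^ g = 1)).card : ℝ) ≤
      (g : ℝ) ^ 2 * p + ((p : ℝ) - 1) ^ 2 * Real.sqrt p := by
  have hp1 := hp.out.two_le
  have htot : (Nat.totient p : ℂ) = (p : ℂ) - 1 := by
    rw [Nat.totient_prime hp.out, Nat.cast_sub (by omega)]; simp
  have hchar : ∀ a : ZMod p, ∑ χ : DirichletCharacter ℂ p, χ a =
      if a = 1 then (p : ℂ) - 1 else 0 := by
    intro a
    rw [DirichletCharacter.sum_characters_eq, htot]
  have hpow : ∀ (χ : DirichletCharacter ℂ p) (x : ZMod p), χ (x ^ g) = (χ ^ g) x := by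
    intro χ x
    rw [map_pow, MulChar.pow_apply' χ hg.ne']
  have hmain : (((p : ℝ) - 1) ^ 2 * (((univ : Finset (ZMod p)).filter
      (fun x => x ^ g = 1 ∧ (2 * x - 1) ^ g = 1)).card : ℝ) : ℂ) =
      ∑ χ : DirichletCharacter ℂ p, ∑ ψ : DirichletCharacter ℂ p,
        ∑ x, (χ ^ g) x * (ψ ^ g) (2 * x - 1) := by
    have h1 : ∀ x : ZMod p, ∑ χ : DirichletCharacter ℂ p, ∑ ψ : DirichletCharacter ℂ p,
        (χ ^ g) x * (ψ ^ g) (2 * x - 1) =
        if (x ^ g = 1 ∧ (2 * x - 1) ^ g = 1) then ((p : ℂ) - 1) ^ 2 else 0 := by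
      intro x
      rw [← Finset.sum_mul_sum]
      have e1 : ∑ χ : DirichletCharacter ℂ p, (χ ^ g) x = if x ^ g = 1 then (p : ℂ) - 1 else 0 := by
        rw [← hchar]
        exact Finset.sum_congr rfl (fun χ _ => (hpow χ x).symm)
      have e2 : ∑ χ : DirichletCharacter ℂ p, (χ ^ g) (2 * x - 1) =
          if (2 * x - 1) ^ g = 1 then (p : ℂ) - 1 else 0 := by
        rw [← hchar]
        exact Finset.sum_congr rfl (fun χ _ => (hpow χ _).symm)
      rw [e1, e2]
      by_cases ha : x ^ g = 1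
      · by_cases hb : (2 * x - 1) ^ g = 1
        · rw [if_pos ha, if_pos hb, if_pos ⟨ha, hb⟩]; ring
        · rw [if_neg hb, if_neg (fun h : x ^ g = 1 ∧ (2 * x - 1) ^ g = 1 => hb h.2), mul_zero]
      · rw [if_neg ha, if_neg (fun h : x ^ g = 1 ∧ (2 * x - 1) ^ g = 1 => ha h.1), zero_mul]
    have h2 : ∑ χ : DirichletCharacter ℂ p, ∑ ψ : DirichletCharacter ℂ p,
        ∑ x, (χ ^ g) x * (ψ ^ g) (2 * x - 1) =
        ∑ x, ∑ χ : DirichletCharacter ℂ p, ∑ ψ : DirichletCharacter ℂ p,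
        (χ ^ g) x * (ψ ^ g) (2 * x - 1) := by
      have h3 : ∀ χ : DirichletCharacter ℂ p, ∑ ψ : DirichletCharacter ℂ p,
          ∑ x, (χ ^ g) x * (ψ ^ g) (2 * x - 1) =
          ∑ x, ∑ ψ : DirichletCharacter ℂ p, (χ ^ g) x * (ψ ^ g) (2 * x - 1) :=
        fun χ => Finset.sum_comm
      rw [Finset.sum_congr rfl (fun χ _ => h3 χ), Finset.sum_comm]
    rw [h2, Finset.sum_congr rfl (fun x _ => h1 x), ← Finset.sum_filter, Finset.sum_const,
      nsmul_eq_mul]
    push_cast
    ring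
  -- the bound
  have hb1 : ∀ χ ψ : DirichletCharacter ℂ p, ‖∑ x, (χ ^ g) x * (ψ ^ g) (2 * x - 1)‖ ≤
      (if χ ^ g = 1 then (1 : ℝ) else 0) * (if ψ ^ g = 1 then (1 : ℝ) else 0) * p + Real.sqrt p := by
    intro χ ψ
    by_cases h : χ ^ g = 1 ∧ ψ ^ g = 1
    · rw [if_pos h.1, if_pos h.2, one_mul, one_mul]
      refine (norm_sum_le _ _).trans ?_
      have : ∑ x : ZMod p, ‖(χ ^ g) x * (ψ ^ g) (2 * x - 1)‖ ≤ p := by
        calc _ ≤ ∑ _x : ZMod p, (1 : ℝ) := by
              apply Finset.sum_le_sum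
              intro x _
              rw [norm_mul]
              have h4 := norm_char_le (χ ^ g) x
              have h5 := norm_char_le (ψ ^ g) (2 * x - 1)
              have h6 := mul_le_mul h4 h5 (norm_nonneg _) zero_le_one
              linarith
          _ = p := by simp
      have := Real.sqrt_nonneg (p : ℝ)
      linarith
    · refine (jac_shift hodd _ _ h).trans ?_
      have : 0 ≤ (if χ ^ g = 1 then (1 : ℝ) else 0) * (if ψ ^ g = 1 then (1 : ℝ) else 0) * (p : ℝ) := by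
        split_ifs <;> simp
      linarith
  have hcardR : (Fintype.card (DirichletCharacter ℂ p) : ℝ) = (p : ℝ) - 1 := by
    rw [card_chars, Nat.cast_sub (by omega)]; simp
  have hleft : ‖(((p : ℝ) - 1) ^ 2 * (((univ : Finset (ZMod p)).filter
      (fun x => x ^ g = 1 ∧ (2 * x - 1) ^ g = 1)).card : ℝ) : ℂ)‖ =
      ((p : ℝ) - 1) ^ 2 * (((univ : Finset (ZMod p)).filter
      (fun x => x ^ g = 1 ∧ (2 * x - 1) ^ g = 1)).card : ℝ) := by
    have e : (((p : ℝ) - 1) ^ 2 * (((univ : Finset (ZMod p)).filter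
      (fun x => x ^ g = 1 ∧ (2 * x - 1) ^ g = 1)).card : ℝ) : ℂ) =
      ((((p : ℝ) - 1) ^ 2 * (((univ : Finset (ZMod p)).filter
      (fun x => x ^ g = 1 ∧ (2 * x - 1) ^ g = 1)).card : ℝ) : ℝ) : ℂ) := by push_cast; rfl
    rw [e, Complex.norm_real, Real.norm_of_nonneg (by positivity)]
  rw [← hleft, hmain]
  refine (norm_sum_le _ _).trans ?_
  have hc1 : ∑ χ : DirichletCharacter ℂ p, (if χ ^ g = 1 then (1 : ℝ) else 0) ≤ g := by
    rw [← Finset.sum_filter, Finset.sum_const, nsmul_eq_mul, mul_one]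
    exact_mod_cast card_pow_one (p := p) g hg
  have hc0 : 0 ≤ ∑ χ : DirichletCharacter ℂ p, (if χ ^ g = 1 then (1 : ℝ) else 0) :=
    Finset.sum_nonneg (fun χ _ => by split_ifs <;> norm_num)
  calc ∑ χ : DirichletCharacter ℂ p, ‖∑ ψ : DirichletCharacter ℂ p,
        ∑ x, (χ ^ g) x * (ψ ^ g) (2 * x - 1)‖
      ≤ ∑ χ : DirichletCharacter ℂ p, ∑ ψ : DirichletCharacter ℂ p,
        ((if χ ^ g = 1 then (1 : ℝ) else 0) * (if ψ ^ g = 1 then (1 : ℝ) else 0) * p +
          Real.sqrt p) := by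
        apply Finset.sum_le_sum
        intro χ _
        refine (norm_sum_le _ _).trans ?_
        exact Finset.sum_le_sum (fun ψ _ => hb1 χ ψ)
    _ = (∑ χ : DirichletCharacter ℂ p, (if χ ^ g = 1 then (1 : ℝ) else 0)) *
        (∑ ψ : DirichletCharacter ℂ p, (if ψ ^ g = 1 then (1 : ℝ) else 0)) * p +
        (Fintype.card (DirichletCharacter ℂ p) : ℝ) *
          ((Fintype.card (DirichletCharacter ℂ p) : ℝ) * Real.sqrt p) := by
        rw [Finset.sum_mul_sum, Finset.sum_mul]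
        rw [← Finset.card_univ, ← nsmul_eq_mul, ← nsmul_eq_mul, ← Finset.sum_const,
          ← Finset.sum_const, ← Finset.sum_add_distrib]
        apply Finset.sum_congr rfl
        intro χ _
        rw [Finset.sum_mul, ← Finset.sum_add_distrib]
    _ ≤ (g : ℝ) * g * p + ((p : ℝ) - 1) * (((p : ℝ) - 1) * Real.sqrt p) := by
        rw [hcardR]
        gcongr
    _ = _ := by ring

/-- short intervals inside cosets, by Jacobi sums -/
theorem win_jac (hodd : p % 2 = 1) (g h : ℕ) (hg : 0 < g) (hh : 3 ≤ h) (hp7 : 7 ≤ p) :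
    ((win p g h).card : ℝ) ≤ (g : ℝ) ^ 2 * p / ((p : ℝ) - 1) ^ 2 + Real.sqrt p := by
  classical
  have hp1 := hp.out.two_le
  have hle : (win p g h).card ≤ ((univ : Finset (ZMod p)).filter
      (fun x => x ^ g = 1 ∧ (2 * x - 1) ^ g = 1)).card := by
    apply Finset.card_le_card_of_injOn
      (fun a : ℕ => ((a + 2 : ℕ) : ZMod p) * ((a + 1 : ℕ) : ZMod p)⁻¹)
    · intro a ha
      rw [Finset.mem_coe] at ha
      unfold win at ha
      rw [Finset.mem_filter, Finset.mem_range] at ha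
      rw [Finset.mem_coe, Finset.mem_filter]
      refine ⟨Finset.mem_univ _, ha.2 1 (by omega), ?_⟩
      have h2 := ha.2 2 (by omega)
      have ha0 : ((a + 1 : ℕ) : ZMod p) ≠ 0 := cast_ne _ (by omega) (by omega)
      have e : 2 * (((a + 2 : ℕ) : ZMod p) * ((a + 1 : ℕ) : ZMod p)⁻¹) - 1 =
          ((a + 2 + 1 : ℕ) : ZMod p) * ((a + 1 : ℕ) : ZMod p)⁻¹ := by
        field_simp
        push_cast
        ring
      beta_reduce
      rw [e]
      exact h2
    · intro a ha b hb hab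
      rw [Finset.mem_coe] at ha hb
      unfold win at ha hb
      rw [Finset.mem_filter, Finset.mem_range] at ha hb
      beta_reduce at hab
      have ha0 : ((a + 1 : ℕ) : ZMod p) ≠ 0 := cast_ne _ (by omega) (by omega)
      have hb0 : ((b + 1 : ℕ) : ZMod p) ≠ 0 := cast_ne _ (by omega) (by omega)
      have h1 : ((a : ℕ) : ZMod p) = (b : ZMod p) := by
        field_simp at hab
        push_cast at hab
        linear_combination -hab
      exact Nat.ModEq.eq_of_lt_of_lt ((ZMod.natCast_eq_natCast_iff a b p).mp h1) (by omega)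
        (by omega)
  have h1 := line_card (p := p) hodd g hg
  have hpR : (0 : ℝ) < (p : ℝ) - 1 := by
    have : (7 : ℝ) ≤ p := by exact_mod_cast hp7
    linarith
  have h2 : ((win p g h).card : ℝ) ≤ (((univ : Finset (ZMod p)).filter
      (fun x => x ^ g = 1 ∧ (2 * x - 1) ^ g = 1)).card : ℝ) := by exact_mod_cast hle
  refine h2.trans ?_
  rw [← sub_le_iff_le_add, le_div_iff₀ (by positivity)]
  linarith

end MP1fb.L2
end

section
/-!
MP_1fb68e_nt, two local shuffles: short intervals inside cosets of small subgroups, by the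
inequality of Plünnecke and products of small primes.
-/
set_option autoImplicit false

namespace MP1fb.L2

open Finset
open scoped Pointwise

variable {p : ℕ} [hp : Fact p.Prime]

/-- unit of a number -/
noncomputable def un (p : ℕ) [Fact p.Prime] (n : ℕ) : (ZMod p)ˣ :=
  @dite _ ((n : ZMod p) ≠ 0) (Classical.propDecidable _) (fun h => Units.mk0 _ h) (fun _ => 1)

lemma un_val (n : ℕ) (h1 : 0 < n) (h2 : n < p) : ((un p n : (ZMod p)ˣ) : ZMod p) = n := by
  unfold un
  rw [dif_pos (cast_ne n h1 h2), Units.val_mk0]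

/-- the primes up to `R` -/
def prs (R : ℕ) : Finset ℕ := (range (R + 1)).filter Nat.Prime

lemma mem_prs (R q : ℕ) : q ∈ prs R ↔ q ≤ R ∧ q.Prime := by
  unfold prs
  rw [Finset.mem_filter, Finset.mem_range]
  constructor
  · rintro ⟨h1, h2⟩; exact ⟨by omega, h2⟩
  · rintro ⟨h1, h2⟩; exact ⟨by omega, h2⟩

/-- products of small primes -/
lemma prs_pow_le (R k : ℕ) (hk : 0 < k) (hR : R ^ k < p) :
    (prs R).card ^ k ≤ k.factorial * (((prs R).image (un p)) ^ k).card := by
  classical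
  have hRp : R < p := by
    rcases Nat.eq_zero_or_pos R with rfl | h
    · exact hp.out.pos
    · calc R = R ^ 1 := (pow_one R).symm
        _ ≤ R ^ k := Nat.pow_le_pow_right h hk
        _ < p := hR
  set T := Fintype.piFinset (fun _ : Fin k => prs R) with hT
  have hTcard : T.card = (prs R).card ^ k := by
    rw [hT, Fintype.card_piFinset]; simp
  have hTmem : ∀ n ∈ T, ∀ j, n j ≤ R ∧ (n j).Prime := by
    intro n hn j
    rw [hT, Fintype.mem_piFinset] at hn
    exact (mem_prs R _).mp (hn j)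
  have hprod : ∀ n ∈ T, ∏ j, n j < p := by
    intro n hn
    calc ∏ j, n j ≤ ∏ _j : Fin k, R := Finset.prod_le_prod' (fun j _ => (hTmem n hn j).1)
      _ = R ^ k := by simp
      _ < p := hR
  have hval : ∀ n ∈ T, (((∏ j, un p (n j) : (ZMod p)ˣ)) : ZMod p) = ((∏ j, n j : ℕ) : ZMod p) := by
    intro n hn
    rw [Units.coe_prod]
    push_cast
    apply Finset.prod_congr rfl
    intro j _
    have := hTmem n hn j
    exact un_val (n j) this.2.pos (by omega)
  rw [← hTcard]
  apply Finset.card_le_mul_card_image_of_maps_to (f := fun n : Fin k → ℕ => ∏ j, un p (n j))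
  · intro n hn
    rw [Finset.mem_pow]
    refine ⟨fun j => ⟨un p (n j), Finset.mem_image_of_mem _ ?_⟩, ?_⟩
    · rw [hT, Fintype.mem_piFinset] at hn
      exact hn j
    · rw [List.prod_ofFn]
  · intro b _
    rcases Finset.eq_empty_or_nonempty (T.filter (fun n => (∏ j, un p (n j)) = b)) with h0 | h0
    · rw [h0, Finset.card_empty]; exact Nat.zero_le _
    · obtain ⟨n, hn⟩ := h0
      rw [Finset.mem_filter] at hn
      refine le_trans (Finset.card_le_card ?_) (same_card_le (R + 1) k n)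
      intro m hm
      rw [Finset.mem_filter] at hm ⊢
      refine ⟨?_, ?_⟩
      · rw [mem_tup]
        intro j
        have := hTmem m hm.1 j
        omega
      · have h1 : ((∏ j, m j : ℕ) : ZMod p) = ((∏ j, n j : ℕ) : ZMod p) := by
          rw [← hval m hm.1, ← hval n hn.1, hm.2, hn.2]
        have h2 : ∏ j, m j = ∏ j, n j :=
          Nat.ModEq.eq_of_lt_of_lt ((ZMod.natCast_eq_natCast_iff _ _ p).mp h1) (hprod m hm.1)
            (hprod n hn.1)
        have h3 : (List.ofFn m).Perm (∏ j, n j).primeFactorsList := by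
          apply Nat.primeFactorsList_unique
          · rw [List.prod_ofFn]; exact h2
          · intro q hq
            rw [List.mem_ofFn] at hq
            obtain ⟨j, rfl⟩ := hq
            exact (hTmem m hm.1 j).2
        have h4 : (List.ofFn n).Perm (∏ j, n j).primeFactorsList := by
          apply Nat.primeFactorsList_unique
          · rw [List.prod_ofFn]
          · intro q hq
            rw [List.mem_ofFn] at hq
            obtain ⟨j, rfl⟩ := hq
            exact (hTmem n hn.1 j).2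
        exact h3.trans h4.symm

open Classical in
lemma shift_card (g : ℕ) (hg : 0 < g) :
    ((univ : Finset (ZMod p)ˣ).filter
      (fun u : (ZMod p)ˣ => (1 + (u : ZMod p)) ^ g = 1)).card ≤ g := by
  calc _ ≤ ((Polynomial.nthRoots g (1 : ZMod p)).toFinset).card := by
        apply Finset.card_le_card_of_injOn (fun u : (ZMod p)ˣ => 1 + (u : ZMod p))
        · intro u hu
          rw [Finset.mem_coe, Finset.mem_filter] at hu
          rw [Finset.mem_coe, Multiset.mem_toFinset, Polynomial.mem_nthRoots hg]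
          exact hu.2
        · intro u _ v _ h
          exact Units.ext (add_left_cancel h)
    _ ≤ Multiset.card (Polynomial.nthRoots g (1 : ZMod p)) := Multiset.toFinset_card_le _
    _ ≤ g := Polynomial.card_nthRoots _ _

/-- **short intervals inside cosets of small subgroups** -/
theorem win_plu (g h R k M : ℕ) (hg : 0 < g) (hk : 0 < k) (hRh : R < h) (hh : 2 ≤ h)
    (hR : R ^ k < p) (hM : M ^ k * g * k.factorial < (prs R).card ^ k) :
    M * (win p g h).card ≤ g := by
  classical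
  have hp1 := hp.out.two_le
  rcases Finset.eq_empty_or_nonempty (win p g h) with h0 | h0
  · rw [h0, Finset.card_empty, mul_zero]; exact Nat.zero_le _
  have hwin : ∀ a ∈ win p g h, a < p / 2 ∧ ∀ j, j < h →
      (((a + j + 1 : ℕ) : ZMod p) * ((a + 1 : ℕ) : ZMod p)⁻¹) ^ g = 1 := by
    intro a ha
    unfold win at ha
    rw [Finset.mem_filter, Finset.mem_range] at ha
    exact ha
  set A := (win p g h).image (fun a => (un p (a + 1))⁻¹) with hA
  have hAcard : A.card = (win p g h).card := by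
    rw [hA]
    apply Finset.card_image_of_injOn
    intro a ha b hb hab
    have ha' := hwin a ha
    have hb' := hwin b hb
    beta_reduce at hab
    have h1 : un p (a + 1) = un p (b + 1) := inv_injective hab
    have h2 := congrArg (fun u : (ZMod p)ˣ => (u : ZMod p)) h1
    beta_reduce at h2
    rw [un_val _ (by omega) (by omega), un_val _ (by omega) (by omega)] at h2
    have := Nat.ModEq.eq_of_lt_of_lt ((ZMod.natCast_eq_natCast_iff _ _ p).mp h2) (by omega)
      (by omega)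
    omega
  have hkey : ∀ a ∈ win p g h, ∀ q : ℕ, 0 < q → q < p → q < h →
      (1 + (((un p (a + 1))⁻¹ * un p q : (ZMod p)ˣ) : ZMod p)) ^ g = 1 := by
    intro a ha q hq hqp hqh
    have ha' := hwin a ha
    have ha0 : ((a + 1 : ℕ) : ZMod p) ≠ 0 := cast_ne _ (by omega) (by omega)
    have h1 := ha'.2 q hqh
    rw [Units.val_mul, Units.val_inv_eq_inv_val, un_val _ (by omega) (by omega),
      un_val q hq hqp]
    have e : 1 + ((a + 1 : ℕ) : ZMod p)⁻¹ * (q : ZMod p) =
        ((a + q + 1 : ℕ) : ZMod p) * ((a + 1 : ℕ) : ZMod p)⁻¹ := by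
      field_simp
      push_cast
      ring
    rw [e]
    exact h1
  have hRp : R < p := by
    rcases Nat.eq_zero_or_pos R with rfl | h
    · exact hp.out.pos
    · calc R = R ^ 1 := (pow_one R).symm
        _ ≤ R ^ k := Nat.pow_le_pow_right h hk
        _ < p := hR
  set Q := (prs R).image (un p) with hQ
  have hAQ : (A * Q).card ≤ g := by
    refine le_trans (Finset.card_le_card ?_) (shift_card (p := p) g hg)
    intro u hu
    rw [Finset.mem_mul] at hu
    obtain ⟨x, hx, y, hy, rfl⟩ := hu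
    rw [hA, Finset.mem_image] at hx
    rw [hQ, Finset.mem_image] at hy
    obtain ⟨a, ha, rfl⟩ := hx
    obtain ⟨q, hq, rfl⟩ := hy
    rw [mem_prs] at hq
    rw [Finset.mem_filter]
    exact ⟨Finset.mem_univ _, hkey a ha q hq.2.pos (by omega) (by omega)⟩
  have hAg : A.card ≤ g := by
    refine le_trans (Finset.card_le_card ?_) (shift_card (p := p) g hg)
    intro u hu
    rw [hA, Finset.mem_image] at hu
    obtain ⟨a, ha, rfl⟩ := hu
    rw [Finset.mem_filter]
    refine ⟨Finset.mem_univ _, ?_⟩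
    have h1 := hkey a ha 1 one_pos (by omega) (by omega)
    have h2 : un p 1 = 1 := by
      apply Units.ext
      rw [un_val 1 one_pos (by omega)]
      simp
    rwa [h2, mul_one] at h1
  by_contra hcon
  push Not at hcon
  rw [← hAcard] at hcon
  have hAne : A.Nonempty := h0.image _
  have hApos : 0 < A.card := hAne.card_pos
  have hpl := Finset.pluennecke_ruzsa_inequality_pow_mul hAne Q k
  have h1 : ((A * Q).card : ℚ≥0) / A.card ≤ M := by
    rw [div_le_iff₀ (by exact_mod_cast hApos)]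
    exact_mod_cast (hAQ.trans hcon.le)
  have h2 : ((Q ^ k).card : ℚ≥0) ≤ (M : ℚ≥0) ^ k * g := by
    refine hpl.trans ?_
    have : (A.card : ℚ≥0) ≤ g := by exact_mod_cast hAg
    gcongr
  have h3 : (Q ^ k).card ≤ M ^ k * g := by exact_mod_cast h2
  have h4 := prs_pow_le (p := p) R k hk hR
  rw [← hQ] at h4
  have h5 : k.factorial * (Q ^ k).card ≤ k.factorial * (M ^ k * g) := Nat.mul_le_mul_left _ h3
  have h6 : k.factorial * (M ^ k * g) = M ^ k * g * k.factorial := by ring
  omega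

end MP1fb.L2
end

section
/-!
MP_1fb68e_nt, two local shuffles: number of primes (from the prime number theorem).
-/
set_option autoImplicit false

namespace MP1fb.L2

open Finset Filter Topology

/-- prime number theorem -/
lemma pnt : Tendsto (fun x : ℕ => (Nat.primeCounting x : ℝ) / ((x : ℝ) / Real.log x)) atTop
    (𝓝 1) := by
  have h := (Pool.Agent.Lib.PntAP.pi_ap (q := 1) (a := 1) isUnit_one).comp
    tendsto_natCast_atTop_atTop
  simp only [Nat.totient_one, Nat.cast_one, div_one] at h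
  refine h.congr' ?_
  filter_upwards [eventually_gt_atTop 1] with x hx
  simp only [Function.comp_apply]
  unfold Pool.Agent.Lib.PntAP.piAP
  rw [Nat.floor_natCast]
  have h1 : ((Finset.Icc 1 x).filter (fun p : ℕ => p.Prime ∧ (p : ZMod 1) = 1)).card =
      Nat.primeCounting x := by
    rw [Nat.primeCounting, Nat.primeCounting', Nat.count_eq_card_filter_range]
    congr 1
    ext p
    rw [Finset.mem_filter, Finset.mem_filter, Finset.mem_Icc, Finset.mem_range]
    constructor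
    · rintro ⟨h1, h2, _⟩; exact ⟨by omega, h2⟩
    · rintro ⟨h1, h2⟩
      exact ⟨⟨h2.one_lt.le, by omega⟩, h2, Subsingleton.elim _ _⟩
  rw [h1]
  rw [div_div_eq_mul_div]

lemma card_prs (R : ℕ) : (prs R).card = Nat.primeCounting R := by
  unfold prs
  rw [Nat.primeCounting, Nat.primeCounting', Nat.count_eq_card_filter_range]

/-- many primes -/
lemma prs_ge : ∀ᶠ R : ℕ in atTop, R ^ 9 ≤ (prs R).card ^ 10 := by
  have h1 := pnt.eventually (lt_mem_nhds (show (1 / 2 : ℝ) < 1 by norm_num))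
  have h2 : ∀ᶠ x : ℝ in atTop, Real.log x ≤ 1 / 2 * x ^ (1 / 10 : ℝ) := by
    have := (isLittleO_log_rpow_atTop (show (0 : ℝ) < 1 / 10 by norm_num)).bound
      (show (0 : ℝ) < 1 / 2 by norm_num)
    filter_upwards [this, eventually_gt_atTop 1] with x hx hx1
    rw [Real.norm_of_nonneg (Real.log_nonneg hx1.le), Real.norm_of_nonneg (by positivity)] at hx
    exact hx
  have h3 := tendsto_natCast_atTop_atTop.eventually h2
  filter_upwards [h1, h3, eventually_gt_atTop 1] with R h1 h3 hR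
  have hRR : (1 : ℝ) < R := by exact_mod_cast hR
  have hR0 : (0 : ℝ) < R := by linarith
  have hlog := Real.log_pos hRR
  have h4 : (R : ℝ) ^ (9 / 10 : ℝ) ≤ (prs R).card := by
    rw [card_prs]
    rw [lt_div_iff₀ (by positivity)] at h1
    refine le_trans ?_ h1.le
    have h5 : (R : ℝ) ^ (9 / 10 : ℝ) * (R : ℝ) ^ (1 / 10 : ℝ) = R := by
      rw [← Real.rpow_add hR0]; norm_num
    rw [mul_div_assoc', le_div_iff₀ hlog]
    calc (R : ℝ) ^ (9 / 10 : ℝ) * Real.log R ≤ (R : ℝ) ^ (9 / 10 : ℝ) *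
          (1 / 2 * (R : ℝ) ^ (1 / 10 : ℝ)) := by gcongr
      _ = 1 / 2 * ((R : ℝ) ^ (9 / 10 : ℝ) * (R : ℝ) ^ (1 / 10 : ℝ)) := by ring
      _ = 1 / 2 * R := by rw [h5]
  have h6 : ((R : ℝ) ^ (9 / 10 : ℝ)) ^ 10 = (R : ℝ) ^ 9 := by
    rw [← Real.rpow_natCast ((R : ℝ) ^ (9 / 10 : ℝ)) 10, ← Real.rpow_mul hR0.le]
    norm_num
  have h7 : (R : ℝ) ^ 9 ≤ ((prs R).card : ℝ) ^ 10 := by
    rw [← h6]
    gcongr
  exact_mod_cast h7

lemma pow_le_two_pow (m : ℕ) : ∀ᶠ X : ℕ in atTop, X ^ m ≤ 2 ^ (X - 1) := by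
  have h1 := (tendsto_pow_const_div_const_pow_of_one_lt m (show (1 : ℝ) < 2 by norm_num)).eventually
    (gt_mem_nhds (show (0 : ℝ) < 1 / 2 by norm_num))
  filter_upwards [h1, eventually_gt_atTop 0] with X hX hX0
  rw [div_lt_iff₀ (by positivity)] at hX
  have h2 : (2 : ℝ) ^ X = 2 * 2 ^ (X - 1) := by
    obtain ⟨n, rfl⟩ : ∃ n, X = n + 1 := ⟨X - 1, by omega⟩
    rw [pow_succ]; simp; ring
  have h3 : (X : ℝ) ^ m ≤ 2 ^ (X - 1) := by
    rw [h2] at hX
    linarith
  exact_mod_cast h3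

/-- size of a number -/
def sz (p : ℕ) : ℕ := Nat.log 2 p + 1

lemma lt_sz (p : ℕ) : p < 2 ^ sz p := Nat.lt_pow_succ_log_self (by norm_num) p

lemma sz_le (p : ℕ) (hp : 0 < p) : 2 ^ (sz p - 1) ≤ p := by
  unfold sz
  exact Nat.pow_log_le_self 2 hp.ne'

lemma sz_tendsto : Tendsto sz atTop atTop := by
  rw [tendsto_atTop]
  intro N
  filter_upwards [eventually_ge_atTop (2 ^ N)] with p hp
  unfold sz
  have := Nat.le_log_of_pow_le (by norm_num) hp
  omega

lemma pow_sz_le (m : ℕ) : ∀ᶠ p : ℕ in atTop, sz p ^ m ≤ p := by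
  filter_upwards [sz_tendsto.eventually (pow_le_two_pow m), eventually_gt_atTop 0] with p h1 h2
  exact h1.trans (sz_le p h2)

end MP1fb.L2
end

section
/-!
MP_1fb68e_nt, two local shuffles: few primes `p` have many divisors of `p - 1`.
-/
set_option autoImplicit false

namespace MP1fb.L2

open Finset Filter Topology MP1fb.LS

lemma sum_card_divisors (N : ℕ) :
    ∑ n ∈ Ioc 0 N, (Nat.divisors n).card = ∑ d ∈ Ioc 0 N, N / d := by
  have h1 : ∀ n ∈ Ioc 0 N, (Nat.divisors n).card = ∑ d ∈ Ioc 0 N, if d ∣ n then 1 else 0 := by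
    intro n hn
    rw [Finset.mem_Ioc] at hn
    rw [← Finset.sum_filter, Finset.card_eq_sum_ones]
    apply Finset.sum_congr _ (fun _ _ => rfl)
    ext d
    rw [Nat.mem_divisors, Finset.mem_filter, Finset.mem_Ioc]
    constructor
    · rintro ⟨h1, h2⟩
      have := Nat.le_of_dvd (by omega) h1
      exact ⟨⟨Nat.pos_of_dvd_of_pos h1 (by omega), by omega⟩, h1⟩
    · rintro ⟨_, h2⟩
      exact ⟨h2, by omega⟩
  rw [Finset.sum_congr rfl h1, Finset.sum_comm]
  apply Finset.sum_congr rfl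
  intro d _
  rw [← Finset.sum_filter, ← Finset.card_eq_sum_ones, Nat.Ioc_filter_dvd_card_eq_div]

lemma sum_card_divisors_le (N : ℕ) :
    (∑ n ∈ Ioc 0 N, ((Nat.divisors n).card : ℝ)) ≤ N * (1 + Real.log N) := by
  have h1 : (∑ n ∈ Ioc 0 N, ((Nat.divisors n).card : ℝ)) = ∑ d ∈ Ioc 0 N, ((N / d : ℕ) : ℝ) := by
    exact_mod_cast sum_card_divisors N
  rw [h1]
  have h2 : ∑ d ∈ Ioc 0 N, ((N / d : ℕ) : ℝ) ≤ ∑ d ∈ Ioc 0 N, (N : ℝ) * ((d : ℝ))⁻¹ := by
    apply Finset.sum_le_sum
    intro d _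
    refine Nat.cast_div_le.trans ?_
    rw [div_eq_mul_inv]
  refine h2.trans ?_
  rw [← Finset.mul_sum]
  apply mul_le_mul_of_nonneg_left _ (by positivity)
  have h3 := harmonic_le_one_add_log N
  rw [harmonic_eq_sum_Icc] at h3
  push_cast at h3
  have h4 : Ioc 0 N = Icc 1 N := by
    ext x
    rw [Finset.mem_Ioc, Finset.mem_Icc]
    omega
  rw [h4]
  exact h3

/-- the exceptional primes -/
def Exc (p : ℕ) : Prop := sz p ^ 3 < (Nat.divisors (p - 1)).card

lemma exc_count (x : ℕ) (hx : 2 ≤ x) :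
    cntP Exc x ≤ (Real.sqrt x + 1) + 8 * x * (1 + Real.log x) / Real.log x ^ 3 := by
  classical
  have hxR : (2 : ℝ) ≤ x := by exact_mod_cast hx
  have hlog : 0 < Real.log x := Real.log_pos (by linarith)
  rw [cntP_eq]
  set S := (range (x + 1)).filter (fun p => p.Prime ∧ Exc p) with hS
  set A := S.filter (fun p => p ≤ Nat.sqrt x) with hA
  set B := S.filter (fun p => ¬ p ≤ Nat.sqrt x) with hB
  have hAB : S.card = A.card + B.card := (Finset.card_filter_add_card_filter_not _).symm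
  have hAc : (A.card : ℝ) ≤ Real.sqrt x + 1 := by
    have h1 : A.card ≤ Nat.sqrt x + 1 := by
      calc A.card ≤ (range (Nat.sqrt x + 1)).card := by
            apply Finset.card_le_card
            intro p hp
            rw [hA, Finset.mem_filter] at hp
            rw [Finset.mem_range]
            omega
        _ = _ := Finset.card_range _
    have h2 : ((Nat.sqrt x : ℕ) : ℝ) ≤ Real.sqrt x := Real.nat_sqrt_le_real_sqrt
    have h3 : (A.card : ℝ) ≤ ((Nat.sqrt x + 1 : ℕ) : ℝ) := by exact_mod_cast h1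
    push_cast at h3
    linarith
  have hBc : (B.card : ℝ) * (Real.log x ^ 3 / 8) ≤ x * (1 + Real.log x) := by
    have h1 : ∀ p ∈ B, Real.log x ^ 3 / 8 ≤ ((Nat.divisors (p - 1)).card : ℝ) := by
      intro p hp
      rw [hB, Finset.mem_filter, hS, Finset.mem_filter] at hp
      obtain ⟨⟨_, _, h2⟩, h3⟩ := hp
      have h4 : Nat.sqrt x < p := by omega
      have h5 : x < p * p := Nat.sqrt_lt.mp h4
      have h6 := lt_sz p
      have h7 : x < 4 ^ sz p := by
        calc x < p * p := h5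
          _ ≤ 2 ^ sz p * 2 ^ sz p := Nat.mul_le_mul h6.le h6.le
          _ = 4 ^ sz p := by rw [← mul_pow]; norm_num
      have h8 : Real.log x ≤ 2 * sz p := by
        have h9 : (x : ℝ) ≤ 4 ^ sz p := by exact_mod_cast h7.le
        calc Real.log x ≤ Real.log (4 ^ sz p) := Real.log_le_log (by linarith) h9
          _ = sz p * Real.log 4 := by rw [Real.log_pow]
          _ ≤ sz p * 2 := by
              apply mul_le_mul_of_nonneg_left _ (by positivity)
              have : (4 : ℝ) = 2 ^ 2 := by norm_num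
              rw [this, Real.log_pow]
              have := Real.log_two_lt_d9
              push_cast
              linarith
          _ = 2 * sz p := by ring
      have h9 : Real.log x ^ 3 ≤ (2 * (sz p : ℝ)) ^ 3 := pow_le_pow_left₀ hlog.le h8 3
      have h10 : ((sz p ^ 3 : ℕ) : ℝ) ≤ ((Nat.divisors (p - 1)).card : ℝ) := by
        exact_mod_cast h2.le
      push_cast at h10
      calc Real.log x ^ 3 / 8 ≤ (2 * (sz p : ℝ)) ^ 3 / 8 := by gcongr
        _ = (sz p : ℝ) ^ 3 := by ring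
        _ ≤ _ := h10
    calc (B.card : ℝ) * (Real.log x ^ 3 / 8) = ∑ _p ∈ B, (Real.log x ^ 3 / 8) := by
          rw [Finset.sum_const, nsmul_eq_mul]
      _ ≤ ∑ p ∈ B, ((Nat.divisors (p - 1)).card : ℝ) := Finset.sum_le_sum h1
      _ = ∑ n ∈ B.image (fun p => p - 1), ((Nat.divisors n).card : ℝ) := by
          rw [Finset.sum_image]
          intro p hp q hq h
          rw [Finset.mem_coe, hB, Finset.mem_filter, hS, Finset.mem_filter] at hp hq
          have h1 := hp.1.2.1.two_le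
          have h2 := hq.1.2.1.two_le
          simp only at h
          omega
      _ ≤ ∑ n ∈ Ioc 0 x, ((Nat.divisors n).card : ℝ) := by
          apply Finset.sum_le_sum_of_subset_of_nonneg
          · intro n hn
            rw [Finset.mem_image] at hn
            obtain ⟨p, hp, rfl⟩ := hn
            rw [hB, Finset.mem_filter, hS, Finset.mem_filter, Finset.mem_range] at hp
            rw [Finset.mem_Ioc]
            have := hp.1.2.1.two_le
            omega
          · intro n _ _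
            positivity
      _ ≤ _ := sum_card_divisors_le x
  have hBc' : (B.card : ℝ) ≤ 8 * x * (1 + Real.log x) / Real.log x ^ 3 := by
    rw [le_div_iff₀ (by positivity)]
    linarith
  rw [hAB]
  push_cast
  linarith

/-- the exceptional primes have density zero -/
theorem exc_small : Tendsto (fun x : ℕ => cntP Exc x / ((x : ℝ) / Real.log x)) atTop (𝓝 0) := by
  have h1 : Tendsto (fun x : ℝ => Real.log x / Real.sqrt x) atTop (𝓝 0) := by
    have h2 := (isLittleO_log_rpow_atTop (show (0 : ℝ) < 1 / 2 by norm_num)).tendsto_div_nhds_zero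
    refine h2.congr' ?_
    filter_upwards [eventually_gt_atTop 0] with x hx
    rw [Real.sqrt_eq_rpow]
  have h2 : Tendsto (fun x : ℕ => Real.log (x : ℝ)) atTop atTop :=
    Real.tendsto_log_atTop.comp tendsto_natCast_atTop_atTop
  have h3 : Tendsto (fun x : ℕ => 1 / Real.log (x : ℝ)) atTop (𝓝 0) :=
    (tendsto_const_nhds (x := (1 : ℝ))).div_atTop h2
  have h4 : Tendsto (fun x : ℕ => 2 * (Real.log (x : ℝ) / Real.sqrt x) +
      (8 * (1 / Real.log (x : ℝ)) * (1 / Real.log (x : ℝ)) + 8 * (1 / Real.log (x : ℝ)))) atTop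
      (𝓝 0) := by
    have h5 := ((h1.comp tendsto_natCast_atTop_atTop).const_mul 2).add
      (((h3.const_mul 8).mul h3).add (h3.const_mul 8))
    simpa using h5
  refine squeeze_zero' ?_ ?_ h4
  · filter_upwards [eventually_gt_atTop 1] with x hx
    have hxR : (1 : ℝ) < x := by exact_mod_cast hx
    have := Real.log_pos hxR
    apply div_nonneg _ (div_nonneg (by linarith) this.le)
    unfold cntP
    positivity
  · filter_upwards [eventually_ge_atTop 2] with x hx
    have hxR : (2 : ℝ) ≤ x := by exact_mod_cast hx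
    have hlog : 0 < Real.log x := Real.log_pos (by linarith)
    have h5 := exc_count x hx
    have hx0 : (0 : ℝ) < x := by linarith
    have hs : 0 < Real.sqrt x := Real.sqrt_pos.mpr hx0
    have hss : Real.sqrt x * Real.sqrt x = x := Real.mul_self_sqrt hx0.le
    have hs1 : 1 ≤ Real.sqrt x := by
      rw [Real.one_le_sqrt]; linarith
    rw [div_le_iff₀ (by positivity)]
    refine h5.trans ?_
    have e1 : (2 * (Real.log x / Real.sqrt x) + (8 * (1 / Real.log x) * (1 / Real.log x) +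
        8 * (1 / Real.log x))) * (x / Real.log x) =
        2 * (x / Real.sqrt x) + 8 * x * (1 + Real.log x) / Real.log x ^ 3 := by
      field_simp
    rw [e1]
    have e2 : x / Real.sqrt x = Real.sqrt x := by
      rw [div_eq_iff hs.ne']; exact hss.symm
    rw [e2]
    linarith

end MP1fb.L2
end

section
/-!
MP_1fb68e_nt, two local shuffles: products of `j`-subsets, with few bad characters.
-/
set_option autoImplicit false

namespace MP1fb.L2

open Finset MP1fb.LS

variable {p : ℕ} [hp : Fact p.Prime]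

/-- the number of subsets with given product, by characters -/
lemma cnt_key (B : Finset (ZMod p)) (j : ℕ) (c : ZMod p) (hc : c ≠ 0) :
    ((p : ℂ) - 1) * (cnt B j c : ℂ) = ∑ χ : DirichletCharacter ℂ p,
      χ c⁻¹ * ∑ S ∈ B.powersetCard j, ∏ b ∈ S, χ b := by
  have hcu : IsUnit c := isUnit_iff_ne_zero.mpr hc
  have h1 : ∀ S ∈ B.powersetCard j, ∑ χ : DirichletCharacter ℂ p, χ c⁻¹ * ∏ b ∈ S, χ b =
      if (∏ b ∈ S, b) = c then ((p : ℂ) - 1) else 0 := by
    intro S _
    have h2 := DirichletCharacter.sum_char_inv_mul_char_eq ℂ hcu (∏ b ∈ S, b)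
    rw [Nat.totient_prime hp.out] at h2
    simp only [map_prod] at h2
    rw [h2]
    rw [Nat.cast_sub hp.out.one_le]
    simp only [Nat.cast_one, eq_comm]
  calc ((p : ℂ) - 1) * (cnt B j c : ℂ) = ∑ S ∈ B.powersetCard j,
        if (∏ b ∈ S, b) = c then ((p : ℂ) - 1) else 0 := by
        rw [cnt, ← Finset.sum_filter, Finset.sum_const, nsmul_eq_mul]
        ring
    _ = ∑ S ∈ B.powersetCard j, ∑ χ : DirichletCharacter ℂ p, χ c⁻¹ * ∏ b ∈ S, χ b :=
        Finset.sum_congr rfl (fun S hS => (h1 S hS).symm)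
    _ = _ := by
        rw [Finset.sum_comm]
        apply Finset.sum_congr rfl
        intro χ _
        rw [Finset.mul_sum]

/-- upper bound with bad characters -/
theorem cnt_bad (B : Finset (ZMod p)) (hB : 0 < B.card)
    (h0 : (0 : ZMod p) ∉ B) (κ : ℝ) (D : Finset (DirichletCharacter ℂ p))
    (hκ : ∀ χ : DirichletCharacter ℂ p, χ ≠ 1 → χ ∉ D → ‖∑ b ∈ B, χ b‖ ≤ κ * B.card) (j : ℕ)
    (hj : j ≤ B.card) (c : ZMod p) (hc : c ≠ 0) :
    (cnt B j c : ℝ) ≤ (B.card.choose j : ℝ) * ((1 + D.card) / ((p : ℝ) - 1) +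
      ((B.card : ℝ) + 1) * Real.exp (-((1 - κ) * (j * ((B.card : ℝ) - j) / B.card)))) := by
  classical
  set Bd := (B.card.choose j : ℝ) *
      (((B.card : ℝ) + 1) * Real.exp (-((1 - κ) * (j * ((B.card : ℝ) - j) / B.card)))) with hBd
  have hp1 : 1 < p := hp.out.one_lt
  have hpR : (0 : ℝ) < (p : ℝ) - 1 := by
    have : (1 : ℝ) < p := by exact_mod_cast hp1
    linarith
  have hBd0 : 0 ≤ Bd := by positivity
  have hval : ∀ χ : DirichletCharacter ℂ p, ∀ b ∈ B, ‖χ b‖ = 1 := by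
    intro χ b hb
    exact norm_char χ b (fun h => h0 (h ▸ hb))
  have htriv : ∀ χ : DirichletCharacter ℂ p,
      ‖∑ S ∈ B.powersetCard j, ∏ b ∈ S, χ b‖ ≤ (B.card.choose j : ℝ) := by
    intro χ
    refine (norm_sum_le _ _).trans ?_
    calc _ ≤ ∑ _S ∈ B.powersetCard j, (1 : ℝ) := by
          apply Finset.sum_le_sum
          intro S hS
          rw [norm_prod]
          apply le_of_eq
          apply Finset.prod_eq_one
          intro b hb
          exact hval χ b ((Finset.mem_powersetCard.mp hS).1 hb)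
      _ = _ := by rw [Finset.sum_const, Finset.card_powersetCard, nsmul_eq_mul, mul_one]
  have hterm : ∀ χ : DirichletCharacter ℂ p,
      ‖χ c⁻¹ * ∑ S ∈ B.powersetCard j, ∏ b ∈ S, χ b‖ ≤
      (if χ ∈ insert 1 D then (B.card.choose j : ℝ) else 0) + Bd := by
    intro χ
    rw [norm_mul]
    have h1 : ‖χ c⁻¹‖ ≤ 1 := χ.norm_le_one _
    have h2 : ‖χ c⁻¹‖ * ‖∑ S ∈ B.powersetCard j, ∏ b ∈ S, χ b‖ ≤
        ‖∑ S ∈ B.powersetCard j, ∏ b ∈ S, χ b‖ := by
      have := mul_le_mul_of_nonneg_right h1 (norm_nonneg (∑ S ∈ B.powersetCard j, ∏ b ∈ S, χ b))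
      linarith
    refine h2.trans ?_
    split_ifs with hm
    · have := htriv χ
      linarith
    · rw [Finset.mem_insert, not_or] at hm
      have h3 := esymm_bound B hB (fun b => χ b) (hval χ) κ (hκ χ hm.1 hm.2) j hj
      rw [zero_add]
      exact h3
  have hkey := congrArg norm (cnt_key B j c hc)
  have hleft : ‖((p : ℂ) - 1) * (cnt B j c : ℂ)‖ = ((p : ℝ) - 1) * (cnt B j c : ℝ) := by
    rw [norm_mul, Complex.norm_natCast]
    congr 1
    have : ((p : ℂ) - 1) = (((p : ℝ) - 1 : ℝ) : ℂ) := by push_cast; ring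
    rw [this, Complex.norm_real, Real.norm_of_nonneg hpR.le]
  rw [hleft] at hkey
  have hcard : (Fintype.card (DirichletCharacter ℂ p) : ℝ) = (p : ℝ) - 1 := by
    have h3 : Fintype.card (DirichletCharacter ℂ p) = p.totient := by
      rw [← Nat.card_eq_fintype_card]
      exact DirichletCharacter.card_eq_totient_of_hasEnoughRootsOfUnity ℂ p
    rw [h3, Nat.totient_prime hp.out, Nat.cast_sub hp.out.one_le]
    simp
  have hbound : ((p : ℝ) - 1) * (cnt B j c : ℝ) ≤
      (1 + D.card) * (B.card.choose j : ℝ) + ((p : ℝ) - 1) * Bd := by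
    rw [hkey]
    refine (norm_sum_le _ _).trans ?_
    refine (Finset.sum_le_sum (fun χ _ => hterm χ)).trans ?_
    rw [Finset.sum_add_distrib, ← Finset.sum_filter, Finset.sum_const, Finset.sum_const,
      nsmul_eq_mul, nsmul_eq_mul, Finset.card_univ, hcard]
    have h4 : ((univ.filter (fun χ => χ ∈ insert 1 D)).card : ℝ) ≤ 1 + D.card := by
      have h5 : (univ.filter (fun χ => χ ∈ insert 1 D)) = insert 1 D := by
        ext χ; simp
      rw [h5]
      have h6 := Finset.card_insert_le 1 D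
      have h7 : ((insert 1 D).card : ℝ) ≤ ((D.card + 1 : ℕ) : ℝ) := by exact_mod_cast h6
      push_cast at h7
      linarith
    gcongr
  have h8 : (cnt B j c : ℝ) ≤ ((1 + D.card) * (B.card.choose j : ℝ) + ((p : ℝ) - 1) * Bd) /
      ((p : ℝ) - 1) := by
    rw [le_div_iff₀ hpR, mul_comm]
    exact hbound
  refine h8.trans (le_of_eq ?_)
  rw [hBd]
  field_simp

omit hp in
/-- the exponential is tiny in the middle -/
lemma small_le (hp3 : 3 ≤ p) (n j G : ℕ) (hn : n + 1 ≤ p) (δ : ℝ) (hδ : 0 ≤ δ)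
    (hG : 12 * Real.log p ≤ δ * G) (hj : G ≤ j) (hj' : j + G ≤ n) (hn0 : 0 < n) :
    ((n : ℝ) + 1) * Real.exp (-((1 - (1 - δ)) * (j * ((n : ℝ) - j) / n))) ≤
      1 / (p : ℝ) ^ 5 := by
  have hp0 : (0 : ℝ) < p := by
    have : 0 < p := by omega
    exact_mod_cast this
  have hnR : (0 : ℝ) < n := by exact_mod_cast hn0
  have hexp : 6 * Real.log p ≤ (1 - (1 - δ)) * (j * ((n : ℝ) - j) / n) := by
    have hjR : (G : ℝ) ≤ j := by exact_mod_cast hj
    have hjR' : (G : ℝ) ≤ n - j := by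
      have : (j : ℝ) + G ≤ n := by exact_mod_cast hj'
      linarith
    have hG0 : (0 : ℝ) ≤ G := by positivity
    have h1 : (G : ℝ) / 2 ≤ j * ((n : ℝ) - j) / n := by
      rw [le_div_iff₀ hnR]
      nlinarith [mul_nonneg (sub_nonneg.mpr hjR) (sub_nonneg.mpr hjR'),
        mul_nonneg hG0 (sub_nonneg.mpr hjR), mul_nonneg hG0 (sub_nonneg.mpr hjR')]
    have h2 : δ * ((G : ℝ) / 2) ≤ δ * (j * ((n : ℝ) - j) / n) := mul_le_mul_of_nonneg_left h1 hδ
    rw [sub_sub_cancel]
    linarith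
  calc ((n : ℝ) + 1) * Real.exp (-((1 - (1 - δ)) * (j * ((n : ℝ) - j) / n)))
      ≤ p * Real.exp (-(6 * Real.log p)) := by
        apply mul_le_mul _ _ (Real.exp_pos _).le hp0.le
        · exact_mod_cast hn
        · exact Real.exp_le_exp.mpr (by linarith)
    _ = 1 / (p : ℝ) ^ 5 := by
        rw [Real.exp_neg, show (6 : ℝ) * Real.log p = ((6 : ℕ) : ℝ) * Real.log p by norm_num,
          Real.exp_nat_mul, Real.exp_log hp0]
        field_simp

lemma card_lt (B : Finset (ZMod p)) (h0 : (0 : ZMod p) ∉ B) : B.card + 1 ≤ p := by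
  have h1 : (insert (0 : ZMod p) B).card ≤ Fintype.card (ZMod p) := Finset.card_le_univ _
  rw [Finset.card_insert_of_notMem h0, ZMod.card] at h1
  exact h1

/-- two-sided, middle -/
theorem cnt_good_mid (hp3 : 3 ≤ p) (B : Finset (ZMod p)) (h0 : (0 : ZMod p) ∉ B) (δ : ℝ)
    (hδ : 0 ≤ δ)
    (hχ : ∀ χ : DirichletCharacter ℂ p, χ ≠ 1 → ‖∑ b ∈ B, χ b‖ ≤ (1 - δ) * B.card)
    (G : ℕ) (hG : 12 * Real.log p ≤ δ * G) (hG0 : 0 < G) (j : ℕ) (hj : G ≤ j)
    (hj' : j + G ≤ B.card) (c : ZMod p) (hc : c ≠ 0) :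
    |(cnt B j c : ℝ) - (B.card.choose j : ℝ) / (p - 1)| ≤
      (B.card.choose j : ℝ) * (1 / (p : ℝ) ^ 5) := by
  have hB : 0 < B.card := by omega
  refine (cnt_bound B hB h0 (1 - δ) hχ j (by omega) c hc).trans ?_
  apply mul_le_mul_of_nonneg_left _ (by positivity)
  exact small_le hp3 B.card j G (card_lt B h0) δ hδ hG hj hj' hB

/-- upper bound with bad characters, middle -/
theorem cnt_bad_mid (hp3 : 3 ≤ p) (B : Finset (ZMod p)) (h0 : (0 : ZMod p) ∉ B) (δ : ℝ)
    (hδ : 0 ≤ δ) (D : Finset (DirichletCharacter ℂ p))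
    (hχ : ∀ χ : DirichletCharacter ℂ p, χ ≠ 1 → χ ∉ D → ‖∑ b ∈ B, χ b‖ ≤ (1 - δ) * B.card)
    (G : ℕ) (hG : 12 * Real.log p ≤ δ * G) (hG0 : 0 < G) (j : ℕ) (hj : G ≤ j)
    (hj' : j + G ≤ B.card) (c : ZMod p) (hc : c ≠ 0) :
    (cnt B j c : ℝ) ≤ (B.card.choose j : ℝ) * ((2 + D.card) / ((p : ℝ) - 1)) := by
  have hB : 0 < B.card := by omega
  have hp3R : (3 : ℝ) ≤ p := by exact_mod_cast hp3
  have hpR : (0 : ℝ) < (p : ℝ) - 1 := by linarith
  refine (cnt_bad B hB h0 (1 - δ) D hχ j (by omega) c hc).trans ?_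
  apply mul_le_mul_of_nonneg_left _ (by positivity)
  have h1 := small_le hp3 B.card j G (card_lt B h0) δ hδ hG hj hj' hB
  have h2 : 1 / (p : ℝ) ^ 5 ≤ 1 / ((p : ℝ) - 1) := by
    apply one_div_le_one_div_of_le hpR
    have h3 : (p : ℝ) ≤ (p : ℝ) ^ 5 := by
      calc (p : ℝ) = (p : ℝ) ^ 1 := (pow_one _).symm
        _ ≤ (p : ℝ) ^ 5 := pow_le_pow_right₀ (by linarith) (by norm_num)
    linarith
  have h4 : (2 + (D.card : ℝ)) / ((p : ℝ) - 1) = (1 + D.card) / ((p : ℝ) - 1) + 1 / ((p : ℝ) - 1) := by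
    rw [← add_div]; congr 1; ring
  rw [h4]
  linarith

end MP1fb.L2
end
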