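import Pool.Agent.Lib.MP_1fb68e_nt.L2.EST
import Pool.Agent.Lib.MP_1fb68e_nt.L2.EQ2

/-!
MP_1fb68e_nt, two local shuffles: independent shuffles for all primes.
-/

set_option autoImplicit false

namespace MP1fb.L2

open Finset Filter Topology MeasureTheory ProbabilityTheory MP1fb.LS

universe u

/-- pairs of permutations of the places `0, .., (p - 3) / 2` -/
abbrev PP (p : ℕ) : Type := Equiv.Perm (Fin (p / 2)) × Equiv.Perm (Fin (p / 2))

/-- The law of two independent uniform shuffles of the levels 1 and 2: the uniform distribution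
on the pairs `z` such that `z.1` preserves `{0, .., 2 M k - 1}` and `z.2` preserves
`{0, .., 2 M k + M - 1}` for all `k` (with a last block of length between `2 M` and `4 M`). -/
noncomputable def law2 (p M : ℕ) (z : PP p) : ℝ :=
  Set.indicator {z : PP p | Near (p / 2) M (2 * M) z.1 ∧ Near (p / 2) M M z.2}
    (fun _ => 1 / ((Nat.card {τ : Equiv.Perm (Fin (p / 2)) // Near (p / 2) M (2 * M) τ} : ℝ) *
      (Nat.card {τ : Equiv.Perm (Fin (p / 2)) // Near (p / 2) M M τ} : ℝ))) z

lemma near_one (H M e : ℕ) : Near H M e 1 := fun _ _ _ => Iff.rfl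

lemma law2_nonneg (p M : ℕ) (z : PP p) : 0 ≤ law2 p M z := by
  unfold law2
  apply Set.indicator_nonneg
  intro _ _
  positivity

open Classical in
/-- the probability of an event -/
lemma sum_law2 (p M : ℕ) (P : PP p → Prop) :
    ∑ z, Set.indicator {z | P z} (law2 p M) z =
      (num (fun z : PP p => (Near (p / 2) M (2 * M) z.1 ∧ Near (p / 2) M M z.2) ∧ P z) : ℝ) /
      (num (Near (p / 2) M (2 * M)) * num (Near (p / 2) M M)) := by
  have h1 : ∀ z : PP p, Set.indicator {z | P z} (law2 p M) z =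
      if (Near (p / 2) M (2 * M) z.1 ∧ Near (p / 2) M M z.2) ∧ P z then
        1 / ((num (Near (p / 2) M (2 * M)) : ℝ) * num (Near (p / 2) M M)) else 0 := by
    intro z
    by_cases hP : P z
    · rw [Set.indicator_of_mem (show z ∈ {z | P z} from hP)]
      unfold law2
      rw [natCard_eq, natCard_eq]
      by_cases hl : Near (p / 2) M (2 * M) z.1 ∧ Near (p / 2) M M z.2
      · rw [Set.indicator_of_mem (show z ∈ {z : PP p | Near (p / 2) M (2 * M) z.1 ∧
          Near (p / 2) M M z.2} from hl), if_pos ⟨hl, hP⟩]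
      · rw [Set.indicator_of_notMem (show z ∉ {z : PP p | Near (p / 2) M (2 * M) z.1 ∧
          Near (p / 2) M M z.2} from hl), if_neg (fun h => hl h.1)]
    · rw [Set.indicator_of_notMem (show z ∉ {z | P z} from hP), if_neg (fun h => hP h.2)]
  rw [Finset.sum_congr rfl (fun z _ => h1 z), ← Finset.sum_filter, Finset.sum_const,
    nsmul_eq_mul, num_eq (fun z : PP p => (Near (p / 2) M (2 * M) z.1 ∧
      Near (p / 2) M M z.2) ∧ P z)]
  ring

lemma sum_law2_late (p M : ℕ) :
    ∑ z, Set.indicator {z : PP p | Late p (z.1 * z.2)} (law2 p M) z = prob2 p M := by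
  rw [sum_law2 p M (fun z => Late p (z.1 * z.2))]
  unfold prob2
  congr 3
  funext z
  apply propext
  tauto

lemma num_prod {A B : Type*} [Fintype A] [Fintype B] (P : A → Prop) (Q : B → Prop) :
    num (fun z : A × B => P z.1 ∧ Q z.2) = num P * num Q := by
  classical
  rw [num_prod_fst P (fun _ y => Q y), Finset.sum_const, smul_eq_mul, num_eq P]

lemma sum_law2_one (p M : ℕ) : ∑ z, law2 p M z = 1 := by
  have h := sum_law2 p M (fun _ => True)
  have h1 : ∀ z, Set.indicator {z : PP p | True} (law2 p M) z = law2 p M z :=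
    fun z => Set.indicator_of_mem (show z ∈ {z : PP p | True} from trivial) _
  simp only [h1] at h
  rw [h]
  have h3 : (fun z : PP p => (Near (p / 2) M (2 * M) z.1 ∧ Near (p / 2) M M z.2) ∧ True) =
      (fun z : PP p => Near (p / 2) M (2 * M) z.1 ∧ Near (p / 2) M M z.2) := by
    funext z; simp
  rw [h3, num_prod (Near (p / 2) M (2 * M)) (Near (p / 2) M M)]
  have h4 := num_pos_of (Near (p / 2) M (2 * M)) 1 (near_one _ _ _)
  have h5 := num_pos_of (Near (p / 2) M M) 1 (near_one _ _ _)
  push_cast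
  apply div_self
  have h4R : (0 : ℝ) < num (Near (p / 2) M (2 * M)) := by exact_mod_cast h4
  have h5R : (0 : ℝ) < num (Near (p / 2) M M) := by exact_mod_cast h5
  positivity

/-- size of the parameter -/
lemma sz_log (p : ℕ) (hp : 3 ≤ p) : (sz p : ℝ) ≤ 3 * Real.log p := by
  have h1 := sz_le p (by omega)
  have h2 : 1 ≤ sz p := by unfold sz; omega
  have h3 : ((2 : ℝ) ^ (sz p - 1)) ≤ p := by exact_mod_cast h1
  have hp3 : (3 : ℝ) ≤ p := by exact_mod_cast hp
  have h4 : ((sz p - 1 : ℕ) : ℝ) * Real.log 2 ≤ Real.log p := by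
    rw [← Real.log_pow]
    exact Real.log_le_log (by positivity) h3
  have h5 : 1 ≤ Real.log p := by
    rw [Real.le_log_iff_exp_le (by linarith)]
    have := Real.exp_one_lt_d9
    linarith
  have h6 : ((sz p - 1 : ℕ) : ℝ) = (sz p : ℝ) - 1 := by rw [Nat.cast_sub h2]; simp
  rw [h6] at h4
  have h7 := Real.log_two_gt_d9
  have h8 : 0 ≤ (sz p : ℝ) - 1 := by
    have : (1 : ℝ) ≤ sz p := by exact_mod_cast h2
    linarith
  nlinarith

/-- **the probabilities**, for all primes up to the exceptional ones -/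
lemma prob2_lim (M : ℕ → ℕ)
    (hM1 : Tendsto (fun n : ℕ => (M n : ℝ) / Real.log n ^ 88) atTop atTop)
    (hM2 : Tendsto (fun n : ℕ => (M n : ℝ) / n) atTop (𝓝 0)) (e : ℝ) (he : 0 < e) :
    ∀ᶠ p : ℕ in atTop, p.Prime → ¬ Exc p →
      |prob2 p (M p) - Real.exp (-(3 / 4)) * (ind (MidOk p) : ℝ)| ≤ e := by
  have hX : Tendsto (fun p : ℕ => (300 : ℝ) / sz p) atTop (𝓝 0) :=
    tendsto_const_nhds.div_atTop (tendsto_natCast_atTop_atTop.comp sz_tendsto)
  have hc := hM2.const_mul 104
  rw [mul_zero] at hc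
  filter_upwards [cond_eventually, hM1.eventually_ge_atTop (2 ^ 76 * 3 ^ 88),
    hM2.eventually (gt_mem_nhds (show (0 : ℝ) < 1 / 16 by norm_num)),
    hX.eventually (gt_mem_nhds (show (0 : ℝ) < e / 2 by linarith)),
    hc.eventually (gt_mem_nhds (show (0 : ℝ) < e / 2 by linarith)),
    eventually_ge_atTop 16] with p h1 h2 h3 h4 h5 h6 hp hexc
  haveI : Fact p.Prime := ⟨hp⟩
  have hp16 : (16 : ℝ) ≤ p := by exact_mod_cast h6
  have hp0 : (0 : ℝ) < p := by linarith
  have hodd : p % 2 = 1 := by
    rcases hp.eq_two_or_odd with h | h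
    · omega
    · exact h
  have hlog : 0 < Real.log p := Real.log_pos (by linarith)
  by_cases hm : MidOk p
  · rw [ind_pos hm, Nat.cast_one, mul_one]
    have hMX : 2 ^ 76 * sz p ^ 88 ≤ M p := by
      rw [le_div_iff₀ (by positivity)] at h2
      have h7 := sz_log p (by omega)
      have h8 : (sz p : ℝ) ^ 88 ≤ (3 * Real.log p) ^ 88 := pow_le_pow_left₀ (by positivity) h7 88
      have h9 : (2 : ℝ) ^ 76 * (sz p : ℝ) ^ 88 ≤ M p := by
        calc (2 : ℝ) ^ 76 * (sz p : ℝ) ^ 88 ≤ 2 ^ 76 * (3 * Real.log p) ^ 88 := by gcongr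
          _ = 2 ^ 76 * 3 ^ 88 * Real.log p ^ 88 := by rw [mul_pow]; ring
          _ ≤ M p := h2
      exact_mod_cast h9
    have hH : 4 * M p ≤ p / 2 := by
      rw [div_lt_div_iff₀ hp0 (by norm_num)] at h3
      have h10 : (M p : ℝ) * 16 < 1 * p := h3
      have h11 : M p * 16 < 1 * p := by exact_mod_cast h10
      omega
    have hdiv : (Nat.divisors (p - 1)).card ≤ sz p ^ 3 := by
      unfold Exc at hexc
      omega
    have key := prob2_bound (p := p) (half_notMem hodd hm) (sz p) rfl hdiv h1.1 h1.2.1 h1.2.2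
      (M p) hMX hH
    refine key.trans ?_
    have e1 : 104 * (M p : ℝ) / p = 104 * ((M p : ℝ) / p) := by ring
    rw [e1]
    linarith
  · rw [ind_neg hm, Nat.cast_zero, mul_zero, sub_zero]
    unfold MidOk at hm
    push Not at hm
    rw [prob2_zero hodd (M p) hm, abs_zero]
    exact he.le

section

variable {Ω : Type u} [MeasurableSpace Ω] {μ : Measure Ω} [IsProbabilityMeasure μ]

lemma measure_late2 (T : ∀ p : ℕ, Ω → PP p)
    (hT : ∀ p, @Measurable Ω _ _ ⊤ (T p)) (p M : ℕ)
    (hlaw : ∀ z, μ.real {w | T p w = z} = law2 p M z) :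
    μ.real {w | Late p ((T p w).1 * (T p w).2)} = prob2 p M := by
  classical
  have h1 : {w | Late p ((T p w).1 * (T p w).2)} =
      ⋃ z ∈ (univ : Finset (PP p)).filter (fun z => Late p (z.1 * z.2)),
        {w | T p w = z} := by
    ext w
    simp only [Set.mem_setOf_eq, Set.mem_iUnion, Finset.mem_filter, Finset.mem_univ, true_and,
      exists_prop]
    constructor
    · intro h; exact ⟨_, h, rfl⟩
    · rintro ⟨z, h, rfl⟩; exact h
  rw [h1, measureReal_biUnion_finset]
  · rw [← sum_law2_late p M, Finset.sum_filter]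
    apply Finset.sum_congr rfl
    intro z _
    by_cases h : Late p (z.1 * z.2)
    · rw [if_pos h, Set.indicator_of_mem (show z ∈ {z : PP p | Late p (z.1 * z.2)} from h), hlaw]
    · rw [if_neg h, Set.indicator_of_notMem (show z ∉ {z : PP p | Late p (z.1 * z.2)} from h)]
  · intro z _ z' _ hne
    rw [Function.onFun, Set.disjoint_left]
    intro w h1 h2
    exact hne (h1.symm.trans h2)
  · intro z _
    exact hT p (show @MeasurableSet _ ⊤ {z} from trivial)

/-- **independent shuffles** -/
theorem almost_sure2 (M : ℕ → ℕ)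
    (hM1 : Tendsto (fun n : ℕ => (M n : ℝ) / Real.log n ^ 88) atTop atTop)
    (hM2 : Tendsto (fun n : ℕ => (M n : ℝ) / n) atTop (𝓝 0))
    (T : ∀ p : ℕ, Ω → PP p)
    (hT : ∀ p, @Measurable Ω _ _ ⊤ (T p)) (hind : iIndepFun (m := fun _ => ⊤) T μ)
    (hlaw : ∀ p : ℕ, p.Prime → ∀ z, μ.real {w | T p w = z} = law2 p (M p) z) :
    ∀ᵐ w ∂μ, Tendsto (fun x : ℕ => (cntP (fun p => Late p ((T p w).1 * (T p w).2)) x -
      Real.exp (-(3 / 4)) * cntP MidOk x) / ((x : ℝ) / Real.log x)) atTop (𝓝 0) := by
  classical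
  -- the centred variables
  let q : ℕ → ℕ := Nat.nth Nat.Prime
  have hq : ∀ i, (q i).Prime := fun i => Nat.prime_nth_prime i
  have hqinj : Function.Injective q := Nat.nth_injective Nat.infinite_setOfPred_prime
  let LT : ∀ p : ℕ, PP p → Prop := fun p z => Late p (z.1 * z.2)
  let P : ℕ → ℝ := fun i => μ.real {w | LT (q i) (T (q i) w)}
  let g : ∀ i : ℕ, PP (q i) → ℝ := fun i z => (ind (LT (q i) z) : ℝ) - P i
  let X : ℕ → Ω → ℝ := fun i w => g i (T (q i) w)
  have hmeas : ∀ i, MeasurableSet {w | LT (q i) (T (q i) w)} := by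
    intro i
    exact hT (q i) (show @MeasurableSet _ ⊤ {z | LT (q i) z} from trivial)
  have hXm : ∀ i, Measurable (X i) := by
    intro i
    have h1 : @Measurable _ _ ⊤ _ (g i) := fun s _ => trivial
    exact @Measurable.comp Ω _ ℝ _ ⊤ _ (g i) (T (q i)) h1 (hT (q i))
  have hXind : iIndepFun X μ := by
    have h1 : iIndepFun (m := fun _ => ⊤) (fun i => T (q i)) μ := hind.precomp hqinj
    exact h1.comp (fun i => g i) (fun i s _ => trivial)
  have hP : ∀ i, 0 ≤ P i ∧ P i ≤ 1 := fun i => ⟨measureReal_nonneg, measureReal_le_one⟩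
  have hXb : ∀ i w, |X i w| ≤ 1 := by
    intro i w
    change |(ind (LT (q i) (T (q i) w)) : ℝ) - P i| ≤ 1
    have := hP i
    by_cases h : LT (q i) (T (q i) w)
    · rw [ind_pos h, abs_le]; push_cast; constructor <;> linarith
    · rw [ind_neg h, abs_le]; push_cast; constructor <;> linarith
  have hind_eq : ∀ i w, (ind (LT (q i) (T (q i) w)) : ℝ) =
      Set.indicator {w | LT (q i) (T (q i) w)} (fun _ => (1 : ℝ)) w := by
    intro i w
    by_cases h : LT (q i) (T (q i) w)
    · rw [ind_pos h, Set.indicator_of_mem (show w ∈ {w | LT (q i) (T (q i) w)} from h)]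
      simp
    · rw [ind_neg h, Set.indicator_of_notMem (show w ∉ {w | LT (q i) (T (q i) w)} from h)]
      simp
  have hX0 : ∀ i, ∫ w, X i w ∂μ = 0 := by
    intro i
    change ∫ w, ((ind (LT (q i) (T (q i) w)) : ℝ) - P i) ∂μ = 0
    simp only [hind_eq]
    rw [integral_sub ((integrable_const _).indicator (hmeas i)) (integrable_const _),
      integral_indicator_const _ (hmeas i), integral_const]
    simp [P]
  have hs := slln X hXind hXm hXb hX0
  have hnth : Tendsto q atTop atTop :=
    (Nat.nth_strictMono Nat.infinite_setOfPred_prime).tendsto_atTop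
  -- the probabilities
  have hPP : ∀ i, P i = prob2 (q i) (M (q i)) := fun i =>
    measure_late2 (μ := μ) T hT (q i) (M (q i)) (hlaw (q i) (hq i))
  let a : ℕ → ℝ := fun i => P i - Real.exp (-(3 / 4)) * (ind (MidOk (q i)) : ℝ)
  let b : ℕ → ℝ := fun i => if Exc (q i) then 0 else a i
  have hE0 : 0 < Real.exp (-(3 / 4)) := Real.exp_pos _
  have hE1 : Real.exp (-(3 / 4)) ≤ 1 := Real.exp_le_one_iff.mpr (by norm_num)
  have ha : ∀ i, |a i| ≤ 1 := by
    intro i
    change |P i - Real.exp (-(3 / 4)) * (ind (MidOk (q i)) : ℝ)| ≤ 1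
    have := hP i
    by_cases h : MidOk (q i)
    · rw [ind_pos h, abs_le]; push_cast; constructor <;> linarith
    · rw [ind_neg h, abs_le]; push_cast; constructor <;> linarith
  have hb : Tendsto b atTop (𝓝 0) := by
    rw [Metric.tendsto_atTop]
    intro e he
    have h1 := hnth.eventually (prob2_lim M hM1 hM2 (e / 2) (by linarith))
    rw [eventually_atTop] at h1
    obtain ⟨N, hN⟩ := h1
    refine ⟨N, fun i hi => ?_⟩
    rw [Real.dist_eq, sub_zero]
    change |if Exc (q i) then 0 else a i| < e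
    by_cases h : Exc (q i)
    · rw [if_pos h, abs_zero]; exact he
    · rw [if_neg h]
      have h2 := hN i hi (hq i) h
      change |P i - Real.exp (-(3 / 4)) * (ind (MidOk (q i)) : ℝ)| < e
      rw [hPP i]
      linarith
  have hces := hb.cesaro
  have hab : ∀ n, |∑ i ∈ range n, a i - ∑ i ∈ range n, b i| ≤
      ∑ i ∈ range n, (ind (Exc (q i)) : ℝ) := by
    intro n
    rw [← Finset.sum_sub_distrib]
    refine (Finset.abs_sum_le_sum_abs _ _).trans (Finset.sum_le_sum fun i _ => ?_)
    change |a i - if Exc (q i) then 0 else a i| ≤ _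
    by_cases h : Exc (q i)
    · rw [if_pos h, ind_pos h, sub_zero, Nat.cast_one]; exact ha i
    · rw [if_neg h, ind_neg h, sub_self, abs_zero, Nat.cast_zero]
  have hpi : Tendsto (fun x : ℕ => Nat.primeCounting x) atTop atTop := by
    have h1 : Tendsto (fun x : ℕ => ((Nat.primeCounting x : ℕ) : ℝ)) atTop atTop := by
      have h2 : Tendsto (fun x : ℕ => (x : ℝ) / Real.log x) atTop atTop := by
        have h3 := (Real.isLittleO_log_id_atTop.tendsto_div_nhds_zero).comp
          tendsto_natCast_atTop_atTop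
        have h4 : Tendsto (fun x : ℕ => (Real.log x / x)⁻¹) atTop atTop := by
          apply Tendsto.inv_tendsto_nhdsGT_zero
          rw [tendsto_nhdsWithin_iff]
          refine ⟨h3, ?_⟩
          filter_upwards [eventually_gt_atTop 1] with x hx
          have hxR : (1 : ℝ) < x := by exact_mod_cast hx
          have := Real.log_pos hxR
          exact div_pos this (by linarith)
        refine h4.congr (fun x => ?_)
        rw [inv_div]
      have h5 := MP1fb.LS.pnt.pos_mul_atTop one_pos h2
      refine h5.congr' ?_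
      filter_upwards [eventually_gt_atTop 1] with x hx
      have hxR : (1 : ℝ) < x := by exact_mod_cast hx
      have := Real.log_pos hxR
      field_simp
    exact tendsto_natCast_atTop_iff.mp h1
  filter_upwards [hs] with w hw
  have h1 := (hw.add hces).comp hpi
  rw [add_zero] at h1
  have h2 := h1.mul MP1fb.LS.pnt
  rw [zero_mul] at h2
  have h3 : Tendsto (fun x : ℕ => (∑ i ∈ range (Nat.primeCounting x), a i -
      ∑ i ∈ range (Nat.primeCounting x), b i) / ((x : ℝ) / Real.log x)) atTop (𝓝 0) := by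
    rw [tendsto_zero_iff_abs_tendsto_zero]
    refine squeeze_zero' (Eventually.of_forall fun x => abs_nonneg _) ?_ exc_small
    filter_upwards [eventually_gt_atTop 1] with x hx
    have hxR : (1 : ℝ) < x := by exact_mod_cast hx
    have hlog := Real.log_pos hxR
    have hX : 0 < (x : ℝ) / Real.log x := div_pos (by linarith) hlog
    simp only [Function.comp_apply]
    rw [abs_div, abs_of_pos hX]
    apply div_le_div_of_nonneg_right _ hX.le
    rw [cntP_ind]
    exact hab _
  have h4 := h2.add h3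
  rw [add_zero] at h4
  refine h4.congr' ?_
  filter_upwards [eventually_gt_atTop 1, hpi.eventually_gt_atTop 0] with x hx hpix
  have hxR : (1 : ℝ) < x := by exact_mod_cast hx
  have hlog := Real.log_pos hxR
  have hpiR : (0 : ℝ) < Nat.primeCounting x := by exact_mod_cast hpix
  simp only [Function.comp_apply]
  rw [cntP_ind, cntP_ind]
  have h5 : ∑ i ∈ range (Nat.primeCounting x), X i w =
      ∑ i ∈ range (Nat.primeCounting x), (ind (LT (q i) (T (q i) w)) : ℝ) -
      ∑ i ∈ range (Nat.primeCounting x), P i := by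
    rw [← Finset.sum_sub_distrib]
  have h6 : ∑ i ∈ range (Nat.primeCounting x), a i =
      ∑ i ∈ range (Nat.primeCounting x), P i -
      Real.exp (-(3 / 4)) * ∑ i ∈ range (Nat.primeCounting x), (ind (MidOk (q i)) : ℝ) := by
    rw [Finset.mul_sum, ← Finset.sum_sub_distrib]
  rw [h5, h6]
  field_simp
  ring

/-- **the model contradicts the assertion of Q1** -/
theorem almost_sure2_ratio (M : ℕ → ℕ)
    (hM1 : Tendsto (fun n : ℕ => (M n : ℝ) / Real.log n ^ 88) atTop atTop)
    (hM2 : Tendsto (fun n : ℕ => (M n : ℝ) / n) atTop (𝓝 0))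
    (T : ∀ p : ℕ, Ω → PP p)
    (hT : ∀ p, @Measurable Ω _ _ ⊤ (T p)) (hind : iIndepFun (m := fun _ => ⊤) T μ)
    (hlaw : ∀ p : ℕ, p.Prime → ∀ z, μ.real {w | T p w = z} = law2 p (M p) z) :
    ∀ᵐ w ∂μ, Tendsto (fun x : ℕ => cntP (fun p => Late p ((T p w).1 * (T p w).2)) x /
      cntP MidOk x) atTop (𝓝 (Real.exp (-(3 / 4)))) ∧
      ∀ c : ℝ, c < Real.exp (-(3 / 4)) / 2 → ∀ᶠ x : ℕ in atTop,
        c * ((x : ℝ) / Real.log x) ≤ cntP (fun p => Late p ((T p w).1 * (T p w).2)) x := by
  have hmid : ∀ c : ℝ, c < 1 / 2 → ∀ᶠ x : ℕ in atTop,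
      c ≤ cntP MidOk x / ((x : ℝ) / Real.log x) := fun c hc =>
    pnt4 MidOk (fun p hp h4 => by
      haveI : Fact p.Prime := ⟨hp⟩
      exact half_of_one_mod_four h4) c hc
  filter_upwards [almost_sure2 M hM1 hM2 T hT hind hlaw] with w hw
  constructor
  · rw [Metric.tendsto_atTop]
    intro e he
    have h1 := hmid (1 / 4) (by norm_num)
    have h2 := (Metric.tendsto_atTop.mp hw) (e / 8) (by linarith)
    obtain ⟨N2, hN2⟩ := h2
    rw [eventually_atTop] at h1
    obtain ⟨N1, hN1⟩ := h1
    refine ⟨max 2 (max N1 N2), fun x hx => ?_⟩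
    have hx2 : 2 ≤ x := le_trans (le_max_left _ _) hx
    have hx3 := hN1 x (le_trans (le_trans (le_max_left _ _) (le_max_right _ _)) hx)
    have hx4 := hN2 x (le_trans (le_trans (le_max_right _ _) (le_max_right _ _)) hx)
    have hxR : (2 : ℝ) ≤ x := by exact_mod_cast hx2
    have hlog := Real.log_pos (show (1 : ℝ) < x by linarith)
    have hX : 0 < (x : ℝ) / Real.log x := div_pos (by linarith) hlog
    rw [le_div_iff₀ hX] at hx3
    have hpos : 0 < cntP MidOk x := lt_of_lt_of_le (by positivity) hx3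
    rw [Real.dist_eq, sub_zero, abs_div, abs_of_pos hX, div_lt_iff₀ hX] at hx4
    rw [Real.dist_eq]
    have e1 : cntP (fun p => Late p ((T p w).1 * (T p w).2)) x / cntP MidOk x -
        Real.exp (-(3 / 4)) = (cntP (fun p => Late p ((T p w).1 * (T p w).2)) x -
          Real.exp (-(3 / 4)) * cntP MidOk x) / cntP MidOk x := by
      field_simp
    rw [e1, abs_div, abs_of_pos hpos, div_lt_iff₀ hpos]
    refine hx4.trans_le ?_
    have h5 : e * (1 / 4 * ((x : ℝ) / Real.log x)) ≤ e * cntP MidOk x :=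
      mul_le_mul_of_nonneg_left hx3 he.le
    have h6 : e / 8 * ((x : ℝ) / Real.log x) ≤ e * (1 / 4 * ((x : ℝ) / Real.log x)) := by
      have : 0 < e * ((x : ℝ) / Real.log x) := mul_pos he hX
      nlinarith
    linarith
  · intro c hc
    have hE : 0 < Real.exp (-(3 / 4)) := Real.exp_pos _
    set E := Real.exp (-(3 / 4)) with hEdef
    set d := (E / 2 - c) / 2 with hd
    have hd0 : 0 < d := by linarith
    have h1 : (1 / 2 - d / E) < 1 / 2 := by
      have : 0 < d / E := by positivity
      linarith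
    have h2 := hmid _ h1
    have hneg : -d < 0 := by linarith
    filter_upwards [h2, hw.eventually (lt_mem_nhds hneg), eventually_gt_atTop 1] with x h3 h4 hx
    have hxR : (1 : ℝ) < x := by exact_mod_cast hx
    have hlog := Real.log_pos hxR
    have hX : 0 < (x : ℝ) / Real.log x := div_pos (by linarith) hlog
    rw [le_div_iff₀ hX] at h3
    rw [lt_div_iff₀ hX] at h4
    have h5 : E * ((1 / 2 - d / E) * ((x : ℝ) / Real.log x)) ≤ E * cntP MidOk x :=
      mul_le_mul_of_nonneg_left h3 hE.le
    have h6 : E * ((1 / 2 - d / E) * ((x : ℝ) / Real.log x)) =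
        (E / 2 - d) * ((x : ℝ) / Real.log x) := by
      field_simp
    rw [h6] at h5
    have h7 : c * ((x : ℝ) / Real.log x) = (E / 2 - d) * ((x : ℝ) / Real.log x) -
        d * ((x : ℝ) / Real.log x) := by
      rw [hd]; ring
    rw [h7]
    linarith

end

/-- the random shuffles exist -/
theorem exist2 (M : ℕ → ℕ) : ∃ (Ω : Type) (_ : MeasurableSpace Ω) (μ : Measure Ω)
    (T : ∀ p : ℕ, Ω → PP p), IsProbabilityMeasure μ ∧
      (∀ p, @Measurable Ω _ _ ⊤ (T p)) ∧ iIndepFun (m := fun _ => ⊤) T μ ∧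
      ∀ p : ℕ, p.Prime → ∀ z, μ.real {w | T p w = z} = law2 p (M p) z := by
  classical
  letI : ∀ p : ℕ, MeasurableSpace (PP p) := fun _ => ⊤
  let ν : ∀ p : ℕ, Measure (PP p) := fun p =>
    ∑ z, ENNReal.ofReal (law2 p (M p) z) • @Measure.dirac (PP p) ⊤ z
  have hν : ∀ p, IsProbabilityMeasure (ν p) := by
    intro p
    constructor
    simp only [ν, Measure.coe_finsetSum, Finset.sum_apply, Measure.smul_apply, measure_univ,
      smul_eq_mul, mul_one]
    rw [← ENNReal.ofReal_sum_of_nonneg (fun z _ => law2_nonneg p (M p) z), sum_law2_one p (M p),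
      ENNReal.ofReal_one]
  haveI := hν
  refine ⟨∀ p : ℕ, PP p, inferInstance, Measure.infinitePi ν,
    fun p x => x p, inferInstance, fun p => measurable_pi_apply p, ?_, ?_⟩
  · exact iIndepFun_infinitePi (P := ν) (X := fun p z => z) (fun p => measurable_id)
  · intro p _ z
    have h1 : Measure.infinitePi ν {x | x p = z} = ν p {z} := by
      have h2 := Measure.infinitePi_map_eval ν p
      rw [← h2, Measure.map_apply (measurable_pi_apply p) MeasurableSpace.measurableSet_top]
      rfl
    rw [Measure.real, h1]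
    simp only [ν, Measure.coe_finsetSum, Finset.sum_apply, Measure.smul_apply, smul_eq_mul]
    rw [Finset.sum_eq_single z]
    · rw [Measure.dirac_apply' _ MeasurableSpace.measurableSet_top]
      simp only [Set.indicator_of_mem (Set.mem_singleton z), Pi.one_apply, mul_one]
      rw [ENNReal.toReal_ofReal (law2_nonneg p (M p) z)]
    · intro z' _ hne
      rw [Measure.dirac_apply' _ MeasurableSpace.measurableSet_top,
        Set.indicator_of_notMem (by simpa using hne), mul_zero]
    · intro h; exact absurd (Finset.mem_univ z) h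

end MP1fb.L2
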