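import Pool.Agent.Lib.MP_1fb68e_nt.LS.SLLN
import Pool.Agent.Lib.MP_1fb68e_nt.LS.LIM
import Pool.Agent.Lib.MP_1fb68e_nt.L2.EQ2

section
/-!
MP_1fb68e_nt, two local shuffles: concentration of sums over random subsets.
-/
set_option autoImplicit false

namespace MP1fb.L2

open Finset MP1fb.LS

variable {β : Type*} [Fintype β] [DecidableEq β]

/-- exponential moments -/
lemma exp_moment (f : β → ℝ) (m : ℕ) (hm : m ≤ Fintype.card β) (hβ : 0 < Fintype.card β)
    (lam : ℝ) (hf : ∀ i, |lam * f i| ≤ 1) (hlf : ∀ i, (lam * f i) ^ 2 ≤ lam ^ 2) :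
    ∑ T ∈ (univ : Finset β).powersetCard m, Real.exp (lam * ∑ i ∈ T, f i) ≤
      ((Fintype.card β : ℝ) + 1) * ((Fintype.card β).choose m : ℝ) *
        Real.exp ((m : ℝ) / Fintype.card β * (lam * ∑ i, f i) + m * lam ^ 2) := by
  set n := Fintype.card β with hn
  set r : ℝ := (m : ℝ) / n with hr
  have hn0 : (0 : ℝ) < n := by exact_mod_cast hβ
  have hmn : (m : ℝ) ≤ n := by exact_mod_cast hm
  have hr0 : 0 ≤ r := by positivity
  have hr1 : r ≤ 1 := by rw [hr, div_le_one hn0]; exact hmn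
  have hs : 1 - r = ((n : ℝ) - m) / n := by rw [hr]; field_simp
  have h1r : 0 ≤ 1 - r := by linarith
  set E := ∑ T ∈ (univ : Finset β).powersetCard m, Real.exp (lam * ∑ i ∈ T, f i) with hE
  have hE0 : 0 ≤ E := Finset.sum_nonneg (fun _ _ => (Real.exp_pos _).le)
  -- the product
  have hprod : (r ^ m * (1 - r) ^ (n - m)) * E ≤ ∏ i : β, (r * Real.exp (lam * f i) + (1 - r)) := by
    rw [Finset.prod_add]
    have h1 : ∀ T ∈ (univ : Finset β).powersetCard m, (r ^ m * (1 - r) ^ (n - m)) *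
        Real.exp (lam * ∑ i ∈ T, f i) =
        (∏ i ∈ T, r * Real.exp (lam * f i)) * ∏ i ∈ univ \ T, (1 - r) := by
      intro T hT
      rw [Finset.mem_powersetCard] at hT
      rw [Finset.prod_mul_distrib, Finset.prod_const, Finset.prod_const, hT.2,
        Finset.card_sdiff_of_subset hT.1, hT.2, Finset.card_univ, ← hn, Finset.mul_sum,
        Real.exp_sum]
      ring
    rw [hE, Finset.mul_sum, Finset.sum_congr rfl h1]
    apply Finset.sum_le_sum_of_subset_of_nonneg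
    · intro T hT
      rw [Finset.mem_powersetCard] at hT
      exact Finset.mem_powerset.mpr hT.1
    · intro T _ _
      apply mul_nonneg
      · exact Finset.prod_nonneg (fun i _ => mul_nonneg hr0 (Real.exp_pos _).le)
      · exact Finset.prod_nonneg (fun i _ => h1r)
  have hfac : ∀ i : β, r * Real.exp (lam * f i) + (1 - r) ≤
      Real.exp (r * (lam * f i + lam ^ 2)) := by
    intro i
    have h2 := Real.abs_exp_sub_one_sub_id_le (hf i)
    have h3 := (abs_le.mp h2).2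
    have h4 := hlf i
    have h5 : Real.exp (lam * f i) - 1 ≤ lam * f i + lam ^ 2 := by linarith
    have h6 := Real.add_one_le_exp (r * (lam * f i + lam ^ 2))
    have h7 := mul_le_mul_of_nonneg_left h5 hr0
    linarith
  have hprod2 : ∏ i : β, (r * Real.exp (lam * f i) + (1 - r)) ≤
      Real.exp (r * (lam * ∑ i, f i) + m * lam ^ 2) := by
    calc ∏ i : β, (r * Real.exp (lam * f i) + (1 - r)) ≤
          ∏ i : β, Real.exp (r * (lam * f i + lam ^ 2)) := by
          apply Finset.prod_le_prod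
          · intro i _
            have := mul_nonneg hr0 (Real.exp_pos (lam * f i)).le
            linarith
          · intro i _; exact hfac i
      _ = Real.exp (∑ i : β, r * (lam * f i + lam ^ 2)) := (Real.exp_sum _ _).symm
      _ = _ := by
          congr 1
          rw [← Finset.mul_sum, Finset.sum_add_distrib, ← Finset.mul_sum, Finset.sum_const,
            Finset.card_univ, nsmul_eq_mul, ← hn, mul_add]
          congr 1
          rw [hr]; field_simp
  have hmode := mode_real n m hβ hm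
  rw [← hs, ← hr] at hmode
  calc E = E * 1 := (mul_one _).symm
    _ ≤ E * (((n : ℝ) + 1) * n.choose m * (r ^ m * (1 - r) ^ (n - m))) := by gcongr
    _ = ((n : ℝ) + 1) * n.choose m * ((r ^ m * (1 - r) ^ (n - m)) * E) := by ring
    _ ≤ ((n : ℝ) + 1) * n.choose m * Real.exp (r * (lam * ∑ i, f i) + m * lam ^ 2) := by
        gcongr
        exact hprod.trans hprod2

open Classical in
/-- one-sided concentration -/
lemma conc_one (f : β → ℝ) (hf : ∀ i, |f i| ≤ 1) (m : ℕ) (hm : m ≤ Fintype.card β)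
    (hβ : 0 < Fintype.card β) (a : ℝ) (ha0 : 0 ≤ a) (ha : a ≤ 2) :
    ((((univ : Finset β).powersetCard m).filter
      (fun T => (m : ℝ) / Fintype.card β * ∑ i, f i + a * m ≤ ∑ i ∈ T, f i)).card : ℝ) ≤
      ((Fintype.card β : ℝ) + 1) * ((Fintype.card β).choose m : ℝ) *
        Real.exp (-(a ^ 2 * m / 4)) := by
  set n := Fintype.card β with hn
  have hlam0 : 0 ≤ a / 2 := by linarith
  have hlam1 : a / 2 ≤ 1 := by linarith
  have hf1 : ∀ i, |a / 2 * f i| ≤ 1 := by
    intro i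
    rw [abs_mul, abs_of_nonneg hlam0]
    have := hf i
    have h0 := abs_nonneg (f i)
    nlinarith
  have hf2 : ∀ i, (a / 2 * f i) ^ 2 ≤ (a / 2) ^ 2 := by
    intro i
    rw [mul_pow]
    have h1 : (f i) ^ 2 ≤ 1 := by
      rw [← sq_abs]
      have := hf i
      have h0 := abs_nonneg (f i)
      nlinarith
    have h2 : 0 ≤ (a / 2) ^ 2 := sq_nonneg _
    nlinarith
  have hmom := exp_moment f m hm hβ (a / 2) hf1 hf2
  rw [← hn] at hmom
  set S := ((univ : Finset β).powersetCard m).filter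
      (fun T => (m : ℝ) / n * ∑ i, f i + a * m ≤ ∑ i ∈ T, f i) with hS
  set A := (m : ℝ) / n * ∑ i, f i with hA
  have h1 : (S.card : ℝ) * Real.exp (a / 2 * (A + a * m)) ≤
      ((n : ℝ) + 1) * (n.choose m : ℝ) *
        Real.exp ((m : ℝ) / n * (a / 2 * ∑ i, f i) + m * (a / 2) ^ 2) := by
    refine le_trans ?_ hmom
    calc (S.card : ℝ) * Real.exp (a / 2 * (A + a * m)) =
          ∑ _T ∈ S, Real.exp (a / 2 * (A + a * m)) := by rw [Finset.sum_const, nsmul_eq_mul]
      _ ≤ ∑ T ∈ S, Real.exp (a / 2 * ∑ i ∈ T, f i) := by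
          apply Finset.sum_le_sum
          intro T hT
          rw [hS, Finset.mem_filter] at hT
          apply Real.exp_le_exp.mpr
          exact mul_le_mul_of_nonneg_left hT.2 hlam0
      _ ≤ _ := by
          apply Finset.sum_le_sum_of_subset_of_nonneg (Finset.filter_subset _ _)
          intro T _ _
          exact (Real.exp_pos _).le
  have h2 : Real.exp ((m : ℝ) / n * (a / 2 * ∑ i, f i) + m * (a / 2) ^ 2) =
      Real.exp (-(a ^ 2 * m / 4)) * Real.exp (a / 2 * (A + a * m)) := by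
    rw [← Real.exp_add]
    congr 1
    rw [hA]
    ring
  rw [h2, ← mul_assoc] at h1
  exact le_of_mul_le_mul_right h1 (Real.exp_pos _)

open Classical in
/-- **concentration** -/
theorem conc (z : β → ℂ) (hz : ∀ i, ‖z i‖ ≤ 1) (m : ℕ) (hm : m ≤ Fintype.card β)
    (hβ : 0 < Fintype.card β) (a : ℝ) (ha0 : 0 ≤ a) (ha : a ≤ 2) :
    ((((univ : Finset β).powersetCard m).filter
      (fun T => 2 * a * m ≤ ‖∑ i ∈ T, z i - ((m : ℝ) / Fintype.card β : ℝ) * ∑ i, z i‖)).card :
        ℝ) ≤ 4 * ((Fintype.card β : ℝ) + 1) * Real.exp (-(a ^ 2 * m / 4)) *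
          ((Fintype.card β).choose m : ℝ) := by
  set n := Fintype.card β with hn
  have hre : ∀ i, |(z i).re| ≤ 1 := fun i => (Complex.abs_re_le_norm _).trans (hz i)
  have him : ∀ i, |(z i).im| ≤ 1 := fun i => (Complex.abs_im_le_norm _).trans (hz i)
  have c1 := conc_one (fun i => (z i).re) hre m hm hβ a ha0 ha
  have c2 := conc_one (fun i => -(z i).re) (fun i => by rw [abs_neg]; exact hre i) m hm hβ a ha0 ha
  have c3 := conc_one (fun i => (z i).im) him m hm hβ a ha0 ha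
  have c4 := conc_one (fun i => -(z i).im) (fun i => by rw [abs_neg]; exact him i) m hm hβ a ha0 ha
  rw [← hn] at c1 c2 c3 c4
  set P := (univ : Finset β).powersetCard m with hP
  set S1 := P.filter (fun T => (m : ℝ) / n * ∑ i, (z i).re + a * m ≤ ∑ i ∈ T, (z i).re) with hS1
  set S2 := P.filter (fun T => (m : ℝ) / n * ∑ i, -(z i).re + a * m ≤ ∑ i ∈ T, -(z i).re) with hS2
  set S3 := P.filter (fun T => (m : ℝ) / n * ∑ i, (z i).im + a * m ≤ ∑ i ∈ T, (z i).im) with hS3
  set S4 := P.filter (fun T => (m : ℝ) / n * ∑ i, -(z i).im + a * m ≤ ∑ i ∈ T, -(z i).im) with hS4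
  have hsub : P.filter (fun T => 2 * a * m ≤
      ‖∑ i ∈ T, z i - ((m : ℝ) / n : ℝ) * ∑ i, z i‖) ⊆ (S1 ∪ S2) ∪ (S3 ∪ S4) := by
    intro T hT
    rw [Finset.mem_filter] at hT
    obtain ⟨hTP, hT⟩ := hT
    set w := ∑ i ∈ T, z i - (((m : ℝ) / n : ℝ) : ℂ) * ∑ i, z i with hw
    have hwre : w.re = ∑ i ∈ T, (z i).re - (m : ℝ) / n * ∑ i, (z i).re := by
      rw [hw, Complex.sub_re, Complex.re_ofReal_mul, Complex.re_sum, Complex.re_sum]
    have hwim : w.im = ∑ i ∈ T, (z i).im - (m : ℝ) / n * ∑ i, (z i).im := by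
      rw [hw, Complex.sub_im, Complex.im_ofReal_mul, Complex.im_sum, Complex.im_sum]
    have h1 := Complex.norm_le_abs_re_add_abs_im w
    have h2 : a * m ≤ |w.re| ∨ a * m ≤ |w.im| := by
      by_contra hcon
      push Not at hcon
      linarith
    rw [Finset.mem_union, Finset.mem_union, Finset.mem_union]
    rcases h2 with h2 | h2
    · left
      rcases abs_cases w.re with ⟨h3, _⟩ | ⟨h3, _⟩
      · left
        rw [hS1, Finset.mem_filter]
        refine ⟨hTP, ?_⟩
        rw [h3, hwre] at h2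
        linarith
      · right
        rw [hS2, Finset.mem_filter]
        refine ⟨hTP, ?_⟩
        rw [h3, hwre] at h2
        rw [Finset.sum_neg_distrib, Finset.sum_neg_distrib]
        linarith
    · right
      rcases abs_cases w.im with ⟨h3, _⟩ | ⟨h3, _⟩
      · left
        rw [hS3, Finset.mem_filter]
        refine ⟨hTP, ?_⟩
        rw [h3, hwim] at h2
        linarith
      · right
        rw [hS4, Finset.mem_filter]
        refine ⟨hTP, ?_⟩
        rw [h3, hwim] at h2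
        rw [Finset.sum_neg_distrib, Finset.sum_neg_distrib]
        linarith
  have hcard : (P.filter (fun T => 2 * a * m ≤
      ‖∑ i ∈ T, z i - ((m : ℝ) / n : ℝ) * ∑ i, z i‖)).card ≤
      S1.card + S2.card + (S3.card + S4.card) := by
    refine (Finset.card_le_card hsub).trans ?_
    refine (Finset.card_union_le _ _).trans ?_
    exact Nat.add_le_add (Finset.card_union_le _ _) (Finset.card_union_le _ _)
  have hcardR : ((P.filter (fun T => 2 * a * m ≤
      ‖∑ i ∈ T, z i - ((m : ℝ) / n : ℝ) * ∑ i, z i‖)).card : ℝ) ≤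
      S1.card + S2.card + (S3.card + S4.card) := by exact_mod_cast hcard
  refine hcardR.trans ?_
  calc (S1.card : ℝ) + S2.card + (S3.card + S4.card) ≤
      4 * (((n : ℝ) + 1) * (n.choose m : ℝ) * Real.exp (-(a ^ 2 * m / 4))) := by linarith
    _ = _ := by ring

end MP1fb.L2
end

section
/-!
MP_1fb68e_nt, two local shuffles: the set of values of a random permutation at given places.
-/
set_option autoImplicit false

namespace MP1fb.L2

open Finset MP1fb.LS

variable {β : Type*} [Fintype β] [DecidableEq β]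

lemma num_le_card {Ω : Type*} [Fintype Ω] (P : Ω → Prop) : num P ≤ Fintype.card Ω := by
  classical
  rw [num_eq]
  exact Finset.card_le_univ _

open Classical in
/-- from permutations to sets -/
theorem perm_set (I : Finset β) (Q : Finset β → Prop) :
    num (fun π : Equiv.Perm β => Q (I.map π.toEmbedding)) * (Fintype.card β).choose I.card =
      (Fintype.card β).factorial * (((univ : Finset β).powersetCard I.card).filter Q).card := by
  set F : Finset β → ℕ := fun J => num (fun π : Equiv.Perm β => Q (J.map π.toEmbedding)) with hF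
  have h1 : ∀ J ∈ (univ : Finset β).powersetCard I.card, F J = F I := by
    intro J hJ
    rw [Finset.mem_powersetCard] at hJ
    obtain ⟨g, hg, -⟩ := exists_perm_two I ∅ J ∅ (Finset.disjoint_empty_right I)
      (Finset.disjoint_empty_right J) hJ.2.symm rfl
    have hmap : I.map g.toEmbedding = J := by
      ext x
      rw [Finset.mem_map]
      constructor
      · rintro ⟨i, hi, rfl⟩
        exact (hg i).mpr hi
      · intro hx
        refine ⟨g.symm x, ?_, by simp⟩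
        rw [← hg]; simpa using hx
    change num _ = num _
    rw [num_eq, num_eq]
    apply Finset.card_bij (fun π _ => g.trans π)
    · intro π hπ
      rw [Finset.mem_filter] at hπ ⊢
      refine ⟨mem_univ _, ?_⟩
      have : I.map (g.trans π).toEmbedding = J.map π.toEmbedding := by
        rw [← hmap, Finset.map_map]; rfl
      rw [this]
      exact hπ.2
    · intro π _ π' _ h
      have : g.symm.trans (g.trans π) = g.symm.trans (g.trans π') := by rw [h]
      simpa [← Equiv.trans_assoc] using this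
    · intro π hπ
      rw [Finset.mem_filter] at hπ
      refine ⟨g.symm.trans π, ?_, ?_⟩
      · rw [Finset.mem_filter]
        refine ⟨mem_univ _, ?_⟩
        have : J.map (g.symm.trans π).toEmbedding = I.map π.toEmbedding := by
          rw [← hmap, Finset.map_map]
          congr 1
          ext x
          simp
        rw [this]
        exact hπ.2
      · ext x; simp
  have h2 : ∑ J ∈ (univ : Finset β).powersetCard I.card, F J =
      F I * (Fintype.card β).choose I.card := by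
    rw [Finset.sum_congr rfl h1, Finset.sum_const, Finset.card_powersetCard, Finset.card_univ,
      smul_eq_mul, mul_comm]
  change F I * _ = _
  rw [← h2]
  simp only [hF, num_sum]
  rw [Finset.sum_comm]
  have h3 : ∀ π : Equiv.Perm β, ∑ J ∈ (univ : Finset β).powersetCard I.card,
      ind (Q (J.map π.toEmbedding)) =
      (((univ : Finset β).powersetCard I.card).filter Q).card := by
    intro π
    rw [sum_ind]
    apply Finset.card_bij (fun J _ => J.map π.toEmbedding)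
    · intro J hJ
      rw [Finset.mem_filter, Finset.mem_powersetCard] at hJ ⊢
      exact ⟨⟨Finset.subset_univ _, by rw [Finset.card_map]; exact hJ.1.2⟩, hJ.2⟩
    · intro J _ J' _ h
      exact Finset.map_injective _ h
    · intro J hJ
      rw [Finset.mem_filter, Finset.mem_powersetCard] at hJ
      have e : (J.map π.symm.toEmbedding).map π.toEmbedding = J := by
        rw [Finset.map_map]
        ext x
        simp
      refine ⟨J.map π.symm.toEmbedding, ?_, e⟩
      rw [Finset.mem_filter, Finset.mem_powersetCard, e]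
      exact ⟨⟨Finset.subset_univ _, by rw [Finset.card_map]; exact hJ.1.2⟩, hJ.2⟩
  rw [Finset.sum_congr rfl (fun π _ => h3 π), Finset.sum_const, Finset.card_univ,
    Fintype.card_perm, smul_eq_mul]

/-- concentration for the values of a random permutation -/
theorem perm_conc (z : β → ℂ) (hz : ∀ i, ‖z i‖ ≤ 1) (I : Finset β)
    (hβ : 0 < Fintype.card β) (a : ℝ) (ha0 : 0 ≤ a) (ha : a ≤ 2) :
    (num (fun π : Equiv.Perm β => 2 * a * I.card ≤
      ‖∑ i ∈ I, z (π i) - ((I.card : ℝ) / Fintype.card β : ℝ) * ∑ i, z i‖) : ℝ) ≤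
      4 * ((Fintype.card β : ℝ) + 1) * Real.exp (-(a ^ 2 * I.card / 4)) *
          (Fintype.card β).factorial := by
  classical
  have hI : I.card ≤ Fintype.card β := Finset.card_le_univ I
  have h1 := perm_set I (fun T => 2 * a * I.card ≤
    ‖∑ i ∈ T, z i - ((I.card : ℝ) / Fintype.card β : ℝ) * ∑ i, z i‖)
  have h2 : ∀ π : Equiv.Perm β, ∑ i ∈ I.map π.toEmbedding, z i = ∑ i ∈ I, z (π i) := by
    intro π
    rw [Finset.sum_map]; rfl
  simp only [h2] at h1
  have h3 := conc z hz I.card hI hβ a ha0 ha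
  have hch : (0 : ℝ) < ((Fintype.card β).choose I.card : ℝ) := by
    exact_mod_cast Nat.choose_pos hI
  have h1R : (num (fun π : Equiv.Perm β => 2 * a * I.card ≤
      ‖∑ i ∈ I, z (π i) - ((I.card : ℝ) / Fintype.card β : ℝ) * ∑ i, z i‖) : ℝ) *
      ((Fintype.card β).choose I.card : ℝ) = ((Fintype.card β).factorial : ℝ) *
      ((((univ : Finset β).powersetCard I.card).filter (fun T => 2 * a * I.card ≤
    ‖∑ i ∈ T, z i - ((I.card : ℝ) / Fintype.card β : ℝ) * ∑ i, z i‖)).card : ℝ) := by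
    exact_mod_cast h1
  refine le_of_mul_le_mul_right ?_ hch
  rw [h1R]
  have hf : (0 : ℝ) ≤ ((Fintype.card β).factorial : ℝ) := by positivity
  calc _ ≤ ((Fintype.card β).factorial : ℝ) * (4 * ((Fintype.card β : ℝ) + 1) *
        Real.exp (-(a ^ 2 * I.card / 4)) * ((Fintype.card β).choose I.card : ℝ)) :=
        mul_le_mul_of_nonneg_left h3 hf
    _ = _ := by ring

end MP1fb.L2
end

section
/-!
MP_1fb68e_nt, two local shuffles: products over one set and over two sets of places.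
-/
set_option autoImplicit false

namespace MP1fb.L2

open Finset MP1fb.LS

variable {p : ℕ} [hp : Fact p.Prime] {β : Type*} [Fintype β] [DecidableEq β]

omit hp [Fintype β] [DecidableEq β] in
lemma sum_image_char (v : β → ZMod p) (hv : Function.Injective v) (A : Finset β)
    (χ : DirichletCharacter ℂ p) : ∑ b ∈ A.image v, χ b = ∑ i ∈ A, χ (v i) :=
  Finset.sum_image (fun _ _ _ _ h => hv h)

/-- one product, bad characters -/
theorem place_bad (hp3 : 3 ≤ p) (v : β → ZMod p) (hv : Function.Injective v) (h0 : ∀ i, v i ≠ 0)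
    (δ : ℝ) (hδ : 0 ≤ δ) (D : Finset (DirichletCharacter ℂ p))
    (hχ : ∀ χ : DirichletCharacter ℂ p, χ ≠ 1 → χ ∉ D →
      ‖∑ i, χ (v i)‖ ≤ (1 - δ) * (Fintype.card β : ℝ))
    (G : ℕ) (hG : 12 * Real.log p ≤ δ * G) (hG0 : 0 < G) (I : Finset β)
    (h1 : G ≤ I.card) (h2 : I.card + G ≤ Fintype.card β) (c : ZMod p) (hc : c ≠ 0) :
    (oneCount v I c : ℝ) ≤ (Fintype.card β).factorial * ((2 + D.card) / ((p : ℝ) - 1)) := by
  have hch : (0 : ℝ) < ((Fintype.card β).choose I.card : ℝ) := by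
    exact_mod_cast Nat.choose_pos (by omega)
  have e1 : (oneCount v I c : ℝ) * (Fintype.card β).choose I.card =
      (Fintype.card β).factorial * cnt (univ.image v) I.card c := by
    exact_mod_cast oneCount_eq v hv I c
  have e2 := cnt_bad_mid hp3 (univ.image v) (zero_notMem_image v h0 univ) δ hδ D (by
    intro χ hχ1 hχD
    rw [card_image_univ v hv, sum_image_char v hv]
    exact hχ χ hχ1 hχD) G hG hG0 I.card h1 (by rw [card_image_univ v hv]; exact h2) c hc
  rw [card_image_univ v hv] at e2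
  refine le_of_mul_le_mul_right ?_ hch
  rw [e1]
  calc ((Fintype.card β).factorial : ℝ) * cnt (univ.image v) I.card c
      ≤ (Fintype.card β).factorial * (((Fintype.card β).choose I.card : ℝ) *
        ((2 + D.card) / ((p : ℝ) - 1))) := by gcongr
    _ = _ := by ring

/-- one product, good values -/
theorem place_good (hp3 : 3 ≤ p) (v : β → ZMod p) (hv : Function.Injective v) (h0 : ∀ i, v i ≠ 0)
    (δ : ℝ) (hδ : 0 ≤ δ)
    (hχ : ∀ χ : DirichletCharacter ℂ p, χ ≠ 1 →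
      ‖∑ i, χ (v i)‖ ≤ (1 - δ) * (Fintype.card β : ℝ))
    (G : ℕ) (hG : 12 * Real.log p ≤ δ * G) (hG0 : 0 < G) (I : Finset β)
    (h1 : G ≤ I.card) (h2 : I.card + G ≤ Fintype.card β) (c : ZMod p) (hc : c ≠ 0) :
    |(oneCount v I c : ℝ) - (Fintype.card β).factorial / (p - 1)| ≤
      (Fintype.card β).factorial * (1 / (p : ℝ) ^ 5) := by
  have hch : (0 : ℝ) < ((Fintype.card β).choose I.card : ℝ) := by
    exact_mod_cast Nat.choose_pos (by omega)
  have e1 : (oneCount v I c : ℝ) * (Fintype.card β).choose I.card =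
      (Fintype.card β).factorial * cnt (univ.image v) I.card c := by
    exact_mod_cast oneCount_eq v hv I c
  have e2 := cnt_good_mid hp3 (univ.image v) (zero_notMem_image v h0 univ) δ hδ (by
    intro χ hχ1
    rw [card_image_univ v hv, sum_image_char v hv]
    exact hχ χ hχ1) G hG hG0 I.card h1 (by rw [card_image_univ v hv]; exact h2) c hc
  rw [card_image_univ v hv] at e2
  refine le_of_mul_le_mul_right ?_ hch
  calc |(oneCount v I c : ℝ) - (Fintype.card β).factorial / (p - 1)| *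
        ((Fintype.card β).choose I.card : ℝ)
      = |((oneCount v I c : ℝ) - (Fintype.card β).factorial / (p - 1)) *
        ((Fintype.card β).choose I.card : ℝ)| := by
        rw [abs_mul, abs_of_pos hch]
    _ = |((Fintype.card β).factorial : ℝ) * ((cnt (univ.image v) I.card c : ℝ) -
        ((Fintype.card β).choose I.card : ℝ) / (p - 1))| := by
        congr 1
        rw [sub_mul, e1]; ring
    _ = ((Fintype.card β).factorial : ℝ) * |((cnt (univ.image v) I.card c : ℝ) -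
        ((Fintype.card β).choose I.card : ℝ) / (p - 1))| := by
        rw [abs_mul, Nat.abs_cast]
    _ ≤ ((Fintype.card β).factorial : ℝ) * (((Fintype.card β).choose I.card : ℝ) *
        (1 / (p : ℝ) ^ 5)) := by gcongr
    _ = _ := by ring

omit hp in
/-- the basic identity for two products -/
lemma pair_id (v : β → ZMod p) (hv : Function.Injective v) (I J : Finset β)
    (hIJ : Disjoint J I) (c d : ZMod p) :
    (pairCount v J I d c : ℝ) * (((Fintype.card β).choose J.card : ℝ) *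
      ((Fintype.card β - J.card).choose I.card : ℝ)) =
      ((Fintype.card β).factorial : ℝ) * ∑ S ∈ ((univ : Finset β).powersetCard J.card).filter
        (fun S => ∏ i ∈ S, v i = d), (cnt (Sᶜ.image v) I.card c : ℝ) := by
  have key := pairCount_eq v J I hIJ d c
  have : ∀ S ∈ ((univ : Finset β).powersetCard J.card).filter (fun S => ∏ i ∈ S, v i = d),
      (((Sᶜ).powersetCard I.card).filter (fun T => ∏ i ∈ T, v i = c)).card =
        cnt (Sᶜ.image v) I.card c := fun S _ => img_cnt v hv _ I.card c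
  rw [Finset.sum_congr rfl this] at key
  exact_mod_cast key

omit hp in
lemma compl_card (S : Finset β) (b : ℕ) (hS : S.card = b) (v : β → ZMod p)
    (hv : Function.Injective v) : (Sᶜ.image v).card = Fintype.card β - b := by
  rw [Finset.card_image_of_injective _ hv, Finset.card_compl, hS]

/-- two products, a short distance -/
theorem pair_near (hp3 : 3 ≤ p) (v : β → ZMod p) (hv : Function.Injective v) (h0 : ∀ i, v i ≠ 0)
    (δ : ℝ) (hδ : 0 ≤ δ)
    (hχ : ∀ χ : DirichletCharacter ℂ p, χ ≠ 1 →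
      ‖∑ i, χ (v i)‖ ≤ (1 - δ) * (Fintype.card β : ℝ))
    (G : ℕ) (hG : 24 * Real.log p ≤ δ * G) (hG0 : 0 < G) (I J : Finset β) (hIJ : Disjoint J I)
    (hI : G ≤ I.card) (hJ : 1 ≤ J.card) (hK : I.card + J.card + G ≤ Fintype.card β)
    (hnear : 4 * (J.card : ℝ) ≤ δ * Fintype.card β) (c d : ZMod p) (hc : c ≠ 0) (hd : d ≠ 0) :
    (pairCount v J I d c : ℝ) ≤ (Fintype.card β).factorial *
      (2 / (Fintype.card β : ℝ) * (2 / ((p : ℝ) - 1))) := by
  classical
  set ℓ := Fintype.card β with hℓ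
  set a := I.card with ha
  set b := J.card with hb
  have hch1 : (0 : ℝ) < (ℓ.choose b : ℝ) := by exact_mod_cast Nat.choose_pos (by omega)
  have hch2 : (0 : ℝ) < ((ℓ - b).choose a : ℝ) := by exact_mod_cast Nat.choose_pos (by omega)
  have keyR := pair_id v hv I J hIJ c d
  rw [← hℓ, ← ha, ← hb] at keyR
  have hp3R : (3 : ℝ) ≤ p := by exact_mod_cast hp3
  have hp1 : (0 : ℝ) < (p : ℝ) - 1 := by linarith
  -- the inner count
  have hin : ∀ S ∈ ((univ : Finset β).powersetCard b).filter (fun S => ∏ i ∈ S, v i = d),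
      (cnt (Sᶜ.image v) a c : ℝ) ≤ ((ℓ - b).choose a : ℝ) * (2 / ((p : ℝ) - 1)) := by
    intro S hS
    rw [Finset.mem_filter, Finset.mem_powersetCard] at hS
    have hcard := compl_card S b hS.1.2 v hv
    have e2 := cnt_bad_mid hp3 (Sᶜ.image v) (zero_notMem_image v h0 _) (δ / 2) (by linarith) ∅
      (by
        intro χ hχ1 _
        rw [hcard, sum_image_char v hv]
        have h4 := hχ χ hχ1
        have h5 : ∑ i ∈ Sᶜ, χ (v i) = ∑ i, χ (v i) - ∑ i ∈ S, χ (v i) := by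
          rw [← Finset.sum_add_sum_compl S (fun i => χ (v i))]; ring
        have h6 : ‖∑ i ∈ S, χ (v i)‖ ≤ b := by
          calc ‖∑ i ∈ S, χ (v i)‖ ≤ ∑ i ∈ S, ‖χ (v i)‖ := norm_sum_le _ _
            _ ≤ ∑ i ∈ S, 1 := Finset.sum_le_sum (fun i _ => DirichletCharacter.norm_le_one χ _)
            _ = b := by rw [Finset.sum_const, hS.1.2]; simp
        have hcR : ((ℓ - b : ℕ) : ℝ) = ℓ - b := by rw [Nat.cast_sub (by omega)]
        rw [h5, hcR]
        have h7 := norm_sub_le (∑ i, χ (v i)) (∑ i ∈ S, χ (v i))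
        have hb0 : (0 : ℝ) ≤ b := by positivity
        nlinarith [mul_nonneg hδ hb0]) G (by linarith) hG0 a hI
      (by rw [hcard]; omega) c hc
    rw [hcard, Finset.card_empty] at e2
    simpa using e2
  have hout : ((((univ : Finset β).powersetCard b).filter (fun S => ∏ i ∈ S, v i = d)).card : ℝ) ≤
      2 / (ℓ : ℝ) * (ℓ.choose b : ℝ) := by
    have e1 : ((((univ : Finset β).powersetCard b).filter (fun S => ∏ i ∈ S, v i = d)).card) =
        cnt (univ.image v) b d := img_cnt v hv univ b d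
    rw [e1]
    have e2 := cnt_triv (univ.image v) (zero_notMem_image v h0 univ) b hJ
      (by rw [card_image_univ v hv]; omega) d hd
    rwa [card_image_univ v hv] at e2
  refine le_of_mul_le_mul_right ?_ (mul_pos hch1 hch2)
  rw [keyR]
  have hf : (0 : ℝ) ≤ (ℓ.factorial : ℝ) := by positivity
  calc (ℓ.factorial : ℝ) * ∑ S ∈ ((univ : Finset β).powersetCard b).filter
        (fun S => ∏ i ∈ S, v i = d), (cnt (Sᶜ.image v) a c : ℝ)
      ≤ (ℓ.factorial : ℝ) * ∑ _S ∈ ((univ : Finset β).powersetCard b).filter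
        (fun S => ∏ i ∈ S, v i = d), (((ℓ - b).choose a : ℝ) * (2 / ((p : ℝ) - 1))) := by
        apply mul_le_mul_of_nonneg_left _ hf
        exact Finset.sum_le_sum hin
    _ = (ℓ.factorial : ℝ) *
        (((((univ : Finset β).powersetCard b).filter (fun S => ∏ i ∈ S, v i = d)).card : ℝ) *
        (((ℓ - b).choose a : ℝ) * (2 / ((p : ℝ) - 1)))) := by
        rw [Finset.sum_const, nsmul_eq_mul]
    _ ≤ (ℓ.factorial : ℝ) * ((2 / (ℓ : ℝ) * (ℓ.choose b : ℝ)) *
        (((ℓ - b).choose a : ℝ) * (2 / ((p : ℝ) - 1)))) := by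
        apply mul_le_mul_of_nonneg_left _ hf
        apply mul_le_mul_of_nonneg_right hout
        positivity
    _ = _ := by ring

/-- two products, a long distance -/
theorem pair_far (hp3 : 3 ≤ p) (v : β → ZMod p) (hv : Function.Injective v) (h0 : ∀ i, v i ≠ 0)
    (δ : ℝ) (hδ : 0 ≤ δ) (hδ1 : δ ≤ 1)
    (hχ : ∀ χ : DirichletCharacter ℂ p, χ ≠ 1 →
      ‖∑ i, χ (v i)‖ ≤ (1 - δ) * (Fintype.card β : ℝ))
    (G : ℕ) (hG : 224 * Real.log p ≤ δ ^ 2 * G) (hG0 : 0 < G) (I J : Finset β)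
    (hIJ : Disjoint J I) (hI : G ≤ I.card) (hJ : G ≤ J.card)
    (hK : I.card + J.card + G ≤ Fintype.card β) (c d : ZMod p) (hc : c ≠ 0) (hd : d ≠ 0) :
    (pairCount v J I d c : ℝ) ≤ (Fintype.card β).factorial * (5 / ((p : ℝ) - 1) ^ 2) := by
  classical
  set ℓ := Fintype.card β with hℓ
  set a := I.card with ha
  set b := J.card with hb
  have hp3R : (3 : ℝ) ≤ p := by exact_mod_cast hp3
  have hp0 : (0 : ℝ) < p := by linarith
  have hp1 : (0 : ℝ) < (p : ℝ) - 1 := by linarith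
  have hG0R : (0 : ℝ) ≤ G := by positivity
  have hlog : 0 ≤ Real.log p := Real.log_nonneg (by linarith)
  have hGδ : 224 * Real.log p ≤ δ * G := by
    refine hG.trans ?_
    have : δ ^ 2 ≤ δ := by nlinarith
    exact mul_le_mul_of_nonneg_right this hG0R
  have hch1 : (0 : ℝ) < (ℓ.choose b : ℝ) := by exact_mod_cast Nat.choose_pos (by omega)
  have hch2 : (0 : ℝ) < ((ℓ - b).choose a : ℝ) := by exact_mod_cast Nat.choose_pos (by omega)
  have keyR := pair_id v hv I J hIJ c d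
  rw [← hℓ, ← ha, ← hb] at keyR
  have hcR : ((ℓ - b : ℕ) : ℝ) = ℓ - b := by rw [Nat.cast_sub (by omega)]
  have hℓ0 : 0 < ℓ := by omega
  have hℓR : (0 : ℝ) < ℓ := by exact_mod_cast hℓ0
  have hℓp : ℓ + 1 ≤ p := by
    have := card_lt (univ.image v) (zero_notMem_image v h0 univ)
    rwa [card_image_univ v hv] at this
  -- atypical sets
  let Bad : DirichletCharacter ℂ p → Finset (Finset β) := fun χ =>
    ((univ : Finset β).powersetCard (ℓ - b)).filter (fun T => 2 * (δ / 4) * ((ℓ - b : ℕ) : ℝ) ≤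
      ‖∑ i ∈ T, χ (v i) - ((((ℓ - b : ℕ) : ℝ) / ℓ : ℝ) : ℂ) * ∑ i, χ (v i)‖)
  have hBad : ∀ χ : DirichletCharacter ℂ p, ((Bad χ).card : ℝ) ≤
      1 / (p : ℝ) ^ 4 * (ℓ.choose b : ℝ) := by
    intro χ
    have h1 := conc (fun i : β => χ (v i)) (fun i => DirichletCharacter.norm_le_one χ _) (ℓ - b)
      (by omega) hℓ0 (δ / 4) (by linarith) (by linarith)
    rw [← hℓ, Nat.choose_symm (by omega)] at h1
    refine h1.trans ?_
    apply mul_le_mul_of_nonneg_right _ hch1.le
    have h2 : 7 * Real.log p ≤ (δ / 4) ^ 2 * ((ℓ - b : ℕ) : ℝ) / 4 := by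
      have h3 : 2 * (G : ℝ) ≤ ((ℓ - b : ℕ) : ℝ) := by exact_mod_cast (by omega : 2 * G ≤ ℓ - b)
      have h4 : δ ^ 2 * (2 * (G : ℝ)) ≤ δ ^ 2 * ((ℓ - b : ℕ) : ℝ) :=
        mul_le_mul_of_nonneg_left h3 (sq_nonneg _)
      nlinarith
    calc 4 * ((ℓ : ℝ) + 1) * Real.exp (-((δ / 4) ^ 2 * ((ℓ - b : ℕ) : ℝ) / 4))
        ≤ (p : ℝ) ^ 2 * p * Real.exp (-(7 * Real.log p)) := by
          apply mul_le_mul
          · apply mul_le_mul
            · nlinarith
            · exact_mod_cast hℓp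
            · positivity
            · positivity
          · exact Real.exp_le_exp.mpr (by linarith)
          · exact (Real.exp_pos _).le
          · positivity
      _ = 1 / (p : ℝ) ^ 4 := by
          rw [Real.exp_neg, show (7 : ℝ) * Real.log p = ((7 : ℕ) : ℝ) * Real.log p by norm_num,
            Real.exp_nat_mul, Real.exp_log hp0]
          field_simp
  set AllBad : Finset (Finset β) := (univ : Finset (DirichletCharacter ℂ p)).biUnion Bad with hAB
  have hABcard : (AllBad.card : ℝ) ≤ 1 / (p : ℝ) ^ 3 * (ℓ.choose b : ℝ) := by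
    have h1 : AllBad.card ≤ ∑ χ : DirichletCharacter ℂ p, (Bad χ).card := Finset.card_biUnion_le
    have h2 : (AllBad.card : ℝ) ≤ ∑ χ : DirichletCharacter ℂ p, ((Bad χ).card : ℝ) := by
      exact_mod_cast h1
    refine h2.trans ((Finset.sum_le_sum (fun χ _ => hBad χ)).trans ?_)
    rw [Finset.sum_const, nsmul_eq_mul, Finset.card_univ]
    have h3 : (Fintype.card (DirichletCharacter ℂ p) : ℝ) ≤ p := by
      have h4 : Fintype.card (DirichletCharacter ℂ p) = p.totient := by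
        rw [← Nat.card_eq_fintype_card]
        exact DirichletCharacter.card_eq_totient_of_hasEnoughRootsOfUnity ℂ p
      rw [h4]
      exact_mod_cast Nat.totient_le p
    calc (Fintype.card (DirichletCharacter ℂ p) : ℝ) * (1 / (p : ℝ) ^ 4 * (ℓ.choose b : ℝ))
        ≤ p * (1 / (p : ℝ) ^ 4 * (ℓ.choose b : ℝ)) := by gcongr
      _ = _ := by field_simp
  -- the inner count
  have htyp : ∀ S ∈ ((univ : Finset β).powersetCard b).filter (fun S => ∏ i ∈ S, v i = d),
      Sᶜ ∉ AllBad → (cnt (Sᶜ.image v) a c : ℝ) ≤ ((ℓ - b).choose a : ℝ) * (2 / ((p : ℝ) - 1)) := by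
    intro S hS hSB
    rw [Finset.mem_filter, Finset.mem_powersetCard] at hS
    have hcard := compl_card S b hS.1.2 v hv
    have hScard : Sᶜ.card = ℓ - b := by rw [Finset.card_compl, hS.1.2]
    have e2 := cnt_bad_mid hp3 (Sᶜ.image v) (zero_notMem_image v h0 _) (δ / 2) (by linarith) ∅
      (by
        intro χ hχ1 _
        rw [hcard, sum_image_char v hv]
        by_contra hcon
        push Not at hcon
        apply hSB
        rw [hAB, Finset.mem_biUnion]
        refine ⟨χ, Finset.mem_univ _, ?_⟩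
        rw [Finset.mem_filter, Finset.mem_powersetCard]
        refine ⟨⟨Finset.subset_univ _, hScard⟩, ?_⟩
        have h4 := hχ χ hχ1
        have h5 : ‖((((ℓ - b : ℕ) : ℝ) / ℓ : ℝ) : ℂ) * ∑ i, χ (v i)‖ ≤
            (1 - δ) * ((ℓ - b : ℕ) : ℝ) := by
          rw [norm_mul, Complex.norm_real, Real.norm_of_nonneg (by positivity)]
          calc ((ℓ - b : ℕ) : ℝ) / ℓ * ‖∑ i, χ (v i)‖ ≤
                ((ℓ - b : ℕ) : ℝ) / ℓ * ((1 - δ) * ℓ) := by gcongr
            _ = _ := by field_simp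
        have h6 := norm_sub_norm_le (∑ i ∈ Sᶜ, χ (v i))
          (((((ℓ - b : ℕ) : ℝ) / ℓ : ℝ) : ℂ) * ∑ i, χ (v i))
        linarith) G (by linarith) hG0 a hI
      (by rw [hcard]; omega) c hc
    rw [hcard, Finset.card_empty] at e2
    simpa using e2
  have hall : ∀ S ∈ ((univ : Finset β).powersetCard b).filter (fun S => ∏ i ∈ S, v i = d),
      (cnt (Sᶜ.image v) a c : ℝ) ≤ ((ℓ - b).choose a : ℝ) * (2 / ((p : ℝ) - 1)) +
        (if Sᶜ ∈ AllBad then ((ℓ - b).choose a : ℝ) else 0) := by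
    intro S hS
    by_cases hSB : Sᶜ ∈ AllBad
    · rw [if_pos hSB]
      have hS2 := hS
      rw [Finset.mem_filter, Finset.mem_powersetCard] at hS2
      have h1 : cnt (Sᶜ.image v) a c ≤ (ℓ - b).choose a := by
        unfold cnt
        refine (Finset.card_filter_le _ _).trans ?_
        rw [Finset.card_powersetCard, compl_card S b hS2.1.2 v hv]
      have h2 : (cnt (Sᶜ.image v) a c : ℝ) ≤ ((ℓ - b).choose a : ℝ) := by exact_mod_cast h1
      have h3 : 0 ≤ ((ℓ - b).choose a : ℝ) * (2 / ((p : ℝ) - 1)) := by positivity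
      linarith
    · rw [if_neg hSB, add_zero]
      exact htyp S hS hSB
  have hout : ((((univ : Finset β).powersetCard b).filter (fun S => ∏ i ∈ S, v i = d)).card : ℝ) ≤
      (ℓ.choose b : ℝ) * (2 / ((p : ℝ) - 1)) := by
    have e1 : ((((univ : Finset β).powersetCard b).filter (fun S => ∏ i ∈ S, v i = d)).card) =
        cnt (univ.image v) b d := img_cnt v hv univ b d
    rw [e1]
    have e2 := cnt_bad_mid hp3 (univ.image v) (zero_notMem_image v h0 univ) δ hδ ∅ (by
      intro χ hχ1 _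
      rw [card_image_univ v hv, sum_image_char v hv]
      exact hχ χ hχ1) G (by linarith) hG0 b hJ (by rw [card_image_univ v hv]; omega) d hd
    rw [card_image_univ v hv, Finset.card_empty] at e2
    simpa using e2
  refine le_of_mul_le_mul_right ?_ (mul_pos hch1 hch2)
  rw [keyR]
  have hf : (0 : ℝ) ≤ (ℓ.factorial : ℝ) := by positivity
  set P := ((univ : Finset β).powersetCard b).filter (fun S => ∏ i ∈ S, v i = d) with hP
  have hbadsum : ∑ S ∈ P, (if Sᶜ ∈ AllBad then ((ℓ - b).choose a : ℝ) else 0) ≤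
      (1 / (p : ℝ) ^ 3 * (ℓ.choose b : ℝ)) * ((ℓ - b).choose a : ℝ) := by
    rw [← Finset.sum_filter, Finset.sum_const, nsmul_eq_mul]
    apply mul_le_mul_of_nonneg_right _ hch2.le
    refine le_trans ?_ hABcard
    have : (P.filter (fun S => Sᶜ ∈ AllBad)).card ≤ AllBad.card := by
      apply Finset.card_le_card_of_injOn (fun S => Sᶜ)
      · intro S hS
        exact (Finset.mem_filter.mp hS).2
      · intro S _ T _ h
        exact compl_injective h
    exact_mod_cast this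
  have hsum : ∑ S ∈ P, (cnt (Sᶜ.image v) a c : ℝ) ≤
      ((ℓ.choose b : ℝ) * ((ℓ - b).choose a : ℝ)) * (5 / ((p : ℝ) - 1) ^ 2) := by
    refine (Finset.sum_le_sum hall).trans ?_
    rw [Finset.sum_add_distrib, Finset.sum_const, nsmul_eq_mul]
    have h1 : (P.card : ℝ) * (((ℓ - b).choose a : ℝ) * (2 / ((p : ℝ) - 1))) ≤
        ((ℓ.choose b : ℝ) * (2 / ((p : ℝ) - 1))) * (((ℓ - b).choose a : ℝ) * (2 / ((p : ℝ) - 1))) := by
      apply mul_le_mul_of_nonneg_right hout
      positivity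
    have h2 : 1 / (p : ℝ) ^ 3 ≤ 1 / ((p : ℝ) - 1) ^ 2 := by
      apply one_div_le_one_div_of_le (by positivity)
      nlinarith [pow_pos hp0 2]
    calc (P.card : ℝ) * (((ℓ - b).choose a : ℝ) * (2 / ((p : ℝ) - 1))) +
          ∑ S ∈ P, (if Sᶜ ∈ AllBad then ((ℓ - b).choose a : ℝ) else 0)
        ≤ ((ℓ.choose b : ℝ) * (2 / ((p : ℝ) - 1))) * (((ℓ - b).choose a : ℝ) * (2 / ((p : ℝ) - 1))) +
          (1 / (p : ℝ) ^ 3 * (ℓ.choose b : ℝ)) * ((ℓ - b).choose a : ℝ) := add_le_add h1 hbadsum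
      _ = ((ℓ.choose b : ℝ) * ((ℓ - b).choose a : ℝ)) * (4 / ((p : ℝ) - 1) ^ 2 + 1 / (p : ℝ) ^ 3) := by
          field_simp
          ring
      _ ≤ ((ℓ.choose b : ℝ) * ((ℓ - b).choose a : ℝ)) *
          (4 / ((p : ℝ) - 1) ^ 2 + 1 / ((p : ℝ) - 1) ^ 2) := by gcongr
      _ = _ := by rw [← add_div]; norm_num
  calc (ℓ.factorial : ℝ) * ∑ S ∈ P, (cnt (Sᶜ.image v) a c : ℝ)
      ≤ (ℓ.factorial : ℝ) * (((ℓ.choose b : ℝ) * ((ℓ - b).choose a : ℝ)) *
        (5 / ((p : ℝ) - 1) ^ 2)) := mul_le_mul_of_nonneg_left hsum hf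
    _ = _ := by ring

end MP1fb.L2
end

section
/-!
MP_1fb68e_nt, two local shuffles: the probability of a hit in the interior of a block.
-/
set_option autoImplicit false

namespace MP1fb.L2

open Finset MP1fb.LS

variable {p : ℕ} [hp : Fact p.Prime]

/-- two places -/
lemma two_int (hp3 : 3 ≤ p) {ℓ : ℕ} (v : Fin ℓ → ZMod p) (hv : Function.Injective v)
    (h0 : ∀ i, v i ≠ 0) (δ : ℝ) (hδ : 0 ≤ δ) (hδ1 : δ ≤ 1)
    (hχ : ∀ χ : DirichletCharacter ℂ p, χ ≠ 1 → ‖∑ i, χ (v i)‖ ≤ (1 - δ) * (ℓ : ℝ))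
    (G : ℕ) (hG : 224 * Real.log p ≤ δ ^ 2 * G) (hG0 : 0 < G) (hGℓ : 4 * (G : ℝ) ≤ δ * ℓ)
    (j j' : ℕ) (hj : G ≤ j) (hjj : j < j') (hj' : j' + G ≤ ℓ)
    (C C' : Finset (ZMod p)) (hC : C.card ≤ 2) (hC' : C'.card ≤ 2)
    (hC0 : (0 : ZMod p) ∉ C) (hC0' : (0 : ZMod p) ∉ C') :
    (num (fun π : Equiv.Perm (Fin ℓ) => pre v π j ∈ C ∧ pre v π j' ∈ C') : ℝ) ≤
      4 * ((ℓ.factorial : ℝ) * ((if 4 * ((j' - j : ℕ) : ℝ) ≤ δ * ℓ then
        4 / ((ℓ : ℝ) * ((p : ℝ) - 1)) else 0) + 5 / ((p : ℝ) - 1) ^ 2)) := by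
  classical
  have hsub : fst ℓ j ⊆ fst ℓ j' := by
    intro i hi
    unfold fst at hi ⊢
    rw [Finset.mem_filter] at hi ⊢
    exact ⟨hi.1, by omega⟩
  have hpre : ∀ π : Equiv.Perm (Fin ℓ), pre v π j' =
      pre v π j * ∏ i ∈ fst ℓ j' \ fst ℓ j, v (π i) := by
    intro π
    unfold pre
    rw [mul_comm, Finset.prod_sdiff hsub]
  have hnat : num (fun π : Equiv.Perm (Fin ℓ) => pre v π j ∈ C ∧ pre v π j' ∈ C') ≤
      ∑ x ∈ C ×ˢ C', pairCount v (fst ℓ j) (fst ℓ j' \ fst ℓ j) x.1 (x.2 / x.1) := by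
    rw [num_eq]
    unfold pairCount
    refine le_trans (Finset.card_le_card ?_) (Finset.card_biUnion_le (s := C ×ˢ C'))
    intro π hπ
    rw [Finset.mem_filter] at hπ
    rw [Finset.mem_biUnion]
    refine ⟨(pre v π j, pre v π j'), Finset.mem_product.mpr hπ.2, ?_⟩
    rw [Finset.mem_filter]
    refine ⟨mem_univ _, rfl, ?_⟩
    have hne : pre v π j ≠ 0 := fun h => hC0 (h ▸ hπ.2.1)
    rw [eq_div_iff hne, hpre π, mul_comm]
  have hcard1 : (fst ℓ j).card = j := card_fst ℓ j (by omega)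
  have hcard2 : (fst ℓ j' \ fst ℓ j).card = j' - j := by
    rw [Finset.card_sdiff_of_subset hsub, card_fst ℓ j' (by omega), hcard1]
  have hp3R : (3 : ℝ) ≤ p := by exact_mod_cast hp3
  have hp1 : (0 : ℝ) < (p : ℝ) - 1 := by linarith
  have hℓR : (0 : ℝ) < ℓ := by
    have : 0 < ℓ := by omega
    exact_mod_cast this
  have hG0R : (0 : ℝ) ≤ G := by positivity
  have hlog : 0 ≤ Real.log p := Real.log_nonneg (by linarith)
  have hGδ : 224 * Real.log p ≤ δ * G := by
    refine hG.trans ?_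
    have : δ ^ 2 ≤ δ := by nlinarith
    exact mul_le_mul_of_nonneg_right this hG0R
  set M := (ℓ.factorial : ℝ) * ((if 4 * ((j' - j : ℕ) : ℝ) ≤ δ * ℓ then
        4 / ((ℓ : ℝ) * ((p : ℝ) - 1)) else 0) + 5 / ((p : ℝ) - 1) ^ 2) with hM
  have hb : ∀ x ∈ C ×ˢ C',
      (pairCount v (fst ℓ j) (fst ℓ j' \ fst ℓ j) x.1 (x.2 / x.1) : ℝ) ≤ M := by
    intro x hx
    rw [Finset.mem_product] at hx
    have hx1 : x.1 ≠ 0 := fun h => hC0 (h ▸ hx.1)
    have hx2 : x.2 ≠ 0 := fun h => hC0' (h ▸ hx.2)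
    rw [pairCount_comm, hM]
    split_ifs with hnear
    · have := pair_near hp3 v hv h0 δ hδ (by rwa [Fintype.card_fin]) G (by linarith) hG0
        (fst ℓ j) (fst ℓ j' \ fst ℓ j) Finset.sdiff_disjoint
        (by rw [hcard1]; exact hj) (by rw [hcard2]; omega)
        (by rw [hcard1, hcard2, Fintype.card_fin]; omega)
        (by rw [hcard2, Fintype.card_fin]; exact hnear) x.1 (x.2 / x.1) hx1
        (div_ne_zero hx2 hx1)
      rw [Fintype.card_fin] at this
      refine this.trans ?_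
      apply mul_le_mul_of_nonneg_left _ (by positivity)
      have h5 : 0 ≤ 5 / ((p : ℝ) - 1) ^ 2 := by positivity
      have h6 : 2 / (ℓ : ℝ) * (2 / ((p : ℝ) - 1)) = 4 / ((ℓ : ℝ) * ((p : ℝ) - 1)) := by
        field_simp; norm_num
      rw [h6]
      linarith
    · push Not at hnear
      have hfar : G ≤ j' - j := by
        have h7 : (G : ℝ) < ((j' - j : ℕ) : ℝ) := by linarith
        have h8 : G < j' - j := by exact_mod_cast h7
        exact h8.le
      have := pair_far hp3 v hv h0 δ hδ hδ1 (by rwa [Fintype.card_fin]) G hG hG0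
        (fst ℓ j) (fst ℓ j' \ fst ℓ j) Finset.sdiff_disjoint
        (by rw [hcard1]; exact hj) (by rw [hcard2]; exact hfar)
        (by rw [hcard1, hcard2, Fintype.card_fin]; omega) x.1 (x.2 / x.1) hx1
        (div_ne_zero hx2 hx1)
      rw [Fintype.card_fin] at this
      rw [zero_add]
      exact this
  have hM0 : 0 ≤ M := by
    rw [hM]
    apply mul_nonneg (by positivity)
    split_ifs
    · positivity
    · positivity
  calc (num (fun π : Equiv.Perm (Fin ℓ) => pre v π j ∈ C ∧ pre v π j' ∈ C') : ℝ)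
      ≤ ∑ x ∈ C ×ˢ C', (pairCount v (fst ℓ j) (fst ℓ j' \ fst ℓ j) x.1 (x.2 / x.1) : ℝ) := by
        exact_mod_cast hnat
    _ ≤ ∑ _x ∈ C ×ˢ C', M := Finset.sum_le_sum hb
    _ = (C.card * C'.card : ℝ) * M := by
        rw [Finset.sum_const, nsmul_eq_mul, Finset.card_product]; push_cast; ring
    _ ≤ 4 * M := by
        apply mul_le_mul_of_nonneg_right _ hM0
        have h1 : (C.card : ℝ) ≤ 2 := by exact_mod_cast hC
        have h2 : (C'.card : ℝ) ≤ 2 := by exact_mod_cast hC'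
        have h3 : (0 : ℝ) ≤ C'.card := by positivity
        nlinarith

lemma near_card (ℓ : ℕ) (δ : ℝ) (hδ : 0 ≤ δ) :
    (((MP1fb.LS.prs ℓ).filter (fun x => 4 * ((x.2 - x.1 : ℕ) : ℝ) ≤ δ * ℓ)).card : ℝ) ≤
      ℓ * (δ * ℓ / 4) := by
  have h1 : ((MP1fb.LS.prs ℓ).filter (fun x => 4 * ((x.2 - x.1 : ℕ) : ℝ) ≤ δ * ℓ)).card ≤
      (range ℓ ×ˢ Ico 1 (⌊δ * ℓ / 4⌋₊ + 1)).card := by
    apply Finset.card_le_card_of_injOn (fun x => (x.1, x.2 - x.1))
    · intro x hx
      rw [Finset.mem_coe, Finset.mem_filter] at hx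
      unfold MP1fb.LS.prs at hx
      rw [Finset.mem_filter, Finset.mem_product, Finset.mem_Ico, Finset.mem_Ico] at hx
      rw [Finset.mem_coe, Finset.mem_product, Finset.mem_range, Finset.mem_Ico]
      beta_reduce
      simp only
      refine ⟨by omega, by omega, ?_⟩
      have : x.2 - x.1 ≤ ⌊δ * ℓ / 4⌋₊ := by
        apply Nat.le_floor
        linarith [hx.2]
      omega
    · intro x hx y hy hxy
      rw [Finset.mem_coe, Finset.mem_filter] at hx hy
      unfold MP1fb.LS.prs at hx hy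
      rw [Finset.mem_filter, Finset.mem_product, Finset.mem_Ico, Finset.mem_Ico] at hx hy
      simp only [Prod.mk.injEq] at hxy
      exact Prod.ext hxy.1 (by omega)
  rw [Finset.card_product, Finset.card_range, Nat.card_Ico] at h1
  have h2 : (((MP1fb.LS.prs ℓ).filter (fun x => 4 * ((x.2 - x.1 : ℕ) : ℝ) ≤ δ * ℓ)).card : ℝ) ≤
      ((ℓ * (⌊δ * ℓ / 4⌋₊ + 1 - 1) : ℕ) : ℝ) := by exact_mod_cast h1
  refine h2.trans ?_
  rw [Nat.add_sub_cancel]
  push_cast
  have h3 : (⌊δ * ℓ / 4⌋₊ : ℝ) ≤ δ * ℓ / 4 := Nat.floor_le (by positivity)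
  gcongr

lemma prs_card (ℓ : ℕ) : ((MP1fb.LS.prs ℓ).card : ℝ) ≤ (ℓ : ℝ) ^ 2 := by
  have h1 : (MP1fb.LS.prs ℓ).card ≤ ℓ * ℓ := by
    unfold MP1fb.LS.prs
    refine (Finset.card_filter_le _ _).trans ?_
    rw [Finset.card_product, Nat.card_Ico]
    exact Nat.mul_le_mul (Nat.sub_le _ _) (Nat.sub_le _ _)
  rw [sq]
  exact_mod_cast h1

/-- **one good block** -/
theorem block_good (hp3 : 3 ≤ p) {ℓ : ℕ} (v : Fin ℓ → ZMod p) (hv : Function.Injective v)
    (h0 : ∀ i, v i ≠ 0) (δ : ℝ) (hδ : 0 ≤ δ) (hδ1 : δ ≤ 1)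
    (hχ : ∀ χ : DirichletCharacter ℂ p, χ ≠ 1 → ‖∑ i, χ (v i)‖ ≤ (1 - δ) * (ℓ : ℝ))
    (G : ℕ) (hG : 224 * Real.log p ≤ δ ^ 2 * G) (hG0 : 0 < G) (hGℓ : 4 * (G : ℝ) ≤ δ * ℓ)
    (C : ℕ → Finset (ZMod p)) (hC : ∀ j, (C j).card ≤ 2) (hC0 : ∀ j, (0 : ZMod p) ∉ C j) :
    |(num (fun π : Equiv.Perm (Fin ℓ) => ∃ j ∈ Icc G (ℓ - G), pre v π j ∈ C j) : ℝ) /
      ℓ.factorial - ∑ j ∈ Icc G (ℓ - G), ((C j).card : ℝ) / (p - 1)| ≤
      4 * δ * ℓ / ((p : ℝ) - 1) + 22 * (ℓ : ℝ) ^ 2 / ((p : ℝ) - 1) ^ 2 := by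
  classical
  have hp3R : (3 : ℝ) ≤ p := by exact_mod_cast hp3
  have hp0 : (0 : ℝ) < p := by linarith
  have hp1 : (0 : ℝ) < (p : ℝ) - 1 := by linarith
  have hG0R : (0 : ℝ) < G := by exact_mod_cast hG0
  have hℓR : (0 : ℝ) < ℓ := by
    by_contra hcon
    have : (ℓ : ℝ) = 0 := le_antisymm (not_lt.mp hcon) (by positivity)
    rw [this, mul_zero] at hGℓ
    linarith
  have hGℓ' : 4 * G ≤ ℓ := by
    have h1 : δ * ℓ ≤ ℓ := by nlinarith
    have h2 : 4 * (G : ℝ) ≤ ℓ := hGℓ.trans h1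
    exact_mod_cast h2
  have hlog : 0 ≤ Real.log p := Real.log_nonneg (by linarith)
  have hGδ : 224 * Real.log p ≤ δ * G := by
    refine hG.trans ?_
    have : δ ^ 2 ≤ δ := by nlinarith
    exact mul_le_mul_of_nonneg_right this hG0R.le
  have hfac : (0 : ℝ) < ℓ.factorial := by exact_mod_cast Nat.factorial_pos ℓ
  set E : ℕ → Equiv.Perm (Fin ℓ) → Prop := fun j π => j ∈ Icc G (ℓ - G) ∧ pre v π j ∈ C j with hE
  have hbon := bonferroni ℓ E
  have hev : (fun w : Equiv.Perm (Fin ℓ) => ∃ j ∈ Ico 1 ℓ, E j w) =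
      (fun π : Equiv.Perm (Fin ℓ) => ∃ j ∈ Icc G (ℓ - G), pre v π j ∈ C j) := by
    funext π
    apply propext
    constructor
    · rintro ⟨j, _, h1, h2⟩; exact ⟨j, h1, h2⟩
    · rintro ⟨j, h1, h2⟩
      refine ⟨j, ?_, h1, h2⟩
      rw [Finset.mem_Icc] at h1
      rw [Finset.mem_Ico]
      omega
  rw [hev] at hbon
  -- pairs
  have hpairs : ∑ x ∈ MP1fb.LS.prs ℓ, (num (fun w => E x.1 w ∧ E x.2 w) : ℝ) ≤
      (4 * δ * ℓ / ((p : ℝ) - 1) + 20 * (ℓ : ℝ) ^ 2 / ((p : ℝ) - 1) ^ 2) * ℓ.factorial := by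
    have h1 : ∀ x ∈ MP1fb.LS.prs ℓ, (num (fun w => E x.1 w ∧ E x.2 w) : ℝ) ≤
        4 * ((ℓ.factorial : ℝ) * ((if 4 * ((x.2 - x.1 : ℕ) : ℝ) ≤ δ * ℓ then
        4 / ((ℓ : ℝ) * ((p : ℝ) - 1)) else 0) + 5 / ((p : ℝ) - 1) ^ 2)) := by
      intro x hx
      unfold MP1fb.LS.prs at hx
      rw [Finset.mem_filter, Finset.mem_product, Finset.mem_Ico, Finset.mem_Ico] at hx
      by_cases hin : x.1 ∈ Icc G (ℓ - G) ∧ x.2 ∈ Icc G (ℓ - G)
      · have h2 := num_mono (fun w => E x.1 w ∧ E x.2 w)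
          (fun π : Equiv.Perm (Fin ℓ) => pre v π x.1 ∈ C x.1 ∧ pre v π x.2 ∈ C x.2)
          (fun w hw => ⟨hw.1.2, hw.2.2⟩)
        have h2R : (num (fun w => E x.1 w ∧ E x.2 w) : ℝ) ≤
          (num (fun π : Equiv.Perm (Fin ℓ) => pre v π x.1 ∈ C x.1 ∧ pre v π x.2 ∈ C x.2) : ℝ) := by
          exact_mod_cast h2
        rw [Finset.mem_Icc, Finset.mem_Icc] at hin
        exact h2R.trans (two_int hp3 v hv h0 δ hδ hδ1 hχ G hG hG0 hGℓ x.1 x.2 hin.1.1 hx.2
          (by omega) (C x.1) (C x.2) (hC _) (hC _) (hC0 _) (hC0 _))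
      · have h2 : num (fun w => E x.1 w ∧ E x.2 w) = 0 := by
          rw [num_eq, Finset.card_eq_zero, Finset.filter_eq_empty_iff]
          intro w _ hw
          exact hin ⟨hw.1.1, hw.2.1⟩
        rw [h2, Nat.cast_zero]
        apply mul_nonneg (by norm_num)
        apply mul_nonneg hfac.le
        split_ifs
        · positivity
        · positivity
    refine (Finset.sum_le_sum h1).trans ?_
    rw [← Finset.mul_sum, ← Finset.mul_sum, Finset.sum_add_distrib, ← Finset.sum_filter,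
      Finset.sum_const, Finset.sum_const, nsmul_eq_mul, nsmul_eq_mul]
    have h3 := near_card ℓ δ hδ
    have h4 := prs_card ℓ
    calc 4 * ((ℓ.factorial : ℝ) *
          ((((MP1fb.LS.prs ℓ).filter (fun x => 4 * ((x.2 - x.1 : ℕ) : ℝ) ≤ δ * ℓ)).card : ℝ) *
            (4 / ((ℓ : ℝ) * ((p : ℝ) - 1))) +
          ((MP1fb.LS.prs ℓ).card : ℝ) * (5 / ((p : ℝ) - 1) ^ 2)))
        ≤ 4 * ((ℓ.factorial : ℝ) * ((ℓ * (δ * ℓ / 4)) * (4 / ((ℓ : ℝ) * ((p : ℝ) - 1))) +
          (ℓ : ℝ) ^ 2 * (5 / ((p : ℝ) - 1) ^ 2))) := by gcongr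
      _ = _ := by field_simp; ring
  -- single places
  have hsingle : ∀ j ∈ Ico 1 ℓ, |(num (fun w => E j w) : ℝ) -
      (if j ∈ Icc G (ℓ - G) then ((C j).card : ℝ) * ((ℓ.factorial : ℝ) / (p - 1)) else 0)| ≤
      2 * (ℓ.factorial * (1 / (p : ℝ) ^ 5)) := by
    intro j hj
    by_cases hin : j ∈ Icc G (ℓ - G)
    · rw [if_pos hin]
      have h1 : (fun w => E j w) = (fun π : Equiv.Perm (Fin ℓ) => pre v π j ∈ C j) := by
        funext π
        exact propext ⟨fun h => h.2, fun h => ⟨hin, h⟩⟩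
      rw [h1, one_place]
      push_cast
      have e1 : ((C j).card : ℝ) * ((ℓ.factorial : ℝ) / (p - 1)) =
          ∑ _c ∈ C j, ((ℓ.factorial : ℝ) / (p - 1)) := by
        rw [Finset.sum_const, nsmul_eq_mul]
      rw [e1, ← Finset.sum_sub_distrib]
      refine (Finset.abs_sum_le_sum_abs _ _).trans ?_
      rw [Finset.mem_Icc] at hin
      have h2 : ∀ c ∈ C j, |(oneCount v (fst ℓ j) c : ℝ) - (ℓ.factorial : ℝ) / (p - 1)| ≤
          ℓ.factorial * (1 / (p : ℝ) ^ 5) := by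
        intro c hc
        have := place_good hp3 v hv h0 δ hδ (by rwa [Fintype.card_fin]) G (by linarith) hG0
          (fst ℓ j) (by rw [card_fst ℓ j (by omega)]; exact hin.1)
          (by rw [card_fst ℓ j (by omega), Fintype.card_fin]; omega) c
          (fun h => hC0 j (h ▸ hc))
        rwa [Fintype.card_fin] at this
      refine (Finset.sum_le_sum h2).trans ?_
      rw [Finset.sum_const, nsmul_eq_mul]
      have h3 : ((C j).card : ℝ) ≤ 2 := by exact_mod_cast hC j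
      gcongr
    · rw [if_neg hin]
      have h1 : num (fun w => E j w) = 0 := by
        rw [num_eq, Finset.card_eq_zero, Finset.filter_eq_empty_iff]
        intro w _ hw
        exact hin hw.1
      rw [h1, Nat.cast_zero, sub_zero, abs_zero]
      positivity
  have hsingles : |∑ j ∈ Ico 1 ℓ, (num (fun w => E j w) : ℝ) -
      ∑ j ∈ Icc G (ℓ - G), ((C j).card : ℝ) * ((ℓ.factorial : ℝ) / (p - 1))| ≤
      (2 * (ℓ : ℝ) ^ 2 / ((p : ℝ) - 1) ^ 2) * ℓ.factorial := by
    have e1 : ∑ j ∈ Icc G (ℓ - G), ((C j).card : ℝ) * ((ℓ.factorial : ℝ) / (p - 1)) =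
        ∑ j ∈ Ico 1 ℓ, (if j ∈ Icc G (ℓ - G) then
          ((C j).card : ℝ) * ((ℓ.factorial : ℝ) / (p - 1)) else 0) := by
      rw [← Finset.sum_filter]
      apply Finset.sum_congr
      · ext j
        rw [Finset.mem_filter, Finset.mem_Icc, Finset.mem_Ico]
        constructor
        · intro h; omega
        · intro h; exact h.2
      · intro j _; rfl
    rw [e1, ← Finset.sum_sub_distrib]
    refine (Finset.abs_sum_le_sum_abs _ _).trans ?_
    refine (Finset.sum_le_sum hsingle).trans ?_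
    rw [Finset.sum_const, nsmul_eq_mul, Nat.card_Ico]
    have h1 : ((ℓ - 1 : ℕ) : ℝ) ≤ ℓ := by exact_mod_cast Nat.sub_le ℓ 1
    have hℓ1 : (1 : ℝ) ≤ ℓ := by
      have : 0 < ℓ := by omega
      exact_mod_cast this
    have h2 : 1 / (p : ℝ) ^ 5 ≤ 1 / ((p : ℝ) - 1) ^ 2 := by
      apply one_div_le_one_div_of_le (by positivity)
      calc ((p : ℝ) - 1) ^ 2 ≤ (p : ℝ) ^ 2 := by
            apply pow_le_pow_left₀ hp1.le; linarith
        _ ≤ (p : ℝ) ^ 5 := pow_le_pow_right₀ (by linarith) (by norm_num)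
    calc ((ℓ - 1 : ℕ) : ℝ) * (2 * (ℓ.factorial * (1 / (p : ℝ) ^ 5)))
        ≤ (ℓ * ℓ) * (2 * (ℓ.factorial * (1 / ((p : ℝ) - 1) ^ 2))) := by
          gcongr
          nlinarith
      _ = _ := by ring
  have e1 : ∑ j ∈ Icc G (ℓ - G), ((C j).card : ℝ) * ((ℓ.factorial : ℝ) / (p - 1)) =
      (∑ j ∈ Icc G (ℓ - G), ((C j).card : ℝ) / (p - 1)) * ℓ.factorial := by
    rw [Finset.sum_mul]
    apply Finset.sum_congr rfl
    intro j _
    ring
  rw [e1] at hsingles
  have e2 : |(num (fun π : Equiv.Perm (Fin ℓ) => ∃ j ∈ Icc G (ℓ - G), pre v π j ∈ C j) : ℝ) -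
      (∑ j ∈ Icc G (ℓ - G), ((C j).card : ℝ) / (p - 1)) * ℓ.factorial| ≤
      (4 * δ * ℓ / ((p : ℝ) - 1) + 22 * (ℓ : ℝ) ^ 2 / ((p : ℝ) - 1) ^ 2) * ℓ.factorial := by
    have h1 := abs_sub_le (num (fun π : Equiv.Perm (Fin ℓ) => ∃ j ∈ Icc G (ℓ - G),
      pre v π j ∈ C j) : ℝ) (∑ j ∈ Ico 1 ℓ, (num (fun w => E j w) : ℝ))
      ((∑ j ∈ Icc G (ℓ - G), ((C j).card : ℝ) / (p - 1)) * ℓ.factorial)
    have h2 : (4 * δ * ℓ / ((p : ℝ) - 1) + 22 * (ℓ : ℝ) ^ 2 / ((p : ℝ) - 1) ^ 2) * ℓ.factorial =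
        (4 * δ * ℓ / ((p : ℝ) - 1) + 20 * (ℓ : ℝ) ^ 2 / ((p : ℝ) - 1) ^ 2) * ℓ.factorial +
        (2 * (ℓ : ℝ) ^ 2 / ((p : ℝ) - 1) ^ 2) * ℓ.factorial := by ring
    rw [h2]
    linarith
  have e3 : (num (fun π : Equiv.Perm (Fin ℓ) => ∃ j ∈ Icc G (ℓ - G), pre v π j ∈ C j) : ℝ) /
      ℓ.factorial - ∑ j ∈ Icc G (ℓ - G), ((C j).card : ℝ) / (p - 1) =
      ((num (fun π : Equiv.Perm (Fin ℓ) => ∃ j ∈ Icc G (ℓ - G), pre v π j ∈ C j) : ℝ) -
      (∑ j ∈ Icc G (ℓ - G), ((C j).card : ℝ) / (p - 1)) * ℓ.factorial) / ℓ.factorial := by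
    field_simp
  rw [e3, abs_div, abs_of_pos hfac, div_le_iff₀ hfac]
  exact e2

/-- **one bad block** -/
theorem block_bad (hp3 : 3 ≤ p) {ℓ : ℕ} (v : Fin ℓ → ZMod p) (hv : Function.Injective v)
    (h0 : ∀ i, v i ≠ 0) (δ : ℝ) (hδ : 0 ≤ δ) (D : Finset (DirichletCharacter ℂ p))
    (hχ : ∀ χ : DirichletCharacter ℂ p, χ ≠ 1 → χ ∉ D → ‖∑ i, χ (v i)‖ ≤ (1 - δ) * (ℓ : ℝ))
    (G : ℕ) (hG : 12 * Real.log p ≤ δ * G) (hG0 : 0 < G) (hGℓ : 2 * G ≤ ℓ)
    (C : ℕ → Finset (ZMod p)) (hC : ∀ j, (C j).card ≤ 2) (hC0 : ∀ j, (0 : ZMod p) ∉ C j) :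
    (num (fun π : Equiv.Perm (Fin ℓ) => ∃ j ∈ Icc G (ℓ - G), pre v π j ∈ C j) : ℝ) /
      ℓ.factorial ≤ ℓ * (2 * ((2 + D.card) / ((p : ℝ) - 1))) := by
  classical
  have hp3R : (3 : ℝ) ≤ p := by exact_mod_cast hp3
  have hp1 : (0 : ℝ) < (p : ℝ) - 1 := by linarith
  have hfac : (0 : ℝ) < ℓ.factorial := by exact_mod_cast Nat.factorial_pos ℓ
  rw [div_le_iff₀ hfac]
  have h1 : num (fun π : Equiv.Perm (Fin ℓ) => ∃ j ∈ Icc G (ℓ - G), pre v π j ∈ C j) ≤
      ∑ j ∈ Icc G (ℓ - G), num (fun π : Equiv.Perm (Fin ℓ) => pre v π j ∈ C j) := by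
    simp only [num_sum]
    rw [Finset.sum_comm]
    apply Finset.sum_le_sum
    intro w _
    by_cases hex : ∃ j ∈ Icc G (ℓ - G), pre v w j ∈ C j
    · rw [ind_pos hex]
      obtain ⟨j, hj, hE⟩ := hex
      calc 1 = ind (pre v w j ∈ C j) := (ind_pos hE).symm
        _ ≤ ∑ j ∈ Icc G (ℓ - G), ind (pre v w j ∈ C j) :=
          Finset.single_le_sum (f := fun j => ind (pre v w j ∈ C j)) (fun _ _ => Nat.zero_le _) hj
    · rw [ind_neg hex]; exact Nat.zero_le _
  have h1R : (num (fun π : Equiv.Perm (Fin ℓ) => ∃ j ∈ Icc G (ℓ - G), pre v π j ∈ C j) : ℝ) ≤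
      ∑ j ∈ Icc G (ℓ - G), (num (fun π : Equiv.Perm (Fin ℓ) => pre v π j ∈ C j) : ℝ) := by
    exact_mod_cast h1
  refine h1R.trans ?_
  have h2 : ∀ j ∈ Icc G (ℓ - G), (num (fun π : Equiv.Perm (Fin ℓ) => pre v π j ∈ C j) : ℝ) ≤
      2 * (ℓ.factorial * ((2 + D.card) / ((p : ℝ) - 1))) := by
    intro j hj
    rw [Finset.mem_Icc] at hj
    rw [one_place]
    push_cast
    have h3 : ∀ c ∈ C j, (oneCount v (fst ℓ j) c : ℝ) ≤
        ℓ.factorial * ((2 + D.card) / ((p : ℝ) - 1)) := by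
      intro c hc
      have := place_bad hp3 v hv h0 δ hδ D (by rwa [Fintype.card_fin]) G hG hG0
        (fst ℓ j) (by rw [card_fst ℓ j (by omega)]; exact hj.1)
        (by rw [card_fst ℓ j (by omega), Fintype.card_fin]; omega) c
        (fun h => hC0 j (h ▸ hc))
      rwa [Fintype.card_fin] at this
    refine (Finset.sum_le_sum h3).trans ?_
    rw [Finset.sum_const, nsmul_eq_mul]
    have h4 : ((C j).card : ℝ) ≤ 2 := by exact_mod_cast hC j
    gcongr
  refine (Finset.sum_le_sum h2).trans ?_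
  rw [Finset.sum_const, nsmul_eq_mul, Nat.card_Icc]
  have h5 : ((ℓ - G + 1 - G : ℕ) : ℝ) ≤ ℓ := by exact_mod_cast (by omega : ℓ - G + 1 - G ≤ ℓ)
  calc ((ℓ - G + 1 - G : ℕ) : ℝ) * (2 * (ℓ.factorial * ((2 + D.card) / ((p : ℝ) - 1))))
      ≤ ℓ * (2 * (ℓ.factorial * ((2 + D.card) / ((p : ℝ) - 1)))) := by gcongr
    _ = _ := by ring

end MP1fb.L2
end
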