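import Pool.Agent.Lib.MP_1fb68e_nt.L2.MODEL
import Pool.Agent.Lib.MP_1fb68e_nt.L2.BLK2

section
/-!
MP_1fb68e_nt, two local shuffles: the blocks of level 2 after the shuffle of level 1.
-/
set_option autoImplicit false

namespace MP1fb.L2

open Finset MP1fb.LS

variable {p : ℕ}

/-- places of a block -/
def pl (p a ℓ : ℕ) : Finset (Fin (p / 2)) :=
  univ.filter (fun x : Fin (p / 2) => a ≤ x ∧ (x : ℕ) < a + ℓ)

lemma mem_pl (a ℓ : ℕ) (x : Fin (p / 2)) : x ∈ pl p a ℓ ↔ a ≤ x ∧ (x : ℕ) < a + ℓ := by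
  unfold pl
  rw [Finset.mem_filter]
  simp

lemma sum_blk {R : Type*} [AddCommMonoid R] (a ℓ : ℕ) (hal : a + ℓ ≤ p / 2)
    (F : Fin (p / 2) → R) : ∑ i : Fin ℓ, F ⟨a + i, by omega⟩ = ∑ x ∈ pl p a ℓ, F x := by
  apply Finset.sum_bij (fun (i : Fin ℓ) _ => (⟨a + i, by omega⟩ : Fin (p / 2)))
  · intro i _
    rw [mem_pl]
    simp
  · intro i _ j _ h
    have h1 := congrArg Fin.val h
    simp only at h1
    exact Fin.ext (by omega)
  · intro x hx
    rw [mem_pl] at hx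
    exact ⟨⟨x - a, by omega⟩, mem_univ _, Fin.ext (by simp only; omega)⟩
  · intro i _
    rfl

lemma card_pl (a ℓ : ℕ) (hal : a + ℓ ≤ p / 2) : (pl p a ℓ).card = ℓ := by
  have h := sum_blk a ℓ hal (fun _ => 1)
  rw [Finset.card_eq_sum_ones, ← h]
  simp

/-- character sum over a block -/
noncomputable def bs (χ : DirichletCharacter ℂ p) (τ : Equiv.Perm (Fin (p / 2))) (a ℓ : ℕ) : ℂ :=
  ∑ x ∈ pl p a ℓ, χ (val p τ x)

lemma bs_eq (χ : DirichletCharacter ℂ p) (τ : Equiv.Perm (Fin (p / 2))) (a ℓ : ℕ)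
    (hal : a + ℓ ≤ p / 2) : bs χ τ a ℓ = ∑ i, χ (vblk p τ a ℓ hal i) :=
  (sum_blk a ℓ hal (fun x => χ (val p τ x))).symm

variable [hp : Fact p.Prime]

/-- a block which `τ` preserves -/
lemma bs_cut (χ : DirichletCharacter ℂ p) (τ : Equiv.Perm (Fin (p / 2))) (a ℓ : ℕ)
    (hal : a + ℓ ≤ p / 2)
    (hτ : ∀ x : Fin (p / 2), (a ≤ τ x ∧ (τ x : ℕ) < a + ℓ) ↔ (a ≤ x ∧ (x : ℕ) < a + ℓ)) :
    bs χ τ a ℓ = cs χ a ℓ := by
  have h1 : bs χ τ a ℓ = ∑ x ∈ pl p a ℓ, χ (val p 1 x) := by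
    unfold bs
    apply Finset.sum_equiv τ
    · intro x
      rw [mem_pl, mem_pl, hτ]
    · intro x _
      rfl
  rw [h1, ← sum_blk a ℓ hal (fun x => χ (val p 1 x))]
  unfold cs
  rw [Finset.sum_range]
  apply Finset.sum_congr rfl
  intro i _
  congr 1
  unfold val
  simp

omit hp in
lemma bs_split (χ : DirichletCharacter ℂ p) (τ : Equiv.Perm (Fin (p / 2))) (a ℓ : ℕ)
    (hal : a + ℓ ≤ p / 2) (σ : Equiv.Perm (Fin ℓ)) (a' ℓ' : ℕ) (hal' : a' + ℓ' ≤ p / 2)
    (t m : ℕ) (h1 : t + m ≤ ℓ) (h2 : a' ≤ a + t) (h3 : a + t + m ≤ a' + ℓ') :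
    ‖bs χ (τ * ext (p / 2) a ℓ hal σ) a' ℓ'‖ ≤
      ‖∑ i ∈ univ.filter (fun i : Fin ℓ => t ≤ i ∧ (i : ℕ) < t + m),
        χ (vblk p τ a ℓ hal (σ i))‖ + ((ℓ' : ℝ) - m) := by
  classical
  have hsub : pl p (a + t) m ⊆ pl p a' ℓ' := by
    intro x hx
    rw [mem_pl] at hx ⊢
    omega
  unfold bs
  rw [← Finset.sum_sdiff hsub, add_comm]
  refine (norm_add_le _ _).trans (add_le_add (le_of_eq ?_) ?_)
  · congr 1
    symm
    apply Finset.sum_bij (fun (i : Fin ℓ) _ => (⟨a + i, by omega⟩ : Fin (p / 2)))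
    · intro i hi
      rw [Finset.mem_filter] at hi
      rw [mem_pl]
      simp only
      omega
    · intro i _ j _ h
      have h1 := congrArg Fin.val h
      simp only at h1
      exact Fin.ext (by omega)
    · intro x hx
      rw [mem_pl] at hx
      refine ⟨⟨x - a, by omega⟩, ?_, Fin.ext (by simp only; omega)⟩
      rw [Finset.mem_filter]
      refine ⟨mem_univ _, ?_⟩
      simp only
      omega
    · intro i _
      congr 1
      change val p τ _ = val p τ (ext (p / 2) a ℓ hal σ ⟨a + i, by omega⟩)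
      rw [ext_in]
  · refine (norm_sum_le _ _).trans ?_
    refine (Finset.sum_le_sum (fun x _ => norm_char_le χ _)).trans ?_
    have h4 := Finset.card_sdiff_of_subset hsub
    rw [card_pl a' ℓ' hal', card_pl (a + t) m (by omega)] at h4
    rw [Finset.sum_const, nsmul_eq_mul, mul_one, h4, Nat.cast_sub (by omega)]

lemma card_mid (ℓ t m : ℕ) (h : t + m ≤ ℓ) :
    (univ.filter (fun i : Fin ℓ => t ≤ i ∧ (i : ℕ) < t + m)).card = m := by
  have h1 : (univ.filter (fun i : Fin ℓ => t ≤ i ∧ (i : ℕ) < t + m)).card =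
      (Ico t (t + m)).card := by
    apply Finset.card_bij (fun (i : Fin ℓ) _ => (i : ℕ))
    · intro i hi
      rw [Finset.mem_filter] at hi
      rw [Finset.mem_Ico]
      exact hi.2
    · intro i _ j _ h
      exact Fin.ext h
    · intro x hx
      rw [Finset.mem_Ico] at hx
      exact ⟨⟨x, by omega⟩, by rw [Finset.mem_filter]; exact ⟨mem_univ _, hx⟩, rfl⟩
  rw [h1, Nat.card_Ico]
  omega

/-- one character, one block -/
theorem lv1_one (χ : DirichletCharacter ℂ p) (τ : Equiv.Perm (Fin (p / 2))) (a ℓ : ℕ)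
    (hal : a + ℓ ≤ p / 2)
    (hτ : ∀ x : Fin (p / 2), (a ≤ τ x ∧ (τ x : ℕ) < a + ℓ) ↔ (a ≤ x ∧ (x : ℕ) < a + ℓ))
    (a' ℓ' : ℕ) (hal' : a' + ℓ' ≤ p / 2)
    (t m : ℕ) (h1 : t + m ≤ ℓ) (h2 : a' ≤ a + t) (h3 : a + t + m ≤ a' + ℓ')
    (hm : 0 < m) (hℓ' : ℓ' ≤ 4 * m) (δ : ℝ) (hδ0 : 0 ≤ δ) (hδ1 : δ ≤ 1)
    (hχ : ‖cs χ a ℓ‖ ≤ (1 - δ) * ℓ) :
    (num (fun σ : Equiv.Perm (Fin ℓ) =>
      ¬ ‖bs χ (τ * ext (p / 2) a ℓ hal σ) a' ℓ'‖ ≤ (1 - δ / 8) * ℓ') : ℝ) ≤
      4 * ((ℓ : ℝ) + 1) * Real.exp (-(δ ^ 2 * m / 64)) * ℓ.factorial := by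
  set I := univ.filter (fun i : Fin ℓ => t ≤ i ∧ (i : ℕ) < t + m) with hI
  have hIc : I.card = m := card_mid ℓ t m h1
  have hℓ0 : 0 < ℓ := by omega
  have hℓR : (0 : ℝ) < ℓ := by exact_mod_cast hℓ0
  have hmR : (0 : ℝ) < m := by exact_mod_cast hm
  have key := perm_conc (fun i : Fin ℓ => χ (vblk p τ a ℓ hal i))
    (fun i => norm_char_le χ _) I (by rw [Fintype.card_fin]; exact hℓ0) (δ / 4) (by positivity)
    (by linarith)
  rw [Fintype.card_fin, hIc] at key
  have e : (δ / 4) ^ 2 * (m : ℝ) / 4 = δ ^ 2 * m / 64 := by ring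
  rw [e] at key
  refine le_trans ?_ key
  have hmono : num (fun σ : Equiv.Perm (Fin ℓ) =>
      ¬ ‖bs χ (τ * ext (p / 2) a ℓ hal σ) a' ℓ'‖ ≤ (1 - δ / 8) * ℓ') ≤
      num (fun π : Equiv.Perm (Fin ℓ) => 2 * (δ / 4) * (m : ℝ) ≤
        ‖∑ i ∈ I, χ (vblk p τ a ℓ hal (π i)) -
          (((m : ℝ) / (ℓ : ℝ) : ℝ) : ℂ) * ∑ i, χ (vblk p τ a ℓ hal i)‖) := by
    apply num_mono
    intro σ hσ
    by_contra hcon
    push Not at hcon
    apply hσ
    have h4 := bs_split χ τ a ℓ hal σ a' ℓ' hal' t m h1 h2 h3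
    rw [← hI] at h4
    have h5 : ∑ i, χ (vblk p τ a ℓ hal i) = cs χ a ℓ := by
      rw [← bs_eq χ τ a ℓ hal, bs_cut χ τ a ℓ hal hτ]
    rw [h5] at hcon
    have h6 : ‖(((m : ℝ) / (ℓ : ℝ) : ℝ) : ℂ) * cs χ a ℓ‖ ≤ (1 - δ) * m := by
      rw [norm_mul, Complex.norm_real, Real.norm_of_nonneg (by positivity)]
      calc (m : ℝ) / ℓ * ‖cs χ a ℓ‖ ≤ (m : ℝ) / ℓ * ((1 - δ) * ℓ) := by gcongr
        _ = (1 - δ) * m := by field_simp
    have h7 : ‖∑ i ∈ I, χ (vblk p τ a ℓ hal (σ i))‖ ≤ 2 * (δ / 4) * m + (1 - δ) * m := by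
      have h8 : ∑ i ∈ I, χ (vblk p τ a ℓ hal (σ i)) =
          (∑ i ∈ I, χ (vblk p τ a ℓ hal (σ i)) - (((m : ℝ) / (ℓ : ℝ) : ℝ) : ℂ) * cs χ a ℓ) +
          (((m : ℝ) / (ℓ : ℝ) : ℝ) : ℂ) * cs χ a ℓ := by ring
      rw [h8]
      refine (norm_add_le _ _).trans ?_
      linarith
    have h9 : (ℓ' : ℝ) ≤ 4 * m := by exact_mod_cast hℓ'
    have h10 : δ * (ℓ' : ℝ) ≤ δ * (4 * m) := mul_le_mul_of_nonneg_left h9 hδ0
    nlinarith
  exact_mod_cast hmono

/-- start of the common part, relative to the block of level 1 -/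
def tt (M b : ℕ) : ℕ := if b = 0 then 0 else M

/-- the blocks of the two levels -/
lemma rel_all (M b : ℕ) (hM : 0 < M) (hH : 4 * M ≤ p / 2) (hb : b ≤ (p / 2 - M) / (2 * M)) :
    b - 1 ≤ (p / 2 - 2 * M) / (2 * M) ∧
    tt M b + M ≤ ln (ct (p / 2) M (2 * M)) (b - 1) ∧
    ct (p / 2) M M b ≤ ct (p / 2) M (2 * M) (b - 1) + tt M b ∧
    ct (p / 2) M (2 * M) (b - 1) + tt M b + M ≤ ct (p / 2) M M b + ln (ct (p / 2) M M) b := by
  have hm1 := ct_mono (p / 2) M (2 * M) hM (by omega)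
  have hm2 := ct_mono (p / 2) M M hM (by omega)
  rw [add_ln (ct (p / 2) M M) hm2]
  rcases Nat.eq_zero_or_pos b with h | h
  · subst h
    have h1 := rel0 (p / 2) M hM hH
    have h2 : ln (ct (p / 2) M (2 * M)) 0 = 2 * M := ln_zero _ _ _ hM (by omega)
    refine ⟨Nat.zero_le _, ?_, ?_, ?_⟩
    · unfold tt
      rw [if_pos rfl]
      change 0 + M ≤ ln (ct (p / 2) M (2 * M)) 0
      omega
    · rw [ct_zero]; exact Nat.zero_le _
    · unfold tt
      rw [if_pos rfl]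
      change ct (p / 2) M (2 * M) 0 + 0 + M ≤ ct (p / 2) M M (0 + 1)
      rw [ct_zero, Nat.zero_add, h1.2]
  · obtain ⟨c, rfl⟩ : ∃ c, b = c + 1 := ⟨b - 1, by omega⟩
    obtain ⟨h1, h2, h3, h4, h5, h6⟩ := rel (p / 2) M c hM hH hb
    unfold tt
    rw [if_neg (by omega)]
    simp only [Nat.add_sub_cancel]
    refine ⟨h1, ?_, ?_, ?_⟩
    · unfold ln
      omega
    · omega
    · change ct (p / 2) M (2 * M) c + M + M ≤ ct (p / 2) M M (c + 2)
      omega

/-- the exceptional characters of a block of level 1 -/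
noncomputable def DD (p M w : ℕ) [Fact p.Prime] : Finset (DirichletCharacter ℂ p) :=
  (big p (ct (p / 2) M (2 * M) w)
    (ct (p / 2) M (2 * M) (w + 1) - ct (p / 2) M (2 * M) w) (del p)).erase 1

/-- no bias in the blocks of level 2, up to the exceptional characters -/
def Fair (p M : ℕ) [Fact p.Prime] (τ : Equiv.Perm (Fin (p / 2))) : Prop :=
  ∀ b, b < nb (p / 2) M M → ∀ χ : DirichletCharacter ℂ p, χ ≠ 1 → χ ∉ DD p M (b - 1) →
    ‖bs χ τ (ct (p / 2) M M b) (ln (ct (p / 2) M M) b)‖ ≤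
      (1 - del p / 8) * ln (ct (p / 2) M M) b

omit hp in
lemma del_pos : 0 < del p := by
  unfold del
  have : 0 < sz p := by unfold sz; omega
  positivity

omit hp in
lemma del_le : del p ≤ 1 := by
  unfold del
  have : 1 ≤ sz p := by unfold sz; omega
  have h1 : (1 : ℝ) ≤ sz p := by exact_mod_cast this
  rw [div_le_one (by positivity)]
  have h2 : (1 : ℝ) ≤ (sz p : ℝ) ^ 29 := one_le_pow₀ h1
  nlinarith

open Classical in
/-- **the shuffle of level 1** -/
theorem lv1 (M : ℕ) (hM : 0 < M) (hH : 4 * M ≤ p / 2) :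
    (num (fun τ => Pres (p / 2) (ct (p / 2) M (2 * M)) τ ∧ ¬ Fair p M τ) : ℝ) ≤
      (nb (p / 2) M M : ℝ) * (p * (4 * (4 * (M : ℝ) + 1) *
        Real.exp (-(del p ^ 2 * M / 64)))) * num (Pres (p / 2) (ct (p / 2) M (2 * M))) := by
  set s1 := ct (p / 2) M (2 * M) with hs1
  set s2 := ct (p / 2) M M with hs2
  have hm1 : Monotone s1 := ct_mono (p / 2) M (2 * M) hM (by omega)
  have hm2 : Monotone s2 := ct_mono (p / 2) M M hM (by omega)
  set R : ℕ → DirichletCharacter ℂ p → Equiv.Perm (Fin (p / 2)) → Prop := fun b χ τ =>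
    χ ≠ 1 ∧ χ ∉ DD p M (b - 1) ∧ ¬ ‖bs χ τ (s2 b) (ln s2 b)‖ ≤ (1 - del p / 8) * ln s2 b with hR
  set q : ℝ := 4 * (4 * (M : ℝ) + 1) * Real.exp (-(del p ^ 2 * M / 64)) with hq
  have hq0 : 0 ≤ q := by positivity
  have hone : ∀ b, b < nb (p / 2) M M → ∀ χ : DirichletCharacter ℂ p,
      (num (fun τ => Pres (p / 2) s1 τ ∧ R b χ τ) : ℝ) ≤ q * num (Pres (p / 2) s1) := by
    intro b hb χ
    have hb' : b ≤ (p / 2 - M) / (2 * M) := by unfold nb at hb; omega
    obtain ⟨g1, g2, g3, g4⟩ := rel_all (p := p) M b hM hH hb'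
    rw [← hs1, ← hs2] at g3 g4
    rw [← hs1] at g2
    have g5 := ln1 (p / 2) M (b - 1) hM hH g1
    have g6 := ln2 (p / 2) M b hM hH hb'
    rw [← hs1] at g5
    rw [← hs2] at g6
    have g7 := add_ln s1 hm1 (b - 1)
    have g8 := add_ln s2 hm2 b
    have g9 : s1 (b - 1 + 1) ≤ p / 2 := by
      rw [← ct_nb (p / 2) M (2 * M)]
      apply hm1
      unfold nb
      omega
    have g10 : s2 (b + 1) ≤ p / 2 := by
      rw [← ct_nb (p / 2) M M]
      exact hm2 hb
    have hal : s1 (b - 1) + ln s1 (b - 1) ≤ p / 2 := by omega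
    by_cases hχ : χ ≠ 1 ∧ χ ∉ DD p M (b - 1)
    · apply avg (p / 2) s1 (s1 (b - 1)) (ln s1 (b - 1)) hal
      · intro c
        rcases Nat.lt_or_ge c (b - 1 + 1) with h | h
        · left; exact hm1 (by omega)
        · right; rw [g7]; exact hm1 h
      · intro τ hτ
        have hbig : ‖cs χ (s1 (b - 1)) (ln s1 (b - 1))‖ ≤ (1 - del p) * (ln s1 (b - 1) : ℕ) := by
          by_contra hcon
          push Not at hcon
          apply hχ.2
          unfold DD
          rw [Finset.mem_erase, mem_big]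
          exact ⟨hχ.1, hcon.le⟩
        have hcut : ∀ x : Fin (p / 2), (s1 (b - 1) ≤ τ x ∧
            (τ x : ℕ) < s1 (b - 1) + ln s1 (b - 1)) ↔
            (s1 (b - 1) ≤ x ∧ (x : ℕ) < s1 (b - 1) + ln s1 (b - 1)) := by
          intro x
          rw [g7]
          have e1 := hτ (b - 1) x
          have e2 := hτ (b - 1 + 1) x
          rw [e2]
          constructor
          · rintro ⟨h1, h2⟩
            refine ⟨?_, h2⟩
            by_contra hcon
            have := e1.mpr (by omega)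
            omega
          · rintro ⟨h1, h2⟩
            refine ⟨?_, h2⟩
            by_contra hcon
            have := e1.mp (by omega)
            omega
        have key := lv1_one χ τ (s1 (b - 1)) (ln s1 (b - 1)) hal hcut (s2 b) (ln s2 b)
          (by omega) (tt M b) M g2 g3 (by omega) hM g6.2 (del p) del_pos.le del_le hbig
        have hmono : num (fun σ : Equiv.Perm (Fin (ln s1 (b - 1))) =>
            R b χ (τ * ext (p / 2) (s1 (b - 1)) (ln s1 (b - 1)) hal σ)) ≤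
            num (fun σ : Equiv.Perm (Fin (ln s1 (b - 1))) =>
              ¬ ‖bs χ (τ * ext (p / 2) (s1 (b - 1)) (ln s1 (b - 1)) hal σ) (s2 b) (ln s2 b)‖ ≤
                (1 - del p / 8) * ln s2 b) := by
          apply num_mono
          rintro σ ⟨_, _, h⟩
          exact h
        have hmonoR : (num (fun σ : Equiv.Perm (Fin (ln s1 (b - 1))) =>
            R b χ (τ * ext (p / 2) (s1 (b - 1)) (ln s1 (b - 1)) hal σ)) : ℝ) ≤
            num (fun σ : Equiv.Perm (Fin (ln s1 (b - 1))) =>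
              ¬ ‖bs χ (τ * ext (p / 2) (s1 (b - 1)) (ln s1 (b - 1)) hal σ) (s2 b) (ln s2 b)‖ ≤
                (1 - del p / 8) * ln s2 b) := by exact_mod_cast hmono
        refine hmonoR.trans (key.trans ?_)
        apply mul_le_mul_of_nonneg_right _ (by positivity)
        rw [hq]
        have : ((ln s1 (b - 1) : ℕ) : ℝ) ≤ 4 * M := by exact_mod_cast g5.2
        gcongr
    · have h0 : num (fun τ => Pres (p / 2) s1 τ ∧ R b χ τ) = 0 := by
        rw [num_eq, Finset.card_eq_zero, Finset.filter_eq_empty_iff]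
        rintro τ _ ⟨_, h1, h2, _⟩
        exact hχ ⟨h1, h2⟩
      rw [h0]
      push_cast
      positivity
  have hunion : num (fun τ => Pres (p / 2) s1 τ ∧ ¬ Fair p M τ) ≤
      ∑ b ∈ range (nb (p / 2) M M), ∑ χ : DirichletCharacter ℂ p,
        num (fun τ => Pres (p / 2) s1 τ ∧ R b χ τ) := by
    have e : ∀ b χ, num (fun τ => Pres (p / 2) s1 τ ∧ R b χ τ) =
        (univ.filter (fun τ => Pres (p / 2) s1 τ ∧ R b χ τ)).card := fun b χ => num_eq _
    simp only [e]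
    rw [num_eq]
    refine le_trans (Finset.card_le_card (t := (range (nb (p / 2) M M)).biUnion (fun b =>
      (univ : Finset (DirichletCharacter ℂ p)).biUnion (fun χ =>
        univ.filter (fun τ => Pres (p / 2) s1 τ ∧ R b χ τ)))) ?_) ?_
    · intro τ hτ
      rw [Finset.mem_filter] at hτ
      obtain ⟨_, h1, h2⟩ := hτ
      unfold Fair at h2
      push Not at h2
      obtain ⟨b, hb, χ, hχ1, hχ2, h3⟩ := h2
      rw [Finset.mem_biUnion]
      refine ⟨b, Finset.mem_range.mpr hb, ?_⟩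
      rw [Finset.mem_biUnion]
      refine ⟨χ, mem_univ _, ?_⟩
      rw [Finset.mem_filter]
      exact ⟨mem_univ _, h1, hχ1, hχ2, not_le.mpr h3⟩
    · refine Finset.card_biUnion_le.trans (Finset.sum_le_sum fun b _ => ?_)
      exact Finset.card_biUnion_le
  have hunionR : (num (fun τ => Pres (p / 2) s1 τ ∧ ¬ Fair p M τ) : ℝ) ≤
      ∑ b ∈ range (nb (p / 2) M M), ∑ χ : DirichletCharacter ℂ p,
        (num (fun τ => Pres (p / 2) s1 τ ∧ R b χ τ) : ℝ) := by exact_mod_cast hunion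
  refine hunionR.trans ?_
  have hN : (0 : ℝ) ≤ q * num (Pres (p / 2) s1) := by positivity
  calc _ ≤ ∑ _b ∈ range (nb (p / 2) M M), ∑ _χ : DirichletCharacter ℂ p,
        (q * num (Pres (p / 2) s1)) := by
        apply Finset.sum_le_sum
        intro b hb
        apply Finset.sum_le_sum
        intro χ _
        exact hone b (Finset.mem_range.mp hb) χ
    _ = (nb (p / 2) M M : ℝ) * (((p - 1 : ℕ) : ℝ) * (q * num (Pres (p / 2) s1))) := by
        rw [Finset.sum_const, Finset.sum_const, Finset.card_univ, card_chars, Finset.card_range,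
          nsmul_eq_mul, nsmul_eq_mul]
    _ ≤ (nb (p / 2) M M : ℝ) * ((p : ℝ) * (q * num (Pres (p / 2) s1))) := by
        apply mul_le_mul_of_nonneg_left _ (by positivity)
        apply mul_le_mul_of_nonneg_right _ hN
        exact_mod_cast Nat.sub_le p 1
    _ = _ := by ring

end MP1fb.L2
end

section
/-!
MP_1fb68e_nt, two local shuffles: places near the ends of the blocks of level 2.
-/
set_option autoImplicit false

namespace MP1fb.L2

open Finset MP1fb.LS

/-! general facts on `num` -/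

lemma num_union {Ω ι : Type*} [Fintype Ω] (S : Finset ι) (E : ι → Ω → Prop) :
    num (fun w => ∃ i ∈ S, E i w) ≤ ∑ i ∈ S, num (E i) := by
  classical
  have e : ∀ i, num (E i) = (univ.filter (E i)).card := fun i => num_eq _
  simp only [e]
  rw [num_eq]
  refine le_trans (Finset.card_le_card (t := S.biUnion (fun i => univ.filter (E i))) ?_)
    Finset.card_biUnion_le
  intro w hw
  rw [Finset.mem_filter] at hw
  obtain ⟨_, i, hi, h⟩ := hw
  rw [Finset.mem_biUnion]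
  exact ⟨i, hi, by rw [Finset.mem_filter]; exact ⟨mem_univ _, h⟩⟩

lemma num_or {Ω : Type*} [Fintype Ω] (P Q : Ω → Prop) :
    num (fun w => P w ∨ Q w) ≤ num P + num Q := by
  classical
  rw [num_eq, num_eq, num_eq, Finset.filter_or]
  exact Finset.card_union_le _ _

open Classical in
lemma num_prod_fst {A B : Type*} [Fintype A] [Fintype B] (P : A → Prop) (Q : A → B → Prop) :
    num (fun z : A × B => P z.1 ∧ Q z.1 z.2) = ∑ x ∈ univ.filter P, num (Q x) := by
  rw [num_sum]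
  rw [Fintype.sum_prod_type]
  rw [Finset.sum_filter]
  apply Finset.sum_congr rfl
  intro x _
  by_cases h : P x
  · rw [if_pos h, num_sum]
    apply Finset.sum_congr rfl
    intro y _
    congr 1
    simp [h]
  · rw [if_neg h]
    apply Finset.sum_eq_zero
    intro y _
    apply ind_neg
    simp [h]

open Classical in
lemma num_prod_snd {A B : Type*} [Fintype A] [Fintype B] (P : B → Prop) (Q : A → B → Prop) :
    num (fun z : A × B => P z.2 ∧ Q z.1 z.2) = ∑ y ∈ univ.filter P, num (fun x => Q x y) := by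
  rw [num_sum]
  rw [Fintype.sum_prod_type_right]
  rw [Finset.sum_filter]
  apply Finset.sum_congr rfl
  intro y _
  by_cases h : P y
  · rw [if_pos h, num_sum]
    apply Finset.sum_congr rfl
    intro x _
    congr 1
    simp [h]
  · rw [if_neg h]
    apply Finset.sum_eq_zero
    intro x _
    apply ind_neg
    simp [h]

/-- bound for pairs, first entry -/
lemma pair_le_fst {A B : Type*} [Fintype A] [Fintype B] (P : A → Prop) (P' : B → Prop)
    (R : A → B → Prop) (q : ℝ)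
    (h : ∀ x, P x → (num (fun y => P' y ∧ R x y) : ℝ) ≤ q * num P') :
    (num (fun z : A × B => P z.1 ∧ P' z.2 ∧ R z.1 z.2) : ℝ) ≤ q * (num P * num P') := by
  classical
  rw [num_prod_fst P (fun x y => P' y ∧ R x y)]
  push_cast
  calc _ ≤ ∑ _x ∈ univ.filter P, q * (num P' : ℝ) := by
        apply Finset.sum_le_sum
        intro x hx
        rw [Finset.mem_filter] at hx
        exact h x hx.2
    _ = _ := by
        rw [Finset.sum_const, nsmul_eq_mul, num_eq P]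
        ring

/-- bound for pairs, second entry -/
lemma pair_le_snd {A B : Type*} [Fintype A] [Fintype B] (P : A → Prop) (P' : B → Prop)
    (R : A → B → Prop) (q : ℝ)
    (h : ∀ y, P' y → (num (fun x => P x ∧ R x y) : ℝ) ≤ q * num P) :
    (num (fun z : A × B => P z.1 ∧ P' z.2 ∧ R z.1 z.2) : ℝ) ≤ q * (num P * num P') := by
  classical
  have e : (fun z : A × B => P z.1 ∧ P' z.2 ∧ R z.1 z.2) =
      (fun z : A × B => P' z.2 ∧ (P z.1 ∧ R z.1 z.2)) := by
    funext z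
    apply propext
    tauto
  rw [e, num_prod_snd P' (fun x y => P x ∧ R x y)]
  push_cast
  calc _ ≤ ∑ _y ∈ univ.filter P', q * (num P : ℝ) := by
        apply Finset.sum_le_sum
        intro y hy
        rw [Finset.mem_filter] at hy
        exact h y hy.2
    _ = _ := by
        rw [Finset.sum_const, nsmul_eq_mul, num_eq P']
        ring

variable {p : ℕ} [hp : Fact p.Prime]

lemma mem_cut_of_pres (H : ℕ) (s : ℕ → ℕ) (τ : Equiv.Perm (Fin H)) (hτ : Pres H s τ) (b : ℕ)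
    (x : Fin H) : (s b ≤ τ x ∧ (τ x : ℕ) < s (b + 1)) ↔ (s b ≤ x ∧ (x : ℕ) < s (b + 1)) := by
  have e1 := hτ b x
  have e2 := hτ (b + 1) x
  rw [e2]
  constructor
  · rintro ⟨h1, h2⟩
    refine ⟨?_, h2⟩
    by_contra hcon
    have := e1.mpr (by omega)
    omega
  · rintro ⟨h1, h2⟩
    refine ⟨?_, h2⟩
    by_contra hcon
    have := e1.mp (by omega)
    omega

/-- **a place near a cut of level 2** -/
theorem edge1 (hp3 : 3 ≤ p) (M c : ℕ) (hM : 0 < M) (hH : 4 * M ≤ p / 2)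
    (hc : c + 1 ≤ (p / 2 - M) / (2 * M)) (G : ℕ) (hG : 12 * Real.log p ≤ del p * G)
    (hG0 : 0 < G) (hGM : 2 * G ≤ M) (ρ : Equiv.Perm (Fin (p / 2)))
    (hρ : Pres (p / 2) (ct (p / 2) M M) ρ) (n : ℕ) (hn : n ≤ p / 2)
    (hn1 : ct (p / 2) M M (c + 1) ≤ n + G) (hn2 : n ≤ ct (p / 2) M M (c + 1) + G) :
    (num (fun τ => Pres (p / 2) (ct (p / 2) M (2 * M)) τ ∧ part p (τ * ρ) n ∈ targ p n) : ℝ) ≤
      2 * ((2 + (DD p M c).card) / ((p : ℝ) - 1)) *
        num (Pres (p / 2) (ct (p / 2) M (2 * M))) := by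
  set s1 := ct (p / 2) M (2 * M) with hs1
  set s2 := ct (p / 2) M M with hs2
  have hm1 : Monotone s1 := ct_mono (p / 2) M (2 * M) hM (by omega)
  obtain ⟨g1, g2, g3, g4, g5, g6⟩ := rel (p / 2) M c hM hH hc
  rw [← hs1] at g2 g3
  rw [← hs2] at g4 g5
  have g7 := ln1 (p / 2) M c hM hH g1
  rw [← hs1] at g7
  have g8 := add_ln s1 hm1 c
  have g9 : s1 (c + 1) ≤ p / 2 := by
    rw [← ct_nb (p / 2) M (2 * M)]
    apply hm1
    unfold nb
    omega
  have hal : s1 c + ln s1 c ≤ p / 2 := by omega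
  apply avg (p / 2) s1 (s1 c) (ln s1 c) hal
  · intro b
    rcases Nat.lt_or_ge b (c + 1) with h | h
    · left; exact hm1 (by omega)
    · right; rw [g8]; exact hm1 h
  · intro τ hτ
    have hcut : ∀ x : Fin (p / 2), (s1 c ≤ τ x ∧ (τ x : ℕ) < s1 c + ln s1 c) ↔
        (s1 c ≤ x ∧ (x : ℕ) < s1 c + ln s1 c) := by
      intro x
      rw [g8]
      exact mem_cut_of_pres _ s1 τ hτ c x
    have hj := jset_near (p := p) ρ (s1 c) (ln s1 c) hal (s2 (c + 1)) (hρ (c + 1)) (by omega)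
      (by omega) n G hn1 hn2
    have key := place_avg τ ρ (s1 c) (ln s1 c) hal n hn
      ((ln s1 c).factorial * ((2 + (DD p M c).card) / ((p : ℝ) - 1))) (by
        intro d hd
        have h1 := place_bad hp3 (vblk p τ (s1 c) (ln s1 c) hal) (vblk_injective τ _ _ hal)
          (vblk_ne_zero τ _ _ hal) (del p) del_pos.le (DD p M c) (by
            intro χ hχ hχD
            rw [← bs_eq χ τ (s1 c) (ln s1 c) hal, bs_cut χ τ _ _ hal hcut, Fintype.card_fin]
            by_contra hcon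
            push Not at hcon
            apply hχD
            unfold DD
            rw [Finset.mem_erase, mem_big]
            exact ⟨hχ, hcon.le⟩) G hG hG0 (jset p ρ (s1 c) (ln s1 c) hal n) (by omega) (by
              rw [Fintype.card_fin]; omega) d hd
        rw [Fintype.card_fin] at h1
        exact h1)
    refine key.trans (le_of_eq ?_)
    ring

/-- **a place inside a block of level 2** -/
theorem edge2 (M b : ℕ) (hM : 0 < M) (hH : 4 * M ≤ p / 2)
    (hb : b ≤ (p / 2 - M) / (2 * M)) (τ : Equiv.Perm (Fin (p / 2))) (n : ℕ)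
    (hn1 : ct (p / 2) M M b < n) (hn2 : n < ct (p / 2) M M (b + 1)) :
    (num (fun ρ => Pres (p / 2) (ct (p / 2) M M) ρ ∧ part p (τ * ρ) n ∈ targ p n) : ℝ) ≤
      4 / M * num (Pres (p / 2) (ct (p / 2) M M)) := by
  set s2 := ct (p / 2) M M with hs2
  have hm2 : Monotone s2 := ct_mono (p / 2) M M hM (by omega)
  have g7 := ln2 (p / 2) M b hM hH hb
  rw [← hs2] at g7
  have g8 := add_ln s2 hm2 b
  have g9 : s2 (b + 1) ≤ p / 2 := by
    rw [← ct_nb (p / 2) M M]
    apply hm2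
    unfold nb
    omega
  have hal : s2 b + ln s2 b ≤ p / 2 := by omega
  have hMR : (0 : ℝ) < M := by exact_mod_cast hM
  have hlR : (M : ℝ) ≤ ln s2 b := by exact_mod_cast g7.1
  apply avg (p / 2) s2 (s2 b) (ln s2 b) hal
  · intro c
    rcases Nat.lt_or_ge c (b + 1) with h | h
    · left; exact hm2 (by omega)
    · right; rw [g8]; exact hm2 h
  · intro ρ hρ
    have hj := jset_one (p := p) (s2 b) (ln s2 b) hal n hn1.le (by omega)
    have key := place_avg (τ * ρ) 1 (s2 b) (ln s2 b) hal n (by omega)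
      (2 / (ln s2 b : ℝ) * (ln s2 b).factorial) (by
        intro d hd
        have h1 := one_triv (vblk p (τ * ρ) (s2 b) (ln s2 b) hal) (vblk_injective (τ * ρ) _ _ hal)
          (vblk_ne_zero (τ * ρ) _ _ hal) (jset p 1 (s2 b) (ln s2 b) hal n) (by omega) (by
            rw [Fintype.card_fin]; omega) d hd
        rw [Fintype.card_fin] at h1
        exact h1)
    have e : (fun σ : Equiv.Perm (Fin (ln s2 b)) =>
        part p (τ * (ρ * ext (p / 2) (s2 b) (ln s2 b) hal σ)) n ∈ targ p n) =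
        (fun σ => part p (τ * ρ * ext (p / 2) (s2 b) (ln s2 b) hal σ * 1) n ∈ targ p n) := by
      funext σ
      rw [mul_one, mul_assoc]
    rw [e]
    refine key.trans ?_
    have h2 : (2 : ℝ) / (ln s2 b : ℝ) ≤ 2 / M := by gcongr
    have h3 : (0 : ℝ) ≤ (ln s2 b).factorial := by positivity
    calc 2 * (2 / (ln s2 b : ℝ) * (ln s2 b).factorial) ≤
        2 * (2 / (M : ℝ) * (ln s2 b).factorial) := by gcongr
      _ = _ := by ring

end MP1fb.L2
end

section
/-!
MP_1fb68e_nt, two local shuffles: reduction to the interior of the blocks of level 2.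
-/
set_option autoImplicit false

namespace MP1fb.L2

open Finset MP1fb.LS

variable {p : ℕ} [hp : Fact p.Prime]

lemma late_targ (hodd : p % 2 = 1) (τ : Equiv.Perm (Fin (p / 2))) :
    Late p τ ↔ ∀ k, 1 ≤ k → k ≤ p / 2 → part p τ k ∉ targ p k := by
  rw [late_iff hodd]
  unfold targ
  constructor
  · intro h k h1 h2
    rw [Finset.mem_insert, Finset.mem_singleton, not_or]
    exact h k h1 h2
  · intro h k h1 h2
    have := h k h1 h2
    rw [Finset.mem_insert, Finset.mem_singleton, not_or] at this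
    exact this

/-- no hit in the interior, but not late -/
lemma not_late_cases (hodd : p % 2 = 1)
    (hhalf : (((p / 2).factorial : ℕ) : ZMod p) ∉ targ p (p / 2)) (M : ℕ) (hM : 0 < M)
    (hH : 4 * M ≤ p / 2) (G : ℕ) (τ : Equiv.Perm (Fin (p / 2)))
    (hno : NoInt p (ct (p / 2) M M) (nb (p / 2) M M) G τ) (hl : ¬ Late p τ) :
    (∃ c ∈ range ((p / 2 - M) / (2 * M)),
      ∃ n ∈ Icc (ct (p / 2) M M (c + 1) - G) (ct (p / 2) M M (c + 1) + G),
        part p τ n ∈ targ p n) ∨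
    (∃ n ∈ Ico 1 G, part p τ n ∈ targ p n) ∨
    (∃ n ∈ Ico (p / 2 - G + 1) (p / 2), part p τ n ∈ targ p n) := by
  set s2 := ct (p / 2) M M with hs2
  have hm2 : Monotone s2 := ct_mono (p / 2) M M hM (by omega)
  have h0 : s2 0 = 0 := ct_zero _ _ _
  have hB : s2 (nb (p / 2) M M) = p / 2 := ct_nb _ _ _
  rw [late_targ hodd] at hl
  push Not at hl
  obtain ⟨k, hk1, hk2, hk3⟩ := hl
  have hkH : k ≠ p / 2 := by
    rintro rfl
    rw [part_half] at hk3
    exact hhalf hk3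
  have hk : k < p / 2 := by omega
  obtain ⟨⟨b, i⟩, hbi⟩ := (plq s2 hm2 h0 (nb (p / 2) M M) (p / 2) hB).surjective ⟨k, hk⟩
  have hval := plq_val s2 hm2 h0 (nb (p / 2) M M) (p / 2) hB b i
  rw [hbi] at hval
  change k = s2 b + i at hval
  have hb := b.2
  have hb' : (b : ℕ) ≤ (p / 2 - M) / (2 * M) := by
    have : (b : ℕ) < (p / 2 - M) / (2 * M) + 1 := hb
    omega
  have hi := i.2
  have g6 := ln2 (p / 2) M b hM hH hb'
  rw [← hs2] at g6
  have g8 := add_ln s2 hm2 b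
  by_cases h1 : (i : ℕ) < G
  · rcases Nat.eq_zero_or_pos (b : ℕ) with h2 | h2
    · right; left
      have h3 : s2 b = 0 := by rw [h2, h0]
      exact ⟨k, Finset.mem_Ico.mpr ⟨hk1, by omega⟩, hk3⟩
    · left
      refine ⟨b - 1, Finset.mem_range.mpr (by omega), k, ?_, hk3⟩
      rw [show (b : ℕ) - 1 + 1 = b by omega, Finset.mem_Icc]
      omega
  · have h2 : ¬ (i : ℕ) ≤ ln s2 b - G := by
      intro h3
      apply hno b hb i (Finset.mem_Icc.mpr ⟨by omega, h3⟩)
      rw [← hval]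
      exact hk3
    rcases Nat.lt_or_ge (b : ℕ) ((p / 2 - M) / (2 * M)) with h3 | h3
    · left
      refine ⟨b, Finset.mem_range.mpr h3, k, ?_, hk3⟩
      rw [Finset.mem_Icc]
      omega
    · right; right
      have h4 : s2 (b + 1) = p / 2 := ct_big _ _ _ _ (by omega)
      refine ⟨k, ?_, hk3⟩
      rw [Finset.mem_Ico]
      omega

/-- the probability of a hit near the ends of the blocks -/
noncomputable def eps1 (p M G : ℕ) [Fact p.Prime] : ℝ :=
  (∑ c ∈ range ((p / 2 - M) / (2 * M)),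
    ((2 * G + 1 : ℕ) : ℝ) * (2 * ((2 + (DD p M c).card) / ((p : ℝ) - 1)))) + 2 * (G * (4 / M))

theorem edge_sum (hp3 : 3 ≤ p) (hodd : p % 2 = 1)
    (hhalf : (((p / 2).factorial : ℕ) : ZMod p) ∉ targ p (p / 2)) (M : ℕ) (hM : 0 < M)
    (hH : 4 * M ≤ p / 2) (G : ℕ) (hG : 12 * Real.log p ≤ del p * G) (hG0 : 0 < G)
    (hGM : 2 * G ≤ M) :
    (num (fun z : Equiv.Perm (Fin (p / 2)) × Equiv.Perm (Fin (p / 2)) =>
      Pres (p / 2) (ct (p / 2) M (2 * M)) z.1 ∧ Pres (p / 2) (ct (p / 2) M M) z.2 ∧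
        (NoInt p (ct (p / 2) M M) (nb (p / 2) M M) G (z.1 * z.2) ∧ ¬ Late p (z.1 * z.2))) : ℝ) ≤
      eps1 p M G * (num (Pres (p / 2) (ct (p / 2) M (2 * M))) *
        num (Pres (p / 2) (ct (p / 2) M M))) := by
  set s1 := ct (p / 2) M (2 * M) with hs1
  set s2 := ct (p / 2) M M with hs2
  set K := (p / 2 - M) / (2 * M) with hK
  have hm2 : Monotone s2 := ct_mono (p / 2) M M hM (by omega)
  have hMR : (0 : ℝ) < M := by exact_mod_cast hM
  have hp3R : (3 : ℝ) ≤ p := by exact_mod_cast hp3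
  have hp1 : (0 : ℝ) < (p : ℝ) - 1 := by linarith
  set N1 : ℝ := (num (Pres (p / 2) s1) : ℝ) with hN1
  set N2 : ℝ := (num (Pres (p / 2) s2) : ℝ) with hN2
  have hN10 : 0 ≤ N1 := by positivity
  have hN20 : 0 ≤ N2 := by positivity
  let E : ℕ → Equiv.Perm (Fin (p / 2)) × Equiv.Perm (Fin (p / 2)) → Prop := fun n z =>
    Pres (p / 2) s1 z.1 ∧ Pres (p / 2) s2 z.2 ∧ part p (z.1 * z.2) n ∈ targ p n
  have hsub : num (fun z : Equiv.Perm (Fin (p / 2)) × Equiv.Perm (Fin (p / 2)) =>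
      Pres (p / 2) s1 z.1 ∧ Pres (p / 2) s2 z.2 ∧
        (NoInt p s2 (nb (p / 2) M M) G (z.1 * z.2) ∧ ¬ Late p (z.1 * z.2))) ≤
      (∑ c ∈ range K, ∑ n ∈ Icc (s2 (c + 1) - G) (s2 (c + 1) + G), num (E n)) +
        ((∑ n ∈ Ico 1 G, num (E n)) + ∑ n ∈ Ico (p / 2 - G + 1) (p / 2), num (E n)) := by
    have h1 : num (fun z : Equiv.Perm (Fin (p / 2)) × Equiv.Perm (Fin (p / 2)) =>
        Pres (p / 2) s1 z.1 ∧ Pres (p / 2) s2 z.2 ∧
          (NoInt p s2 (nb (p / 2) M M) G (z.1 * z.2) ∧ ¬ Late p (z.1 * z.2))) ≤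
        num (fun z => (∃ c ∈ range K, ∃ n ∈ Icc (s2 (c + 1) - G) (s2 (c + 1) + G), E n z) ∨
          ((∃ n ∈ Ico 1 G, E n z) ∨ ∃ n ∈ Ico (p / 2 - G + 1) (p / 2), E n z)) := by
      apply num_mono
      rintro z ⟨h1, h2, h3, h4⟩
      rcases not_late_cases hodd hhalf M hM hH G (z.1 * z.2) h3 h4 with
        ⟨c, hc, n, hn, h⟩ | ⟨n, hn, h⟩ | ⟨n, hn, h⟩
      · left; exact ⟨c, hc, n, hn, h1, h2, h⟩
      · right; left; exact ⟨n, hn, h1, h2, h⟩
      · right; right; exact ⟨n, hn, h1, h2, h⟩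
    refine h1.trans ((num_or _ _).trans (Nat.add_le_add ?_ ((num_or _ _).trans
      (Nat.add_le_add (num_union _ _) (num_union _ _)))))
    refine (num_union _ _).trans (Finset.sum_le_sum fun c _ => ?_)
    exact num_union _ _
  have hsubR : (num (fun z : Equiv.Perm (Fin (p / 2)) × Equiv.Perm (Fin (p / 2)) =>
      Pres (p / 2) s1 z.1 ∧ Pres (p / 2) s2 z.2 ∧
        (NoInt p s2 (nb (p / 2) M M) G (z.1 * z.2) ∧ ¬ Late p (z.1 * z.2))) : ℝ) ≤
      (∑ c ∈ range K, ∑ n ∈ Icc (s2 (c + 1) - G) (s2 (c + 1) + G), (num (E n) : ℝ)) +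
        ((∑ n ∈ Ico 1 G, (num (E n) : ℝ)) +
          ∑ n ∈ Ico (p / 2 - G + 1) (p / 2), (num (E n) : ℝ)) := by exact_mod_cast hsub
  refine hsubR.trans ?_
  have hA : ∀ c ∈ range K, ∑ n ∈ Icc (s2 (c + 1) - G) (s2 (c + 1) + G), (num (E n) : ℝ) ≤
      ((2 * G + 1 : ℕ) : ℝ) * (2 * ((2 + (DD p M c).card) / ((p : ℝ) - 1))) * (N1 * N2) := by
    intro c hc
    rw [Finset.mem_range] at hc
    obtain ⟨g1, g2, g3, g4, g5, g6⟩ := rel (p / 2) M c hM hH hc
    rw [← hs2] at g4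
    have h1 : ∀ n ∈ Icc (s2 (c + 1) - G) (s2 (c + 1) + G), (num (E n) : ℝ) ≤
        2 * ((2 + (DD p M c).card) / ((p : ℝ) - 1)) * (N1 * N2) := by
      intro n hn
      rw [Finset.mem_Icc] at hn
      exact pair_le_snd (Pres (p / 2) s1) (Pres (p / 2) s2)
        (fun x y => part p (x * y) n ∈ targ p n) _ (fun ρ hρ =>
          edge1 hp3 M c hM hH hc G hG hG0 hGM ρ hρ n (by omega)
            (show s2 (c + 1) ≤ n + G by omega) hn.2)
    refine (Finset.sum_le_sum h1).trans ?_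
    rw [Finset.sum_const, nsmul_eq_mul, Nat.card_Icc]
    have h2 : s2 (c + 1) + G + 1 - (s2 (c + 1) - G) = 2 * G + 1 := by omega
    rw [h2]
    apply le_of_eq
    ring
  have hE2 : ∀ b, b ≤ K → ∀ n, s2 b < n → n < s2 (b + 1) →
      (num (E n) : ℝ) ≤ 4 / M * (N1 * N2) := by
    intro b hb n hn1 hn2
    exact pair_le_fst (Pres (p / 2) s1) (Pres (p / 2) s2)
      (fun x y => part p (x * y) n ∈ targ p n) _ (fun τ _ =>
        edge2 M b hM hH hb τ n hn1 hn2)
  have hBb : ∑ n ∈ Ico 1 G, (num (E n) : ℝ) ≤ G * (4 / M) * (N1 * N2) := by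
    have h1 : ∀ n ∈ Ico 1 G, (num (E n) : ℝ) ≤ 4 / M * (N1 * N2) := by
      intro n hn
      rw [Finset.mem_Ico] at hn
      have h3 := rel0 (p / 2) M hM hH
      apply hE2 0 (Nat.zero_le _) n
      · rw [hs2, ct_zero]; omega
      · change n < s2 1
        rw [hs2, h3.2]; omega
    refine (Finset.sum_le_sum h1).trans ?_
    rw [Finset.sum_const, nsmul_eq_mul, Nat.card_Ico]
    have h2 : ((G - 1 : ℕ) : ℝ) ≤ G := by exact_mod_cast Nat.sub_le G 1
    calc ((G - 1 : ℕ) : ℝ) * (4 / M * (N1 * N2)) ≤ (G : ℝ) * (4 / M * (N1 * N2)) := by gcongr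
      _ = _ := by ring
  have hC : ∑ n ∈ Ico (p / 2 - G + 1) (p / 2), (num (E n) : ℝ) ≤ G * (4 / M) * (N1 * N2) := by
    have h1 : ∀ n ∈ Ico (p / 2 - G + 1) (p / 2), (num (E n) : ℝ) ≤ 4 / M * (N1 * N2) := by
      intro n hn
      rw [Finset.mem_Ico] at hn
      have h4 : s2 (K + 1) = p / 2 := ct_big _ _ _ _ (by omega)
      have g6 := ln2 (p / 2) M K hM hH le_rfl
      rw [← hs2] at g6
      have g8 := add_ln s2 hm2 K
      apply hE2 K le_rfl n
      · omega
      · omega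
    refine (Finset.sum_le_sum h1).trans ?_
    rw [Finset.sum_const, nsmul_eq_mul, Nat.card_Ico]
    have h2 : ((p / 2 - (p / 2 - G + 1) : ℕ) : ℝ) ≤ G := by
      have : p / 2 - (p / 2 - G + 1) ≤ G := by omega
      exact_mod_cast this
    calc ((p / 2 - (p / 2 - G + 1) : ℕ) : ℝ) * (4 / M * (N1 * N2)) ≤
        (G : ℝ) * (4 / M * (N1 * N2)) := by gcongr
      _ = _ := by ring
  refine (add_le_add (Finset.sum_le_sum hA) (add_le_add hBb hC)).trans (le_of_eq ?_)
  unfold eps1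
  rw [← Finset.sum_mul]
  ring

end MP1fb.L2
end

section
/-!
MP_1fb68e_nt, two local shuffles: the interior of the blocks of level 2.
-/
set_option autoImplicit false

namespace MP1fb.L2

open Finset MP1fb.LS

variable {p : ℕ}

/-- expected number of hits in the interior of block `b` -/
noncomputable def zb (p : ℕ) (s : ℕ → ℕ) (G b : ℕ) : ℝ :=
  ∑ j ∈ Icc G (ln s b - G), (wt (s b + j) : ℝ) / ((p : ℝ) - 1)

open Classical in
/-- probability of a hit in the interior of block `b` -/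
noncomputable def hb (p : ℕ) (τ : Equiv.Perm (Fin (p / 2))) (s : ℕ → ℕ) (G b : ℕ) : ℝ :=
  if h : s b + ln s b ≤ p / 2 then hitp p τ (s b) (ln s b) G h else 0

lemma zb_nonneg (hp3 : 3 ≤ p) (s : ℕ → ℕ) (G b : ℕ) : 0 ≤ zb p s G b := by
  have hp3R : (3 : ℝ) ≤ p := by exact_mod_cast hp3
  unfold zb
  apply Finset.sum_nonneg
  intro j _
  apply div_nonneg (by positivity)
  linarith

lemma zb_le (hp3 : 3 ≤ p) (s : ℕ → ℕ) (G b : ℕ) (hG : 0 < G) :
    zb p s G b ≤ 2 * ln s b / ((p : ℝ) - 1) := by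
  have hp3R : (3 : ℝ) ≤ p := by exact_mod_cast hp3
  have hp1 : (0 : ℝ) < (p : ℝ) - 1 := by linarith
  unfold zb
  calc ∑ j ∈ Icc G (ln s b - G), (wt (s b + j) : ℝ) / ((p : ℝ) - 1)
      ≤ ∑ _j ∈ Icc G (ln s b - G), 2 / ((p : ℝ) - 1) := by
        apply Finset.sum_le_sum
        intro j _
        apply div_le_div_of_nonneg_right _ hp1.le
        exact_mod_cast wt_le _
    _ = ((Icc G (ln s b - G)).card : ℝ) * (2 / ((p : ℝ) - 1)) := by
        rw [Finset.sum_const, nsmul_eq_mul]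
    _ ≤ (ln s b : ℝ) * (2 / ((p : ℝ) - 1)) := by
        apply mul_le_mul_of_nonneg_right _ (by positivity)
        rw [Nat.card_Icc]
        have : ln s b - G + 1 - G ≤ ln s b := by omega
        exact_mod_cast this
    _ = _ := by ring

lemma hb_mem (τ : Equiv.Perm (Fin (p / 2))) (s : ℕ → ℕ) (G b : ℕ) :
    0 ≤ hb p τ s G b ∧ hb p τ s G b ≤ 1 := by
  unfold hb
  split_ifs with h
  · exact hitp_mem τ _ _ G h
  · norm_num

lemma sum_blocks2 (s : ℕ → ℕ) (hs : Monotone s) (h0 : s 0 = 0) (B : ℕ) (f : ℕ → ℕ) :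
    ∑ b ∈ range B, ∑ j ∈ range (ln s b), f (s b + j) = ∑ k ∈ range (s B), f k := by
  induction B with
  | zero => simp [h0]
  | succ B ih =>
    rw [Finset.sum_range_succ, ih, ← add_ln s hs B, Finset.sum_range_add]

lemma sum_ln (s : ℕ → ℕ) (hs : Monotone s) (h0 : s 0 = 0) (B : ℕ) :
    ∑ b ∈ range B, ln s b = s B := by
  have := sum_blocks2 s hs h0 B (fun _ => 1)
  simpa using this

lemma sum_Icc_wt (s ℓ G : ℕ) (hG : 0 < G) :
    ∑ j ∈ Icc G (ℓ - G), wt (s + j) ≤ ∑ j ∈ range ℓ, wt (s + j) ∧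
    ∑ j ∈ range ℓ, wt (s + j) ≤ ∑ j ∈ Icc G (ℓ - G), wt (s + j) + 4 * G := by
  classical
  have hsub : Icc G (ℓ - G) ⊆ range ℓ := by
    intro j hj
    rw [Finset.mem_Icc] at hj
    rw [Finset.mem_range]
    omega
  constructor
  · exact Finset.sum_le_sum_of_subset hsub
  · rw [← Finset.sum_sdiff hsub, add_comm]
    apply Nat.add_le_add_left
    have h1 : range ℓ \ Icc G (ℓ - G) ⊆ range G ∪ Ico (ℓ - G) ℓ := by
      intro j hj
      rw [Finset.mem_sdiff, Finset.mem_range, Finset.mem_Icc] at hj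
      rw [Finset.mem_union, Finset.mem_range, Finset.mem_Ico]
      omega
    calc ∑ j ∈ range ℓ \ Icc G (ℓ - G), wt (s + j) ≤ ∑ _j ∈ range ℓ \ Icc G (ℓ - G), 2 :=
          Finset.sum_le_sum (fun j _ => wt_le _)
      _ = (range ℓ \ Icc G (ℓ - G)).card * 2 := by rw [Finset.sum_const, smul_eq_mul]
      _ ≤ (G + G) * 2 := by
          apply Nat.mul_le_mul_right
          refine (Finset.card_le_card h1).trans ((Finset.card_union_le _ _).trans ?_)
          rw [Finset.card_range, Nat.card_Ico]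
          omega
      _ = 4 * G := by ring

lemma sum_zb (hp3 : 3 ≤ p) (hodd : p % 2 = 1) (s : ℕ → ℕ) (hs : Monotone s) (h0 : s 0 = 0)
    (B : ℕ) (hB : s B = p / 2) (G : ℕ) (hG : 0 < G) :
    |∑ b ∈ range B, zb p s G b - 3 / 4| ≤ (4 * G * B + 1) / ((p : ℝ) - 1) := by
  have hp3R : (3 : ℝ) ≤ p := by exact_mod_cast hp3
  have hp1 : (0 : ℝ) < (p : ℝ) - 1 := by linarith
  set T := ∑ b ∈ range B, ∑ j ∈ Icc G (ln s b - G), wt (s b + j) with hT
  have h1 : ∑ b ∈ range B, zb p s G b = (T : ℝ) / ((p : ℝ) - 1) := by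
    rw [hT]
    push_cast
    rw [Finset.sum_div]
    apply Finset.sum_congr rfl
    intro b _
    unfold zb
    rw [Finset.sum_div]
  have hall := sum_blocks2 s hs h0 B wt
  rw [hB] at hall
  have h2 : T ≤ ∑ k ∈ range (p / 2), wt k := by
    rw [← hall]
    exact Finset.sum_le_sum (fun b _ => (sum_Icc_wt _ _ G hG).1)
  have h3 : ∑ k ∈ range (p / 2), wt k ≤ T + 4 * G * B := by
    rw [← hall]
    calc _ ≤ ∑ b ∈ range B, (∑ j ∈ Icc G (ln s b - G), wt (s b + j) + 4 * G) :=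
          Finset.sum_le_sum (fun b _ => (sum_Icc_wt _ _ G hG).2)
      _ = _ := by rw [Finset.sum_add_distrib, Finset.sum_const, Finset.card_range, smul_eq_mul]; ring
  have h4 := sum_wt (p / 2)
  have h5 : 4 * T ≤ 3 * (p - 1) + 2 := by omega
  have h6 : 3 * (p - 1) ≤ 4 * T + 4 * (4 * G * B) := by omega
  have hpc : ((p - 1 : ℕ) : ℝ) = (p : ℝ) - 1 := by rw [Nat.cast_sub (by omega)]; simp
  have h5R : 4 * (T : ℝ) ≤ 3 * ((p : ℝ) - 1) + 2 := by
    rw [← hpc]
    exact_mod_cast h5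
  have h6R : 3 * ((p : ℝ) - 1) ≤ 4 * (T : ℝ) + 4 * (4 * G * B) := by
    rw [← hpc]
    exact_mod_cast h6
  have hB0 : (0 : ℝ) ≤ 4 * G * B := by positivity
  rw [h1]
  have e : (T : ℝ) / ((p : ℝ) - 1) - 3 / 4 = (T - 3 / 4 * ((p : ℝ) - 1)) / ((p : ℝ) - 1) := by
    field_simp
  rw [e, abs_div, abs_of_pos hp1]
  apply div_le_div_of_nonneg_right _ hp1.le
  rw [abs_le]
  constructor <;> linarith

variable [hp : Fact p.Prime]

/-- one block -/
lemma block_err (hp3 : 3 ≤ p) (hodd : p % 2 = 1) (M : ℕ) (hM : 0 < M) (hH : 4 * M ≤ p / 2)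
    (G : ℕ) (hG : 224 * Real.log p ≤ (del p / 8) ^ 2 * G) (hG0 : 0 < G)
    (hGM : 32 * (G : ℝ) ≤ del p * M) (τ : Equiv.Perm (Fin (p / 2))) (hτ : Fair p M τ)
    (b : ℕ) (hb : b < nb (p / 2) M M)
    (hal : ct (p / 2) M M b + ln (ct (p / 2) M M) b ≤ p / 2) :
    |hitp p τ (ct (p / 2) M M b) (ln (ct (p / 2) M M) b) G hal - zb p (ct (p / 2) M M) G b| ≤
      4 * (del p / 8) * ln (ct (p / 2) M M) b / ((p : ℝ) - 1) +
      22 * (ln (ct (p / 2) M M) b : ℝ) ^ 2 / ((p : ℝ) - 1) ^ 2 +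
      6 * (DD p M (b - 1)).card * ln (ct (p / 2) M M) b / ((p : ℝ) - 1) := by
  set s2 := ct (p / 2) M M with hs2
  have hp3R : (3 : ℝ) ≤ p := by exact_mod_cast hp3
  have hp1 : (0 : ℝ) < (p : ℝ) - 1 := by linarith
  have hb' : b ≤ (p / 2 - M) / (2 * M) := by unfold nb at hb; omega
  have g6 := ln2 (p / 2) M b hM hH hb'
  rw [← hs2] at g6
  have hδ0 : 0 ≤ del p / 8 := by have := del_pos (p := p); positivity
  have hδ1 : del p / 8 ≤ 1 := by have := del_le (p := p); linarith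
  have hlR : (M : ℝ) ≤ ln s2 b := by exact_mod_cast g6.1
  have hdel := del_pos (p := p)
  have hv := vblk_injective τ (s2 b) (ln s2 b) hal
  have hv0 := vblk_ne_zero τ (s2 b) (ln s2 b) hal
  have hC : ∀ j, (cblk p τ (s2 b) j).card ≤ 2 := by
    intro j
    rw [card_cblk τ (s2 b) j (by omega)]
    exact card_targ_le _ _
  have hC0 : ∀ j, (0 : ZMod p) ∉ cblk p τ (s2 b) j := fun j => zero_notMem_cblk τ (s2 b) j (by omega)
  have hχ : ∀ χ : DirichletCharacter ℂ p, χ ≠ 1 → χ ∉ DD p M (b - 1) →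
      ‖∑ i, χ (vblk p τ (s2 b) (ln s2 b) hal i)‖ ≤ (1 - del p / 8) * (ln s2 b : ℕ) := by
    intro χ h1 h2
    rw [← bs_eq χ τ (s2 b) (ln s2 b) hal]
    exact hτ b hb χ h1 h2
  have hz : zb p s2 G b = ∑ j ∈ Icc G (ln s2 b - G), ((cblk p τ (s2 b) j).card : ℝ) / (p - 1) := by
    unfold zb
    apply Finset.sum_congr rfl
    intro j _
    rw [card_cblk τ (s2 b) j (by omega), card_targ p _ hodd]
    rfl
  have hG1 : 4 * (G : ℝ) ≤ del p / 8 * (ln s2 b : ℕ) := by
    have : del p * M ≤ del p * (ln s2 b : ℕ) := mul_le_mul_of_nonneg_left hlR hdel.le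
    linarith
  have h22 : (0 : ℝ) ≤ 22 * (ln s2 b : ℝ) ^ 2 / ((p : ℝ) - 1) ^ 2 := by positivity
  have h4 : (0 : ℝ) ≤ 4 * (del p / 8) * ln s2 b / ((p : ℝ) - 1) := by positivity
  rcases Finset.eq_empty_or_nonempty (DD p M (b - 1)) with hD | hD
  · have key := block_good hp3 (vblk p τ (s2 b) (ln s2 b) hal) hv hv0 (del p / 8) hδ0 hδ1
      (fun χ h1 => hχ χ h1 (by rw [hD]; exact Finset.notMem_empty _)) G hG hG0 hG1
      (cblk p τ (s2 b)) hC hC0
    unfold hitp
    rw [hz]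
    refine key.trans ?_
    have : (0 : ℝ) ≤ 6 * (DD p M (b - 1)).card * ln s2 b / ((p : ℝ) - 1) := by positivity
    linarith
  · have hD1 : (1 : ℝ) ≤ (DD p M (b - 1)).card := by exact_mod_cast Finset.card_pos.mpr hD
    have hlog : 0 ≤ Real.log p := Real.log_nonneg (by linarith)
    have hG2 : 12 * Real.log p ≤ del p / 8 * G := by
      have h5 : (del p / 8) ^ 2 ≤ del p / 8 := by nlinarith
      have h6 : (del p / 8) ^ 2 * (G : ℝ) ≤ del p / 8 * G :=
        mul_le_mul_of_nonneg_right h5 (by positivity)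
      linarith
    have hGl : 2 * G ≤ ln s2 b := by
      have h5 : del p / 8 * ((ln s2 b : ℕ) : ℝ) ≤ 1 * ((ln s2 b : ℕ) : ℝ) :=
        mul_le_mul_of_nonneg_right hδ1 (by positivity)
      have h6 : 2 * (G : ℝ) ≤ ((ln s2 b : ℕ) : ℝ) := by
        have : (0 : ℝ) ≤ G := by positivity
        linarith
      exact_mod_cast h6
    have key := block_bad hp3 (vblk p τ (s2 b) (ln s2 b) hal) hv hv0 (del p / 8) hδ0
      (DD p M (b - 1)) hχ G hG2 hG0 hGl (cblk p τ (s2 b)) hC hC0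
    have h7 : hitp p τ (s2 b) (ln s2 b) G hal ≤
        (ln s2 b : ℝ) * (2 * ((2 + (DD p M (b - 1)).card) / ((p : ℝ) - 1))) := key
    have h8 := hitp_mem τ (s2 b) (ln s2 b) G hal
    have h9 := zb_nonneg hp3 s2 G b
    have h10 := zb_le hp3 s2 G b hG0
    have h11 : (ln s2 b : ℝ) * (2 * ((2 + (DD p M (b - 1)).card) / ((p : ℝ) - 1))) ≤
        6 * (DD p M (b - 1)).card * ln s2 b / ((p : ℝ) - 1) := by
      rw [mul_div_assoc', mul_div_assoc']
      apply div_le_div_of_nonneg_right _ hp1.le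
      have : (0 : ℝ) ≤ ln s2 b := by positivity
      nlinarith
    have h12 : 2 * (ln s2 b : ℝ) / ((p : ℝ) - 1) ≤
        6 * (DD p M (b - 1)).card * ln s2 b / ((p : ℝ) - 1) := by
      apply div_le_div_of_nonneg_right _ hp1.le
      have : (0 : ℝ) ≤ ln s2 b := by positivity
      nlinarith
    rw [abs_le]
    constructor <;> linarith

/-- the error in the interior -/
noncomputable def eps2 (p M G : ℕ) [Fact p.Prime] : ℝ :=
  del p + 52 * M / ((p : ℝ) - 1) +
    24 * M / ((p : ℝ) - 1) * (∑ b ∈ range (nb (p / 2) M M), ((DD p M (b - 1)).card : ℝ)) +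
    (4 * G * (nb (p / 2) M M : ℕ) + 1) / ((p : ℝ) - 1)

/-- **the interior for a fair arrangement** -/
theorem int_fair (hp3 : 3 ≤ p) (hodd : p % 2 = 1) (M : ℕ) (hM : 0 < M) (hH : 4 * M ≤ p / 2)
    (G : ℕ) (hG : 224 * Real.log p ≤ (del p / 8) ^ 2 * G) (hG0 : 0 < G)
    (hGM : 32 * (G : ℝ) ≤ del p * M) (τ : Equiv.Perm (Fin (p / 2))) (hτ : Fair p M τ)
    (hal : ∀ b : Fin (nb (p / 2) M M),
      ct (p / 2) M M b + ln (ct (p / 2) M M) b ≤ p / 2) :
    |∏ b : Fin (nb (p / 2) M M),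
      (1 - hitp p τ (ct (p / 2) M M b) (ln (ct (p / 2) M M) b) G (hal b)) -
      Real.exp (-(3 / 4))| ≤ eps2 p M G := by
  set s2 := ct (p / 2) M M with hs2
  set B := nb (p / 2) M M with hBdef
  have hm2 : Monotone s2 := ct_mono (p / 2) M M hM (by omega)
  have h0 : s2 0 = 0 := ct_zero _ _ _
  have hB : s2 B = p / 2 := ct_nb _ _ _
  have hp3R : (3 : ℝ) ≤ p := by exact_mod_cast hp3
  have hp1 : (0 : ℝ) < (p : ℝ) - 1 := by linarith
  have hMR : (0 : ℝ) < M := by exact_mod_cast hM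
  have hdel := del_pos (p := p)
  have hpc : ((p - 1 : ℕ) : ℝ) = (p : ℝ) - 1 := by rw [Nat.cast_sub (by omega)]; simp
  have hHR : ((p / 2 : ℕ) : ℝ) = ((p : ℝ) - 1) / 2 := by
    have : p - 1 = 2 * (p / 2) := by omega
    rw [← hpc, this]
    push_cast
    ring
  have h8M : 8 * (M : ℝ) ≤ (p : ℝ) - 1 := by
    rw [← hpc]
    have : 8 * M ≤ p - 1 := by omega
    exact_mod_cast this
  have hln : ∀ b, ln s2 b ≤ 4 * M := by
    intro b
    rcases Nat.lt_or_ge ((p / 2 - M) / (2 * M)) b with h | h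
    · have e : ln s2 b = 0 := by
        unfold ln
        rw [hs2, ct_big _ _ _ _ h, ct_big _ _ _ _ (by omega)]
        omega
      omega
    · exact (ln2 (p / 2) M b hM hH h).2
  have hlnR : ∀ b, (ln s2 b : ℝ) ≤ 4 * M := fun b => by exact_mod_cast hln b
  have hsumln : ∑ b ∈ range B, (ln s2 b : ℝ) = ((p : ℝ) - 1) / 2 := by
    rw [← hHR, ← hB, ← sum_ln s2 hm2 h0 B]
    push_cast
    rfl
  have hprod : ∏ b : Fin B, (1 - hitp p τ (s2 b) (ln s2 b) G (hal b)) =
      ∏ b ∈ range B, (1 - hb p τ s2 G b) := by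
    rw [Finset.prod_range]
    apply Finset.prod_congr rfl
    intro b _
    unfold hb
    rw [dif_pos (hal b)]
  rw [hprod]
  have hz0 : ∀ b, 0 ≤ zb p s2 G b := fun b => zb_nonneg hp3 s2 G b
  have hz1 : ∀ b, zb p s2 G b ≤ 2 * ln s2 b / ((p : ℝ) - 1) := fun b => zb_le hp3 s2 G b hG0
  have hz3 : ∀ b, zb p s2 G b ≤ 8 * M / ((p : ℝ) - 1) := by
    intro b
    refine (hz1 b).trans ?_
    apply div_le_div_of_nonneg_right _ hp1.le
    have := hlnR b
    linarith
  have hz2 : ∀ b, zb p s2 G b ≤ 1 := by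
    intro b
    refine (hz3 b).trans ?_
    rw [div_le_one hp1]
    exact h8M
  have hpc1 := prod_close B (fun b => 1 - hb p τ s2 G b) (fun b => Real.exp (-zb p s2 G b))
      (fun b => by have := hb_mem τ s2 G b; constructor <;> linarith)
      (fun b => ⟨(Real.exp_pos _).le, Real.exp_le_one_iff.mpr (by have := hz0 b; linarith)⟩)
  have hterm : ∀ b ∈ range B, |1 - hb p τ s2 G b - Real.exp (-zb p s2 G b)| ≤
      4 * (del p / 8) * ln s2 b / ((p : ℝ) - 1) + 22 * (ln s2 b : ℝ) ^ 2 / ((p : ℝ) - 1) ^ 2 +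
      6 * (DD p M (b - 1)).card * ln s2 b / ((p : ℝ) - 1) + zb p s2 G b ^ 2 := by
    intro b hbr
    rw [Finset.mem_range] at hbr
    have h1 : |hitp p τ (s2 b) (ln s2 b) G (hal ⟨b, hbr⟩) - zb p s2 G b| ≤
        4 * (del p / 8) * ln s2 b / ((p : ℝ) - 1) + 22 * (ln s2 b : ℝ) ^ 2 / ((p : ℝ) - 1) ^ 2 +
        6 * (DD p M (b - 1)).card * ln s2 b / ((p : ℝ) - 1) :=
      block_err hp3 hodd M hM hH G hG hG0 hGM τ hτ b hbr (hal ⟨b, hbr⟩)
    have e1 : hb p τ s2 G b = hitp p τ (s2 b) (ln s2 b) G (hal ⟨b, hbr⟩) := by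
      unfold hb
      rw [dif_pos (hal ⟨b, hbr⟩)]
    rw [← e1] at h1
    have h2 : |Real.exp (-zb p s2 G b) - 1 - -zb p s2 G b| ≤ (-zb p s2 G b) ^ 2 := by
      apply Real.abs_exp_sub_one_sub_id_le
      rw [abs_neg, abs_of_nonneg (hz0 b)]
      exact hz2 b
    rw [neg_sq] at h2
    have e : 1 - hb p τ s2 G b - Real.exp (-zb p s2 G b) =
        -(hb p τ s2 G b - zb p s2 G b) - (Real.exp (-zb p s2 G b) - 1 - -zb p s2 G b) := by ring
    rw [e]
    refine (abs_sub _ _).trans ?_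
    rw [abs_neg]
    linarith
  have hsum : ∑ b ∈ range B, |1 - hb p τ s2 G b - Real.exp (-zb p s2 G b)| ≤
      del p / 4 + 44 * M / ((p : ℝ) - 1) +
      24 * M / ((p : ℝ) - 1) * (∑ b ∈ range B, ((DD p M (b - 1)).card : ℝ)) +
      8 * M / ((p : ℝ) - 1) := by
    refine (Finset.sum_le_sum hterm).trans ?_
    rw [Finset.sum_add_distrib, Finset.sum_add_distrib, Finset.sum_add_distrib]
    have t1 : ∑ b ∈ range B, 4 * (del p / 8) * (ln s2 b : ℝ) / ((p : ℝ) - 1) = del p / 4 := by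
      rw [← Finset.sum_div, ← Finset.mul_sum, hsumln]
      field_simp
      ring
    have t2 : ∑ b ∈ range B, 22 * (ln s2 b : ℝ) ^ 2 / ((p : ℝ) - 1) ^ 2 ≤
        44 * M / ((p : ℝ) - 1) := by
      calc ∑ b ∈ range B, 22 * (ln s2 b : ℝ) ^ 2 / ((p : ℝ) - 1) ^ 2 ≤
          ∑ b ∈ range B, (88 * M / ((p : ℝ) - 1) ^ 2) * (ln s2 b : ℝ) := by
            apply Finset.sum_le_sum
            intro b _
            rw [div_mul_eq_mul_div]
            apply div_le_div_of_nonneg_right _ (by positivity)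
            have h1 := hlnR b
            have h2 : (0 : ℝ) ≤ ln s2 b := by positivity
            nlinarith
        _ = (88 * M / ((p : ℝ) - 1) ^ 2) * (((p : ℝ) - 1) / 2) := by
            rw [← Finset.mul_sum, hsumln]
        _ = _ := by
            field_simp
            ring
    have t3 : ∑ b ∈ range B, 6 * ((DD p M (b - 1)).card : ℝ) * (ln s2 b : ℝ) / ((p : ℝ) - 1) ≤
        24 * M / ((p : ℝ) - 1) * (∑ b ∈ range B, ((DD p M (b - 1)).card : ℝ)) := by
      rw [Finset.mul_sum]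
      apply Finset.sum_le_sum
      intro b _
      rw [div_mul_eq_mul_div]
      apply div_le_div_of_nonneg_right _ hp1.le
      have h1 := hlnR b
      have h2 : (0 : ℝ) ≤ (DD p M (b - 1)).card := by positivity
      nlinarith
    have t4 : ∑ b ∈ range B, zb p s2 G b ^ 2 ≤ 8 * M / ((p : ℝ) - 1) := by
      calc ∑ b ∈ range B, zb p s2 G b ^ 2 ≤
          ∑ b ∈ range B, (8 * M / ((p : ℝ) - 1)) * (2 * (ln s2 b : ℝ) / ((p : ℝ) - 1)) := by
            apply Finset.sum_le_sum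
            intro b _
            rw [sq]
            exact mul_le_mul (hz3 b) (hz1 b) (hz0 b) (by positivity)
        _ = (8 * M / ((p : ℝ) - 1)) * (2 * (((p : ℝ) - 1) / 2) / ((p : ℝ) - 1)) := by
            rw [← Finset.mul_sum, ← Finset.sum_div, ← Finset.mul_sum, hsumln]
        _ = _ := by field_simp
    linarith
  have hexp : ∏ b ∈ range B, Real.exp (-zb p s2 G b) =
      Real.exp (-∑ b ∈ range B, zb p s2 G b) := by
    rw [← Real.exp_sum, Finset.sum_neg_distrib]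
  rw [hexp] at hpc1
  have hlip := exp_lip (∑ b ∈ range B, zb p s2 G b) (3 / 4)
    (Finset.sum_nonneg fun b _ => hz0 b) (by norm_num)
  have hszb := sum_zb hp3 hodd s2 hm2 h0 B hB G hG0
  have htri : |∏ b ∈ range B, (1 - hb p τ s2 G b) - Real.exp (-(3 / 4))| ≤
      |∏ b ∈ range B, (1 - hb p τ s2 G b) - Real.exp (-∑ b ∈ range B, zb p s2 G b)| +
      |Real.exp (-∑ b ∈ range B, zb p s2 G b) - Real.exp (-(3 / 4))| := abs_sub_le _ _ _
  refine htri.trans ?_
  unfold eps2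
  have e52 : (52 : ℝ) * M / ((p : ℝ) - 1) = 44 * M / ((p : ℝ) - 1) + 8 * M / ((p : ℝ) - 1) := by
    ring
  rw [e52]
  linarith

end MP1fb.L2
end

section
/-!
MP_1fb68e_nt, two local shuffles: the probability for one prime.
-/
set_option autoImplicit false

namespace MP1fb.L2

open Finset MP1fb.LS

variable {p : ℕ}

/-- the probability that `-1` is reached for the first time at `p - 1`, for two independent
uniform shuffles of the levels 1 and 2 -/
noncomputable def prob2 (p M : ℕ) : ℝ :=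
  (num (fun z : Equiv.Perm (Fin (p / 2)) × Equiv.Perm (Fin (p / 2)) =>
    Near (p / 2) M (2 * M) z.1 ∧ Near (p / 2) M M z.2 ∧ Late p (z.1 * z.2)) : ℝ) /
    (num (Near (p / 2) M (2 * M)) * num (Near (p / 2) M M))

/-- the probability that level 1 is not fair -/
noncomputable def eps0 (p M : ℕ) : ℝ :=
  (nb (p / 2) M M : ℝ) * (p * (4 * (4 * (M : ℝ) + 1) * Real.exp (-(del p ^ 2 * M / 64))))

lemma num_pos_of {Ω : Type*} [Fintype Ω] (P : Ω → Prop) (w : Ω) (h : P w) : 0 < num P := by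
  classical
  rw [num_eq, Finset.card_pos]
  exact ⟨w, Finset.mem_filter.mpr ⟨mem_univ _, h⟩⟩

variable [hp : Fact p.Prime]

lemma eps2_nonneg (hp3 : 3 ≤ p) (M G : ℕ) : 0 ≤ eps2 p M G := by
  have hp3R : (3 : ℝ) ≤ p := by exact_mod_cast hp3
  have h5 : (0 : ℝ) < (p : ℝ) - 1 := by linarith
  have h1 : 0 ≤ del p := del_pos.le
  have h2 : (0 : ℝ) ≤ ∑ b ∈ range (nb (p / 2) M M), ((DD p M (b - 1)).card : ℝ) :=
    Finset.sum_nonneg fun b _ => Nat.cast_nonneg _
  have h3 : (0 : ℝ) ≤ 52 * M / ((p : ℝ) - 1) := div_nonneg (by positivity) h5.le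
  have h4 : (0 : ℝ) ≤ 24 * M / ((p : ℝ) - 1) := div_nonneg (by positivity) h5.le
  have h6 : (0 : ℝ) ≤ (4 * G * (nb (p / 2) M M : ℕ) + 1) / ((p : ℝ) - 1) :=
    div_nonneg (by positivity) h5.le
  have h7 := mul_nonneg h4 h2
  unfold eps2
  linarith

open Classical in
/-- **one prime** -/
theorem prob2_close (hp3 : 3 ≤ p) (hodd : p % 2 = 1)
    (hhalf : (((p / 2).factorial : ℕ) : ZMod p) ∉ targ p (p / 2)) (M : ℕ) (hM : 0 < M)
    (hH : 4 * M ≤ p / 2) (G : ℕ) (hG : 224 * Real.log p ≤ (del p / 8) ^ 2 * G) (hG0 : 0 < G)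
    (hGM : 32 * (G : ℝ) ≤ del p * M) :
    |prob2 p M - Real.exp (-(3 / 4))| ≤ eps0 p M + eps1 p M G + eps2 p M G := by
  set s1 := ct (p / 2) M (2 * M) with hs1
  set s2 := ct (p / 2) M M with hs2
  set B := nb (p / 2) M M with hBdef
  have hm2 : Monotone s2 := ct_mono (p / 2) M M hM (by omega)
  have h0 : s2 0 = 0 := ct_zero _ _ _
  have hB : s2 B = p / 2 := ct_nb _ _ _
  have hp3R : (3 : ℝ) ≤ p := by exact_mod_cast hp3
  have hMR : (0 : ℝ) < M := by exact_mod_cast hM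
  have hdel := del_pos (p := p)
  have hdel1 := del_le (p := p)
  have hlog : 0 ≤ Real.log p := Real.log_nonneg (by linarith)
  have hG0R : (0 : ℝ) < G := by exact_mod_cast hG0
  have hG12 : 12 * Real.log p ≤ del p * G := by
    have h5 : (del p / 8) ^ 2 ≤ del p := by nlinarith
    have h6 : (del p / 8) ^ 2 * (G : ℝ) ≤ del p * G := mul_le_mul_of_nonneg_right h5 hG0R.le
    linarith
  have h2GM : 2 * G ≤ M := by
    have h5 : del p * (M : ℝ) ≤ 1 * M := mul_le_mul_of_nonneg_right hdel1 hMR.le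
    have h6 : 2 * (G : ℝ) ≤ M := by linarith
    exact_mod_cast h6
  have e1 : Near (p / 2) M (2 * M) = Pres (p / 2) s1 := by
    funext τ
    exact propext (near_iff _ _ _ hM (by omega) τ)
  have e2 : Near (p / 2) M M = Pres (p / 2) s2 := by
    funext τ
    exact propext (near_iff _ _ _ hM (by omega) τ)
  unfold prob2
  rw [e1, e2]
  have hN1n : 0 < num (Pres (p / 2) s1) := num_pos_of _ 1 (pres_one _ _)
  have hN2n : 0 < num (Pres (p / 2) s2) := num_pos_of _ 1 (pres_one _ _)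
  set N1 : ℝ := (num (Pres (p / 2) s1) : ℝ) with hN1
  set N2 : ℝ := (num (Pres (p / 2) s2) : ℝ) with hN2
  have hN10 : 0 < N1 := by rw [hN1]; exact_mod_cast hN1n
  have hN20 : 0 < N2 := by rw [hN2]; exact_mod_cast hN2n
  set E := Real.exp (-(3 / 4)) with hE
  have hE0 : 0 < E := Real.exp_pos _
  have hE1 : E ≤ 1 := Real.exp_le_one_iff.mpr (by norm_num)
  -- late and interior
  have hsplit : num (fun z : Equiv.Perm (Fin (p / 2)) × Equiv.Perm (Fin (p / 2)) =>
      Pres (p / 2) s1 z.1 ∧ (Pres (p / 2) s2 z.2 ∧ NoInt p s2 B G (z.1 * z.2))) =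
      num (fun z : Equiv.Perm (Fin (p / 2)) × Equiv.Perm (Fin (p / 2)) =>
        Pres (p / 2) s1 z.1 ∧ Pres (p / 2) s2 z.2 ∧ Late p (z.1 * z.2)) +
      num (fun z : Equiv.Perm (Fin (p / 2)) × Equiv.Perm (Fin (p / 2)) =>
        Pres (p / 2) s1 z.1 ∧ Pres (p / 2) s2 z.2 ∧
          (NoInt p s2 B G (z.1 * z.2) ∧ ¬ Late p (z.1 * z.2))) := by
    rw [num_eq, num_eq, num_eq]
    rw [← Finset.card_filter_add_card_filter_not
      (s := univ.filter (fun z : Equiv.Perm (Fin (p / 2)) × Equiv.Perm (Fin (p / 2)) =>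
      Pres (p / 2) s1 z.1 ∧ (Pres (p / 2) s2 z.2 ∧ NoInt p s2 B G (z.1 * z.2))))
      (fun z => Late p (z.1 * z.2))]
    rw [Finset.filter_filter, Finset.filter_filter]
    congr 2
    · apply Finset.filter_congr
      intro z _
      constructor
      · rintro ⟨⟨h1, h2, _⟩, h3⟩
        exact ⟨h1, h2, h3⟩
      · rintro ⟨h1, h2, h3⟩
        refine ⟨⟨h1, h2, ?_⟩, h3⟩
        intro b hb j hj
        have hle := blk_le s2 hm2 B hB b hb
        rw [Finset.mem_Icc] at hj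
        exact (late_targ hodd _).mp h3 (s2 b + j) (by omega) (by omega)
    · apply Finset.filter_congr
      intro z _
      tauto
  have hedge := edge_sum hp3 hodd hhalf M hM hH G hG12 hG0 h2GM
  rw [← hs1, ← hs2, ← hBdef, ← hN1, ← hN2] at hedge
  -- the interior
  set F : Equiv.Perm (Fin (p / 2)) → ℝ := fun x =>
    ∏ b : Fin B, (1 - hitp p x (s2 b) (ln s2 b) G (blk_le s2 hm2 B hB b b.2)) with hF
  have hF01 : ∀ x, 0 ≤ F x ∧ F x ≤ 1 := by
    intro x
    constructor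
    · apply Finset.prod_nonneg
      intro b _
      have := hitp_mem x (s2 b) (ln s2 b) G (blk_le s2 hm2 B hB b b.2)
      linarith [this.2]
    · apply Finset.prod_le_one
      · intro b _
        have := hitp_mem x (s2 b) (ln s2 b) G (blk_le s2 hm2 B hB b b.2)
        linarith [this.2]
      · intro b _
        have := hitp_mem x (s2 b) (ln s2 b) G (blk_le s2 hm2 B hB b b.2)
        linarith [this.1]
  have hint : (num (fun z : Equiv.Perm (Fin (p / 2)) × Equiv.Perm (Fin (p / 2)) =>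
      Pres (p / 2) s1 z.1 ∧ (Pres (p / 2) s2 z.2 ∧ NoInt p s2 B G (z.1 * z.2))) : ℝ) =
      ∑ x ∈ univ.filter (Pres (p / 2) s1), N2 * F x := by
    rw [num_prod_fst (Pres (p / 2) s1) (fun x y => Pres (p / 2) s2 y ∧ NoInt p s2 B G (x * y))]
    push_cast
    apply Finset.sum_congr rfl
    intro x _
    exact int_eq s2 hm2 h0 B hB x G
  have hcard : ((univ.filter (Pres (p / 2) s1)).card : ℝ) = N1 := by
    rw [hN1, num_eq]
  have hclose : |∑ x ∈ univ.filter (Pres (p / 2) s1), N2 * F x - E * (N1 * N2)| ≤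
      (eps0 p M + eps2 p M G) * (N1 * N2) := by
    have h1 : ∑ x ∈ univ.filter (Pres (p / 2) s1), N2 * F x - E * (N1 * N2) =
        ∑ x ∈ univ.filter (Pres (p / 2) s1), N2 * (F x - E) := by
      have : E * (N1 * N2) = ∑ _x ∈ univ.filter (Pres (p / 2) s1), N2 * E := by
        rw [Finset.sum_const, nsmul_eq_mul, hcard]; ring
      rw [this, ← Finset.sum_sub_distrib]
      apply Finset.sum_congr rfl
      intro x _
      ring
    rw [h1]
    refine (Finset.abs_sum_le_sum_abs _ _).trans ?_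
    have hε2 : 0 ≤ eps2 p M G := eps2_nonneg hp3 M G
    have h2 : ∀ x ∈ univ.filter (Pres (p / 2) s1), |N2 * (F x - E)| ≤
        N2 * eps2 p M G + N2 * (ind (¬ Fair p M x) : ℝ) := by
      intro x _
      rw [abs_mul, abs_of_pos hN20, ← mul_add]
      apply mul_le_mul_of_nonneg_left _ hN20.le
      by_cases hx : Fair p M x
      · rw [ind_neg (not_not.mpr hx), Nat.cast_zero, add_zero]
        exact int_fair hp3 hodd M hM hH G hG hG0 hGM x hx _
      · rw [ind_pos hx, Nat.cast_one]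
        have := hF01 x
        have h3 : |F x - E| ≤ 1 := by
          rw [abs_le]
          constructor <;> linarith [this.1, this.2]
        linarith
    refine (Finset.sum_le_sum h2).trans ?_
    rw [Finset.sum_add_distrib, Finset.sum_const, nsmul_eq_mul, hcard, ← Finset.mul_sum]
    have h3 : (∑ x ∈ univ.filter (Pres (p / 2) s1), (ind (¬ Fair p M x) : ℝ)) ≤
        eps0 p M * N1 := by
      have h4 := lv1 M hM hH (p := p)
      rw [← hs1, ← hN1] at h4
      have h5 : (∑ x ∈ univ.filter (Pres (p / 2) s1), (ind (¬ Fair p M x) : ℝ)) =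
          (num (fun τ => Pres (p / 2) s1 τ ∧ ¬ Fair p M τ) : ℝ) := by
        rw [← Nat.cast_sum, sum_ind, Finset.filter_filter, num_eq]
      rw [h5]
      exact h4
    calc N1 * (N2 * eps2 p M G) + N2 * (∑ x ∈ univ.filter (Pres (p / 2) s1),
          (ind (¬ Fair p M x) : ℝ)) ≤ N1 * (N2 * eps2 p M G) + N2 * (eps0 p M * N1) := by gcongr
      _ = _ := by ring
  rw [← hint, hsplit, Nat.cast_add] at hclose
  set A : ℝ := (num (fun z : Equiv.Perm (Fin (p / 2)) × Equiv.Perm (Fin (p / 2)) =>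
        Pres (p / 2) s1 z.1 ∧ Pres (p / 2) s2 z.2 ∧ Late p (z.1 * z.2)) : ℝ) with hA
  set A' : ℝ := (num (fun z : Equiv.Perm (Fin (p / 2)) × Equiv.Perm (Fin (p / 2)) =>
        Pres (p / 2) s1 z.1 ∧ Pres (p / 2) s2 z.2 ∧
          (NoInt p s2 B G (z.1 * z.2) ∧ ¬ Late p (z.1 * z.2))) : ℝ) with hA'
  have hA'0 : 0 ≤ A' := by positivity
  have hN : 0 < N1 * N2 := mul_pos hN10 hN20
  have e : A / (N1 * N2) - E = (A - E * (N1 * N2)) / (N1 * N2) := by
    field_simp
  rw [e, abs_div, abs_of_pos hN, div_le_iff₀ hN]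
  have h6 : |A - E * (N1 * N2)| ≤ |A + A' - E * (N1 * N2)| + A' := by
    have : A - E * (N1 * N2) = (A + A' - E * (N1 * N2)) - A' := by ring
    rw [this]
    refine (abs_sub _ _).trans ?_
    rw [abs_of_nonneg hA'0]
  calc |A - E * (N1 * N2)| ≤ |A + A' - E * (N1 * N2)| + A' := h6
    _ ≤ (eps0 p M + eps2 p M G) * (N1 * N2) + eps1 p M G * (N1 * N2) := add_le_add hclose hedge
    _ = _ := by ring

/-- the other case -/
lemma prob2_zero (hodd : p % 2 = 1) (M : ℕ) (h : (((p / 2).factorial : ℕ) : ZMod p) = -1) :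
    prob2 p M = 0 := by
  classical
  have hp2 : 2 < p := by
    have := hp.out.two_le
    omega
  unfold prob2
  have h1 : num (fun z : Equiv.Perm (Fin (p / 2)) × Equiv.Perm (Fin (p / 2)) =>
      Near (p / 2) M (2 * M) z.1 ∧ Near (p / 2) M M z.2 ∧ Late p (z.1 * z.2)) = 0 := by
    rw [num_eq, Finset.card_eq_zero, Finset.filter_eq_empty_iff]
    rintro z _ ⟨_, _, hl⟩
    rw [late_iff hodd] at hl
    have := (hl (p / 2) (by omega) le_rfl).1
    rw [part_half] at this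
    exact this h
  rw [h1]
  simp

end MP1fb.L2
end

section
/-!
MP_1fb68e_nt, two local shuffles: the error terms.
-/
set_option autoImplicit false

namespace MP1fb.L2

open Finset MP1fb.LS

variable {p : ℕ} [hp : Fact p.Prime]

/-- the exceptional characters of all blocks -/
lemma dd_sum (X : ℕ) (hX : X = sz p) (hdiv : (Nat.divisors (p - 1)).card ≤ X ^ 3)
    (hX250 : X ^ 250 ≤ p) (hX4 : 4 ≤ X) (hprs : (X ^ 20) ^ 9 ≤ (prs (X ^ 20)).card ^ 10)
    (M : ℕ) (hM : 0 < M) (hH : 4 * M ≤ p / 2) (hMX : 4 * X ^ 21 ≤ 2 * M) :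
    ∑ c ∈ range (nb (p / 2) M (2 * M)), ((DD p M c).card : ℝ) ≤ 5 * p / (2 * M * X) := by
  have hm1 : Monotone (ct (p / 2) M (2 * M)) := ct_mono (p / 2) M (2 * M) hM (by omega)
  have h := badsum_aux (p := p) X hX hdiv hX250 hX4 hprs (ct (p / 2) M (2 * M)) hm1
    (nb (p / 2) M (2 * M)) (2 * M) (ct_nb _ _ _).le (by
      intro b hb
      have hb' : b ≤ (p / 2 - 2 * M) / (2 * M) := by unfold nb at hb; omega
      have h1 := ln1 (p / 2) M b hM hH hb'
      have h2 := add_ln (ct (p / 2) M (2 * M)) hm1 b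
      omega) hMX
  push_cast at h
  exact h

lemma K_le (H M : ℕ) (hM : 0 < M) (hH : 4 * M ≤ H) :
    (H - M) / (2 * M) ≤ nb H M (2 * M) ∧ 2 * M * ((H - M) / (2 * M)) + M ≤ H := by
  constructor
  · rcases Nat.eq_zero_or_pos ((H - M) / (2 * M)) with h | h
    · rw [h]; exact Nat.zero_le _
    · obtain ⟨c, hc⟩ : ∃ c, (H - M) / (2 * M) = c + 1 := ⟨(H - M) / (2 * M) - 1, by omega⟩
      have := (rel H M c hM hH (by rw [hc])).1
      rw [hc]
      unfold nb
      omega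
  · exact (div_ge H M M _ hM (by omega)).mp le_rfl

/-- sizes, in terms of `X` -/
lemma log_le (X : ℕ) (hX : X = sz p) : Real.log p ≤ X := by
  have h1 := lt_sz p
  rw [← hX] at h1
  have hp0 : (0 : ℝ) < p := by exact_mod_cast hp.out.pos
  have h2 : (p : ℝ) ≤ 2 ^ X := by exact_mod_cast h1.le
  calc Real.log p ≤ Real.log (2 ^ X) := Real.log_le_log hp0 h2
    _ = X * Real.log 2 := by rw [Real.log_pow]
    _ ≤ X * 1 := by
        apply mul_le_mul_of_nonneg_left _ (by positivity)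
        have := Real.log_two_lt_d9
        linarith
    _ = X := mul_one _

/-! real inequalities -/

lemma est1 (G M X q K S D C : ℝ) (hG0 : 0 < G) (hM : 0 < M) (hX : 4 ≤ X) (hq : 16 ≤ q)
    (hK : 4 * M * K ≤ q) (hK0 : 0 ≤ K) (hS0 : 0 ≤ S) (hS : S ≤ D) (hD : 2 * M * X * D ≤ 5 * q)
    (hGM : G / M ≤ 1 / (2 ^ 24 * X)) (hC : C ≤ 3 * G) :
    C * 2 / (q - 1) * (2 * K + S) + 2 * (G * (4 / M)) ≤ 1 / X := by
  have hX0 : 0 < X := by linarith
  have hq1 : 0 < q - 1 := by linarith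
  have h4 : M * (2 * K + S) ≤ 9 / 8 * q := by
    have h5 : M * S ≤ M * D := mul_le_mul_of_nonneg_left hS hM.le
    have h7 : 0 ≤ M * D := by
      have : 0 ≤ D := le_trans hS0 hS
      positivity
    have h6 : 8 * (M * D) ≤ 5 * q := by nlinarith
    linarith
  have h6 : 2 * K + S ≤ 9 / 8 * q / M := by
    rw [le_div_iff₀ hM]
    linarith
  have h7 : 0 ≤ 2 * K + S := by positivity
  have h8 : C * 2 / (q - 1) * (2 * K + S) ≤ 14 * (G / M) := by
    calc C * 2 / (q - 1) * (2 * K + S) ≤ (3 * G) * 2 / (q - 1) * (2 * K + S) := by gcongr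
      _ ≤ (3 * G) * 2 / (q - 1) * (9 / 8 * q / M) := by
          apply mul_le_mul_of_nonneg_left h6 (by positivity)
      _ = 27 / 4 * (G / M) * (q / (q - 1)) := by ring
      _ ≤ 27 / 4 * (G / M) * 2 := by
          apply mul_le_mul_of_nonneg_left _ (by positivity)
          rw [div_le_iff₀ hq1]
          linarith
      _ ≤ 14 * (G / M) := by
          have : 0 ≤ G / M := by positivity
          linarith
  have h9 : 2 * (G * (4 / M)) = 8 * (G / M) := by ring
  rw [h9]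
  calc C * 2 / (q - 1) * (2 * K + S) + 8 * (G / M) ≤ 22 * (G / M) := by linarith
    _ ≤ 22 * (1 / (2 ^ 24 * X)) := by gcongr
    _ = 22 / 2 ^ 24 * (1 / X) := by field_simp
    _ ≤ 1 * (1 / X) := by
        apply mul_le_mul_of_nonneg_right _ (by positivity)
        norm_num
    _ = 1 / X := one_mul _

lemma est2 (G M X q K D S del : ℝ) (hG0 : 0 < G) (hM : 0 < M) (hX : 4 ≤ X) (hq : 16 ≤ q)
    (hK : 4 * M * K ≤ q) (hMq : 8 * M ≤ q) (hXq : X ^ 2 ≤ q)
    (hS : S ≤ 2 * D) (hD : 2 * M * X * D ≤ 5 * q)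
    (hGM : G / M ≤ 1 / (2 ^ 24 * X)) (hdel : del ≤ 1 / X) :
    del + 52 * M / (q - 1) + 24 * M / (q - 1) * S + (4 * G * (K + 1) + 1) / (q - 1) ≤
      260 / X + 104 * M / q := by
  have hX0 : 0 < X := by linarith
  have hq0 : 0 < q := by linarith
  have hq1 : 0 < q - 1 := by linarith
  have h2 : 52 * M / (q - 1) ≤ 104 * M / q := by
    rw [div_le_div_iff₀ hq1 hq0]
    nlinarith
  have h3 : 24 * M / (q - 1) * S ≤ 240 / X := by
    calc 24 * M / (q - 1) * S ≤ 24 * M / (q - 1) * (2 * D) :=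
          mul_le_mul_of_nonneg_left hS (by positivity)
      _ ≤ 240 / X := by
          rw [div_mul_eq_mul_div, div_le_div_iff₀ hq1 hX0]
          nlinarith
  have h5 : 4 * G * (K + 1) / (q - 1) ≤ 1 / X := by
    have h6 : K + 1 ≤ q / M := by
      rw [le_div_iff₀ hM]
      nlinarith
    calc 4 * G * (K + 1) / (q - 1) ≤ 4 * G * (q / M) / (q - 1) := by gcongr
      _ = 4 * (G / M) * (q / (q - 1)) := by ring
      _ ≤ 4 * (1 / (2 ^ 24 * X)) * 2 := by
          apply mul_le_mul _ _ (by positivity) (by positivity)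
          · gcongr
          · rw [div_le_iff₀ hq1]; linarith
      _ = 8 / 2 ^ 24 * (1 / X) := by field_simp; norm_num
      _ ≤ 1 * (1 / X) := by
          apply mul_le_mul_of_nonneg_right _ (by positivity)
          norm_num
      _ = 1 / X := one_mul _
  have h8 : 1 / (q - 1) ≤ 2 / X := by
    rw [div_le_div_iff₀ hq1 hX0]
    nlinarith
  have h4 : (4 * G * (K + 1) + 1) / (q - 1) ≤ 19 / X := by
    rw [add_div]
    have h9 : (19 : ℝ) / X = 1 / X + 2 / X + 16 / X := by ring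
    have h10 : (0 : ℝ) ≤ 16 / X := by positivity
    linarith
  have e : (260 : ℝ) / X = 1 / X + 240 / X + 19 / X := by ring
  rw [e]
  linarith

lemma est0 (N M X q x : ℝ) (hM : 0 < M) (hX : 4 ≤ X) (hq : 16 ≤ q)
    (hN : N ≤ q) (hMq : 4 * M + 1 ≤ q) (hXq : X ^ 2 ≤ q) (hlog : Real.log q ≤ X)
    (hx : 5 * X ≤ x) :
    N * (q * (4 * (4 * M + 1) * Real.exp (-x))) ≤ 1 / X := by
  have hX0 : 0 < X := by linarith
  have hq0 : 0 < q := by linarith
  have h2 : Real.exp (-x) ≤ 1 / q ^ 5 := by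
    have h3 : Real.exp (-x) ≤ Real.exp (-(5 * Real.log q)) := by
      apply Real.exp_le_exp.mpr
      linarith
    have h4 : Real.exp (-(5 * Real.log q)) = 1 / q ^ 5 := by
      rw [Real.exp_neg, one_div]
      congr 1
      have : 5 * Real.log q = Real.log (q ^ 5) := by rw [Real.log_pow]; norm_num
      rw [this, Real.exp_log (by positivity)]
    rw [← h4]
    exact h3
  have h6 : (0 : ℝ) ≤ Real.exp (-x) := (Real.exp_pos _).le
  calc N * (q * (4 * (4 * M + 1) * Real.exp (-x))) ≤ q * (q * (4 * q * (1 / q ^ 5))) := by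
        gcongr
    _ = 4 / q ^ 2 := by field_simp
    _ ≤ 1 / X := by
        rw [div_le_div_iff₀ (by positivity) hX0]
        nlinarith

/-- the constants -/
lemma est3 (M X : ℝ) (hX : 4 ≤ X) (hM : 2 ^ 76 * X ^ 88 ≤ M) (G del : ℝ)
    (hG : G = 2 ^ 52 * X ^ 59) (hdel : del = 1 / (2 ^ 19 * X ^ 29)) :
    (del / 8) ^ 2 * G = 256 * X ∧ 32 * G ≤ del * M ∧ G / M ≤ 1 / (2 ^ 24 * X) ∧
      5 * X ≤ del ^ 2 * M / 64 ∧ del ≤ 1 / X := by
  have hX0 : 0 < X := by linarith
  have hM0 : 0 < M := lt_of_lt_of_le (by positivity) hM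
  have hdel0 : 0 < del := by rw [hdel]; positivity
  refine ⟨?_, ?_, ?_, ?_, ?_⟩
  · rw [hdel, hG]
    field_simp
    norm_num
  · have h1 : del * (2 ^ 76 * X ^ 88) ≤ del * M := mul_le_mul_of_nonneg_left hM hdel0.le
    have h2 : del * (2 ^ 76 * X ^ 88) = 32 * G := by
      rw [hdel, hG]
      field_simp
      norm_num
    linarith
  · rw [div_le_div_iff₀ hM0 (by positivity)]
    have h1 : G * (2 ^ 24 * X) = 2 ^ 76 * X ^ 60 := by rw [hG]; ring
    have h2 : 2 ^ 76 * X ^ 60 ≤ 2 ^ 76 * X ^ 88 := by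
      apply mul_le_mul_of_nonneg_left _ (by positivity)
      exact pow_le_pow_right₀ (by linarith) (by norm_num)
    linarith
  · have h2 : del ^ 2 * (2 ^ 76 * X ^ 88) ≤ del ^ 2 * M :=
      mul_le_mul_of_nonneg_left hM (by positivity)
    have h3 : del ^ 2 * (2 ^ 76 * X ^ 88) = 2 ^ 38 * X ^ 30 := by
      rw [hdel]
      field_simp
    have h4 : X ≤ X ^ 30 := by
      calc X = X ^ 1 := (pow_one _).symm
        _ ≤ X ^ 30 := pow_le_pow_right₀ (by linarith) (by norm_num)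
    have h5 : 0 < X ^ 30 := by positivity
    nlinarith
  · rw [hdel, div_le_div_iff₀ (by positivity) hX0, one_mul, one_mul]
    calc X = 1 * X ^ 1 := by ring
      _ ≤ 2 ^ 19 * X ^ 29 := by
          apply mul_le_mul (by norm_num) _ (by positivity) (by norm_num)
          exact pow_le_pow_right₀ (by linarith) (by norm_num)

/-- **one prime, with explicit errors** -/
theorem prob2_bound (hhalf : (((p / 2).factorial : ℕ) : ZMod p) ∉ targ p (p / 2))
    (X : ℕ) (hX : X = sz p) (hdiv : (Nat.divisors (p - 1)).card ≤ X ^ 3)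
    (hX250 : X ^ 250 ≤ p) (hX4 : 4 ≤ X) (hprs : (X ^ 20) ^ 9 ≤ (prs (X ^ 20)).card ^ 10)
    (M : ℕ) (hMX : 2 ^ 76 * X ^ 88 ≤ M) (hH : 4 * M ≤ p / 2) :
    |prob2 p M - Real.exp (-(3 / 4))| ≤ 300 / X + 104 * M / p := by
  -- basic facts
  have hX1 : 1 ≤ X := by omega
  have hXR : (4 : ℝ) ≤ X := by exact_mod_cast hX4
  have hX0 : (0 : ℝ) < X := by linarith
  have hXpow : 1 ≤ X ^ 88 := Nat.one_le_pow _ _ (by omega)
  have hM0 : 0 < M := by omega
  have hMR : (0 : ℝ) < M := by exact_mod_cast hM0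
  have hXp : X ^ 2 ≤ p := by
    calc X ^ 2 ≤ X ^ 250 := Nat.pow_le_pow_right hX1 (by norm_num)
      _ ≤ p := hX250
  have hp16 : 16 ≤ p := by
    calc 16 = 4 ^ 2 := by norm_num
      _ ≤ X ^ 2 := Nat.pow_le_pow_left hX4 2
      _ ≤ p := hXp
  have hp3 : 3 ≤ p := by omega
  have hodd : p % 2 = 1 := by
    rcases hp.out.eq_two_or_odd with h | h
    · omega
    · exact h
  have hp16R : (16 : ℝ) ≤ p := by exact_mod_cast hp16
  have hXpR : (X : ℝ) ^ 2 ≤ p := by exact_mod_cast hXp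
  have hlog := log_le (p := p) X hX
  have hMXR : (2 : ℝ) ^ 76 * (X : ℝ) ^ 88 ≤ M := by exact_mod_cast hMX
  have hdelX : del p = 1 / (2 ^ 19 * (X : ℝ) ^ 29) := by unfold del; rw [hX]
  -- the margin
  obtain ⟨G, hG⟩ : ∃ G : ℕ, G = 2 ^ 52 * X ^ 59 := ⟨_, rfl⟩
  have hG0 : 0 < G := by rw [hG]; positivity
  have hG0R : (0 : ℝ) < G := by exact_mod_cast hG0
  have hGR : (G : ℝ) = 2 ^ 52 * (X : ℝ) ^ 59 := by rw [hG]; push_cast; ring
  obtain ⟨c1, c2, c3, c4, c5⟩ := est3 M X hXR hMXR G (del p) hGR hdelX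
  have hG1 : 224 * Real.log p ≤ (del p / 8) ^ 2 * G := by
    rw [c1]
    linarith
  have hmain := prob2_close hp3 hodd hhalf M hM0 hH G hG1 hG0 c2
  refine hmain.trans ?_
  -- numbers of blocks
  obtain ⟨K, hK⟩ : ∃ K, K = (p / 2 - M) / (2 * M) := ⟨_, rfl⟩
  obtain ⟨hK1, hK2⟩ := K_le (p / 2) M hM0 hH
  rw [← hK] at hK1 hK2
  have hnb : nb (p / 2) M M = K + 1 := by unfold nb; rw [← hK]
  have hKp : 4 * (M : ℝ) * K ≤ p := by
    have : 4 * M * K ≤ p := by
      have h1 : 4 * M * K = 2 * (2 * M * K) := by ring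
      rw [h1]
      omega
    exact_mod_cast this
  have hSD := dd_sum (p := p) X hX hdiv hX250 hX4 hprs M hM0 hH (by
    have h1 : X ^ 21 ≤ X ^ 88 := Nat.pow_le_pow_right hX1 (by norm_num)
    omega)
  obtain ⟨SD, hSDdef⟩ : ∃ SD, SD = ∑ c ∈ range (nb (p / 2) M (2 * M)), ((DD p M c).card : ℝ) :=
    ⟨_, rfl⟩
  rw [← hSDdef] at hSD
  obtain ⟨S, hS⟩ : ∃ S, S = ∑ c ∈ range K, ((DD p M c).card : ℝ) := ⟨_, rfl⟩
  have hS0 : 0 ≤ S := by rw [hS]; exact Finset.sum_nonneg fun c _ => Nat.cast_nonneg _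
  have hSD1 : S ≤ SD := by
    rw [hS, hSDdef]
    apply Finset.sum_le_sum_of_subset_of_nonneg
    · intro c hc
      rw [Finset.mem_range] at hc ⊢
      omega
    · intro c _ _
      exact Nat.cast_nonneg _
  have hSD2 : ∑ b ∈ range (nb (p / 2) M M), ((DD p M (b - 1)).card : ℝ) ≤ 2 * SD := by
    rw [hnb, Finset.sum_range_succ']
    simp only [Nat.add_sub_cancel, Nat.zero_sub]
    have h1 : ((DD p M 0).card : ℝ) ≤ SD := by
      rw [hSDdef]
      apply Finset.single_le_sum (f := fun c => ((DD p M c).card : ℝ))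
        (fun c _ => Nat.cast_nonneg _)
      rw [Finset.mem_range]
      unfold nb
      exact Nat.succ_pos _
    rw [← hS]
    linarith
  have hSD3 : 2 * (M : ℝ) * X * SD ≤ 5 * p := by
    rw [le_div_iff₀ (by positivity)] at hSD
    linarith
  have h8M : 8 * (M : ℝ) ≤ p := by
    have : 8 * M ≤ p := by omega
    exact_mod_cast this
  have b0 : eps0 p M ≤ 1 / X := by
    have h3 : ((nb (p / 2) M M : ℕ) : ℝ) ≤ p := by
      rw [hnb]
      have h5 : K ≤ 2 * M * K := Nat.le_mul_of_pos_left K (by omega)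
      have : K + 1 ≤ p := by omega
      exact_mod_cast this
    have h4 : 4 * (M : ℝ) + 1 ≤ p := by
      have : 4 * M + 1 ≤ p := by omega
      exact_mod_cast this
    exact est0 _ M X p _ hMR hXR hp16R h3 h4 hXpR hlog c4
  have b1 : eps1 p M G ≤ 1 / X := by
    have h2 : ∑ c ∈ range K, ((2 * G + 1 : ℕ) : ℝ) * (2 * ((2 + (DD p M c).card) /
        ((p : ℝ) - 1))) = ((2 * G + 1 : ℕ) : ℝ) * 2 / ((p : ℝ) - 1) * (2 * K + S) := by
      have : 2 * (K : ℝ) + S = ∑ c ∈ range K, (2 + ((DD p M c).card : ℝ)) := by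
        rw [Finset.sum_add_distrib, Finset.sum_const, Finset.card_range, nsmul_eq_mul, hS]; ring
      rw [this, Finset.mul_sum]
      apply Finset.sum_congr rfl
      intro c _
      ring
    unfold eps1
    rw [← hK, h2]
    have h3 : ((2 * G + 1 : ℕ) : ℝ) ≤ 3 * G := by
      have : 2 * G + 1 ≤ 3 * G := by omega
      exact_mod_cast this
    exact est1 G M X p K S SD _ hG0R hMR hXR hp16R hKp (Nat.cast_nonneg _) hS0 hSD1 hSD3 c3 h3
  have b2 : eps2 p M G ≤ 260 / X + 104 * M / p := by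
    unfold eps2
    have h3 := est2 G M X p K SD _ (del p) hG0R hMR hXR hp16R hKp h8M hXpR hSD2 hSD3 c3 c5
    rw [hnb] at h3 ⊢
    push_cast
    exact h3
  have e : (300 : ℝ) / X = 1 / X + 1 / X + 260 / X + 38 / X := by ring
  have h38 : (0 : ℝ) ≤ 38 / X := by positivity
  rw [e]
  linarith

end MP1fb.L2
end
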