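import Pool.Agent.Lib.MP_1fb68e_nt.LS.LIM
import Pool.Agent.Lib.MP_1fb68e_nt.L2.BLK2
import Pool.Agent.Lib.MP_1fb68e_nt.LS.LAW

section
/-!
MP_1fb68e_nt, two local shuffles: permutations which preserve the blocks of a sequence of cuts.
-/
set_option autoImplicit false

namespace MP1fb.L2

open Finset MP1fb.LS

/-- `τ` preserves the blocks between the cuts `s b` -/
def Pres (H : ℕ) (s : ℕ → ℕ) (τ : Equiv.Perm (Fin H)) : Prop :=
  ∀ b, ∀ i : Fin H, (τ i : ℕ) < s b ↔ (i : ℕ) < s b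

/-- length of block `b` -/
def ln (s : ℕ → ℕ) (b : ℕ) : ℕ := s (b + 1) - s b

section
variable (s : ℕ → ℕ) (hs : Monotone s) (h0 : s 0 = 0) (B H : ℕ) (hB : s B = H)

include hs in
lemma add_ln (b : ℕ) : s b + ln s b = s (b + 1) := by
  unfold ln
  have := hs (Nat.le_succ b)
  change s b ≤ s (b + 1) at this
  omega

include hs hB in
lemma plc_lt (b : Fin B) (i : Fin (ln s b)) : s b + i < H := by
  have h1 := i.2
  have h2 := add_ln s hs b
  have h3 : s (b + 1) ≤ s B := hs b.2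
  omega

/-- the place of a pair -/
def plf (x : Σ b : Fin B, Fin (ln s b)) : Fin H := ⟨s x.1 + x.2, plc_lt s hs B H hB x.1 x.2⟩

lemma plf_bij (h0 : s 0 = 0) : Function.Bijective (plf s hs B H hB) := by
  constructor
  · rintro ⟨b, i⟩ ⟨b', i'⟩ h
    have h1 : s b + i = s b' + i' := congrArg Fin.val h
    have hb := add_ln s hs b
    have hb' := add_ln s hs b'
    have hi := i.2
    have hi' := i'.2
    have hbb : b = b' := by
      rcases lt_trichotomy (b : ℕ) b' with h2 | h2 | h2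
      · have : s (b + 1) ≤ s b' := hs h2
        omega
      · exact Fin.ext h2
      · have : s (b' + 1) ≤ s b := hs h2
        omega
    subst hbb
    have : i = i' := Fin.ext (by omega)
    rw [this]
  · intro x
    have hx := x.2
    have hex : ∃ b, (x : ℕ) < s (b + 1) := by
      refine ⟨B - 1, ?_⟩
      rcases Nat.eq_zero_or_pos B with h | h
      · subst h; omega
      · rw [show B - 1 + 1 = B by omega, hB]; exact hx
    classical
    set b := Nat.find hex with hbdef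
    have hb1 : (x : ℕ) < s (b + 1) := Nat.find_spec hex
    have hb2 : s b ≤ x := by
      rcases Nat.eq_zero_or_pos b with h | h
      · rw [h, h0]; exact Nat.zero_le _
      · by_contra hcon
        push Not at hcon
        have : (x : ℕ) < s (b - 1 + 1) := by
          rw [show b - 1 + 1 = b by omega]; exact hcon
        exact Nat.find_min hex (show b - 1 < b by omega) this
    have hbB : b < B := by
      by_contra hcon
      push Not at hcon
      have : s B ≤ s b := hs hcon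
      omega
    have hln := add_ln s hs b
    refine ⟨⟨⟨b, hbB⟩, ⟨x - s b, by
      change (x : ℕ) - s b < ln s b
      omega⟩⟩, ?_⟩
    apply Fin.ext
    change s b + ((x : ℕ) - s b) = x
    omega

/-- the places as pairs (block, place in the block) -/
noncomputable def plq : (Σ b : Fin B, Fin (ln s b)) ≃ Fin H :=
  Equiv.ofBijective (plf s hs B H hB) (plf_bij s hs B H hB h0)

lemma plq_val (b : Fin B) (i : Fin (ln s b)) :
    ((plq s hs h0 B H hB ⟨b, i⟩ : Fin H) : ℕ) = s b + i := rfl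

/-- the permutation given by permutations of the blocks -/
noncomputable def glu (π : ∀ b : Fin B, Equiv.Perm (Fin (ln s b))) : Equiv.Perm (Fin H) :=
  (plq s hs h0 B H hB).symm.trans ((Equiv.sigmaCongrRight π).trans (plq s hs h0 B H hB))

lemma glu_apply (π : ∀ b : Fin B, Equiv.Perm (Fin (ln s b))) (b : Fin B) (i : Fin (ln s b)) :
    glu s hs h0 B H hB π (plq s hs h0 B H hB ⟨b, i⟩) = plq s hs h0 B H hB ⟨b, π b i⟩ := by
  unfold glu
  simp

/-- membership in the first blocks -/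
lemma plq_lt (b : Fin B) (i : Fin (ln s b)) (c : ℕ) :
    ((plq s hs h0 B H hB ⟨b, i⟩ : Fin H) : ℕ) < s c ↔ (b : ℕ) < c := by
  rw [plq_val]
  have h1 := add_ln s hs b
  have h2 := i.2
  constructor
  · intro h
    by_contra hcon
    have : s c ≤ s b := hs (by omega)
    omega
  · intro h
    have : s (b + 1) ≤ s c := hs h
    omega

lemma glu_pres (π : ∀ b : Fin B, Equiv.Perm (Fin (ln s b))) :
    Pres H s (glu s hs h0 B H hB π) := by
  intro c x
  obtain ⟨⟨b, i⟩, rfl⟩ := (plq s hs h0 B H hB).surjective x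
  rw [glu_apply, plq_lt, plq_lt]

lemma glu_injective : Function.Injective (glu s hs h0 B H hB) := by
  intro π π' h
  funext b
  apply Equiv.ext
  intro i
  have h1 := glu_apply s hs h0 B H hB π b i
  rw [h, glu_apply] at h1
  have h2 := (plq s hs h0 B H hB).injective h1
  have h3 := eq_of_heq (Sigma.mk.inj h2).2
  exact h3.symm

lemma pres_block (τ : Equiv.Perm (Fin H)) (hτ : Pres H s τ) (b : ℕ) (x : Fin H)
    (h1 : s b ≤ x) (h2 : (x : ℕ) < s (b + 1)) : s b ≤ τ x ∧ (τ x : ℕ) < s (b + 1) := by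
  have e1 := hτ b x
  have e2 := hτ (b + 1) x
  constructor
  · by_contra hcon
    have := e1.mp (by omega)
    omega
  · exact e2.mpr h2

lemma glu_surjective (τ : Equiv.Perm (Fin H)) (hτ : Pres H s τ) :
    ∃ π, glu s hs h0 B H hB π = τ := by
  have hin : ∀ (b : Fin B) (i : Fin (ln s b)),
      s b ≤ (τ (plq s hs h0 B H hB ⟨b, i⟩) : ℕ) ∧
      (τ (plq s hs h0 B H hB ⟨b, i⟩) : ℕ) < s (b + 1) := by
    intro b i
    have h1 := add_ln s hs b
    have h2 := i.2
    apply pres_block s H τ hτ b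
    · rw [plq_val]; omega
    · rw [plq_val]; omega
  let f : ∀ b : Fin B, Fin (ln s b) → Fin (ln s b) := fun b i =>
    ⟨(τ (plq s hs h0 B H hB ⟨b, i⟩) : ℕ) - s b, by
      have := hin b i
      have h2 := add_ln s hs b
      omega⟩
  have hf : ∀ b, Function.Injective (f b) := by
    intro b i j hij
    have h1 : (τ (plq s hs h0 B H hB ⟨b, i⟩) : ℕ) - s b =
        (τ (plq s hs h0 B H hB ⟨b, j⟩) : ℕ) - s b := congrArg Fin.val hij
    have h2 := hin b i
    have h3 := hin b j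
    have h4 : τ (plq s hs h0 B H hB ⟨b, i⟩) = τ (plq s hs h0 B H hB ⟨b, j⟩) :=
      Fin.ext (by omega)
    have h5 := (plq s hs h0 B H hB).injective (τ.injective h4)
    exact eq_of_heq (Sigma.mk.inj h5).2
  refine ⟨fun b => Equiv.ofBijective (f b) (Finite.injective_iff_bijective.mp (hf b)), ?_⟩
  apply Equiv.ext
  intro x
  obtain ⟨⟨b, i⟩, rfl⟩ := (plq s hs h0 B H hB).surjective x
  rw [glu_apply]
  apply Fin.ext
  rw [plq_val]
  change s b + ((τ (plq s hs h0 B H hB ⟨b, i⟩) : ℕ) - s b) = _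
  have := hin b i
  omega

/-- counting over the permutations which preserve the blocks -/
theorem num_glu (R : Equiv.Perm (Fin H) → Prop) :
    num (fun τ => Pres H s τ ∧ R τ) = num (fun π => R (glu s hs h0 B H hB π)) := by
  classical
  rw [num_eq, num_eq]
  symm
  apply Finset.card_bij (fun π _ => glu s hs h0 B H hB π)
  · intro π hπ
    rw [Finset.mem_filter] at hπ ⊢
    exact ⟨mem_univ _, glu_pres s hs h0 B H hB π, hπ.2⟩
  · intro π _ π' _ h
    exact glu_injective s hs h0 B H hB h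
  · intro τ hτ
    rw [Finset.mem_filter] at hτ
    obtain ⟨π, rfl⟩ := glu_surjective s hs h0 B H hB τ hτ.2.1
    exact ⟨π, Finset.mem_filter.mpr ⟨mem_univ _, hτ.2.2⟩, rfl⟩

include hs h0 hB in
/-- number of the permutations which preserve the blocks -/
theorem num_pres :
    num (fun τ : Equiv.Perm (Fin H) => Pres H s τ) = ∏ b : Fin B, (ln s b).factorial := by
  have h1 : num (fun τ : Equiv.Perm (Fin H) => Pres H s τ) =
      num (fun τ : Equiv.Perm (Fin H) => Pres H s τ ∧ True) := by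
    congr 1
    funext τ
    simp
  rw [h1, num_glu s hs h0 B H hB, num_true, Fintype.card_pi]
  apply Finset.prod_congr rfl
  intro b _
  rw [Fintype.card_perm, Fintype.card_fin]

end

/-! the group structure and the permutations of one block -/

lemma pres_one (H : ℕ) (s : ℕ → ℕ) : Pres H s 1 := fun _ _ => Iff.rfl

lemma pres_mul (H : ℕ) (s : ℕ → ℕ) (τ σ : Equiv.Perm (Fin H)) (h1 : Pres H s τ)
    (h2 : Pres H s σ) : Pres H s (τ * σ) := by
  intro b i
  rw [Equiv.Perm.mul_apply, h1 b (σ i), h2 b i]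

lemma pres_inv (H : ℕ) (s : ℕ → ℕ) (τ : Equiv.Perm (Fin H)) (h1 : Pres H s τ) :
    Pres H s τ⁻¹ := by
  intro b i
  have := h1 b (τ⁻¹ i)
  have e : τ (τ⁻¹ i) = i := Equiv.apply_symm_apply τ i
  rw [e] at this
  exact this.symm

/-- a permutation of the block `[a, a + ℓ)` -/
def ext (H a ℓ : ℕ) (hal : a + ℓ ≤ H) (σ : Equiv.Perm (Fin ℓ)) : Equiv.Perm (Fin H) where
  toFun x := if h : a ≤ x ∧ (x : ℕ) < a + ℓ then
    ⟨a + σ ⟨x - a, by omega⟩, by
      have := (σ ⟨x - a, by omega⟩).2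
      omega⟩ else x
  invFun x := if h : a ≤ x ∧ (x : ℕ) < a + ℓ then
    ⟨a + σ.symm ⟨x - a, by omega⟩, by
      have := (σ.symm ⟨x - a, by omega⟩).2
      omega⟩ else x
  left_inv x := by
    by_cases h : a ≤ x ∧ (x : ℕ) < a + ℓ
    · have h1 := (σ ⟨x - a, by omega⟩).2
      simp only [dif_pos h]
      rw [dif_pos ⟨by simp, by simp⟩]
      apply Fin.ext
      simp only [Nat.add_sub_cancel_left, Fin.eta, Equiv.symm_apply_apply]
      omega
    · simp only [dif_neg h]
  right_inv x := by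
    by_cases h : a ≤ x ∧ (x : ℕ) < a + ℓ
    · have h1 := (σ.symm ⟨x - a, by omega⟩).2
      simp only [dif_pos h]
      rw [dif_pos ⟨by simp, by simp⟩]
      apply Fin.ext
      simp only [Nat.add_sub_cancel_left, Fin.eta, Equiv.apply_symm_apply]
      omega
    · simp only [dif_neg h]

lemma ext_in (H a ℓ : ℕ) (hal : a + ℓ ≤ H) (σ : Equiv.Perm (Fin ℓ)) (i : Fin ℓ) :
    ext H a ℓ hal σ ⟨a + i, by omega⟩ = ⟨a + σ i, by omega⟩ := by
  change (if h : a ≤ a + (i : ℕ) ∧ a + (i : ℕ) < a + ℓ then _ else _) = _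
  rw [dif_pos ⟨by omega, by omega⟩]
  apply Fin.ext
  simp only [Nat.add_sub_cancel_left, Fin.eta]

lemma ext_out (H a ℓ : ℕ) (hal : a + ℓ ≤ H) (σ : Equiv.Perm (Fin ℓ)) (x : Fin H)
    (hx : ¬ (a ≤ x ∧ (x : ℕ) < a + ℓ)) : ext H a ℓ hal σ x = x := by
  change (if h : a ≤ (x : ℕ) ∧ (x : ℕ) < a + ℓ then _ else _) = _
  rw [dif_neg hx]

lemma ext_pres (H : ℕ) (s : ℕ → ℕ) (a ℓ : ℕ) (hal : a + ℓ ≤ H) (σ : Equiv.Perm (Fin ℓ))
    (hcut : ∀ b, s b ≤ a ∨ a + ℓ ≤ s b) : Pres H s (ext H a ℓ hal σ) := by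
  intro b x
  by_cases h : a ≤ x ∧ (x : ℕ) < a + ℓ
  · have hx : x = ⟨a + (⟨x - a, by omega⟩ : Fin ℓ), by simp only; omega⟩ :=
      Fin.ext (by simp only; omega)
    rw [hx, ext_in]
    have h1 := (σ ⟨x - a, by omega⟩).2
    simp only
    rcases hcut b with h2 | h2
    · constructor <;> intro h3 <;> omega
    · constructor <;> intro h3 <;> omega
  · rw [ext_out H a ℓ hal σ x h]

/-- **averaging** over the permutations of one block -/
theorem avg (H : ℕ) (s : ℕ → ℕ) (a ℓ : ℕ) (hal : a + ℓ ≤ H)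
    (hcut : ∀ b, s b ≤ a ∨ a + ℓ ≤ s b) (R : Equiv.Perm (Fin H) → Prop) (q : ℝ)
    (h : ∀ τ, Pres H s τ → (num (fun σ : Equiv.Perm (Fin ℓ) => R (τ * ext H a ℓ hal σ)) : ℝ) ≤
      q * ℓ.factorial) :
    (num (fun τ => Pres H s τ ∧ R τ) : ℝ) ≤ q * num (Pres H s) := by
  classical
  have hfac : (0 : ℝ) < ℓ.factorial := by exact_mod_cast Nat.factorial_pos ℓ
  -- for fixed `σ`
  have h1 : ∀ σ : Equiv.Perm (Fin ℓ), num (fun τ => Pres H s τ ∧ R (τ * ext H a ℓ hal σ)) =
      num (fun τ => Pres H s τ ∧ R τ) := by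
    intro σ
    have hp := ext_pres H s a ℓ hal σ hcut
    rw [num_eq, num_eq]
    apply Finset.card_bij (fun τ _ => τ * ext H a ℓ hal σ)
    · intro τ hτ
      rw [Finset.mem_filter] at hτ ⊢
      exact ⟨mem_univ _, pres_mul H s _ _ hτ.2.1 hp, hτ.2.2⟩
    · intro τ _ τ' _ h
      exact mul_right_cancel h
    · intro τ hτ
      rw [Finset.mem_filter] at hτ
      refine ⟨τ * (ext H a ℓ hal σ)⁻¹, ?_, by rw [inv_mul_cancel_right]⟩
      rw [Finset.mem_filter, inv_mul_cancel_right]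
      exact ⟨mem_univ _, pres_mul H s _ _ hτ.2.1 (pres_inv H s _ hp), hτ.2.2⟩
  have h2 : ∑ σ : Equiv.Perm (Fin ℓ), num (fun τ => Pres H s τ ∧ R (τ * ext H a ℓ hal σ)) =
      ℓ.factorial * num (fun τ => Pres H s τ ∧ R τ) := by
    rw [Finset.sum_congr rfl (fun σ _ => h1 σ), Finset.sum_const, Finset.card_univ,
      Fintype.card_perm, Fintype.card_fin, smul_eq_mul]
  have h3 : ∑ σ : Equiv.Perm (Fin ℓ), num (fun τ => Pres H s τ ∧ R (τ * ext H a ℓ hal σ)) =
      ∑ τ ∈ univ.filter (fun τ => Pres H s τ),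
        num (fun σ : Equiv.Perm (Fin ℓ) => R (τ * ext H a ℓ hal σ)) := by
    have h4 : ∀ σ : Equiv.Perm (Fin ℓ), num (fun τ => Pres H s τ ∧ R (τ * ext H a ℓ hal σ)) =
        ∑ τ ∈ univ.filter (fun τ => Pres H s τ), ind (R (τ * ext H a ℓ hal σ)) := by
      intro σ
      rw [num_eq, sum_ind, Finset.filter_filter]
    rw [Finset.sum_congr rfl (fun σ _ => h4 σ), Finset.sum_comm]
    apply Finset.sum_congr rfl
    intro τ _
    rw [num_sum]
  have h5 : (ℓ.factorial : ℝ) * (num (fun τ => Pres H s τ ∧ R τ) : ℝ) ≤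
      ∑ _τ ∈ univ.filter (fun τ => Pres H s τ), (q * ℓ.factorial) := by
    have h6 : (ℓ.factorial : ℝ) * (num (fun τ => Pres H s τ ∧ R τ) : ℝ) =
        ∑ τ ∈ univ.filter (fun τ => Pres H s τ),
          (num (fun σ : Equiv.Perm (Fin ℓ) => R (τ * ext H a ℓ hal σ)) : ℝ) := by
      rw [h2] at h3
      exact_mod_cast h3
    rw [h6]
    apply Finset.sum_le_sum
    intro τ hτ
    rw [Finset.mem_filter] at hτ
    exact h τ hτ.2
  rw [Finset.sum_const, nsmul_eq_mul] at h5
  have h7 : ((univ.filter (fun τ => Pres H s τ)).card : ℝ) = num (Pres H s) := by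
    rw [num_eq]
  rw [h7] at h5
  have h8 : (num (fun τ => Pres H s τ ∧ R τ) : ℝ) * ℓ.factorial ≤
      (q * num (Pres H s)) * ℓ.factorial := by linarith
  exact le_of_mul_le_mul_right h8 hfac

end MP1fb.L2
end

section
/-!
MP_1fb68e_nt, two local shuffles: partial products.
-/
set_option autoImplicit false

namespace MP1fb.L2

open Finset MP1fb.LS

variable {p : ℕ}

/-- the number at place `i`, from `0` -/
def val (p : ℕ) (τ : Equiv.Perm (Fin (p / 2))) (i : Fin (p / 2)) : ZMod p :=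
  ((τ i : ℕ) : ZMod p) + 1

lemma part_eq (τ : Equiv.Perm (Fin (p / 2))) (n : ℕ) (hn : n ≤ p / 2) :
    part p τ n = ∏ x ∈ (univ : Finset (Fin (p / 2))).filter (fun x : Fin (p / 2) => (x : ℕ) < n),
      val p τ x := by
  unfold part
  rw [prod_range_eq_fin (p / 2) n hn]
  apply Finset.prod_congr rfl
  intro x _
  rw [factor_low τ x x.2]
  rfl

lemma part_mul (τ ρ : Equiv.Perm (Fin (p / 2))) (n : ℕ) (hn : n ≤ p / 2) :
    part p (τ * ρ) n = ∏ y ∈ (univ : Finset (Fin (p / 2))).filter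
      (fun y : Fin (p / 2) => ((ρ⁻¹ y : Fin (p / 2)) : ℕ) < n), val p τ y := by
  rw [part_eq _ n hn]
  apply Finset.prod_equiv ρ
  · intro x
    rw [Finset.mem_filter, Finset.mem_filter]
    have e : ρ⁻¹ (ρ x) = x := Equiv.symm_apply_apply ρ x
    rw [e]
    simp
  · intro x _
    rfl

/-- at a cut -/
lemma part_cut (τ ρ : Equiv.Perm (Fin (p / 2))) (c : ℕ) (hc : c ≤ p / 2)
    (hρ : ∀ i : Fin (p / 2), (ρ i : ℕ) < c ↔ (i : ℕ) < c) :
    part p (τ * ρ) c = part p τ c := by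
  rw [part_mul τ ρ c hc, part_eq τ c hc]
  apply Finset.prod_congr _ (fun _ _ => rfl)
  ext y
  rw [Finset.mem_filter, Finset.mem_filter]
  have h1 := hρ (ρ⁻¹ y)
  have e : ρ (ρ⁻¹ y) = y := Equiv.apply_symm_apply ρ y
  rw [e] at h1
  rw [h1]

lemma val_ne_zero [hp : Fact p.Prime] (τ : Equiv.Perm (Fin (p / 2))) (i : Fin (p / 2)) :
    val p τ i ≠ 0 := by
  unfold val
  have h1 : (((τ i : ℕ) + 1 : ℕ) : ZMod p) ≠ 0 := cast_ne _ (by omega) (by
    have := (τ i).2
    omega)
  push_cast at h1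
  exact h1

lemma val_injective [hp : Fact p.Prime] (τ : Equiv.Perm (Fin (p / 2))) :
    Function.Injective (val p τ) := by
  intro i j hij
  unfold val at hij
  have h1 : ((τ i : ℕ) : ZMod p) = ((τ j : ℕ) : ZMod p) := add_right_cancel hij
  have h2 := (τ i).2
  have h3 := (τ j).2
  have h4 := Nat.ModEq.eq_of_lt_of_lt ((ZMod.natCast_eq_natCast_iff _ _ p).mp h1) (by omega)
    (by omega)
  exact τ.injective (Fin.ext h4)

/-- values on a block -/
def vblk (p : ℕ) (τ : Equiv.Perm (Fin (p / 2))) (a ℓ : ℕ) (hal : a + ℓ ≤ p / 2) (i : Fin ℓ) :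
    ZMod p := val p τ ⟨a + i, by omega⟩

lemma vblk_ne_zero [hp : Fact p.Prime] (τ : Equiv.Perm (Fin (p / 2))) (a ℓ : ℕ)
    (hal : a + ℓ ≤ p / 2) (i : Fin ℓ) : vblk p τ a ℓ hal i ≠ 0 := val_ne_zero τ _

lemma vblk_injective [hp : Fact p.Prime] (τ : Equiv.Perm (Fin (p / 2))) (a ℓ : ℕ)
    (hal : a + ℓ ≤ p / 2) : Function.Injective (vblk p τ a ℓ hal) := by
  intro i j hij
  have := val_injective τ hij
  have h1 := congrArg Fin.val this
  simp only at h1
  exact Fin.ext (by omega)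

/-- places of the block which come before `n` -/
def jset (p : ℕ) (ρ : Equiv.Perm (Fin (p / 2))) (a ℓ : ℕ) (hal : a + ℓ ≤ p / 2) (n : ℕ) :
    Finset (Fin ℓ) :=
  univ.filter (fun i : Fin ℓ => ((ρ⁻¹ ⟨a + i, by omega⟩ : Fin (p / 2)) : ℕ) < n)

/-- effect of a permutation of one block -/
lemma part_ext (τ ρ : Equiv.Perm (Fin (p / 2))) (a ℓ : ℕ) (hal : a + ℓ ≤ p / 2)
    (σ : Equiv.Perm (Fin ℓ)) (n : ℕ) (hn : n ≤ p / 2) :
    part p (τ * ext (p / 2) a ℓ hal σ * ρ) n =
      (∏ y ∈ (univ : Finset (Fin (p / 2))).filter (fun y : Fin (p / 2) =>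
        ((ρ⁻¹ y : Fin (p / 2)) : ℕ) < n ∧ ¬ (a ≤ y ∧ (y : ℕ) < a + ℓ)), val p τ y) *
      ∏ i ∈ jset p ρ a ℓ hal n, vblk p τ a ℓ hal (σ i) := by
  rw [part_mul _ ρ n hn]
  have hv : ∀ y, val p (τ * ext (p / 2) a ℓ hal σ) y = val p τ (ext (p / 2) a ℓ hal σ y) :=
    fun y => rfl
  rw [Finset.prod_congr rfl (fun y _ => hv y)]
  rw [← Finset.prod_filter_mul_prod_filter_not _ (fun y : Fin (p / 2) => a ≤ y ∧ (y : ℕ) < a + ℓ),
    mul_comm]
  congr 1
  · rw [Finset.filter_filter]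
    apply Finset.prod_congr rfl
    intro y hy
    rw [Finset.mem_filter] at hy
    rw [ext_out (p / 2) a ℓ hal σ y hy.2.2]
  · rw [Finset.filter_filter]
    symm
    apply Finset.prod_bij (fun (i : Fin ℓ) _ => (⟨a + i, by omega⟩ : Fin (p / 2)))
    · intro i hi
      unfold jset at hi
      rw [Finset.mem_filter] at hi ⊢
      refine ⟨mem_univ _, hi.2, ?_, ?_⟩
      · simp
      · simp
    · intro i _ j _ h
      have h1 := congrArg Fin.val h
      simp only at h1
      exact Fin.ext (by omega)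
    · intro y hy
      rw [Finset.mem_filter] at hy
      refine ⟨⟨y - a, by omega⟩, ?_, ?_⟩
      · unfold jset
        rw [Finset.mem_filter]
        refine ⟨mem_univ _, ?_⟩
        have e : (⟨a + ((y : ℕ) - a), by omega⟩ : Fin (p / 2)) = y := Fin.ext (by simp only; omega)
        simp only [e]
        exact hy.2.1
      · exact Fin.ext (by simp only; omega)
    · intro i _
      rw [ext_in]
      rfl

/-- **one place, averaging over the permutations of one block** -/
theorem place_avg [hp : Fact p.Prime] (τ ρ : Equiv.Perm (Fin (p / 2))) (a ℓ : ℕ)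
    (hal : a + ℓ ≤ p / 2) (n : ℕ) (hn : n ≤ p / 2) (Q : ℝ)
    (hQ : ∀ c : ZMod p, c ≠ 0 →
      (oneCount (vblk p τ a ℓ hal) (jset p ρ a ℓ hal n) c : ℝ) ≤ Q) :
    (num (fun σ : Equiv.Perm (Fin ℓ) =>
      part p (τ * ext (p / 2) a ℓ hal σ * ρ) n ∈ targ p n) : ℝ) ≤ 2 * Q := by
  classical
  set A := ∏ y ∈ (univ : Finset (Fin (p / 2))).filter (fun y : Fin (p / 2) =>
        ((ρ⁻¹ y : Fin (p / 2)) : ℕ) < n ∧ ¬ (a ≤ y ∧ (y : ℕ) < a + ℓ)), val p τ y with hA
  have hA0 : A ≠ 0 := Finset.prod_ne_zero_iff.mpr (fun y _ => val_ne_zero τ y)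
  set C := (targ p n).image (fun t => t * A⁻¹) with hC
  have hCcard : C.card ≤ 2 := Finset.card_image_le.trans (card_targ_le p n)
  have hC0 : ∀ c ∈ C, c ≠ 0 := by
    intro c hc
    rw [hC, Finset.mem_image] at hc
    obtain ⟨t, ht, rfl⟩ := hc
    have ht0 : t ≠ 0 := fun h => zero_notMem_targ p n (h ▸ ht)
    exact mul_ne_zero ht0 (inv_ne_zero hA0)
  have h1 : num (fun σ : Equiv.Perm (Fin ℓ) =>
      part p (τ * ext (p / 2) a ℓ hal σ * ρ) n ∈ targ p n) ≤
      ∑ c ∈ C, oneCount (vblk p τ a ℓ hal) (jset p ρ a ℓ hal n) c := by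
    rw [num_eq]
    unfold oneCount
    refine le_trans (Finset.card_le_card ?_) (Finset.card_biUnion_le (s := C))
    intro σ hσ
    rw [Finset.mem_filter, part_ext τ ρ a ℓ hal σ n hn, ← hA] at hσ
    rw [Finset.mem_biUnion]
    refine ⟨∏ i ∈ jset p ρ a ℓ hal n, vblk p τ a ℓ hal (σ i), ?_, ?_⟩
    · rw [hC, Finset.mem_image]
      refine ⟨_, hσ.2, ?_⟩
      field_simp
    · rw [Finset.mem_filter]
      exact ⟨mem_univ _, rfl⟩
  have h1R : (num (fun σ : Equiv.Perm (Fin ℓ) =>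
      part p (τ * ext (p / 2) a ℓ hal σ * ρ) n ∈ targ p n) : ℝ) ≤
      ∑ c ∈ C, (oneCount (vblk p τ a ℓ hal) (jset p ρ a ℓ hal n) c : ℝ) := by exact_mod_cast h1
  refine h1R.trans ?_
  refine (Finset.sum_le_sum (fun c hc => hQ c (hC0 c hc))).trans ?_
  rw [Finset.sum_const, nsmul_eq_mul]
  have hQ0 : 0 ≤ Q := le_trans (by positivity) (hQ 1 one_ne_zero)
  have : (C.card : ℝ) ≤ 2 := by exact_mod_cast hCcard
  gcongr

/-! sizes of the sets of places -/

lemma jset_mono (ρ : Equiv.Perm (Fin (p / 2))) (a ℓ : ℕ) (hal : a + ℓ ≤ p / 2) (n m : ℕ)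
    (h : n ≤ m) : (jset p ρ a ℓ hal n).card ≤ (jset p ρ a ℓ hal m).card := by
  apply Finset.card_le_card
  intro i hi
  unfold jset at hi ⊢
  rw [Finset.mem_filter] at hi ⊢
  exact ⟨hi.1, by omega⟩

lemma jset_add (ρ : Equiv.Perm (Fin (p / 2))) (a ℓ : ℕ) (hal : a + ℓ ≤ p / 2) (n k : ℕ) :
    (jset p ρ a ℓ hal (n + k)).card ≤ (jset p ρ a ℓ hal n).card + k := by
  classical
  have h1 : (jset p ρ a ℓ hal (n + k) \ jset p ρ a ℓ hal n).card ≤ k := by
    calc _ ≤ (Ico n (n + k)).card := by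
          apply Finset.card_le_card_of_injOn
            (fun i : Fin ℓ => ((ρ⁻¹ ⟨a + i, by omega⟩ : Fin (p / 2)) : ℕ))
          · intro i hi
            rw [Finset.mem_coe, Finset.mem_sdiff] at hi
            unfold jset at hi
            rw [Finset.mem_filter, Finset.mem_filter] at hi
            rw [Finset.mem_coe, Finset.mem_Ico]
            beta_reduce
            have h2 : ¬ ((ρ⁻¹ ⟨a + i, by omega⟩ : Fin (p / 2)) : ℕ) < n :=
              fun h => hi.2 ⟨mem_univ _, h⟩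
            exact ⟨by omega, hi.1.2⟩
          · intro i _ j _ h
            have h2 := ρ⁻¹.injective (Fin.ext h)
            have h3 := congrArg Fin.val h2
            simp only at h3
            exact Fin.ext (by omega)
      _ = k := by rw [Nat.card_Ico]; omega
  have h2 := Finset.card_le_card_sdiff_add_card (s := jset p ρ a ℓ hal (n + k))
    (t := jset p ρ a ℓ hal n)
  omega

lemma jset_cut (ρ : Equiv.Perm (Fin (p / 2))) (a ℓ : ℕ) (hal : a + ℓ ≤ p / 2) (c : ℕ)
    (hρ : ∀ i : Fin (p / 2), (ρ i : ℕ) < c ↔ (i : ℕ) < c) (hac : a ≤ c) (hc : c ≤ a + ℓ) :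
    (jset p ρ a ℓ hal c).card = c - a := by
  have h1 : jset p ρ a ℓ hal c = univ.filter (fun i : Fin ℓ => (i : ℕ) < c - a) := by
    unfold jset
    ext i
    rw [Finset.mem_filter, Finset.mem_filter]
    have h2 := hρ (ρ⁻¹ ⟨a + i, by omega⟩)
    have e : ρ (ρ⁻¹ (⟨a + i, by omega⟩ : Fin (p / 2))) = ⟨a + i, by omega⟩ :=
      Equiv.apply_symm_apply ρ _
    rw [e] at h2
    rw [← h2]
    simp only
    constructor
    · rintro ⟨h3, h4⟩; exact ⟨h3, by omega⟩
    · rintro ⟨h3, h4⟩; exact ⟨h3, by omega⟩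
  rw [h1, Fin.card_filter_val_lt]
  omega

/-- the size near a cut -/
lemma jset_near (ρ : Equiv.Perm (Fin (p / 2))) (a ℓ : ℕ) (hal : a + ℓ ≤ p / 2) (c : ℕ)
    (hρ : ∀ i : Fin (p / 2), (ρ i : ℕ) < c ↔ (i : ℕ) < c) (hac : a ≤ c) (hc : c ≤ a + ℓ)
    (n G : ℕ) (h1 : c ≤ n + G) (h2 : n ≤ c + G) :
    c - a ≤ (jset p ρ a ℓ hal n).card + G ∧ (jset p ρ a ℓ hal n).card ≤ c - a + G := by
  have h0 := jset_cut ρ a ℓ hal c hρ hac hc
  constructor
  · rcases le_total c n with h | h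
    · have := jset_mono ρ a ℓ hal c n h
      omega
    · have := jset_add ρ a ℓ hal n (c - n)
      rw [show n + (c - n) = c by omega] at this
      omega
  · rcases le_total n c with h | h
    · have := jset_mono ρ a ℓ hal n c h
      omega
    · have := jset_add ρ a ℓ hal c (n - c)
      rw [show c + (n - c) = n by omega] at this
      omega

/-- for `ρ = 1` the size is exact -/
lemma jset_one (a ℓ : ℕ) (hal : a + ℓ ≤ p / 2) (n : ℕ) (h1 : a ≤ n) (h2 : n ≤ a + ℓ) :
    (jset p 1 a ℓ hal n).card = n - a :=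
  jset_cut 1 a ℓ hal n (fun _ => Iff.rfl) h1 h2

/-! the interior of the blocks -/

section
variable (s : ℕ → ℕ) (hs : Monotone s) (h0 : s 0 = 0) (B : ℕ) (hB : s B = p / 2)

include hs hB in
lemma blk_le (b : ℕ) (hb : b < B) : s b + ln s b ≤ p / 2 := by
  rw [add_ln s hs, ← hB]
  exact hs hb

/-- a product inside a block -/
lemma part_glu (τ : Equiv.Perm (Fin (p / 2)))
    (π : ∀ b : Fin B, Equiv.Perm (Fin (ln s b))) (b : Fin B) (j : ℕ) (hj : j ≤ ln s b) :
    part p (τ * glu s hs h0 B (p / 2) hB π) (s b + j) =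
      part p τ (s b) * pre (vblk p τ (s b) (ln s b) (blk_le s hs B hB b b.2)) (π b) j := by
  have hle := blk_le s hs B hB b b.2
  have hpres := glu_pres s hs h0 B (p / 2) hB π
  rw [← part_cut τ _ (s b) (by omega) (hpres b), part_eq _ _ (by omega), part_eq _ _ (by omega)]
  rw [← Finset.prod_filter_mul_prod_filter_not
    (univ.filter (fun x : Fin (p / 2) => (x : ℕ) < s b + j)) (fun x : Fin (p / 2) => (x : ℕ) < s b)]
  congr 1
  · rw [Finset.filter_filter]
    apply Finset.prod_congr _ (fun _ _ => rfl)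
    ext x
    rw [Finset.mem_filter, Finset.mem_filter]
    constructor
    · rintro ⟨h1, h2, h3⟩; exact ⟨h1, h3⟩
    · rintro ⟨h1, h3⟩; exact ⟨h1, by omega, h3⟩
  · rw [Finset.filter_filter]
    unfold pre fst
    symm
    apply Finset.prod_bij (fun (i : Fin (ln s b)) _ => plq s hs h0 B (p / 2) hB ⟨b, i⟩)
    · intro i hi
      rw [Finset.mem_filter] at hi ⊢
      refine ⟨mem_univ _, ?_, ?_⟩
      · rw [plq_val]; omega
      · rw [plq_val]; omega
    · intro i _ i' _ h
      have h5 := (plq s hs h0 B (p / 2) hB).injective h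
      exact eq_of_heq (Sigma.mk.inj h5).2
    · intro x hx
      rw [Finset.mem_filter] at hx
      refine ⟨⟨x - s b, by omega⟩, ?_, ?_⟩
      · rw [Finset.mem_filter]
        exact ⟨mem_univ _, by simp only; omega⟩
      · apply Fin.ext
        rw [plq_val]
        simp only
        omega
    · intro i _
      change val p τ _ = val p τ (glu s hs h0 B (p / 2) hB π (plq s hs h0 B (p / 2) hB ⟨b, i⟩))
      rw [glu_apply]
      rfl

variable [hp : Fact p.Prime]

/-- excluded values inside a block -/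
def cblk (p : ℕ) (τ : Equiv.Perm (Fin (p / 2))) (a j : ℕ) : Finset (ZMod p) :=
  (targ p (a + j)).image (fun t => t * (part p τ a)⁻¹)

lemma part_ne_zero (τ : Equiv.Perm (Fin (p / 2))) (a : ℕ) (ha : a ≤ p / 2) : part p τ a ≠ 0 := by
  rw [part_eq τ a ha]
  exact Finset.prod_ne_zero_iff.mpr (fun y _ => val_ne_zero τ y)

lemma mem_cblk (τ : Equiv.Perm (Fin (p / 2))) (a j : ℕ) (ha : a ≤ p / 2) (x : ZMod p) :
    x ∈ cblk p τ a j ↔ part p τ a * x ∈ targ p (a + j) := by
  have h := part_ne_zero τ a ha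
  unfold cblk
  rw [Finset.mem_image]
  constructor
  · rintro ⟨t, ht, rfl⟩
    rwa [mul_comm t, mul_inv_cancel_left₀ h]
  · intro hx
    exact ⟨_, hx, by field_simp⟩

lemma card_cblk (τ : Equiv.Perm (Fin (p / 2))) (a j : ℕ) (ha : a ≤ p / 2) :
    (cblk p τ a j).card = (targ p (a + j)).card := by
  unfold cblk
  apply Finset.card_image_of_injective
  intro x y hxy
  have h := part_ne_zero τ a ha
  simp only at hxy
  exact mul_right_cancel₀ (inv_ne_zero h) hxy

lemma zero_notMem_cblk (τ : Equiv.Perm (Fin (p / 2))) (a j : ℕ) (ha : a ≤ p / 2) :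
    (0 : ZMod p) ∉ cblk p τ a j := by
  rw [mem_cblk τ a j ha, mul_zero]
  exact zero_notMem_targ p _

/-- probability of a hit in the interior of a block, `τ` being given -/
noncomputable def hitp (p : ℕ) (τ : Equiv.Perm (Fin (p / 2))) (a ℓ G : ℕ)
    (hal : a + ℓ ≤ p / 2) : ℝ :=
  (num (fun π : Equiv.Perm (Fin ℓ) => ∃ j ∈ Icc G (ℓ - G),
    pre (vblk p τ a ℓ hal) π j ∈ cblk p τ a j) : ℝ) / ℓ.factorial

omit hp in
lemma hitp_mem (τ : Equiv.Perm (Fin (p / 2))) (a ℓ G : ℕ) (hal : a + ℓ ≤ p / 2) :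
    0 ≤ hitp p τ a ℓ G hal ∧ hitp p τ a ℓ G hal ≤ 1 := by
  unfold hitp
  constructor
  · positivity
  · have hfac : (0 : ℝ) < (ℓ.factorial : ℝ) := by positivity
    rw [div_le_one hfac]
    have h1 := num_le_card (fun π : Equiv.Perm (Fin ℓ) => ∃ j ∈ Icc G (ℓ - G),
      pre (vblk p τ a ℓ hal) π j ∈ cblk p τ a j)
    rw [Fintype.card_perm, Fintype.card_fin] at h1
    exact_mod_cast h1

/-- no hit in the interior of the blocks -/
def NoInt (p : ℕ) (s : ℕ → ℕ) (B G : ℕ) (τ : Equiv.Perm (Fin (p / 2))) : Prop :=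
  ∀ b, b < B → ∀ j ∈ Icc G (ln s b - G), part p τ (s b + j) ∉ targ p (s b + j)

include h0 in
/-- **the interior as a product** -/
theorem int_eq (τ : Equiv.Perm (Fin (p / 2))) (G : ℕ) :
    (num (fun ρ => Pres (p / 2) s ρ ∧ NoInt p s B G (τ * ρ)) : ℝ) =
      (num (Pres (p / 2) s) : ℝ) *
        ∏ b : Fin B, (1 - hitp p τ (s b) (ln s b) G (blk_le s hs B hB b b.2)) := by
  have hnum : num (fun ρ => Pres (p / 2) s ρ ∧ NoInt p s B G (τ * ρ)) =
      ∏ b : Fin B, num (fun π : Equiv.Perm (Fin (ln s b)) =>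
        ¬ ∃ j ∈ Icc G (ln s b - G), pre (vblk p τ (s b) (ln s b) (blk_le s hs B hB b b.2)) π j ∈
          cblk p τ (s b) j) := by
    rw [num_glu s hs h0 B (p / 2) hB]
    rw [← num_pi (fun (b : Fin B) (π : Equiv.Perm (Fin (ln s b))) =>
        ¬ ∃ j ∈ Icc G (ln s b - G), pre (vblk p τ (s b) (ln s b) (blk_le s hs B hB b b.2)) π j ∈
          cblk p τ (s b) j)]
    congr 1
    funext π
    apply propext
    unfold NoInt
    constructor
    · rintro h b ⟨j, hj, hmem⟩
      have hle := blk_le s hs B hB b b.2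
      have hj2 := Finset.mem_Icc.mp hj
      rw [mem_cblk τ _ _ (by omega), ← part_glu s hs h0 B hB τ π b j (by omega)] at hmem
      exact h b b.2 j hj hmem
    · intro h b hb j hj hmem
      have hle := blk_le s hs B hB b hb
      have hj2 := Finset.mem_Icc.mp hj
      apply h ⟨b, hb⟩
      refine ⟨j, hj, ?_⟩
      rw [mem_cblk τ (s b) j (by omega), ← part_glu s hs h0 B hB τ π ⟨b, hb⟩ j (by
        change j ≤ ln s b
        omega)]
      exact hmem
  rw [hnum, num_pres s hs h0 B (p / 2) hB]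
  push_cast
  rw [← Finset.prod_mul_distrib]
  apply Finset.prod_congr rfl
  intro b _
  have hfac : ((ln s b).factorial : ℝ) ≠ 0 := by positivity
  rw [num_not, Fintype.card_perm, Fintype.card_fin]
  unfold hitp
  field_simp

end

end MP1fb.L2
end
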