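import Pool.Agent.Lib.MP_1fb68e_nt.L2.AS2

/-!
MP_1fb68e_nt, two local shuffles: the theorem.
-/

set_option autoImplicit false

namespace MP1fb.L2

open Finset Filter Topology MeasureTheory ProbabilityTheory MP1fb.LS

/-- Independent pairs `T p` of permutations, one for every `p`; for every prime `p` the pair has
the law `law2 p (M p)`. -/
structure Shuffles {Ω : Type} [MeasurableSpace Ω] (μ : Measure Ω) (M : ℕ → ℕ)
    (T : ∀ p : ℕ, Ω → PP p) : Prop where
  meas : ∀ p, @Measurable Ω _ _ ⊤ (T p)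
  indep : iIndepFun (m := fun _ => ⊤) T μ
  law : ∀ p : ℕ, p.Prime → ∀ z, μ.real {w | T p w = z} = law2 p (M p) z

/-- the blocks are short -/
lemma near_close (H M e : ℕ) (hM : 0 < M) (he : e ≤ 2 * M) (τ : Equiv.Perm (Fin H))
    (h : Near H M e τ) (x : Fin H) : (τ x : ℕ) < x + 4 * M ∧ (x : ℕ) < τ x + 4 * M := by
  have hx := x.2
  have htx := (τ x).2
  rcases Nat.lt_or_ge H e with h1 | h1
  · omega
  · rw [near_iff H M e hM h1] at h
    have hm := ct_mono H M e hM h1
    obtain ⟨⟨b, i⟩, hbi⟩ := (plq (ct H M e) hm (ct_zero H M e) (nb H M e) H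
      (ct_nb H M e)).surjective x
    have hval := plq_val (ct H M e) hm (ct_zero H M e) (nb H M e) H (ct_nb H M e) b i
    rw [hbi] at hval
    have hi := i.2
    have hln := add_ln (ct H M e) hm b
    have hlen : ln (ct H M e) b ≤ 4 * M := by
      have hb := b.2
      have hb' : (b : ℕ) ≤ (H - e) / (2 * M) := by
        have : (b : ℕ) < (H - e) / (2 * M) + 1 := hb
        omega
      rcases Nat.eq_zero_or_pos (b : ℕ) with h2 | h2
      · rw [h2]
        rcases Nat.lt_or_ge H (e + 2 * M) with h3 | h3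
        · have h4 : ln (ct H M e) 0 ≤ H := by
            unfold ln
            have h5 : ct H M e (0 + 1) ≤ H := by
              rcases Nat.lt_or_ge ((H - e) / (2 * M)) (0 + 1) with h6 | h6
              · rw [ct_big _ _ _ _ h6]
              · have := (div_ge H M e (0 + 1) hM h1).mp h6
                omega
            omega
          omega
        · rw [ln_zero H M e hM h3]; omega
      · exact (ln_bd H M e b hM h1 h2 hb').2
    have hpb := pres_block (ct H M e) H τ h b x (by omega) (by omega)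
    omega

/-- **Theorem.** -/
theorem main (M : ℕ → ℕ)
    (hM1 : Tendsto (fun n : ℕ => (M n : ℝ) / Real.log n ^ 88) atTop atTop)
    (hM2 : Tendsto (fun n : ℕ => (M n : ℝ) / n) atTop (𝓝 0)) :
    (∃ (Ω : Type) (_ : MeasurableSpace Ω) (μ : Measure Ω) (T : ∀ p : ℕ, Ω → PP p),
      IsProbabilityMeasure μ ∧ Shuffles μ M T) ∧
    (∀ (p : ℕ) (z : PP p), 0 < M p → law2 p (M p) z ≠ 0 → ∀ i : Fin (p / 2),
      |((z.1 (z.2 i) : ℕ) : ℤ) - ((i : ℕ) : ℤ)| < 8 * M p) ∧
    ∀ (Ω : Type) [MeasurableSpace Ω] (μ : Measure Ω) [IsProbabilityMeasure μ]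
      (T : ∀ p : ℕ, Ω → PP p), Shuffles μ M T → ∀ᵐ w ∂μ,
        Tendsto (fun x : ℕ => cntP (fun p => Late p ((T p w).1 * (T p w).2)) x /
          cntP MidOk x) atTop (𝓝 (Real.exp (-(3 / 4)))) ∧
        ∀ c : ℝ, c < Real.exp (-(3 / 4)) / 2 → ∀ᶠ x : ℕ in atTop,
          c * ((x : ℝ) / Real.log x) ≤ cntP (fun p => Late p ((T p w).1 * (T p w).2)) x := by
  refine ⟨?_, ?_, ?_⟩
  · obtain ⟨Ω, mΩ, μ, T, h1, h2, h3, h4⟩ := exist2 M
    exact ⟨Ω, mΩ, μ, T, h1, ⟨h2, h3, h4⟩⟩
  · intro p z hM hz i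
    have hz2 : Near (p / 2) (M p) (2 * M p) z.1 ∧ Near (p / 2) (M p) (M p) z.2 := by
      by_contra hcon
      apply hz
      unfold law2
      exact Set.indicator_of_notMem (show z ∉ {z : PP p | Near (p / 2) (M p) (2 * M p) z.1 ∧
        Near (p / 2) (M p) (M p) z.2} from hcon) _
    have h1 := near_close _ _ _ hM le_rfl z.1 hz2.1 (z.2 i)
    have h2 := near_close _ _ _ hM (by omega) z.2 hz2.2 i
    rw [abs_lt]
    constructor <;> omega
  · intro Ω _ μ _ T hT
    exact almost_sure2_ratio M hM1 hM2 T hT.meas hT.indep hT.law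

end MP1fb.L2
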