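import Pool.Agent.Lib.MP_1fb68e_nt.L2.EQ2

/-!
MP_1fb68e_nt, two local shuffles: few characters have a large sum over a short interval, on the
average over the intervals.
-/

set_option autoImplicit false

namespace MP1fb.L2

open Finset Filter Topology

/-- the parameter of alignment -/
noncomputable def del (p : ℕ) : ℝ := 1 / (2 ^ 19 * (sz p : ℝ) ^ 29)

variable {p : ℕ} [hp : Fact p.Prime]

/-- small subgroups -/
lemma win_case3 (g t X : ℕ) (hX : X = sz p) (hgt : g * t = p - 1) (ht : p ^ 2 < t ^ 5)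
    (hX250 : X ^ 250 ≤ p) (hX2 : 2 ≤ X) (hprs : (X ^ 20) ^ 9 ≤ (prs (X ^ 20)).card ^ 10) :
    X ^ 4 * (win p g (X ^ 21)).card ≤ g := by
  have hp1 := hp.out.two_le
  have hg : 0 < g := by
    rcases Nat.eq_zero_or_pos g with h | h
    · rw [h, zero_mul] at hgt; omega
    · exact h
  have ht0 : 0 < t := by
    rcases Nat.eq_zero_or_pos t with h | h
    · rw [h, mul_zero] at hgt; omega
    · exact h
  set R := X ^ 20 with hR
  have hR2 : 2 ≤ R := by
    calc 2 ≤ X := hX2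
      _ = X ^ 1 := (pow_one X).symm
      _ ≤ X ^ 20 := Nat.pow_le_pow_right (by omega) (by norm_num)
  set k := Nat.log R (p - 1) with hk
  have hk1 : R ^ k ≤ p - 1 := Nat.pow_log_le_self R (by omega)
  have hk2 : p - 1 < R ^ (k + 1) := Nat.lt_pow_succ_log_self (by omega) _
  have hk2' : p ≤ R ^ (k + 1) := by omega
  have hk12 : 12 ≤ k := by
    by_contra hcon
    have h1 : k + 1 ≤ 12 := by omega
    have h2 : p ≤ R ^ 12 := hk2'.trans (Nat.pow_le_pow_right (by omega) h1)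
    have h3 : R ^ 12 = X ^ 240 := by rw [hR, ← pow_mul]
    have h4 : X ^ 240 < X ^ 250 := Nat.pow_lt_pow_right (by omega) (by norm_num)
    omega
  have hkX : k ≤ X := by
    by_contra hcon
    have h1 : X + 1 ≤ k := by omega
    have h2 : 2 ^ (X + 1) ≤ R ^ k :=
      (Nat.pow_le_pow_right (by norm_num) h1).trans (Nat.pow_le_pow_left hR2 k)
    have h3 := lt_sz p
    rw [← hX] at h3
    have h4 : 2 ^ X < 2 ^ (X + 1) := Nat.pow_lt_pow_right (by norm_num) (by omega)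
    omega
  -- size of `g`
  have hg5 : g ^ 5 < p ^ 3 := by
    have h1 : g ^ 5 * t ^ 5 < p ^ 5 := by
      rw [← mul_pow, hgt]
      exact Nat.pow_lt_pow_left (by omega) (by norm_num)
    have h2 : g ^ 5 * p ^ 2 < p ^ 5 := lt_of_le_of_lt (Nat.mul_le_mul_left _ ht.le) h1
    have h3 : p ^ 5 = p ^ 3 * p ^ 2 := by ring
    rw [h3] at h2
    exact Nat.lt_of_mul_lt_mul_right h2
  apply win_plu g (X ^ 21) R k (X ^ 4) hg (by omega)
  · rw [hR]; exact Nat.pow_lt_pow_right (by omega) (by norm_num)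
  · calc 2 ≤ X := hX2
      _ = X ^ 1 := (pow_one X).symm
      _ ≤ X ^ 21 := Nat.pow_le_pow_right (by omega) (by norm_num)
  · omega
  · -- `M ^ k * g * k! < π(R) ^ k`
    have h1 : k.factorial ≤ X ^ k := (Nat.factorial_le_pow k).trans (Nat.pow_le_pow_left hkX k)
    have h2 : (X ^ 4) ^ k * g * k.factorial ≤ X ^ (5 * k) * g := by
      calc (X ^ 4) ^ k * g * k.factorial ≤ (X ^ 4) ^ k * g * X ^ k := Nat.mul_le_mul_left _ h1
        _ = X ^ (5 * k) * g := by rw [← pow_mul, show 5 * k = 4 * k + k by ring, pow_add]; ring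
    refine lt_of_le_of_lt h2 ?_
    -- tenth powers
    apply lt_of_pow_lt_pow_left₀ 10 (Nat.zero_le _)
    have h3 : g ^ 10 < R ^ (6 * (k + 1)) := by
      calc g ^ 10 = (g ^ 5) ^ 2 := by rw [← pow_mul]
        _ < (p ^ 3) ^ 2 := Nat.pow_lt_pow_left hg5 (by norm_num)
        _ = p ^ 6 := by rw [← pow_mul]
        _ ≤ (R ^ (k + 1)) ^ 6 := Nat.pow_le_pow_left hk2' 6
        _ = _ := by rw [← pow_mul]; congr 1; ring
    have hXpos : 0 < X ^ (5 * k) := by positivity
    calc (X ^ (5 * k) * g) ^ 10 = X ^ (50 * k) * g ^ 10 := by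
          rw [mul_pow, ← pow_mul]; congr 2; ring
      _ < X ^ (50 * k) * R ^ (6 * (k + 1)) := by
          apply Nat.mul_lt_mul_of_pos_left h3
          positivity
      _ ≤ R ^ (9 * k) := by
          rw [hR, ← pow_mul, ← pow_mul, ← pow_add]
          apply Nat.pow_le_pow_right (by omega)
          omega
      _ = (R ^ 9) ^ k := pow_mul R 9 k
      _ ≤ ((prs R).card ^ 10) ^ k := Nat.pow_le_pow_left hprs k
      _ = ((prs R).card ^ k) ^ 10 := by rw [← pow_mul, ← pow_mul, mul_comm]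

/-- contribution of one subgroup -/
lemma win_term (g t X : ℕ) (hX : X = sz p) (hgt : g * t = p - 1) (ht2 : 2 ≤ t)
    (hX250 : X ^ 250 ≤ p) (hX2 : 2 ≤ X) (hprs : (X ^ 20) ^ 9 ≤ (prs (X ^ 20)).card ^ 10) :
    (t : ℝ) * ((win p g (X ^ 21)).card : ℝ) ≤ 2 * p / (X : ℝ) ^ 4 := by
  have hp1 := hp.out.two_le
  have hg : 0 < g := by
    rcases Nat.eq_zero_or_pos g with h | h
    · rw [h, zero_mul] at hgt; omega
    · exact h
  have hg' : g < p - 1 := by
    rw [← hgt]
    calc g < g * 2 := by omega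
      _ ≤ g * t := Nat.mul_le_mul_left _ ht2
  have hXR : (2 : ℝ) ≤ X := by exact_mod_cast hX2
  have hXpos : (0 : ℝ) < X := by linarith
  have hp64 : 2 ^ 250 ≤ p := (Nat.pow_le_pow_left hX2 250).trans hX250
  have hp7 : 7 ≤ p := by
    have : (7 : ℕ) ≤ 2 ^ 250 := by norm_num
    omega
  have hodd : p % 2 = 1 := by
    rcases hp.out.eq_two_or_odd with h | h
    · omega
    · exact h
  have hpR : (0 : ℝ) < p := by positivity
  have hp1R : ((p - 1 : ℕ) : ℝ) = (p : ℝ) - 1 := by rw [Nat.cast_sub (by omega)]; simp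
  have hgtR : (g : ℝ) * t = (p : ℝ) - 1 := by rw [← hp1R]; exact_mod_cast hgt
  have hgR : (0 : ℝ) < g := by exact_mod_cast hg
  have htR : (0 : ℝ) < t := by
    have : (2 : ℝ) ≤ t := by exact_mod_cast ht2
    linarith
  rcases le_or_gt t (X ^ 4) with hc1 | hc1
  · -- small index
    have h1 := win_small (p := p) g (X ^ 21) hg hg' (by positivity) (by
      have h2 : X ^ 21 * 2 ≤ X ^ 250 := by
        calc X ^ 21 * 2 ≤ X ^ 21 * X := Nat.mul_le_mul_left _ hX2
          _ = X ^ 22 := by ring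
          _ ≤ X ^ 250 := Nat.pow_le_pow_right (by omega) (by norm_num)
      omega)
    have h2 : (t : ℝ) ≤ (X : ℝ) ^ 4 := by exact_mod_cast hc1
    push_cast at h1
    calc (t : ℝ) * ((win p g (X ^ 21)).card : ℝ) ≤ (X : ℝ) ^ 4 * (p / (X : ℝ) ^ 21) := by gcongr
      _ = p / (X : ℝ) ^ 17 := by field_simp
      _ ≤ p / (X : ℝ) ^ 4 := by
          apply div_le_div_of_nonneg_left hpR.le (by positivity)
          exact pow_le_pow_right₀ (by linarith) (by norm_num)
      _ ≤ 2 * p / (X : ℝ) ^ 4 := by gcongr; linarith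
  · rcases le_or_gt (t ^ 5) (p ^ 2) with hc2 | hc2
    · -- middle index
      have h1 := win_jac (p := p) hodd g (X ^ 21) hg (by
        calc 3 ≤ 2 ^ 21 := by norm_num
          _ ≤ X ^ 21 := Nat.pow_le_pow_left hX2 21) hp7
      have h2 : (X : ℝ) ^ 4 ≤ t := by exact_mod_cast hc1.le
      have h3 : (g : ℝ) ^ 2 * p / ((p : ℝ) - 1) ^ 2 = p / (t : ℝ) ^ 2 := by
        rw [← hgtR]; field_simp
      rw [h3] at h1
      have h4 : (t : ℝ) * Real.sqrt p ≤ p / (X : ℝ) ^ 4 := by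
        rw [le_div_iff₀ (by positivity)]
        have h5 : t ^ 2 * X ^ 8 ≤ p := by
          apply le_of_pow_le_pow_left₀ (n := 5) (by norm_num) (Nat.zero_le _)
          calc (t ^ 2 * X ^ 8) ^ 5 = (t ^ 5) ^ 2 * X ^ 40 := by ring
            _ ≤ (p ^ 2) ^ 2 * p := by
                apply Nat.mul_le_mul (Nat.pow_le_pow_left hc2 2)
                exact (Nat.pow_le_pow_right (by omega) (by norm_num)).trans hX250
            _ = p ^ 5 := by ring
        have h6 : (t : ℝ) * (X : ℝ) ^ 4 ≤ Real.sqrt p := by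
          apply Real.le_sqrt_of_sq_le
          calc ((t : ℝ) * (X : ℝ) ^ 4) ^ 2 = (t : ℝ) ^ 2 * (X : ℝ) ^ 8 := by ring
            _ ≤ (p : ℝ) := by exact_mod_cast h5
        calc (t : ℝ) * Real.sqrt p * (X : ℝ) ^ 4 = ((t : ℝ) * (X : ℝ) ^ 4) * Real.sqrt p := by ring
          _ ≤ Real.sqrt p * Real.sqrt p := by gcongr
          _ = (p : ℝ) := Real.mul_self_sqrt hpR.le
      calc (t : ℝ) * ((win p g (X ^ 21)).card : ℝ) ≤ t * (p / (t : ℝ) ^ 2 + Real.sqrt p) := by
            gcongr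
        _ = p / t + t * Real.sqrt p := by field_simp
        _ ≤ p / (X : ℝ) ^ 4 + p / (X : ℝ) ^ 4 := by gcongr
        _ = _ := by ring
    · -- large index
      have h1 := win_case3 g t X hX hgt hc2 hX250 hX2 hprs
      have h2 : (X : ℝ) ^ 4 * ((win p g (X ^ 21)).card : ℝ) ≤ g := by exact_mod_cast h1
      rw [le_div_iff₀ (by positivity)]
      calc (t : ℝ) * ((win p g (X ^ 21)).card : ℝ) * (X : ℝ) ^ 4 =
            t * ((X : ℝ) ^ 4 * ((win p g (X ^ 21)).card : ℝ)) := by ring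
        _ ≤ (t : ℝ) * g := by gcongr
        _ = (p : ℝ) - 1 := by rw [mul_comm]; exact hgtR
        _ ≤ 2 * (p : ℝ) := by linarith

/-- **few characters with a large sum** -/
theorem badsum_aux (X : ℕ) (hX : X = sz p) (hdiv : (Nat.divisors (p - 1)).card ≤ X ^ 3)
    (hX250 : X ^ 250 ≤ p) (hX4 : 4 ≤ X) (hprs : (X ^ 20) ^ 9 ≤ (prs (X ^ 20)).card ^ 10)
    (s : ℕ → ℕ) (hs : Monotone s) (B L : ℕ) (hB : s B ≤ p / 2)
    (hlen : ∀ b, b < B → s b + L ≤ s (b + 1)) (hL : 4 * X ^ 21 ≤ L) :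
    ∑ b ∈ range B, (((big p (s b) (s (b + 1) - s b) (del p)).erase 1).card : ℝ) ≤
      5 * p / (L * X) := by
  have hp1 := hp.out.two_le
  have hXR : (4 : ℝ) ≤ X := by exact_mod_cast hX4
  have hXpos : (0 : ℝ) < X := by linarith
  have hX21 : 0 < X ^ 21 := by positivity
  have hL0 : 0 < L := by omega
  have hLR : (0 : ℝ) < L := by exact_mod_cast hL0
  have hpR : (0 : ℝ) < p := by positivity
  have hL' : 4 * (X : ℝ) ^ 21 ≤ L := by exact_mod_cast hL
  set d : ℝ := 1 / (8 * (X : ℝ) ^ 21) with hd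
  have hd0 : 0 < d := by positivity
  set m := Nat.log 2 X with hm
  set I := 4 * (m + 2) with hI
  have hm1 : 2 ^ m ≤ X := Nat.pow_log_le_self 2 (by omega)
  have hm2 : X < 2 ^ (m + 1) := Nat.lt_pow_succ_log_self (by norm_num) X
  have hm1R : (2 : ℝ) ^ m ≤ X := by exact_mod_cast hm1
  have hm2R : (X : ℝ) ≤ 2 ^ (m + 1) := by exact_mod_cast hm2.le
  -- `del p ≤ d / 4 ^ I`
  have hdel : del p ≤ d / 4 ^ I := by
    unfold del
    rw [← hX, hd, div_div]
    apply one_div_le_one_div_of_le (by positivity)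
    have h1 : (4 : ℝ) ^ I = ((2 : ℝ) ^ m) ^ 8 * 2 ^ 16 := by
      rw [hI, show (4 : ℝ) = 2 ^ 2 by norm_num, ← pow_mul, ← pow_mul, ← pow_add]
      congr 1
      ring
    rw [h1]
    calc 8 * (X : ℝ) ^ 21 * (((2 : ℝ) ^ m) ^ 8 * 2 ^ 16) ≤
          8 * (X : ℝ) ^ 21 * ((X : ℝ) ^ 8 * 2 ^ 16) := by gcongr
      _ = _ := by ring
  have hI1 : (2 / 3 : ℝ) ^ I ≤ 1 / (4 * (X : ℝ) ^ 2) := by
    have h1 : (2 / 3 : ℝ) ^ 4 ≤ 1 / 4 := by norm_num
    calc (2 / 3 : ℝ) ^ I = ((2 / 3 : ℝ) ^ 4) ^ (m + 2) := by rw [hI, pow_mul]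
      _ ≤ (1 / 4) ^ (m + 2) := pow_le_pow_left₀ (by positivity) h1 _
      _ = 1 / (4 * (2 ^ (m + 1)) ^ 2) := by
          rw [← pow_mul, one_div, inv_pow, one_div]
          congr 1
          rw [show (4 : ℝ) = 2 ^ 2 by norm_num, ← pow_mul, ← pow_add]
          congr 1
          ring
      _ ≤ 1 / (4 * (X : ℝ) ^ 2) := by gcongr
  have hsub : ∀ b ∈ range B, (((big p (s b) (s (b + 1) - s b) (del p)).erase 1).card : ℝ) ≤
      (((big p (s b) (s (b + 1) - s b) (d / 4 ^ I)).erase 1).card : ℝ) := by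
    intro b _
    exact_mod_cast Finset.card_le_card (Finset.erase_subset_erase _ (big_mono _ _ _ _ hdel))
  refine (Finset.sum_le_sum hsub).trans ?_
  have hd8 : 8 * d * ((X ^ 21 : ℕ) : ℝ) ≤ 1 := by
    rw [hd]; push_cast
    apply le_of_eq; field_simp
  have hd1 : d ≤ 1 := by
    rw [hd, div_le_one (by positivity)]
    have : (1 : ℝ) ≤ (X : ℝ) ^ 21 := one_le_pow₀ (by linarith)
    linarith
  have hmain := sumD_le (p := p) s hs B L (X ^ 21) hB hL0 hlen hX21 hL d hd0.le hd1 hd8 I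
  refine hmain.trans ?_
  -- first sum
  have hfact : X.factorial * p ≤ (2 * X) ^ X := by
    rw [mul_pow, mul_comm]
    apply Nat.mul_le_mul
    · have := lt_sz p
      rw [← hX] at this
      exact this.le
    · exact Nat.factorial_le_pow X
  have h2XL : 2 * X ≤ L := by
    have : 2 * X ≤ 4 * X ^ 21 := by
      calc 2 * X ≤ 4 * X := by omega
        _ = 4 * X ^ 1 := by ring
        _ ≤ 4 * X ^ 21 := Nat.mul_le_mul_left _ (Nat.pow_le_pow_right (by omega) (by norm_num))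
    omega
  have h2Xp : 2 * X < p := by
    have h1 : 2 * X < X ^ 250 := by
      calc 2 * X < X * X := by nlinarith
        _ = X ^ 2 := by ring
        _ ≤ X ^ 250 := Nat.pow_le_pow_right (by omega) (by norm_num)
    omega
  have hXX : (X : ℝ) ^ 21 ≥ 4 * (X : ℝ) ^ 2 := by
    have h1 : (X : ℝ) ^ 2 * 4 ≤ (X : ℝ) ^ 2 * (X : ℝ) ^ 19 := by
      apply mul_le_mul_of_nonneg_left _ (by positivity)
      calc (4 : ℝ) ≤ X := hXR
        _ = (X : ℝ) ^ 1 := (pow_one _).symm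
        _ ≤ (X : ℝ) ^ 19 := pow_le_pow_right₀ (by linarith) (by norm_num)
    calc (X : ℝ) ^ 21 = (X : ℝ) ^ 2 * (X : ℝ) ^ 19 := by ring
      _ ≥ 4 * (X : ℝ) ^ 2 := by linarith
  have hdk : 2 * (X : ℝ) * (d + ((2 * X : ℕ) : ℝ) / L) ≤ 1 / 2 := by
    have h1 : 2 * (X : ℝ) * d ≤ 1 / 4 := by
      rw [hd, mul_one_div, div_le_iff₀ (by positivity)]
      nlinarith
    have h2 : 2 * (X : ℝ) * (((2 * X : ℕ) : ℝ) / L) ≤ 1 / 4 := by
      push_cast
      rw [mul_div_assoc', div_le_iff₀ hLR]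
      nlinarith
    linarith
  have hpairs := pairs_le (p := p) s hs B L (2 * X) X (by omega) hL0 hlen (by omega) h2XL h2Xp
    (by omega) hfact d hd0.le hdk
  have hfirst : (2 / 3 : ℝ) ^ I * ∑ b ∈ range B, ((big p (s b) (s (b + 1) - s b) d).card : ℝ) ≤
      p / (L * X) := by
    calc _ ≤ 1 / (4 * (X : ℝ) ^ 2) * (2 * (X + 1) * p / L) := by gcongr
      _ = (X + 1) / (2 * X) * (p / (L * X)) := by field_simp; ring
      _ ≤ 1 * (p / (L * X)) := by
          apply mul_le_mul_of_nonneg_right _ (by positivity)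
          rw [div_le_one (by positivity)]
          linarith
      _ = _ := one_mul _
  have hterm : ∀ g ∈ (Nat.divisors (p - 1)).erase (p - 1),
      ((p : ℝ) - 1) / g * ((win p g (X ^ 21)).card : ℝ) ≤ 2 * p / (X : ℝ) ^ 4 := by
    intro g hg
    rw [Finset.mem_erase, Nat.mem_divisors] at hg
    obtain ⟨t, ht⟩ := hg.2.1
    have hg0 : 0 < g := Nat.pos_of_dvd_of_pos hg.2.1 (by omega)
    have ht2 : 2 ≤ t := by
      by_contra hcon
      have h1 : t = 0 ∨ t = 1 := by omega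
      rcases h1 with h1 | h1
      · rw [h1, mul_zero] at ht; omega
      · rw [h1, mul_one] at ht; exact hg.1 ht.symm
    have h1 : ((p : ℝ) - 1) / g = t := by
      have h2 : ((p - 1 : ℕ) : ℝ) = (p : ℝ) - 1 := by rw [Nat.cast_sub (by omega)]; simp
      rw [← h2, ht]
      push_cast
      field_simp
    rw [h1]
    exact win_term g t X hX ht.symm ht2 hX250 (by omega) hprs
  have hsecond : 2 / (L : ℝ) * ∑ g ∈ (Nat.divisors (p - 1)).erase (p - 1),
      ((p : ℝ) - 1) / g * ((win p g (X ^ 21)).card : ℝ) ≤ 4 * p / (L * X) := by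
    have h1 : ∑ g ∈ (Nat.divisors (p - 1)).erase (p - 1),
        ((p : ℝ) - 1) / g * ((win p g (X ^ 21)).card : ℝ) ≤ (X : ℝ) ^ 3 * (2 * p / (X : ℝ) ^ 4) := by
      refine (Finset.sum_le_sum hterm).trans ?_
      rw [Finset.sum_const, nsmul_eq_mul]
      apply mul_le_mul_of_nonneg_right _ (by positivity)
      have h2 : ((Nat.divisors (p - 1)).erase (p - 1)).card ≤ X ^ 3 :=
        (Finset.card_le_card (Finset.erase_subset _ _)).trans hdiv
      exact_mod_cast h2
    calc _ ≤ 2 / (L : ℝ) * ((X : ℝ) ^ 3 * (2 * p / (X : ℝ) ^ 4)) := by gcongr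
      _ = _ := by field_simp; ring
  calc _ ≤ p / (L * X) + 4 * p / ((L : ℝ) * X) := add_le_add hfirst hsecond
    _ = _ := by ring

omit hp in
/-- the conditions hold for large `p` -/
lemma cond_eventually : ∀ᶠ p : ℕ in atTop, sz p ^ 250 ≤ p ∧ 4 ≤ sz p ∧
    (sz p ^ 20) ^ 9 ≤ (prs (sz p ^ 20)).card ^ 10 := by
  have h1 : Tendsto (fun p : ℕ => sz p ^ 20) atTop atTop :=
    (tendsto_pow_atTop (by norm_num)).comp sz_tendsto
  filter_upwards [pow_sz_le 250, sz_tendsto.eventually_ge_atTop 4, h1.eventually prs_ge]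
    with p h2 h3 h4
  exact ⟨h2, h3, h4⟩

end MP1fb.L2
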