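import Pool.Agent.Lib.MP_1fb68e_nt.L2.HIT
import Pool.Agent.Lib.MP_1fb68e_nt.L2.PAR

/-!
MP_1fb68e_nt, two local shuffles: the blocks of the model.
-/

set_option autoImplicit false

namespace MP1fb.L2

open Finset MP1fb.LS

/-- The permutation `τ` of `0, .., H - 1` preserves `{0, .., c - 1}` for every `c = 2Mk + e` with
`c + 2M ≤ H`. -/
def Near (H M e : ℕ) (τ : Equiv.Perm (Fin H)) : Prop :=
  ∀ k, 2 * M * k + e + 2 * M ≤ H → ∀ i : Fin H,
    (τ i : ℕ) < 2 * M * k + e ↔ (i : ℕ) < 2 * M * k + e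

/-- the cuts -/
def ct (H M e b : ℕ) : ℕ :=
  if b = 0 then 0 else if b ≤ (H - e) / (2 * M) then 2 * M * (b - 1) + e else H

lemma ct_zero (H M e : ℕ) : ct H M e 0 = 0 := by unfold ct; rw [if_pos rfl]

lemma ct_big (H M e b : ℕ) (h : (H - e) / (2 * M) < b) : ct H M e b = H := by
  unfold ct; rw [if_neg (Nat.ne_of_gt (Nat.zero_lt_of_lt h)), if_neg (Nat.not_le.mpr h)]

lemma ct_last (H M e : ℕ) : ct H M e ((H - e) / (2 * M) + 1) = H :=
  ct_big H M e _ (Nat.lt_succ_self _)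

lemma ct_succ (H M e b : ℕ) (h : b + 1 ≤ (H - e) / (2 * M)) :
    ct H M e (b + 1) = 2 * M * b + e := by
  unfold ct; rw [if_neg (by omega), if_pos h]
  rfl

lemma div_ge (H M e b : ℕ) (hM : 0 < M) (he : e ≤ H) :
    b ≤ (H - e) / (2 * M) ↔ 2 * M * b + e ≤ H := by
  rw [Nat.le_div_iff_mul_le (by omega)]
  have : b * (2 * M) = 2 * M * b := by ring
  rw [this]
  omega

lemma ct_mono (H M e : ℕ) (hM : 0 < M) (he : e ≤ H) : Monotone (ct H M e) := by
  apply monotone_nat_of_le_succ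
  intro b
  rcases Nat.eq_zero_or_pos b with h | h
  · rw [h, ct_zero]; exact Nat.zero_le _
  · obtain ⟨c, rfl⟩ : ∃ c, b = c + 1 := ⟨b - 1, by omega⟩
    rcases Nat.lt_or_ge ((H - e) / (2 * M)) (c + 1 + 1) with h1 | h1
    · rw [ct_big H M e _ h1]
      rcases Nat.lt_or_ge ((H - e) / (2 * M)) (c + 1) with h2 | h2
      · rw [ct_big H M e _ h2]
      · rw [ct_succ H M e c h2]
        have h3 := (div_ge H M e (c + 1) hM he).mp h2
        have h4 : 2 * M * (c + 1) = 2 * M * c + 2 * M := by ring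
        omega
    · rw [ct_succ H M e (c + 1) h1, ct_succ H M e c (by omega)]
      have h4 : 2 * M * (c + 1) = 2 * M * c + 2 * M := by ring
      omega

lemma near_iff (H M e : ℕ) (hM : 0 < M) (he : e ≤ H) (τ : Equiv.Perm (Fin H)) :
    Near H M e τ ↔ Pres H (ct H M e) τ := by
  constructor
  · intro h b i
    rcases Nat.eq_zero_or_pos b with h0 | h0
    · rw [h0, ct_zero]; simp
    · obtain ⟨c, rfl⟩ : ∃ c, b = c + 1 := ⟨b - 1, by omega⟩
      rcases Nat.lt_or_ge ((H - e) / (2 * M)) (c + 1) with h2 | h2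
      · rw [ct_big H M e _ h2]
        have h3 := i.2
        have h4 := (τ i).2
        constructor <;> intro _ <;> assumption
      · rw [ct_succ H M e c h2]
        have h3 := (div_ge H M e (c + 1) hM he).mp h2
        have h4 : 2 * M * (c + 1) = 2 * M * c + 2 * M := by ring
        exact h c (by omega) i
  · intro h k hk i
    have h4 : 2 * M * (k + 1) = 2 * M * k + 2 * M := by ring
    have h2 := (div_ge H M e (k + 1) hM he).mpr (by omega)
    have h3 := h (k + 1) i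
    rwa [ct_succ H M e k h2] at h3

/-- lengths -/
lemma ln_bd (H M e b : ℕ) (hM : 0 < M) (he : e ≤ H) (hb1 : 1 ≤ b)
    (hb : b ≤ (H - e) / (2 * M)) : 2 * M ≤ ln (ct H M e) b ∧ ln (ct H M e) b ≤ 4 * M := by
  obtain ⟨c, rfl⟩ : ∃ c, b = c + 1 := ⟨b - 1, by omega⟩
  unfold ln
  rw [ct_succ H M e c hb]
  have h4 : 2 * M * (c + 1) = 2 * M * c + 2 * M := by ring
  have h5 : 2 * M * (c + 1 + 1) = 2 * M * c + 4 * M := by ring
  have h3 := (div_ge H M e (c + 1) hM he).mp hb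
  rcases Nat.lt_or_ge ((H - e) / (2 * M)) (c + 1 + 1) with h1 | h1
  · rw [ct_big H M e _ h1]
    have h6 : ¬ (2 * M * (c + 1 + 1) + e ≤ H) := by
      intro h7
      have := (div_ge H M e (c + 1 + 1) hM he).mpr h7
      omega
    omega
  · rw [ct_succ H M e (c + 1) h1]
    omega

lemma ln_zero (H M e : ℕ) (hM : 0 < M) (he : e + 2 * M ≤ H) : ln (ct H M e) 0 = e := by
  unfold ln
  rw [ct_zero, ct_succ H M e 0 ((div_ge H M e 1 hM (by omega)).mpr (by omega))]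
  omega

/-- number of the blocks -/
def nb (H M e : ℕ) : ℕ := (H - e) / (2 * M) + 1

lemma ct_nb (H M e : ℕ) : ct H M e (nb H M e) = H := ct_last H M e

/-- the first level -/
lemma ct1_eq (H M b : ℕ) (hb : b ≤ (H - 2 * M) / (2 * M)) :
    ct H M (2 * M) b = 2 * M * b := by
  rcases Nat.eq_zero_or_pos b with h | h
  · rw [h, ct_zero]; ring
  · obtain ⟨c, rfl⟩ : ∃ c, b = c + 1 := ⟨b - 1, by omega⟩
    rw [ct_succ _ _ _ _ hb]; ring

lemma ln1 (H M b : ℕ) (hM : 0 < M) (hH : 4 * M ≤ H) (hb : b ≤ (H - 2 * M) / (2 * M)) :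
    2 * M ≤ ln (ct H M (2 * M)) b ∧ ln (ct H M (2 * M)) b ≤ 4 * M := by
  rcases Nat.eq_zero_or_pos b with h | h
  · rw [h, ln_zero H M (2 * M) hM (by omega)]; omega
  · exact ln_bd H M (2 * M) b hM (by omega) h hb

lemma ln2 (H M b : ℕ) (hM : 0 < M) (hH : 4 * M ≤ H) (hb : b ≤ (H - M) / (2 * M)) :
    M ≤ ln (ct H M M) b ∧ ln (ct H M M) b ≤ 4 * M := by
  rcases Nat.eq_zero_or_pos b with h | h
  · rw [h, ln_zero H M M hM (by omega)]; omega
  · have := ln_bd H M M b hM (by omega) h hb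
    omega

/-- block `b ≥ 1` of level 2 and block `b - 1` of level 1 -/
lemma rel (H M c : ℕ) (hM : 0 < M) (hH : 4 * M ≤ H) (hc : c + 1 ≤ (H - M) / (2 * M)) :
    c ≤ (H - 2 * M) / (2 * M) ∧ ct H M (2 * M) c = 2 * M * c ∧
      2 * M * c + 2 * M ≤ ct H M (2 * M) (c + 1) ∧ ct H M M (c + 1) = 2 * M * c + M ∧
      2 * M * c + 3 * M ≤ ct H M M (c + 2) ∧ 2 * M * c + 3 * M ≤ H := by
  have h1 := (div_ge H M M (c + 1) hM (by omega)).mp hc
  have h4 : 2 * M * (c + 1) = 2 * M * c + 2 * M := by ring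
  have h5 : c ≤ (H - 2 * M) / (2 * M) := (div_ge H M (2 * M) c hM (by omega)).mpr (by omega)
  refine ⟨h5, ct1_eq H M c h5, ?_, ct_succ H M M c hc, ?_, by omega⟩
  · rcases Nat.lt_or_ge ((H - 2 * M) / (2 * M)) (c + 1) with h6 | h6
    · rw [ct_big _ _ _ _ h6]; omega
    · rw [ct_succ _ _ _ _ h6]
  · rcases Nat.lt_or_ge ((H - M) / (2 * M)) (c + 2) with h6 | h6
    · rw [ct_big _ _ _ _ h6]; omega
    · rw [ct_succ _ _ _ _ h6]; omega

/-- the first blocks -/
lemma rel0 (H M : ℕ) (hM : 0 < M) (hH : 4 * M ≤ H) :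
    ct H M (2 * M) 1 = 2 * M ∧ ct H M M 1 = M := by
  constructor
  · rw [ct_succ _ _ _ 0 ((div_ge H M (2 * M) 1 hM (by omega)).mpr (by omega))]; omega
  · rw [ct_succ _ _ _ 0 ((div_ge H M M 1 hM (by omega)).mpr (by omega))]; omega

end MP1fb.L2
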